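import Pool.Agent.Zk27.UE.Neg

/-!
# Solutions whose low modes follow given curves
-/

open MeasureTheory Set
open scoped ENNReal NNReal Topology Pointwise ContDiff

set_option autoImplicit false

namespace Pool.Agent.Zk27.UE

open Pool.Agent.H708R2.EulerSign Pool.Agent.H708R2.EulerModes

lemma exists_atom {ξ k : Fin 3 → ℤ} (hξ : ξ ≠ 0) (hk : dt (rv k) (rv ξ) = 0)
    (φ a b ν : ℝ) (h0 : k = 0 → φ = 0 ∧ b = 0 ∧ ν = 0) {c : V} (hc : dt (rv ξ) c = 0) {δ : ℝ}
    (hδ0 : 0 < δ) (hδ : δ ≤ 1) :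
    ∃ C : ℝ, 0 ≤ C ∧ ∃ N₀ : ℕ, ∀ N, N₀ ≤ N →
      ∃ (F : ℝ → V → V) (P : V → ℝ), Atom ξ k φ a b ν c δ N C F P := by
  by_cases hk0 : k = 0
  · obtain ⟨h1, h2, h3⟩ := h0 hk0
    subst hk0 h1 h2 h3
    exact exists_static hξ a hc hδ0 hδ
  · exact exists_rot hξ hk0 hk φ a b ν hc hδ0 hδ

/-- the curves of the Fourier coefficients -/
structure Curves (τ : ℝ) (K : ℕ) (A B : (Fin 3 → ℤ) → ℝ → V) : Prop where
  contA : ∀ k ∈ Bx K, Continuous (A k)
  contB : ∀ k ∈ Bx K, Continuous (B k)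
  perA : ∀ k ∈ Bx K, ∀ t, A k (t + τ) = A k t
  perB : ∀ k ∈ Bx K, ∀ t, B k (t + τ) = B k t
  orthA : ∀ k ∈ Bx K, ∀ t, ph k (A k t) = 0
  orthB : ∀ k ∈ Bx K, ∀ t, ph k (B k t) = 0
  symA : ∀ k ∈ Bx K, ∀ t, A (-k) t = A k t
  symB : ∀ k ∈ Bx K, ∀ t, B (-k) t = -B k t
  const : ∀ t, A 0 t = A 0 0

section

variable {τ : ℝ} {K : ℕ} {A B : (Fin 3 → ℤ) → ℝ → V}

/-- the phases -/
noncomputable def phq (k : Fin 3 → ℤ) (β : Bool) : ℝ :=
  if k = 0 then 0 else if β then Real.pi / 2 else 0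

lemma Curves.B0 (h : Curves τ K A B) (t : ℝ) : B 0 t = 0 := by
  have h0 : (0 : Fin 3 → ℤ) ∈ Bx K := by rw [mem_Bx]; intro i; simp
  have h1 := h.symB 0 h0 t
  rw [neg_zero] at h1
  have h2 : B 0 t + B 0 t = 0 := by nth_rewrite 1 [h1]; exact neg_add_cancel _
  have h3 : (2 : ℝ) • B 0 t = 0 := by rw [two_smul]; exact h2
  exact (smul_eq_zero.1 h3).resolve_left two_ne_zero

/-- the Fourier series reproduces the coefficients -/
lemma Curves.series (h : Curves τ K A B) {l : Fin 3 → ℤ} (hl : l ∈ Bx K) (t ψ : ℝ) (i : Fin 3) :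
    ∑ k ∈ Bx K, ∑ β : Bool, (if β then B k t i else A k t i) / vl *
      (∫ x in Dom, Real.cos (ph k x - phq k β) * Real.cos (ph l x - ψ))
      = A l t i * Real.cos ψ + B l t i * Real.sin ψ := by
  classical
  have hv := vl_pos.ne'
  have e : ∀ k ∈ Bx K, ∑ β : Bool, (if β then B k t i else A k t i) / vl *
      (∫ x in Dom, Real.cos (ph k x - phq k β) * Real.cos (ph l x - ψ))
      = (if k = l then (A l t i * Real.cos ψ + B l t i * Real.sin ψ) / 2 else 0)
        + (if k = -l then (A l t i * Real.cos ψ + B l t i * Real.sin ψ) / 2 else 0) := by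
    intro k hk
    rw [Fintype.sum_bool]
    simp only [prod_int]
    have c1 : (k - l = 0) ↔ (k = l) := sub_eq_zero
    have c2 : (k + l = 0) ↔ (k = -l) := eq_neg_iff_add_eq_zero.symm
    simp only [c1, c2]
    by_cases hk0 : k = 0
    · subst hk0
      have b0 : B 0 t i = 0 := by rw [h.B0 t]; rfl
      by_cases hl0 : l = 0
      · subst hl0
        simp [phq, b0]
        field_simp
      · have hl1 : ¬ (0 = l) := fun hh => hl0 hh.symm
        have hl2 : ¬ (0 = -l) := fun hh => hl0 (neg_eq_zero.1 hh.symm)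
        simp [hl1, hl2, b0]
    · have p1 : phq k true = Real.pi / 2 := by simp [phq, hk0]
      have p2 : phq k false = 0 := by simp [phq, hk0]
      rw [p1, p2]
      have t1 : Real.cos (Real.pi / 2 - ψ) = Real.sin ψ := Real.cos_pi_div_two_sub ψ
      have t2 : Real.cos (Real.pi / 2 + ψ) = -Real.sin ψ := by
        rw [add_comm, Real.cos_add_pi_div_two]
      have t3 : Real.cos (0 - ψ) = Real.cos ψ := by rw [zero_sub, Real.cos_neg]
      have t4 : Real.cos (0 + ψ) = Real.cos ψ := by rw [zero_add]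
      rw [t1, t2, t3, t4]
      by_cases h1 : k = l
      · subst h1
        have h2 : ¬ (k = -k) := by
          intro hh
          apply hk0
          ext j
          have := congrFun hh j
          simp only [Pi.neg_apply, Pi.zero_apply] at this ⊢
          omega
        simp [h2]
        field_simp
        ring
      · by_cases h2 : k = -l
        · have h3 : A k t = A l t := by rw [h2]; exact h.symA l hl t
          have h4 : B k t = -B l t := by rw [h2]; exact h.symB l hl t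
          rw [h3, h4]
          simp [h2]
          have h5 : ¬ (-l = l) := by rw [← h2]; exact h1
          simp [h5]
          field_simp
          ring
        · simp [h1, h2]
  rw [Finset.sum_congr rfl e, Finset.sum_add_distrib, Finset.sum_ite_eq' (Bx K) l,
    Finset.sum_ite_eq' (Bx K) (-l), if_pos hl, if_pos]
  · ring
  · rw [mem_Bx] at hl ⊢
    intro j
    rw [Pi.neg_apply, abs_neg]
    exact hl j

/-- solutions whose low modes follow given curves -/
theorem core (hτ : 0 < τ) (h : Curves τ K A B) {D : ℝ} (hD : 0 < D) :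
    ∃ C : ℝ, 0 ≤ C ∧ ∃ N₀ : ℕ, ∀ N, N₀ ≤ N → ∃ (u : ℝ → V → V) (p : V → ℝ), Sol u p ∧
      (∀ t, u (t + τ) = u t) ∧ (∀ t x i, |u t x i| ≤ C * N) ∧
      (∀ l ∈ Bx K, ∀ t i ψ, |(∫ x in Dom, u t x i * Real.cos (ph l x - ψ))
        - (A l t i * Real.cos ψ + B l t i * Real.sin ψ)| ≤ D) ∧
      (∀ l ∈ Bx K, ∀ i ψ, ∫ x in Dom, u 0 x i * Real.cos (ph l x - ψ)
        = A l 0 i * Real.cos ψ + B l 0 i * Real.sin ψ) ∧
      (∀ l : Fin 3 → ℤ, l ∉ Bx K → (∀ i, |l i| + K < N) → ∀ t i ψ,
        ∫ x in Dom, u t x i * Real.cos (ph l x - ψ) = 0) := by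
  classical
  have hv := vl_pos
  choose ξ c hξ0 hξk hspan using dirs
  let J : Type := {k // k ∈ Bx K} × Fin 3 × Bool
  let f : J → ℝ → ℝ := fun q t => c q.1 q.2.1 (if q.2.2 then B q.1 t else A q.1 t) / vl
  let X : J → Fin 3 → ℝ := fun q i => (ξ q.1 q.2.1 i : ℝ)
  let νf : J → ℤ → ℝ := fun q n => if (q.1 : Fin 3 → ℤ) = 0 then 0 else 2 * Real.pi * n / τ
  let IJ : J → (Fin 3 → ℤ) → ℝ → ℝ := fun q l ψ =>
    ∫ x in Dom, Real.cos (ph q.1 x - phq q.1 q.2.2) * Real.cos (ph l x - ψ)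
  have hfc : ∀ q, Continuous (f q) := by
    intro q
    have h1 : Continuous (fun t => if q.2.2 then B q.1 t else A q.1 t) := by
      by_cases hq : q.2.2 = true
      · simp only [hq, if_true]; exact h.contB _ q.1.2
      · simp only [hq]; exact h.contA _ q.1.2
    exact ((LinearMap.continuous_of_finiteDimensional (c q.1 q.2.1)).comp h1).div_const _
  have hfp : ∀ q t, f q (t + τ) = f q t := by
    intro q t
    simp only [f]
    rw [h.perA _ q.1.2, h.perB _ q.1.2]
  set C₁ : ℝ := ∑ q : J, (∑ i, |X q i|) * vl with hC₁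
  have hC₁0 : 0 ≤ C₁ := Finset.sum_nonneg fun q _ => by positivity
  have hη : 0 < D / (C₁ + 1) := by positivity
  have happ : ∀ q : J, ∃ (S : Finset ℤ) (a b : ℤ → ℝ),
      (∀ t, |f q t - ∑ n ∈ S, (a n * Real.cos (νf q n * t) + b n * Real.sin (νf q n * t))|
        ≤ D / (C₁ + 1)) ∧ f q 0 = ∑ n ∈ S, a n ∧ ((q.1 : Fin 3 → ℤ) = 0 → ∀ n, b n = 0) := by
    intro q
    by_cases hq : (q.1 : Fin 3 → ℤ) = 0
    · refine ⟨{0}, fun _ => f q 0, fun _ => 0, ?_, ?_, fun _ _ => rfl⟩
      · intro t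
        have h1 : f q t = f q 0 := by
          simp only [f]
          rw [hq, h.B0 t, h.B0 0, h.const t]
        rw [Finset.sum_singleton, h1]
        simp [νf, hq, hη.le]
      · simp
    · obtain ⟨S, a, b, h1, h2⟩ := trig_approx hτ (hfc q) (hfp q) hη
      refine ⟨S, a, b, ?_, h2, fun h => absurd h hq⟩
      intro t
      have := h1 t
      simp only [νf, hq, if_false]
      exact this
  choose S a b hab1 hab2 hab3 using happ
  let ι : Type := Σ q : J, {n // n ∈ S q}
  obtain ⟨cc, δ, hδ0, hδ1, hcc, hdis⟩ := disjoint_tubes (ι := ι) (fun e => ξ e.1.1 e.1.2.1)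
    (fun e => hξ0 _ _)
  have hat : ∀ e : ι, ∃ C : ℝ, 0 ≤ C ∧ ∃ N₀ : ℕ, ∀ N, N₀ ≤ N →
      ∃ (F : ℝ → V → V) (P : V → ℝ), Atom (ξ e.1.1 e.1.2.1) e.1.1 (phq e.1.1 e.1.2.2)
        (a e.1 e.2) (b e.1 e.2) (νf e.1 e.2) (cc e) δ N C F P := by
    intro e
    refine exists_atom (hξ0 _ _) (hξk _ _) _ _ _ _ (fun h0 => ⟨?_, ?_, ?_⟩) (hcc e) hδ0 hδ1
    · simp [phq, h0]
    · exact hab3 e.1 h0 _
    · simp [νf, h0]
  choose Cf hCf Nf hNf using hat
  refine ⟨∑ e, Cf e, Finset.sum_nonneg fun e _ => hCf e, 2 * K + 1 + ∑ e, Nf e, fun N hN => ?_⟩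
  have hNe : ∀ e, Nf e ≤ N := by
    intro e
    have := Finset.single_le_sum (f := Nf) (fun _ _ => Nat.zero_le _) (Finset.mem_univ e)
    omega
  choose F P hF using fun e => hNf e N (hNe e)
  have hsol : Sol (fun t x => ∑ e, F e t x) (fun x => ∑ e, P e x) := by
    refine Sol.sum (fun e => (hF e).sol) ?_
    intro e e' hee t x
    rcases hdis e e' hee N x with h1 | h1
    · left; exact (hF e).supp t x h1
    · right; exact (hF e').supp t x h1
  have hmodes : ∀ l : Fin 3 → ℤ, (∀ i, |l i| + K < N) → ∀ t i ψ,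
      ∫ x in Dom, (∑ e, F e t x) i * Real.cos (ph l x - ψ)
        = ∑ q : J, (∑ n ∈ S q, (a q n * Real.cos (νf q n * t) + b q n * Real.sin (νf q n * t)))
          * X q i * IJ q l ψ := by
    intro l hl t i ψ
    have e1 : ∀ x, (∑ e, F e t x) i * Real.cos (ph l x - ψ)
        = ∑ e, F e t x i * Real.cos (ph l x - ψ) := by
      intro x; rw [Finset.sum_apply, Finset.sum_mul]
    simp only [e1]
    rw [integral_finsetSum]
    · have e2 : ∀ e : ι, ∫ x in Dom, F e t x i * Real.cos (ph l x - ψ)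
          = (a e.1 e.2 * Real.cos (νf e.1 e.2 * t) + b e.1 e.2 * Real.sin (νf e.1 e.2 * t))
            * X e.1 i * IJ e.1 l ψ := by
        intro e
        refine (hF e).modes t l (fun i => ?_) i ψ
        have h1 := hl i
        have h2 := mem_Bx.1 e.1.1.2 i
        omega
      rw [Finset.sum_congr rfl fun e _ => e2 e, Fintype.sum_sigma]
      refine Finset.sum_congr rfl fun q _ => ?_
      rw [Finset.sum_mul, Finset.sum_mul]
      exact Finset.sum_coe_sort (S q) (fun n => (a q n * Real.cos (νf q n * t)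
        + b q n * Real.sin (νf q n * t)) * X q i * IJ q l ψ)
    · intro e _
      refine (Periodic3.mul' (f := fun x => F e t x i) (comp_periodic ((hF e).sol.per t) i)
        (cosp_periodic l ψ)).integrableOn ?_
      exact ((continuous_apply i).comp ((hF e).sol.diff t).continuous).mul (cosp_cont l ψ)
  have htarget : ∀ l ∈ Bx K, ∀ t i ψ, ∑ q : J, f q t * X q i * IJ q l ψ
      = A l t i * Real.cos ψ + B l t i * Real.sin ψ := by
    intro l hl t i ψ
    rw [← h.series hl t ψ i, Fintype.sum_prod_type]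
    rw [← Finset.sum_coe_sort (Bx K)]
    refine Finset.sum_congr rfl fun k _ => ?_
    rw [Fintype.sum_prod_type, Finset.sum_comm]
    refine Finset.sum_congr rfl fun β _ => ?_
    have h1 : (if β then B k t i else A k t i)
        = ∑ j, c k j (if β then B k t else A k t) * (ξ k j i : ℝ) := by
      have h2 : ph k (if β then B k t else A k t) = 0 := by
        split_ifs
        · exact h.orthB _ k.2 t
        · exact h.orthA _ k.2 t
      have h3 := hspan k _ h2 i
      rw [← h3]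
      split_ifs <;> rfl
    rw [h1, Finset.sum_div, Finset.sum_mul]
    refine Finset.sum_congr rfl fun j _ => ?_
    simp only [f, X, IJ]
    ring
  have hKN : ∀ l ∈ Bx K, ∀ i, |l i| + K < N := by
    intro l hl i
    have := mem_Bx.1 hl i
    omega
  refine ⟨_, _, hsol, ?_, ?_, ?_, ?_, ?_⟩
  · intro t
    ext1 x
    refine Finset.sum_congr rfl fun e _ => ?_
    rw [(hF e).tper τ ?_ t]
    simp only [νf]
    split_ifs
    · exact ⟨0, by simp⟩
    · exact ⟨e.2, by field_simp⟩
  · intro t x i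
    rw [Finset.sum_apply, Finset.sum_mul]
    refine (Finset.abs_sum_le_sum_abs _ _).trans ?_
    exact Finset.sum_le_sum fun e _ => (hF e).bound t x i
  · intro l hl t i ψ
    rw [hmodes l (hKN l hl), ← htarget l hl, ← Finset.sum_sub_distrib]
    refine (Finset.abs_sum_le_sum_abs _ _).trans ?_
    have h1 : ∀ q : J, |(∑ n ∈ S q, (a q n * Real.cos (νf q n * t)
        + b q n * Real.sin (νf q n * t))) * X q i * IJ q l ψ - f q t * X q i * IJ q l ψ|
        ≤ D / (C₁ + 1) * ((∑ i, |X q i|) * vl) := by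
      intro q
      have e : (∑ n ∈ S q, (a q n * Real.cos (νf q n * t)
        + b q n * Real.sin (νf q n * t))) * X q i * IJ q l ψ - f q t * X q i * IJ q l ψ
        = -((f q t - ∑ n ∈ S q, (a q n * Real.cos (νf q n * t)
        + b q n * Real.sin (νf q n * t))) * (X q i * IJ q l ψ)) := by ring
      rw [e, abs_neg, abs_mul, abs_mul]
      have h2 : |X q i| ≤ ∑ i, |X q i| :=
        Finset.single_le_sum (f := fun i => |X q i|) (fun _ _ => abs_nonneg _) (Finset.mem_univ i)
      have h3 : |IJ q l ψ| ≤ vl := prod_int_abs _ _ _ _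
      have h4 := hab1 q t
      have h5 : 0 ≤ ∑ i, |X q i| := Finset.sum_nonneg fun _ _ => abs_nonneg _
      gcongr
    refine (Finset.sum_le_sum fun q _ => h1 q).trans ?_
    rw [← Finset.mul_sum, ← hC₁, div_mul_eq_mul_div, div_le_iff₀ (by positivity)]
    nlinarith
  · intro l hl i ψ
    rw [hmodes l (hKN l hl), ← htarget l hl]
    refine Finset.sum_congr rfl fun q _ => ?_
    rw [hab2 q]
    simp
  · intro l hl hlN t i ψ
    rw [hmodes l hlN]
    refine Finset.sum_eq_zero fun q _ => ?_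
    have : IJ q l ψ = 0 := prod_int_zero q.1.2 hl _ _
    rw [this, mul_zero]

end

end Pool.Agent.Zk27.UE
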