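import Pool.Agent.Zk27.UE.VAtom
import Pool.Agent.Zk27.UE.Univ

/-!
# Solutions whose low modes follow asymptotically almost periodic curves for all times
-/

open MeasureTheory Set
open scoped ENNReal NNReal Topology Pointwise ContDiff

set_option autoImplicit false

namespace Pool.Agent.Zk27.UE

open Pool.Agent.H708R2.EulerSign Pool.Agent.H708R2.EulerModes

/-- continuous and asymptotically almost periodic functions on the half-line -/
def AAPc (f : ℝ → ℝ) : Prop := ContinuousOn f (Ici 0) ∧ ∀ η : ℝ, 0 < η →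
  ∃ (ι : Type) (_ : Fintype ι) (a b ν : ι → ℝ) (T₀ : ℝ), ∀ t, T₀ ≤ t →
    |f t - ∑ j, (a j * Real.cos (ν j * t) + b j * Real.sin (ν j * t))| ≤ η

lemma AAPc.add {f g : ℝ → ℝ} (hf : AAPc f) (hg : AAPc g) : AAPc (fun t => f t + g t) := by
  refine ⟨hf.1.add hg.1, fun η hη => ?_⟩
  obtain ⟨ι₁, i₁, a₁, b₁, ν₁, T₁, h₁⟩ := hf.2 (η / 2) (by positivity)
  obtain ⟨ι₂, i₂, a₂, b₂, ν₂, T₂, h₂⟩ := hg.2 (η / 2) (by positivity)
  refine ⟨ι₁ ⊕ ι₂, inferInstance, Sum.elim a₁ a₂, Sum.elim b₁ b₂, Sum.elim ν₁ ν₂, max T₁ T₂,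
    fun t ht => ?_⟩
  have e1 := h₁ t ((le_max_left _ _).trans ht)
  have e2 := h₂ t ((le_max_right _ _).trans ht)
  rw [Fintype.sum_sum_type]
  simp only [Sum.elim_inl, Sum.elim_inr]
  have e3 : ∀ x y z w : ℝ, x + y - (z + w) = (x - z) + (y - w) := by intros; ring
  rw [e3]
  refine (abs_add_le _ _).trans ?_
  linarith

lemma AAPc.mul {f : ℝ → ℝ} (hf : AAPc f) (c : ℝ) : AAPc (fun t => f t * c) := by
  refine ⟨hf.1.mul continuousOn_const, fun η hη => ?_⟩
  obtain ⟨ι, i, a, b, ν, T, h⟩ := hf.2 (η / (|c| + 1)) (by positivity)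
  refine ⟨ι, i, fun j => a j * c, fun j => b j * c, ν, T, fun t ht => ?_⟩
  have e1 := h t ht
  have e2 : f t * c - ∑ j, (a j * c * Real.cos (ν j * t) + b j * c * Real.sin (ν j * t))
      = (f t - ∑ j, (a j * Real.cos (ν j * t) + b j * Real.sin (ν j * t))) * c := by
    rw [sub_mul, Finset.sum_mul]
    congr 1
    refine Finset.sum_congr rfl fun j _ => ?_
    ring
  rw [e2, abs_mul]
  have h0 := abs_nonneg c
  calc |f t - ∑ j, (a j * Real.cos (ν j * t) + b j * Real.sin (ν j * t))| * |c|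
      ≤ η / (|c| + 1) * (|c| + 1) := by gcongr; linarith
    _ = η := by field_simp

lemma AAPc.lin {F : ℝ → V} (hF : ∀ i, AAPc (fun t => F t i)) (L : V →ₗ[ℝ] ℝ) :
    AAPc (fun t => L (F t)) := by
  have e : (fun t => L (F t)) = fun t => F t 0 * L (Pi.single 0 1) + F t 1 * L (Pi.single 1 1)
      + F t 2 * L (Pi.single 2 1) := by
    ext t
    have h1 : F t = F t 0 • Pi.single 0 1 + F t 1 • Pi.single 1 1 + F t 2 • Pi.single 2 1 := by
      ext i
      fin_cases i <;> simp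
    nth_rewrite 1 [h1]
    simp only [map_add, map_smul, smul_eq_mul]
  rw [e]
  exact (((hF 0).mul _).add ((hF 1).mul _)).add ((hF 2).mul _)

/-- splitting off a trigonometric polynomial -/
lemma AAPc.split {f : ℝ → ℝ} (hf : AAPc f) {η : ℝ} (hη : 0 < η) :
    ∃ (ι : Type) (_ : Fintype ι) (a b ν : ι → ℝ) (g : ℝ → ℝ) (S : ℝ), Continuous g ∧
      (∀ t, g (-t) = g t) ∧ 0 < S ∧ (∀ t, S ≤ |t| → g t = 0) ∧
      ∀ t, 0 ≤ t → |f t - ((∑ j, (a j * Real.cos (ν j * t) + b j * Real.sin (ν j * t))) + g t)|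
        ≤ η := by
  obtain ⟨ι, i, a, b, ν, T₀, h⟩ := hf.2 η hη
  set P : ℝ → ℝ := fun t => ∑ j, (a j * Real.cos (ν j * t) + b j * Real.sin (ν j * t)) with hP
  set T : ℝ := max T₀ 0 with hT
  have hT0 : 0 ≤ T := le_max_right _ _
  have hPc : Continuous P := by
    refine continuous_finsetSum _ fun j _ => ?_
    fun_prop
  have hfc : Continuous (fun t => f |t|) :=
    hf.1.comp_continuous continuous_abs (fun t => abs_nonneg t)
  refine ⟨ι, i, a, b, ν, fun t => max 0 (min 1 (T + 1 - |t|)) * (f |t| - P |t|), T + 1, ?_, ?_,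
    by positivity, ?_, ?_⟩
  · refine Continuous.mul (by fun_prop) (hfc.sub (hPc.comp continuous_abs))
  · intro t
    simp only [abs_neg]
  · intro t ht
    have h1 : min 1 (T + 1 - |t|) ≤ 0 := (min_le_right _ _).trans (by linarith)
    simp only
    rw [max_eq_left h1, zero_mul]
  · intro t ht
    simp only
    rw [abs_of_nonneg ht]
    have e : f t - (P t + max 0 (min 1 (T + 1 - t)) * (f t - P t))
        = (1 - max 0 (min 1 (T + 1 - t))) * (f t - P t) := by ring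
    rw [e]
    rcases le_total t T with h1 | h1
    · have h2 : max 0 (min 1 (T + 1 - t)) = 1 := by
        rw [min_eq_left (by linarith), max_eq_right (by norm_num)]
      rw [h2, sub_self, zero_mul, abs_zero]
      exact hη.le
    · rw [abs_mul]
      have h2 := h t ((le_max_left _ _).trans h1)
      have h3 : 0 ≤ max 0 (min 1 (T + 1 - t)) := le_max_left _ _
      have h4 : max 0 (min 1 (T + 1 - t)) ≤ 1 := max_le (by norm_num) (min_le_left _ _)
      have h5 : |1 - max 0 (min 1 (T + 1 - t))| ≤ 1 := by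
        rw [abs_of_nonneg (by linarith)]; linarith
      calc |1 - max 0 (min 1 (T + 1 - t))| * |f t - P t| ≤ 1 * η := by gcongr
        _ = η := one_mul η

lemma Atom.var {ξ k : Fin 3 → ℤ} {φ a b ν : ℝ} {c : V} {δ : ℝ} {N : ℕ} {C : ℝ} {F : ℝ → V → V}
    {P : V → ℝ} (h : Atom ξ k φ a b ν c δ N C F P) {η : ℝ} (hη : 0 ≤ η) :
    VAtom ξ k φ (fun t => a * Real.cos (ν * t) + b * Real.sin (ν * t)) c δ N C η F P :=
  ⟨h.sol, h.supp, h.bound, fun t => a * Real.cos (ν * t) + b * Real.sin (ν * t),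
    fun t => by rw [sub_self, abs_zero]; exact hη, h.modes⟩

/-- the solutions for one function -/
lemma exists_family {ξ k : Fin 3 → ℤ} (hξ : ξ ≠ 0) (hk : dt (rv k) (rv ξ) = 0) (φ : ℝ)
    {f : ℝ → ℝ} (hf : AAPc f) (h0 : k = 0 → φ = 0 ∧ ∀ t, 0 ≤ t → f t = f 0) {η : ℝ} (hη : 0 < η) :
    ∃ (ι : Type) (_ : Fintype ι) (g : ι → ℝ → ℝ), (∀ t, 0 ≤ t → |f t - ∑ j, g j t| ≤ η) ∧
      ∀ (j : ι) (c : V), dt (rv ξ) c = 0 → ∀ δ : ℝ, 0 < δ → δ ≤ 1 → ∀ η' : ℝ, 0 < η' →
        ∃ C : ℝ, 0 ≤ C ∧ ∃ N₀ : ℕ, ∀ N, N₀ ≤ N → ∃ (F : ℝ → V → V) (P : V → ℝ),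
          VAtom ξ k φ (g j) c δ N C η' F P := by
  by_cases hk0 : k = 0
  · obtain ⟨h1, h2⟩ := h0 hk0
    refine ⟨Unit, inferInstance, fun _ t => f 0 * Real.cos (0 * t) + 0 * Real.sin (0 * t), ?_, ?_⟩
    · intro t ht
      rw [h2 t ht]
      simp [hη.le]
    · intro j c hc δ hδ0 hδ1 η' hη'
      obtain ⟨C, hC, N₀, h⟩ := exists_static hξ (f 0) hc hδ0 hδ1
      refine ⟨C, hC, N₀, fun N hN => ?_⟩
      obtain ⟨F, P, hFP⟩ := h N hN
      subst hk0 h1
      exact ⟨F, P, hFP.var hη'.le⟩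
  · obtain ⟨ι, i, a, b, ν, g, S, hg, hge, hS, hgS, happ⟩ := hf.split hη
    refine ⟨Option ι, inferInstance, fun o => o.elim g
      (fun j t => a j * Real.cos (ν j * t) + b j * Real.sin (ν j * t)), ?_, ?_⟩
    · intro t ht
      rw [Fintype.sum_option]
      simp only [Option.elim]
      rw [add_comm (g t)]
      exact happ t ht
    · intro o c hc δ hδ0 hδ1 η' hη'
      rcases o with _ | j
      · simp only [Option.elim]
        exact exists_var hξ hk0 hk φ hg hge hS hgS hc hδ0 hδ1 hη'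
      · simp only [Option.elim]
        obtain ⟨C, hC, N₀, h⟩ := exists_rot hξ hk0 hk φ (a j) (b j) (ν j) hc hδ0 hδ1
        refine ⟨C, hC, N₀, fun N hN => ?_⟩
        obtain ⟨F, P, hFP⟩ := h N hN
        exact ⟨F, P, hFP.var hη'.le⟩

/-- the curves of the Fourier coefficients on the half-line -/
structure ACurves (K : ℕ) (A B : (Fin 3 → ℤ) → ℝ → V) : Prop where
  aapA : ∀ k ∈ Bx K, ∀ i, AAPc (fun t => A k t i)
  aapB : ∀ k ∈ Bx K, ∀ i, AAPc (fun t => B k t i)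
  orthA : ∀ k ∈ Bx K, ∀ t, 0 ≤ t → ph k (A k t) = 0
  orthB : ∀ k ∈ Bx K, ∀ t, 0 ≤ t → ph k (B k t) = 0
  symA : ∀ k ∈ Bx K, ∀ t, 0 ≤ t → A (-k) t = A k t
  symB : ∀ k ∈ Bx K, ∀ t, 0 ≤ t → B (-k) t = -B k t
  const : ∀ t, 0 ≤ t → A 0 t = A 0 0

section

variable {K : ℕ} {A B : (Fin 3 → ℤ) → ℝ → V}

lemma ACurves.freeze (h : ACurves K A B) {t : ℝ} (ht : 0 ≤ t) :
    Curves 1 K (fun k _ => A k t) (fun k _ => B k t) :=
  ⟨fun _ _ => continuous_const, fun _ _ => continuous_const, fun _ _ _ => rfl, fun _ _ _ => rfl,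
    fun k hk _ => h.orthA k hk t ht, fun k hk _ => h.orthB k hk t ht,
    fun k hk _ => h.symA k hk t ht, fun k hk _ => h.symB k hk t ht, fun _ => rfl⟩

/-- solutions whose low modes follow given curves for all times -/
theorem acore (h : ACurves K A B) {D : ℝ} (hD : 0 < D) :
    ∃ C : ℝ, 0 ≤ C ∧ ∃ N₀ : ℕ, ∀ N, N₀ ≤ N → ∃ (u : ℝ → V → V) (p : V → ℝ), Sol u p ∧
      (∀ t x i, |u t x i| ≤ C * N) ∧
      (∀ l ∈ Bx K, ∀ t, 0 ≤ t → ∀ i ψ, |(∫ x in Dom, u t x i * Real.cos (ph l x - ψ))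
        - (A l t i * Real.cos ψ + B l t i * Real.sin ψ)| ≤ D) ∧
      (∀ l : Fin 3 → ℤ, l ∉ Bx K → (∀ i, |l i| + K < N) → ∀ t i ψ,
        ∫ x in Dom, u t x i * Real.cos (ph l x - ψ) = 0) := by
  classical
  have hv := vl_pos
  choose ξ c hξ0 hξk hspan using dirs
  let J : Type := {k // k ∈ Bx K} × Fin 3 × Bool
  let f : J → ℝ → ℝ := fun q t => c q.1 q.2.1 (if q.2.2 then B q.1 t else A q.1 t) * vl⁻¹
  let X : J → Fin 3 → ℝ := fun q i => (ξ q.1 q.2.1 i : ℝ)
  let IJ : J → (Fin 3 → ℤ) → ℝ → ℝ := fun q l ψ =>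
    ∫ x in Dom, Real.cos (ph q.1 x - phq q.1 q.2.2) * Real.cos (ph l x - ψ)
  have hfa : ∀ q, AAPc (f q) := by
    intro q
    refine AAPc.mul ?_ _
    by_cases hq : q.2.2 = true
    · simp only [hq, if_true]; exact AAPc.lin (h.aapB _ q.1.2) _
    · simp only [hq]; exact AAPc.lin (h.aapA _ q.1.2) _
  set C₁ : ℝ := ∑ q : J, (∑ i, |X q i|) * vl with hC₁
  have hC₁0 : 0 ≤ C₁ := Finset.sum_nonneg fun q _ => by positivity
  set η : ℝ := D / (2 * (C₁ + 1)) with hη'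
  have hη : 0 < η := by positivity
  have hfam : ∀ q : J, ∃ (ι : Type) (_ : Fintype ι) (g : ι → ℝ → ℝ),
      (∀ t, 0 ≤ t → |f q t - ∑ j, g j t| ≤ η) ∧
      ∀ (j : ι) (c : V), dt (rv (ξ q.1 q.2.1)) c = 0 → ∀ δ : ℝ, 0 < δ → δ ≤ 1 →
        ∀ η' : ℝ, 0 < η' → ∃ C : ℝ, 0 ≤ C ∧ ∃ N₀ : ℕ, ∀ N, N₀ ≤ N →
          ∃ (F : ℝ → V → V) (P : V → ℝ),
            VAtom (ξ q.1 q.2.1) q.1 (phq q.1 q.2.2) (g j) c δ N C η' F P := by
    intro q
    refine exists_family (hξ0 _ _) (hξk _ _) _ (hfa q) (fun hq0 => ⟨?_, ?_⟩) hη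
    · simp [phq, hq0]
    · intro t ht
      simp only [f]
      have hb : ∀ t, 0 ≤ t → B 0 t = 0 := fun t ht => (h.freeze ht).B0 0
      rw [hq0, hb t ht, hb 0 le_rfl, h.const t ht]
  choose ι hι g hg1 hg2 using hfam
  obtain ⟨cc, δ, hδ0, hδ1, hcc, hdis⟩ := disjoint_tubes (ι := Σ q : J, ι q)
    (fun e => ξ e.1.1 e.1.2.1) (fun e => hξ0 _ _)
  have hat : ∀ e : (Σ q : J, ι q), ∃ C : ℝ, 0 ≤ C ∧ ∃ N₀ : ℕ, ∀ N, N₀ ≤ N →
      ∃ (F : ℝ → V → V) (P : V → ℝ), VAtom (ξ e.1.1 e.1.2.1) e.1.1 (phq e.1.1 e.1.2.2)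
        (g e.1 e.2) (cc e) δ N C (η / (Fintype.card (ι e.1) + 1)) F P := fun e =>
    hg2 e.1 e.2 (cc e) (hcc e) δ hδ0 hδ1 _ (by positivity)
  choose Cf hCf Nf hNf using hat
  refine ⟨∑ e, Cf e, Finset.sum_nonneg fun e _ => hCf e, 2 * K + 1 + ∑ e, Nf e, fun N hN => ?_⟩
  have hNe : ∀ e, Nf e ≤ N := by
    intro e
    have := Finset.single_le_sum (f := Nf) (fun _ _ => Nat.zero_le _) (Finset.mem_univ e)
    omega
  choose F P hF using fun e => hNf e N (hNe e)
  choose a ha1 ha2 using fun e => (hF e).modes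
  have hsol : Sol (fun t x => ∑ e, F e t x) (fun x => ∑ e, P e x) := by
    refine Sol.sum (fun e => (hF e).sol) ?_
    intro e e' hee t x
    rcases hdis e e' hee N x with h1 | h1
    · left; exact (hF e).supp t x h1
    · right; exact (hF e').supp t x h1
  have hmodes : ∀ l : Fin 3 → ℤ, (∀ i, |l i| + K < N) → ∀ t i ψ,
      ∫ x in Dom, (∑ e, F e t x) i * Real.cos (ph l x - ψ)
        = ∑ q : J, (∑ j, a ⟨q, j⟩ t) * X q i * IJ q l ψ := by
    intro l hl t i ψ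
    have e1 : ∀ x, (∑ e, F e t x) i * Real.cos (ph l x - ψ)
        = ∑ e, F e t x i * Real.cos (ph l x - ψ) := by
      intro x; rw [Finset.sum_apply, Finset.sum_mul]
    simp only [e1]
    rw [integral_finsetSum]
    · have e2 : ∀ e : (Σ q : J, ι q), ∫ x in Dom, F e t x i * Real.cos (ph l x - ψ)
          = a e t * X e.1 i * IJ e.1 l ψ := by
        intro e
        refine ha2 e t l (fun i => ?_) i ψ
        have h1 := hl i
        have h2 := mem_Bx.1 e.1.1.2 i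
        omega
      rw [Finset.sum_congr rfl fun e _ => e2 e, Fintype.sum_sigma]
      refine Finset.sum_congr rfl fun q _ => ?_
      rw [Finset.sum_mul, Finset.sum_mul]
    · intro e _
      refine (Periodic3.mul' (f := fun x => F e t x i) (comp_periodic ((hF e).sol.per t) i)
        (cosp_periodic l ψ)).integrableOn ?_
      exact ((continuous_apply i).comp ((hF e).sol.diff t).continuous).mul (cosp_cont l ψ)
  have htarget : ∀ l ∈ Bx K, ∀ t, 0 ≤ t → ∀ i ψ, ∑ q : J, f q t * X q i * IJ q l ψ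
      = A l t i * Real.cos ψ + B l t i * Real.sin ψ := by
    intro l hl t ht i ψ
    have hs := (h.freeze ht).series hl 0 ψ i
    rw [← hs, Fintype.sum_prod_type]
    rw [← Finset.sum_coe_sort (Bx K)]
    refine Finset.sum_congr rfl fun k _ => ?_
    rw [Fintype.sum_prod_type, Finset.sum_comm]
    refine Finset.sum_congr rfl fun β _ => ?_
    have h1 : (if β then B k t i else A k t i)
        = ∑ j, c k j (if β then B k t else A k t) * (ξ k j i : ℝ) := by
      have h2 : ph k (if β then B k t else A k t) = 0 := by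
        split_ifs
        · exact h.orthB _ k.2 t ht
        · exact h.orthA _ k.2 t ht
      have h3 := hspan k _ h2 i
      rw [← h3]
      split_ifs <;> rfl
    rw [h1, Finset.sum_div, Finset.sum_mul]
    refine Finset.sum_congr rfl fun j _ => ?_
    simp only [f, X, IJ]
    ring
  have hKN : ∀ l ∈ Bx K, ∀ i, |l i| + K < N := by
    intro l hl i
    have := mem_Bx.1 hl i
    omega
  refine ⟨_, _, hsol, ?_, ?_, ?_⟩
  · intro t x i
    rw [Finset.sum_apply, Finset.sum_mul]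
    refine (Finset.abs_sum_le_sum_abs _ _).trans ?_
    exact Finset.sum_le_sum fun e _ => (hF e).bound t x i
  · intro l hl t ht i ψ
    rw [hmodes l (hKN l hl), ← htarget l hl t ht, ← Finset.sum_sub_distrib]
    refine (Finset.abs_sum_le_sum_abs _ _).trans ?_
    have h1 : ∀ q : J, |(∑ j, a ⟨q, j⟩ t) * X q i * IJ q l ψ - f q t * X q i * IJ q l ψ|
        ≤ 2 * η * ((∑ i, |X q i|) * vl) := by
      intro q
      have e : (∑ j, a ⟨q, j⟩ t) * X q i * IJ q l ψ - f q t * X q i * IJ q l ψ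
        = ((∑ j, a ⟨q, j⟩ t) - f q t) * (X q i * IJ q l ψ) := by ring
      rw [e, abs_mul, abs_mul]
      have h2 : |X q i| ≤ ∑ i, |X q i| :=
        Finset.single_le_sum (f := fun i => |X q i|) (fun _ _ => abs_nonneg _) (Finset.mem_univ i)
      have h3 : |IJ q l ψ| ≤ vl := prod_int_abs _ _ _ _
      have h4 : |(∑ j, a ⟨q, j⟩ t) - f q t| ≤ 2 * η := by
        have h5 : (∑ j, a ⟨q, j⟩ t) - f q t
            = (∑ j, (a ⟨q, j⟩ t - g q j t)) - (f q t - ∑ j, g q j t) := by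
          rw [Finset.sum_sub_distrib]; ring
        rw [h5]
        refine (abs_sub _ _).trans ?_
        have h6 := hg1 q t ht
        have h7 : |∑ j, (a ⟨q, j⟩ t - g q j t)| ≤ η := by
          refine (Finset.abs_sum_le_sum_abs _ _).trans ?_
          have h8 : ∀ j ∈ Finset.univ, |a ⟨q, j⟩ t - g q j t| ≤ η / (Fintype.card (ι q) + 1) :=
            fun j _ => ha1 ⟨q, j⟩ t
          refine (Finset.sum_le_card_nsmul _ _ _ h8).trans ?_
          rw [nsmul_eq_mul, Finset.card_univ, ← mul_div_assoc, div_le_iff₀ (by positivity)]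
          nlinarith
        linarith
      have h5 : 0 ≤ ∑ i, |X q i| := Finset.sum_nonneg fun _ _ => abs_nonneg _
      gcongr
    refine (Finset.sum_le_sum fun q _ => h1 q).trans ?_
    rw [← Finset.mul_sum, ← hC₁, hη']
    have e5 : 2 * (D / (2 * (C₁ + 1))) * C₁ = D * (C₁ / (C₁ + 1)) := by field_simp
    rw [e5]
    have h1 : C₁ / (C₁ + 1) ≤ 1 := by rw [div_le_one (by positivity)]; linarith
    exact mul_le_of_le_one_right hD.le h1
  · intro l hl hlN t i ψ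
    rw [hmodes l hlN]
    refine Finset.sum_eq_zero fun q _ => ?_
    have : IJ q l ψ = 0 := prod_int_zero q.1.2 hl _ _
    rw [this, mul_zero]

end

end Pool.Agent.Zk27.UE
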