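import Pool.Agent.Zk27.UE.Net

/-!
# One solution which comes near to all solutions
-/

open MeasureTheory Set
open scoped ENNReal NNReal Topology Pointwise ContDiff

set_option autoImplicit false

namespace Pool.Agent.Zk27.UE

open Pool.Agent.H708R2.EulerSign Pool.Agent.H708R2.EulerModes

/-- solutions near given curves, in the negative Sobolev norms, with a tolerance -/
theorem near_tol {s ε E : ℝ} (hs : 1 < s) (hε : 0 < ε) : ∃ (K : ℕ) (D : ℝ), 0 < D ∧
    ∀ (τ : ℝ), 0 < τ → ∀ (A B : (Fin 3 → ℤ) → ℝ → V), Curves τ K A B →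
      ∃ (u : ℝ → V → V) (p : V → ℝ), Sol u p ∧ (∀ t, u (t + τ) = u t) ∧
        ∀ (t : ℝ) (h : V → V), Periodic3 h → MemLp h 2 (volume.restrict cube) →
          ∑ i, ∫ x in Dom, h x i ^ 2 ≤ E →
          (∀ l ∈ Bx K, ∀ i, |(∫ x in Dom, h x i * Real.cos (ph l x)) - A l t i| ≤ D ∧
            |(∫ x in Dom, h x i * Real.sin (ph l x)) - B l t i| ≤ D) →
          HNegClose s ε (u t) h := by
  have hv := vl_pos
  obtain ⟨K, hK⟩ := exists_pow_le s (by linarith) (2 * (vl * E)) (ε ^ 2 / 3) (by positivity)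
  set D : ℝ := Real.sqrt (ε ^ 2 / (18 * ((Bx K).card + 1))) with hD
  have hD0 : 0 < D := Real.sqrt_pos.2 (by positivity)
  have hD2 : D ^ 2 = ε ^ 2 / (18 * ((Bx K).card + 1)) := Real.sq_sqrt (by positivity)
  refine ⟨K, D / 2, by positivity, fun τ hτ A B hAB => ?_⟩
  obtain ⟨C, hC0, N₀, hN₀⟩ := core hτ hAB (half_pos hD0)
  obtain ⟨N₁, hN₁⟩ := exists_weight hs K (c := 2 * (3 * (vl * (C ^ 2 * vl))))
    (ε := ε ^ 2 / 3) (by positivity) (by positivity)
  obtain ⟨u, p, hsol, hper, hbd, hm, hm0, hz⟩ := hN₀ (N₀ + N₁) (by omega)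
  have hN1 := hN₁ (N₀ + N₁) (by omega)
  set N := N₀ + N₁ with hN
  have hsin : ∀ (l : Fin 3 → ℤ) (x : V), Real.cos (ph l x - Real.pi / 2) = Real.sin (ph l x) :=
    fun l x => Real.cos_sub_pi_div_two _
  refine ⟨u, p, hsol, hper, fun t h hhp hh2 hhE hhm => ?_⟩
  refine hneg' (K := K) (N := N) (M := (C * N) ^ 2 * vl) (D := D) (E := E) hhp hh2 (hsol.per t)
    (hsol.diff t).continuous (by linarith) ?_ hhE ?_ ?_ ?_ ?_ ?_
  · intro i
    rw [← int_const]
    refine setIntegral_mono_on ?_ (integrableOn_const dom_lt_top.ne) dom_meas fun x _ => ?_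
    · refine Periodic3.integrableOn ?_
        (((continuous_apply i).comp (hsol.diff t).continuous).pow 2)
      intro j x; simp only; rw [hsol.per t j x]
    · have := hbd t x i
      rw [← sq_abs]
      exact pow_le_pow_left₀ (abs_nonneg _) this 2
  · intro l hl i
    obtain ⟨h1, h2⟩ := hhm l hl i
    have e1 := hm l hl t i 0
    have e2 := hm l hl t i (Real.pi / 2)
    simp only [sub_zero, Real.cos_zero, Real.sin_zero, mul_one, mul_zero, add_zero] at e1
    simp only [hsin, Real.cos_pi_div_two, Real.sin_pi_div_two, mul_one, mul_zero,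
      zero_add] at e2
    rw [abs_le] at h1 h2 e1 e2 ⊢
    rw [abs_le]
    refine ⟨⟨?_, ?_⟩, ⟨?_, ?_⟩⟩ <;> linarith [h1.1, h1.2, h2.1, h2.2, e1.1, e1.2, e2.1, e2.2]
  · intro l hl hlN i
    have e1 := hz l hl hlN t i 0
    have e2 := hz l hl hlN t i (Real.pi / 2)
    simp only [sub_zero] at e1
    simp only [hsin] at e2
    exact ⟨e1, e2⟩
  · rw [hD2]
    have hc : (0 : ℝ) ≤ (Bx K).card := Nat.cast_nonneg _
    have e : ((Bx K).card : ℝ) * (3 * (2 * (ε ^ 2 / (18 * ((Bx K).card + 1)))))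
        = ε ^ 2 / 3 * ((Bx K).card / ((Bx K).card + 1)) := by
      field_simp; ring
    rw [e]
    have h1 : ((Bx K).card : ℝ) / ((Bx K).card + 1) ≤ 1 := by
      rw [div_le_one (by positivity)]; linarith
    exact mul_le_of_le_one_right (by positivity) h1
  · refine le_trans (le_of_eq ?_) hN1
    ring
  · exact hK K le_rfl

/-- one solution near all curves of an equicontinuous class -/
theorem universal {T : ℝ} (hT : 0 < T) (E R : ℝ) (m : V) {μ : (Fin 3 → ℤ) → ℝ → ℝ}
    (hμ : ∀ k, ∀ η : ℝ, 0 < η → ∃ δ : ℝ, 0 < δ ∧ ∀ r, 0 ≤ r → r ≤ δ → μ k r ≤ η)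
    {s ε : ℝ} (hs : 1 < s) (hε : 0 < ε) :
    ∃ (τ : ℝ) (u : ℝ → V → V) (p : V → ℝ), 0 < τ ∧ Sol u p ∧ (∀ t, u (t + τ) = u t) ∧
      ∀ A B : (Fin 3 → ℤ) → ℝ → V, Cls T R μ m A B → ∃ t₀ : ℝ, 0 ≤ t₀ ∧ ∀ t ∈ Icc 0 T,
        ∀ h : V → V, Periodic3 h → MemLp h 2 (volume.restrict cube) →
          ∑ i, ∫ x in Dom, h x i ^ 2 ≤ E →
          (∀ k i, ∫ x in Dom, h x i * Real.cos (ph k x) = A k t i ∧
            ∫ x in Dom, h x i * Real.sin (ph k x) = B k t i) →
          HNegClose s ε (u (t₀ + t)) h := by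
  obtain ⟨K, D, hD, hnear⟩ := near_tol (E := E) hs hε
  obtain ⟨n, A, B, hC, hnet⟩ := net (T := T) (R := R) (μ := μ) (m := m) hT hμ K hD
  rcases Nat.eq_zero_or_pos n with hn | hn
  · have hz : Curves 1 K (fun _ _ => 0) (fun _ _ => 0) := by
      refine ⟨fun _ _ => continuous_const, fun _ _ => continuous_const, fun _ _ _ => rfl,
        fun _ _ _ => rfl, ?_, ?_, fun _ _ _ => rfl, fun _ _ _ => by simp, fun _ => rfl⟩
      · intro k _ t; rw [ph_dtL, map_zero]
      · intro k _ t; rw [ph_dtL, map_zero]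
    obtain ⟨u, p, h1, h2, -⟩ := hnear 1 one_pos _ _ hz
    refine ⟨1, u, p, one_pos, h1, h2, fun A' B' hAB => ?_⟩
    obtain ⟨j, -⟩ := hnet A' B' hAB
    subst hn
    exact j.elim0
  · obtain ⟨A₁, B₁, hcur, hval⟩ := concat hT hμ K hn hC
    have hnr : (0 : ℝ) < n := by exact_mod_cast hn
    obtain ⟨u, p, h1, h2, h3⟩ := hnear (4 * n * T) (by positivity) _ _ hcur
    refine ⟨4 * n * T, u, p, by positivity, h1, h2, fun A' B' hAB => ?_⟩
    obtain ⟨j, hj⟩ := hnet A' B' hAB
    refine ⟨4 * j * T, by positivity, fun t ht h hhp hh2 hhE hhm => ?_⟩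
    refine h3 _ h hhp hh2 hhE fun l hl i => ?_
    obtain ⟨v1, v2⟩ := hval j l t ht
    obtain ⟨c1, c2⟩ := hhm l i
    obtain ⟨d1, d2⟩ := hj l hl t ht i
    rw [v1, v2, c1, c2]
    exact ⟨d1, d2⟩

lemma coeff_bound {h : V → V} (hp : Periodic3 h) (h2 : MemLp h 2 (volume.restrict cube)) {E : ℝ}
    (hE : ∑ i, ∫ x in Dom, h x i ^ 2 ≤ E) (k : Fin 3 → ℤ) (i : Fin 3) :
    |∫ x in Dom, h x i * Real.cos (ph k x)| ≤ vl * E + 1 ∧
      |∫ x in Dom, h x i * Real.sin (ph k x)| ≤ vl * E + 1 := by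
  have hb := bessel (memLp_comp (memLp_dom hp h2) i) {k}
  rw [Finset.sum_singleton] at hb
  have h1 : ∫ x in Dom, h x i ^ 2 ≤ E := by
    refine le_trans ?_ hE
    exact Finset.single_le_sum (f := fun i => ∫ x in Dom, h x i ^ 2)
      (fun i _ => integral_nonneg fun x => sq_nonneg _) (Finset.mem_univ i)
  have h3 : (volume Dom).toReal * ∫ x in Dom, h x i ^ 2 ≤ vl * E := by
    have := vl_pos.le
    unfold vl at this ⊢
    gcongr
  have key : ∀ x : ℝ, |x| ≤ x ^ 2 + 1 := by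
    intro x
    rw [← sq_abs]
    nlinarith [sq_nonneg (|x| - 1), abs_nonneg x]
  constructor
  · have := key (∫ x in Dom, h x i * Real.cos (ph k x))
    have := sq_nonneg (∫ x in Dom, h x i * Real.sin (ph k x))
    linarith
  · have := key (∫ x in Dom, h x i * Real.sin (ph k x))
    have := sq_nonneg (∫ x in Dom, h x i * Real.cos (ph k x))
    linarith

lemma ext_le {T : ℝ} (hT : 0 < T) {F : ℝ → ℝ} (hF : Continuous F) {R : ℝ}
    (h : ∀ t ∈ Ico 0 T, |F t| ≤ R) : ∀ t ∈ Icc 0 T, |F t| ≤ R := by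
  intro t ht
  have h1 : IsClosed {t | |F t| ≤ R} := isClosed_le hF.abs continuous_const
  have h2 : closure (Ico 0 T) ⊆ {t | |F t| ≤ R} := closure_minimal (fun t ht => h t ht) h1
  rw [closure_Ico hT.ne] at h2
  exact h2 ht

lemma lip_ext' {T : ℝ} {f : ℝ → ℝ} {L : ℝ} (hL : 0 ≤ L)
    (h : ∀ t ∈ Ico 0 T, ∀ t' ∈ Ico 0 T, |f t - f t'| ≤ L * |t - t'|) :
    ∃ g : ℝ → ℝ, (∀ t t', |g t - g t'| ≤ L * |t - t'|) ∧ ∀ t ∈ Ico 0 T, f t = g t := by
  have h1 : LipschitzOnWith ⟨L, hL⟩ f (Ico 0 T) := by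
    refine LipschitzOnWith.of_dist_le_mul fun t ht t' ht' => ?_
    rw [Real.dist_eq, Real.dist_eq]
    exact h t ht t' ht'
  obtain ⟨g, hg1, hg2⟩ := h1.extend_real
  refine ⟨g, fun t t' => ?_, fun t ht => hg2 ht⟩
  have := hg1.dist_le_mul t t'
  rw [Real.dist_eq, Real.dist_eq] at this
  exact this

lemma cont_of_lip {g : ℝ → ℝ} {L : ℝ} (hL : 0 ≤ L) (h : ∀ t t', |g t - g t'| ≤ L * |t - t'|) :
    Continuous g := by
  have h1 : LipschitzWith ⟨L, hL⟩ g := by
    refine LipschitzWith.of_dist_le_mul fun t t' => ?_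
    rw [Real.dist_eq, Real.dist_eq]
    exact h t t'
  exact h1.continuous

/-- the classical solutions with bounded energy and given mean belong to one class -/
theorem solutions_cls (E : ℝ) (m : V) : ∃ Lip : (Fin 3 → ℤ) → ℝ, (∀ k, 0 ≤ Lip k) ∧
    ∀ {T T' : ℝ} {w : ℝ → V → V} {q : ℝ → V → ℝ}, 0 < T' → T' ≤ T →
      IsClassicalSolution (Ico 0 T') w q → ∑ i, ∫ x in Dom, w 0 x i ^ 2 ≤ E →
      (∀ i, ∫ x in Dom, w 0 x i = m i) →
      ∃ A B : (Fin 3 → ℤ) → ℝ → V, Cls T (vl * E + 1) (fun k r => Lip k * r) m A B ∧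
        ∀ t ∈ Ico 0 T', Periodic3 (w t) ∧ MemLp (w t) 2 (volume.restrict cube) ∧
          ∑ i, ∫ x in Dom, w t x i ^ 2 ≤ E ∧
          ∀ k i, ∫ x in Dom, w t x i * Real.cos (ph k x) = A k t i ∧
            ∫ x in Dom, w t x i * Real.sin (ph k x) = B k t i := by
  choose Kc hKc0 hKcz hKc using fun (k : Fin 3 → ℤ) (i : Fin 3) => coeff_lip' k 0 i
  choose Ks hKs0 hKsz hKs using fun (k : Fin 3 → ℤ) (i : Fin 3) => coeff_lip' k (Real.pi / 2) i
  refine ⟨fun k => ∑ i, (3 * Kc k i * |E| + 3 * Ks k i * |E|), fun k =>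
    Finset.sum_nonneg fun i _ => by have := hKc0 k i; have := hKs0 k i; positivity, ?_⟩
  intro T T' w q hT' hTT hw hE hm
  have h0T : (0 : ℝ) ∈ Ico 0 T' := ⟨le_rfl, hT'⟩
  have hwc : ∀ t ∈ Ico 0 T', ContDiff ℝ 1 (w t) := fun t ht => contDiff_slice hw.contDiffOn_u ht
  have hen : ∀ t ∈ Ico 0 T', ∑ i, ∫ x in Dom, w t x i ^ 2 = ∫ x in Dom, sq3 (w t x) := by
    intro t ht
    have hint : ∀ i ∈ (Finset.univ : Finset (Fin 3)),
        Integrable (fun x => w t x i ^ 2) (volume.restrict Dom) := by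
      intro i _
      refine Periodic3.integrableOn ?_ (((continuous_apply i).comp (hwc t ht).continuous).pow 2)
      intro j x; simp only; rw [hw.periodic_u t ht j x]
    rw [← integral_finsetSum _ hint]
    rfl
  have hE' : ∫ x in Dom, sq3 (w 0 x) ≤ E := by rw [← hen 0 h0T]; exact hE
  have hE0 : 0 ≤ ∫ x in Dom, sq3 (w 0 x) := integral_nonneg fun x => sq3_nonneg _
  have hEt : ∀ t ∈ Ico 0 T', ∑ i, ∫ x in Dom, w t x i ^ 2 ≤ E := by
    intro t ht
    rw [hen t ht]
    exact (energy_le hw ht).trans hE'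
  have hEabs : E ≤ |E| := le_abs_self E
  choose a ha1 ha2 using fun (k : Fin 3 → ℤ) (i : Fin 3) => lip_ext' (T := T')
    (f := fun t => ∫ x in Dom, w t x i * Real.cos (ph k x - 0)) (L := 3 * Kc k i * |E|)
    (by have := hKc0 k i; positivity) (fun t ht t' ht' => by
      refine (hKc k i hw t ht t' ht').trans ?_
      have := hKc0 k i
      have h1 := hE'.trans hEabs
      gcongr)
  choose b hb1 hb2 using fun (k : Fin 3 → ℤ) (i : Fin 3) => lip_ext' (T := T')
    (f := fun t => ∫ x in Dom, w t x i * Real.cos (ph k x - Real.pi / 2)) (L := 3 * Ks k i * |E|)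
    (by have := hKs0 k i; positivity) (fun t ht t' ht' => by
      refine (hKs k i hw t ht t' ht').trans ?_
      have := hKs0 k i
      have h1 := hE'.trans hEabs
      gcongr)
  have cA : ∀ k i, Continuous (a k i) := fun k i =>
    cont_of_lip (L := 3 * Kc k i * |E|) (by have := hKc0 k i; positivity) (ha1 k i)
  have cB : ∀ k i, Continuous (b k i) := fun k i =>
    cont_of_lip (L := 3 * Ks k i * |E|) (by have := hKs0 k i; positivity) (hb1 k i)
  simp only [sub_zero] at ha2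
  simp only [Real.cos_sub_pi_div_two] at hb2
  have hph : ∀ (k : Fin 3 → ℤ) (f : Fin 3 → ℝ → ℝ), (∀ i, Continuous (f i)) →
      (∀ t ∈ Ico 0 T', dt (rv k) (fun i => f i t) = 0) →
      ∀ t ∈ Icc 0 T', ph k (fun i => f i t) = 0 := by
    intro k f hf h
    have hc : Continuous (fun t => dt (rv k) (fun i => f i t)) := by
      unfold dt
      exact ((continuous_const.mul (hf 0)).add (continuous_const.mul (hf 1))).add
        (continuous_const.mul (hf 2))
    intro t ht
    rw [ph_eq_dt]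
    exact ext_zero hT' hc h t ht
  have hmin : ∀ t ∈ Icc 0 T, min t T' ∈ Icc 0 T' := fun t ht =>
    ⟨le_min ht.1 hT'.le, min_le_right _ _⟩
  have hminlip : ∀ t t' : ℝ, |min t T' - min t' T'| ≤ |t - t'| := fun t t' =>
    (abs_min_sub_min_le_max t T' t' T').trans (by simp)
  have oA : ∀ k, ∀ t ∈ Icc 0 T', ph k (fun i => a k i t) = 0 := by
    intro k
    refine hph k (a k) (cA k) fun t ht => ?_
    have := coeff_orth (hwc t ht) (hw.periodic_u t ht) (hw.div_free t ht) k 0
    simp only [sub_zero] at this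
    simp only [← ha2 k _ t ht]
    exact this
  have oB : ∀ k, ∀ t ∈ Icc 0 T', ph k (fun i => b k i t) = 0 := by
    intro k
    refine hph k (b k) (cB k) fun t ht => ?_
    have := coeff_orth (hwc t ht) (hw.periodic_u t ht) (hw.div_free t ht) k (Real.pi / 2)
    simp only [Real.cos_sub_pi_div_two] at this
    simp only [← hb2 k _ t ht]
    exact this
  have sA : ∀ k, ∀ t ∈ Icc 0 T', (fun i => a (-k) i t) = fun i => a k i t := by
    intro k t ht
    ext i
    have := ext_zero hT' ((cA (-k) i).sub (cA k i)) (fun t ht => by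
      rw [Pi.sub_apply, ← ha2 (-k) i t ht, ← ha2 k i t ht]
      simp only [ph_neg, Real.cos_neg, sub_self]) t ht
    rw [Pi.sub_apply, sub_eq_zero] at this
    exact this
  have sB : ∀ k, ∀ t ∈ Icc 0 T', (fun i => b (-k) i t) = -fun i => b k i t := by
    intro k t ht
    ext i
    have := ext_zero hT' ((cB (-k) i).add (cB k i)) (fun t ht => by
      rw [Pi.add_apply, ← hb2 (-k) i t ht, ← hb2 k i t ht]
      simp only [ph_neg, Real.sin_neg, mul_neg]
      rw [integral_neg, neg_add_cancel]) t ht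
    rw [Pi.add_apply, add_eq_zero_iff_eq_neg] at this
    exact this
  have m0 : ∀ t ∈ Icc 0 T', (fun i => a 0 i t) = m := by
    intro t ht
    ext i
    have := ext_zero hT' ((cA 0 i).sub (continuous_const (y := m i))) (fun t ht => by
      rw [Pi.sub_apply]
      have h1 := ha1 0 i t 0
      rw [hKcz 0 i rfl, mul_zero, zero_mul, zero_mul] at h1
      have h2 : a 0 i t = a 0 i 0 := sub_eq_zero.1 (abs_nonpos_iff.1 h1)
      rw [h2, ← ha2 0 i 0 h0T]
      simp only [ph_zero, Real.cos_zero, mul_one]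
      rw [hm i, sub_self]) t ht
    rw [Pi.sub_apply, sub_eq_zero] at this
    exact this
  have hbA : ∀ k i, ∀ t ∈ Icc 0 T', |a k i t| ≤ vl * E + 1 := by
    intro k i
    refine ext_le hT' (cA k i) fun t ht => ?_
    rw [← ha2 k i t ht]
    exact (coeff_bound (hw.periodic_u t ht) (memLp_cube (hwc t ht).continuous) (hEt t ht) k i).1
  have hbB : ∀ k i, ∀ t ∈ Icc 0 T', |b k i t| ≤ vl * E + 1 := by
    intro k i
    refine ext_le hT' (cB k i) fun t ht => ?_
    rw [← hb2 k i t ht]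
    exact (coeff_bound (hw.periodic_u t ht) (memLp_cube (hwc t ht).continuous) (hEt t ht) k i).2
  refine ⟨fun k t i => a k i (min t T'), fun k t i => b k i (min t T'), ?_, ?_⟩
  · refine ⟨?_, ?_, ?_, ?_, ?_, ?_, ?_, ?_, ?_⟩
    · exact fun k t ht i => hbA k i _ (hmin t ht)
    · exact fun k t ht i => hbB k i _ (hmin t ht)
    · intro k t _ t' _ i
      refine (ha1 k i _ _).trans ?_
      have h1 : 3 * Kc k i * |E| ≤ ∑ i, (3 * Kc k i * |E| + 3 * Ks k i * |E|) := by
        refine le_trans ?_ (Finset.single_le_sum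
          (f := fun i => 3 * Kc k i * |E| + 3 * Ks k i * |E|) (fun j _ => ?_) (Finset.mem_univ i))
        · have := hKs0 k i
          have : 0 ≤ 3 * Ks k i * |E| := by positivity
          linarith
        · have := hKc0 k j
          have := hKs0 k j
          positivity
      have h2 := hKc0 k i
      have h3 : 0 ≤ 3 * Kc k i * |E| := by positivity
      exact mul_le_mul h1 (hminlip t t') (abs_nonneg _) (h3.trans h1)
    · intro k t _ t' _ i
      refine (hb1 k i _ _).trans ?_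
      have h1 : 3 * Ks k i * |E| ≤ ∑ i, (3 * Kc k i * |E| + 3 * Ks k i * |E|) := by
        refine le_trans ?_ (Finset.single_le_sum
          (f := fun i => 3 * Kc k i * |E| + 3 * Ks k i * |E|) (fun j _ => ?_) (Finset.mem_univ i))
        · have := hKc0 k i
          have : 0 ≤ 3 * Kc k i * |E| := by positivity
          linarith
        · have := hKc0 k j
          have := hKs0 k j
          positivity
      have h2 := hKs0 k i
      have h3 : 0 ≤ 3 * Ks k i * |E| := by positivity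
      exact mul_le_mul h1 (hminlip t t') (abs_nonneg _) (h3.trans h1)
    · exact fun k t ht => oA k _ (hmin t ht)
    · exact fun k t ht => oB k _ (hmin t ht)
    · exact fun k t ht => sA k _ (hmin t ht)
    · exact fun k t ht => sB k _ (hmin t ht)
    · exact fun t ht => m0 _ (hmin t ht)
  · intro t ht
    refine ⟨hw.periodic_u t ht, memLp_cube (hwc t ht).continuous, hEt t ht, fun k i => ?_⟩
    have : min t T' = t := min_eq_left ht.2.le
    simp only [this]
    exact ⟨ha2 k i t ht, hb2 k i t ht⟩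

end Pool.Agent.Zk27.UE
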