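import Pool.Agent.Zk27.UE.ACore
import Pool.Agent.Zk27.UE.UnivSol

/-!
# Solutions near given curves for all times
-/

open MeasureTheory Set
open scoped ENNReal NNReal Topology Pointwise ContDiff

set_option autoImplicit false

namespace Pool.Agent.Zk27.UE

open Pool.Agent.H708R2.EulerSign Pool.Agent.H708R2.EulerModes

/-- solutions near given curves for all times, in the negative Sobolev norms, with a tolerance -/
theorem anear {s ε E : ℝ} (hs : 1 < s) (hε : 0 < ε) : ∃ (K : ℕ) (D : ℝ), 0 < D ∧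
    ∀ (A B : (Fin 3 → ℤ) → ℝ → V), ACurves K A B →
      ∃ (u : ℝ → V → V) (p : V → ℝ), Sol u p ∧
        ∀ (t : ℝ), 0 ≤ t → ∀ (h : V → V), Periodic3 h → MemLp h 2 (volume.restrict cube) →
          ∑ i, ∫ x in Dom, h x i ^ 2 ≤ E →
          (∀ l ∈ Bx K, ∀ i, |(∫ x in Dom, h x i * Real.cos (ph l x)) - A l t i| ≤ D ∧
            |(∫ x in Dom, h x i * Real.sin (ph l x)) - B l t i| ≤ D) →
          HNegClose s ε (u t) h := by
  have hv := vl_pos
  obtain ⟨K, hK⟩ := exists_pow_le s (by linarith) (2 * (vl * E)) (ε ^ 2 / 3) (by positivity)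
  set D : ℝ := Real.sqrt (ε ^ 2 / (18 * ((Bx K).card + 1))) with hD
  have hD0 : 0 < D := Real.sqrt_pos.2 (by positivity)
  have hD2 : D ^ 2 = ε ^ 2 / (18 * ((Bx K).card + 1)) := Real.sq_sqrt (by positivity)
  refine ⟨K, D / 2, by positivity, fun A B hAB => ?_⟩
  obtain ⟨C, hC0, N₀, hN₀⟩ := acore hAB (half_pos hD0)
  obtain ⟨N₁, hN₁⟩ := exists_weight hs K (c := 2 * (3 * (vl * (C ^ 2 * vl))))
    (ε := ε ^ 2 / 3) (by positivity) (by positivity)
  obtain ⟨u, p, hsol, hbd, hm, hz⟩ := hN₀ (N₀ + N₁) (by omega)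
  have hN1 := hN₁ (N₀ + N₁) (by omega)
  set N := N₀ + N₁ with hN
  have hsin : ∀ (l : Fin 3 → ℤ) (x : V), Real.cos (ph l x - Real.pi / 2) = Real.sin (ph l x) :=
    fun l x => Real.cos_sub_pi_div_two _
  refine ⟨u, p, hsol, fun t ht h hhp hh2 hhE hhm => ?_⟩
  refine hneg' (K := K) (N := N) (M := (C * N) ^ 2 * vl) (D := D) (E := E) hhp hh2 (hsol.per t)
    (hsol.diff t).continuous (by linarith) ?_ hhE ?_ ?_ ?_ ?_ ?_
  · intro i
    rw [← int_const]
    refine setIntegral_mono_on ?_ (integrableOn_const dom_lt_top.ne) dom_meas fun x _ => ?_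
    · refine Periodic3.integrableOn ?_
        (((continuous_apply i).comp (hsol.diff t).continuous).pow 2)
      intro j x; simp only; rw [hsol.per t j x]
    · have := hbd t x i
      rw [← sq_abs]
      exact pow_le_pow_left₀ (abs_nonneg _) this 2
  · intro l hl i
    obtain ⟨h1, h2⟩ := hhm l hl i
    have e1 := hm l hl t ht i 0
    have e2 := hm l hl t ht i (Real.pi / 2)
    simp only [sub_zero, Real.cos_zero, Real.sin_zero, mul_one, mul_zero, add_zero] at e1
    simp only [hsin, Real.cos_pi_div_two, Real.sin_pi_div_two, mul_one, mul_zero,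
      zero_add] at e2
    rw [abs_le] at h1 h2 e1 e2 ⊢
    rw [abs_le]
    refine ⟨⟨?_, ?_⟩, ⟨?_, ?_⟩⟩ <;> linarith [h1.1, h1.2, h2.1, h2.2, e1.1, e1.2, e2.1, e2.2]
  · intro l hl hlN i
    have e1 := hz l hl hlN t i 0
    have e2 := hz l hl hlN t i (Real.pi / 2)
    simp only [sub_zero] at e1
    simp only [hsin] at e2
    exact ⟨e1, e2⟩
  · rw [hD2]
    have hc : (0 : ℝ) ≤ (Bx K).card := Nat.cast_nonneg _
    have e : ((Bx K).card : ℝ) * (3 * (2 * (ε ^ 2 / (18 * ((Bx K).card + 1)))))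
        = ε ^ 2 / 3 * ((Bx K).card / ((Bx K).card + 1)) := by
      field_simp; ring
    rw [e]
    have h1 : ((Bx K).card : ℝ) / ((Bx K).card + 1) ≤ 1 := by
      rw [div_le_one (by positivity)]; linarith
    exact mul_le_of_le_one_right (by positivity) h1
  · refine le_trans (le_of_eq ?_) hN1
    ring
  · exact hK K le_rfl

lemma AAPc.of_evconst {f : ℝ → ℝ} {T : ℝ} (hf : ContinuousOn f (Icc 0 T)) (hT : 0 ≤ T) :
    AAPc (fun t => f (min t T)) := by
  constructor
  · refine hf.comp (by fun_prop) fun t ht => ⟨le_min ht hT, min_le_right _ _⟩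
  · intro η hη
    refine ⟨Unit, inferInstance, fun _ => f T, fun _ => 0, fun _ => 0, T, fun t ht => ?_⟩
    simp only
    rw [min_eq_right ht]
    simp [hη.le]

lemma cont_of_mod {f : ℝ → ℝ} {T L : ℝ} (hL : 0 ≤ L)
    (h : ∀ t ∈ Icc 0 T, ∀ t' ∈ Icc 0 T, |f t - f t'| ≤ L * |t - t'|) :
    ContinuousOn f (Icc 0 T) := by
  have h1 : LipschitzOnWith ⟨L, hL⟩ f (Icc 0 T) := by
    refine LipschitzOnWith.of_dist_le_mul fun t ht t' ht' => ?_
    rw [Real.dist_eq, Real.dist_eq]
    exact h t ht t' ht'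
  exact h1.continuousOn

/-- global solutions near a classical solution, which stay near its state at the singular time -/
theorem past_singularity {T : ℝ} (hT : 0 < T) {w : ℝ → V → V} {q : ℝ → V → ℝ}
    (hw : IsClassicalSolution (Ico 0 T) w q) {s ε : ℝ} (hs : 1 < s) (hε : 0 < ε) :
    ∃ (u : ℝ → V → V) (p : V → ℝ), Sol u p ∧
      (∀ t ∈ Ico 0 T, HNegClose s ε (u t) (w t)) ∧
      ∃ T₁ < T, ∀ t, T ≤ t → ∀ t' ∈ Ico T₁ T, 0 ≤ t' → HNegClose s ε (u t) (w t') := by
  set E : ℝ := ∑ i, ∫ x in Dom, w 0 x i ^ 2 with hE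
  set m : V := fun i => ∫ x in Dom, w 0 x i with hm
  obtain ⟨Lip, hLip, hcls⟩ := solutions_cls E m
  obtain ⟨A, B, hC, hmem⟩ := hcls hT le_rfl hw le_rfl (fun i => rfl)
  obtain ⟨K, D, hD, hnear⟩ := anear (E := E) hs hε
  have hcl : ∀ t, 0 ≤ t → min t T ∈ Icc 0 T := fun t ht => ⟨le_min ht hT.le, min_le_right _ _⟩
  have hcur : ACurves K (fun k t => A k (min t T)) (fun k t => B k (min t T)) := by
    refine ⟨?_, ?_, ?_, ?_, ?_, ?_, ?_⟩
    · intro k _ i
      exact AAPc.of_evconst (f := fun t => A k t i) (cont_of_mod (hLip k)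
        fun t ht t' ht' => hC.modA k t ht t' ht' i) hT.le
    · intro k _ i
      exact AAPc.of_evconst (f := fun t => B k t i) (cont_of_mod (hLip k)
        fun t ht t' ht' => hC.modB k t ht t' ht' i) hT.le
    · exact fun k _ t ht => hC.orthA k _ (hcl t ht)
    · exact fun k _ t ht => hC.orthB k _ (hcl t ht)
    · exact fun k _ t ht => hC.symA k _ (hcl t ht)
    · exact fun k _ t ht => hC.symB k _ (hcl t ht)
    · intro t ht
      rw [hC.mean _ (hcl t ht), hC.mean _ (hcl 0 le_rfl)]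
  obtain ⟨u, p, hsol, hu⟩ := hnear _ _ hcur
  refine ⟨u, p, hsol, ?_, ?_⟩
  · intro t ht
    obtain ⟨h1, h2, h3, h4⟩ := hmem t ht
    refine hu t ht.1 (w t) h1 h2 h3 fun l _ i => ?_
    obtain ⟨c1, c2⟩ := h4 l i
    simp only [min_eq_left ht.2.le]
    rw [c1, c2, sub_self, sub_self, abs_zero]
    exact ⟨hD.le, hD.le⟩
  · set L : ℝ := ∑ l ∈ Bx K, Lip l with hL
    have hL0 : 0 ≤ L := Finset.sum_nonneg fun l _ => hLip l
    refine ⟨T - D / (L + 1), by have : 0 < D / (L + 1) := by positivity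
                                linarith, fun t ht t' ht' ht0 => ?_⟩
    have htI : t' ∈ Ico 0 T := ⟨ht0, ht'.2⟩
    obtain ⟨h1, h2, h3, h4⟩ := hmem t' htI
    refine hu t (hT.le.trans ht) (w t') h1 h2 h3 fun l hl i => ?_
    obtain ⟨c1, c2⟩ := h4 l i
    simp only [min_eq_right ht]
    rw [c1, c2]
    have hll : Lip l ≤ L := Finset.single_le_sum (f := Lip) (fun l _ => hLip l) hl
    have hgap : |t' - T| ≤ D / (L + 1) := by
      rw [abs_of_nonpos (by linarith [ht'.2])]
      linarith [ht'.1]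
    have key : Lip l * |t' - T| ≤ D := by
      calc Lip l * |t' - T| ≤ L * (D / (L + 1)) := by
            have := hLip l
            gcongr
        _ = D * (L / (L + 1)) := by ring
        _ ≤ D * 1 := by
            gcongr
            rw [div_le_one (by positivity)]
            linarith
        _ = D := mul_one D
    exact ⟨(hC.modA l t' ⟨ht0, ht'.2.le⟩ T ⟨hT.le, le_rfl⟩ i).trans key,
      (hC.modB l t' ⟨ht0, ht'.2.le⟩ T ⟨hT.le, le_rfl⟩ i).trans key⟩

end Pool.Agent.Zk27.UE
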