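import Pool.Agent.Zk27.UE.ANear

/-!
# Euler on `𝕋³`: global smooth solutions which stay near a given curve for all times

Let `s > 1` and `ε > 0`. For every bounded curve `v : [0, ∞) → L²(𝕋³)` of divergence-free fields with
constant mean whose Fourier coefficients are continuous and asymptotically almost periodic (so for
example convergent, periodic or almost periodic) there is a smooth solution `u` of the Euler equations
which exists for all times and satisfies `‖u(t) - v(t)‖ ≤ ε` in `H^{-s}` for *all* `t ≥ 0`. In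
particular `v` may dissipate energy, or be a solution which becomes singular at a time `T`, frozen at
its state at the time `T`.
-/

open MeasureTheory Set
open scoped ContDiff

set_option autoImplicit false

namespace Pool.Agent.Results.MP_b0497c_an.AllTimes

open Pool.Agent.H708R2.EulerSign Pool.Agent.H708R2.EulerModes
open Pool.Agent.Zk27.UE

/-- `(u, p)` is a smooth solution of the Euler equations on `𝕋³` for all times `t ∈ ℝ`, the pressure
`p` does not depend on time, and every classical solution (on an interval `[0, T')`) which agrees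
with `u` at one time agrees with `u` at all times. -/
def IsGlobalSolution (u : ℝ → V → V) (p : V → ℝ) : Prop :=
  ContDiff ℝ ∞ (fun z : ℝ × V => u z.1 z.2) ∧ ContDiff ℝ ∞ p ∧
    IsClassicalSolution univ u (fun _ => p) ∧
    ∀ (T' : ℝ) (w : ℝ → V → V) (q : ℝ → V → ℝ), IsClassicalSolution (Ico 0 T') w q →
      ∀ t₀ ∈ Ico 0 T', w t₀ = u t₀ → ∀ t ∈ Ico 0 T', w t = u t

/-- `f` is continuous and asymptotically almost periodic on `[0, ∞)`: for every `η > 0` there is a
trigonometric polynomial (with arbitrary real frequencies) at distance at most `η` from `f` on some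
half-line `[T₀, ∞)`. -/
def AsympAP (f : ℝ → ℝ) : Prop :=
  ContinuousOn f (Ici 0) ∧ ∀ η : ℝ, 0 < η → ∃ (n : ℕ) (a b ν : Fin n → ℝ) (T₀ : ℝ),
    ∀ t, T₀ ≤ t → |f t - ∑ j, (a j * Real.cos (ν j * t) + b j * Real.sin (ν j * t))| ≤ η

/-- `v : [0, ∞) → L²(𝕋³)` is a curve of (weakly) divergence-free fields with `∫ |v|² ≤ E` and
`∫ v = m` whose Fourier coefficients are continuous and asymptotically almost periodic. -/
structure IsCurve (E : ℝ) (m : V) (v : ℝ → V → V) : Prop where
  periodic : ∀ t, 0 ≤ t → Periodic3 (v t)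
  memLp : ∀ t, 0 ≤ t → MemLp (v t) 2 (volume.restrict cube)
  divFree : ∀ t, 0 ≤ t → WeakDivFree (v t)
  energy : ∀ t, 0 ≤ t → ∑ i, ∫ x in cube, v t x i ^ 2 ≤ E
  mean : ∀ t, 0 ≤ t → ∀ i, ∫ x in cube, v t x i = m i
  aap_cos : ∀ l i, AsympAP (fun t => cosCoeff l (fun x => v t x i))
  aap_sin : ∀ l i, AsympAP (fun t => sinCoeff l (fun x => v t x i))

lemma global_of_sol {u : ℝ → V → V} {p : V → ℝ} (h : Sol u p) : IsGlobalSolution u p :=
  ⟨h.smooth, h.psmooth, h.classical, fun _ _ _ hw _ ht₀ h0 => h.unique hw ht₀ h0⟩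

lemma aapc_of {f g : ℝ → ℝ} (hf : AsympAP f) (h : ∀ t, 0 ≤ t → f t = g t) : AAPc g := by
  refine ⟨hf.1.congr fun t ht => (h t ht).symm, fun η hη => ?_⟩
  obtain ⟨n, a, b, ν, T₀, h1⟩ := hf.2 η hη
  refine ⟨Fin n, inferInstance, a, b, ν, max T₀ 0, fun t ht => ?_⟩
  rw [← h t ((le_max_right _ _).trans ht)]
  exact h1 t ((le_max_left _ _).trans ht)

/-- Let `s > 1` and `ε > 0`.

* For every curve `v` of divergence-free fields on `[0, ∞)` as in `IsCurve` there is a smooth
solution `u` of the Euler equations for all times with `‖u(t) - v(t)‖ ≤ ε` in `H^{-s}` for all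
`t ≥ 0`.

* For every classical solution `v` of the Euler equations on `[0, T)` (`T` may be the time of a
singularity) there is a smooth solution `u` for all times with `‖u(t) - v(t)‖ ≤ ε` in `H^{-s}` for
`t ∈ [0, T)`, and `‖u(t) - v(t')‖ ≤ ε` for all `t ≥ T` and all `t' < T` close to `T`. -/
theorem result (s ε : ℝ) (hs : 1 < s) (hε : 0 < ε) :
    (∀ (E : ℝ) (m : V) (v : ℝ → V → V), IsCurve E m v →
      ∃ (u : ℝ → V → V) (p : V → ℝ), IsGlobalSolution u p ∧
        ∀ t, 0 ≤ t → HNegClose s ε (u t) (v t)) ∧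
    (∀ (T : ℝ) (v : ℝ → V → V) (q : ℝ → V → ℝ), 0 < T → IsClassicalSolution (Ico 0 T) v q →
      ∃ (u : ℝ → V → V) (p : V → ℝ), IsGlobalSolution u p ∧
        (∀ t ∈ Ico 0 T, HNegClose s ε (u t) (v t)) ∧
        ∃ T₁ < T, ∀ t, T ≤ t → ∀ t' ∈ Ico T₁ T, 0 ≤ t' → HNegClose s ε (u t) (v t')) := by
  constructor
  · intro E m v hv
    obtain ⟨K, D, hD, hnear⟩ := anear (E := E) hs hε
    have hE' : ∀ t, 0 ≤ t → ∑ i, ∫ x in Dom, v t x i ^ 2 ≤ E := by
      intro t ht
      refine le_trans (le_of_eq ?_) (hv.energy t ht)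
      refine Finset.sum_congr rfl fun i _ => ?_
      refine (integral_cube (f := fun x => v t x i ^ 2) ?_).symm
      intro j x; simp only; rw [hv.periodic t ht j x]
    have cc : ∀ t, 0 ≤ t → ∀ l i, cosCoeff l (fun x => v t x i)
        = ∫ x in Dom, v t x i * Real.cos (ph l x) := fun t ht l i =>
      cosCoeff_eq (comp_periodic (hv.periodic t ht) i) l
    have cs : ∀ t, 0 ≤ t → ∀ l i, sinCoeff l (fun x => v t x i)
        = ∫ x in Dom, v t x i * Real.sin (ph l x) := fun t ht l i =>
      sinCoeff_eq (comp_periodic (hv.periodic t ht) i) l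
    have hC : ACurves K (fun k t i => ∫ x in Dom, v t x i * Real.cos (ph k x))
        (fun k t i => ∫ x in Dom, v t x i * Real.sin (ph k x)) := by
      refine ⟨?_, ?_, ?_, ?_, ?_, ?_, ?_⟩
      · exact fun k _ i => aapc_of (hv.aap_cos k i) fun t ht => cc t ht k i
      · exact fun k _ i => aapc_of (hv.aap_sin k i) fun t ht => cs t ht k i
      · exact fun k _ t ht =>
          (ph_coeff (hv.periodic t ht) (hv.memLp t ht) (hv.divFree t ht) k).1
      · exact fun k _ t ht =>
          (ph_coeff (hv.periodic t ht) (hv.memLp t ht) (hv.divFree t ht) k).2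
      · intro k _ t ht
        ext i
        simp only [ph_neg, Real.cos_neg]
      · intro k _ t ht
        ext i
        simp only [ph_neg, Real.sin_neg, mul_neg, Pi.neg_apply]
        rw [integral_neg]
      · intro t ht
        ext i
        simp only [ph_zero, Real.cos_zero, mul_one]
        rw [← integral_cube (comp_periodic (hv.periodic t ht) i),
          ← integral_cube (comp_periodic (hv.periodic 0 le_rfl) i), hv.mean t ht i,
          hv.mean 0 le_rfl i]
    obtain ⟨u, p, hsol, hclose⟩ := hnear _ _ hC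
    refine ⟨u, p, global_of_sol hsol, fun t ht => ?_⟩
    refine hclose t ht (v t) (hv.periodic t ht) (hv.memLp t ht) (hE' t ht) fun l _ i => ?_
    simp only [sub_self, abs_zero]
    exact ⟨hD.le, hD.le⟩
  · intro T v q hT hv
    obtain ⟨u, p, hsol, h1, h2⟩ := past_singularity hT hv hs hε
    exact ⟨u, p, global_of_sol hsol, h1, h2⟩

end Pool.Agent.Results.MP_b0497c_an.AllTimes
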