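import Pool.Agent.Zk27.UE.Static

/-!
# Approximation of periodic curves by trigonometric polynomials; directions
-/

open MeasureTheory Set
open scoped ENNReal NNReal Topology Pointwise ContDiff

set_option autoImplicit false

namespace Pool.Agent.Zk27.UE

open Pool.Agent.H708R2.EulerSign Pool.Agent.H708R2.EulerModes

/-- approximation of a continuous periodic function by trigonometric polynomials which have the
same value at the time `0` -/
lemma trig_approx {τ : ℝ} (hτ : 0 < τ) {f : ℝ → ℝ} (hf : Continuous f)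
    (hp : ∀ t, f (t + τ) = f t) {η : ℝ} (hη : 0 < η) :
    ∃ (S : Finset ℤ) (a b : ℤ → ℝ),
      (∀ t, |f t - ∑ n ∈ S, (a n * Real.cos (2 * Real.pi * n / τ * t)
        + b n * Real.sin (2 * Real.pi * n / τ * t))| ≤ η) ∧ f 0 = ∑ n ∈ S, a n := by
  have : Fact (0 < τ) := ⟨hτ⟩
  have hper : Function.Periodic f τ := hp
  have hcont : Continuous (hper.lift : AddCircle τ → ℝ) := by
    refine continuous_coinduced_dom.2 ?_
    exact hf
  let F : C(AddCircle τ, ℂ) := ⟨fun x => (hper.lift x : ℂ), Complex.continuous_ofReal.comp hcont⟩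
  have hF : ∀ t : ℝ, F (t : AddCircle τ) = (f t : ℂ) := fun t => rfl
  have hmem : F ∈ (Submodule.span ℂ (range <| @fourier τ)).topologicalClosure := by
    rw [span_fourier_closure_eq_top]; trivial
  rw [← SetLike.mem_coe, Submodule.topologicalClosure_coe, Metric.mem_closure_iff] at hmem
  obtain ⟨g, hg, hdist⟩ := hmem (η / 2) (by positivity)
  rw [SetLike.mem_coe, Finsupp.mem_span_range_iff_exists_finsupp] at hg
  obtain ⟨c, hc⟩ := hg
  have hgt : ∀ t : ℝ, (g (t : AddCircle τ)).re = ∑ n ∈ insert 0 c.support,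
      ((c n).re * Real.cos (2 * Real.pi * n / τ * t)
        + (-(c n).im) * Real.sin (2 * Real.pi * n / τ * t)) := by
    intro t
    have h1 : g (t : AddCircle τ) = ∑ n ∈ insert 0 c.support,
        c n * Complex.exp ((2 * Real.pi * n / τ * t : ℝ) * Complex.I) := by
      rw [← hc, Finsupp.sum_of_support_subset c (Finset.subset_insert 0 c.support) _
        (by intro i _; simp)]
      rw [ContinuousMap.coe_sum, Finset.sum_apply]
      refine Finset.sum_congr rfl fun n _ => ?_
      rw [ContinuousMap.smul_apply, smul_eq_mul, fourier_coe_apply]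
      congr 2
      push_cast
      ring
    rw [h1, Complex.re_sum]
    refine Finset.sum_congr rfl fun n _ => ?_
    rw [Complex.mul_re, Complex.exp_ofReal_mul_I_re, Complex.exp_ofReal_mul_I_im]
    ring
  have hclose : ∀ t : ℝ, |f t - (g (t : AddCircle τ)).re| ≤ η / 2 := by
    intro t
    have h1 := ContinuousMap.dist_apply_le_dist (f := F) (g := g) (t : AddCircle τ)
    have h2 : |f t - (g (t : AddCircle τ)).re| ≤ dist (F t) (g t) := by
      rw [hF, Complex.dist_eq]
      have := Complex.abs_re_le_norm ((f t : ℂ) - g (t : AddCircle τ))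
      simpa using this
    linarith
  set S := insert 0 c.support with hS
  set d : ℝ := f 0 - ∑ n ∈ S, (c n).re with hd
  have hd1 : |d| ≤ η / 2 := by
    have h1 := hclose 0
    have h2 : (g ((0 : ℝ) : AddCircle τ)).re = ∑ n ∈ S, (c n).re := by
      rw [hgt]
      refine Finset.sum_congr rfl fun n _ => ?_
      simp
    rw [h2] at h1
    exact h1
  have h0S : (0 : ℤ) ∈ S := Finset.mem_insert_self _ _
  refine ⟨S, fun n => (c n).re + if n = 0 then d else 0, fun n => -(c n).im, ?_, ?_⟩
  · intro t
    have e : ∑ n ∈ S, (((c n).re + if n = 0 then d else 0) * Real.cos (2 * Real.pi * n / τ * t)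
        + -(c n).im * Real.sin (2 * Real.pi * n / τ * t)) = (g (t : AddCircle τ)).re + d := by
      rw [hgt]
      have h1 : ∀ n : ℤ, ((c n).re + if n = 0 then d else 0) * Real.cos (2 * Real.pi * n / τ * t)
          + -(c n).im * Real.sin (2 * Real.pi * n / τ * t)
          = ((c n).re * Real.cos (2 * Real.pi * n / τ * t)
            + (-(c n).im) * Real.sin (2 * Real.pi * n / τ * t)) + if n = 0 then d else 0 := by
        intro n
        split_ifs with h
        · subst h; simp
        · ring
      simp only [h1]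
      rw [Finset.sum_add_distrib, Finset.sum_ite_eq' S 0 (fun _ => d), if_pos h0S]
    rw [e]
    have h1 := hclose t
    have h2 : f t - ((g (t : AddCircle τ)).re + d) = (f t - (g (t : AddCircle τ)).re) - d := by ring
    rw [h2]
    exact (abs_sub _ _).trans (by linarith)
  · rw [Finset.sum_add_distrib, Finset.sum_ite_eq' S 0 (fun _ => d), if_pos h0S]
    rw [hd]; ring

/-- the directions orthogonal to `k`, and the coordinates -/
lemma dirs (k : Fin 3 → ℤ) : ∃ (ξ : Fin 3 → Fin 3 → ℤ) (c : Fin 3 → (V →ₗ[ℝ] ℝ)),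
    (∀ j, ξ j ≠ 0) ∧ (∀ j, dt (rv k) (rv (ξ j)) = 0) ∧
    (∀ A : V, ph k A = 0 → ∀ i, A i = ∑ j, c j A * (ξ j i : ℝ)) := by
  by_cases hk : k = 0
  · subst hk
    refine ⟨fun j => Pi.single j 1, fun j => LinearMap.proj j, ?_, ?_, ?_⟩
    · intro j h
      have := congrFun h j
      simp at this
    · intro j
      simp [dt, rv]
    · intro A _ i
      rw [Finset.sum_eq_single i]
      · simp
      · intro j _ hj
        have : (Pi.single j 1 : Fin 3 → ℤ) i = 0 := by simp [hj.symm]
        show A j * (((Pi.single j 1 : Fin 3 → ℤ) i : ℤ) : ℝ) = 0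
        rw [this]; simp
      · intro h; exact absurd (Finset.mem_univ _) h
  · obtain ⟨p, hp⟩ : ∃ p, k p ≠ 0 := by
      by_contra hcon
      push Not at hcon
      exact hk (funext hcon)
    have hpr : (k p : ℝ) ≠ 0 := by exact_mod_cast hp
    obtain ⟨n1, n2, n3, n4, n5, n6⟩ := fin3_ne p
    have hmk1 : mk3 p (-k (p + 1)) (k p) 0 ≠ 0 := by
      intro h
      have := congrFun h (p + 1)
      rw [mk3_q] at this
      exact hp this
    have hmk2 : mk3 p (-k (p + 2)) 0 (k p) ≠ 0 := by
      intro h
      have := congrFun h (p + 2)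
      rw [mk3_r] at this
      exact hp this
    refine ⟨![mk3 p (-k (p + 1)) (k p) 0, mk3 p (-k (p + 2)) 0 (k p),
      mk3 p (-k (p + 1)) (k p) 0],
      ![(k p : ℝ)⁻¹ • LinearMap.proj (p + 1), (k p : ℝ)⁻¹ • LinearMap.proj (p + 2), 0], ?_, ?_, ?_⟩
    · intro j
      fin_cases j
      · exact hmk1
      · exact hmk2
      · exact hmk1
    · have e1 : dt (rv k) (rv (mk3 p (-k (p + 1)) (k p) 0)) = 0 := by
        rw [dt_eq3 _ _ p, rv_mk3_p, rv_mk3_q, rv_mk3_r]
        simp only [rv]
        push_cast; ring
      have e2 : dt (rv k) (rv (mk3 p (-k (p + 2)) 0 (k p))) = 0 := by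
        rw [dt_eq3 _ _ p, rv_mk3_p, rv_mk3_q, rv_mk3_r]
        simp only [rv]
        push_cast; ring
      intro j
      fin_cases j
      · exact e1
      · exact e2
      · exact e1
    · intro A hA
      rw [ph_eq _ _ p] at hA
      have key : A = fun i => ((k p : ℝ)⁻¹ * A (p + 1)) * (mk3 p (-k (p + 1)) (k p) 0 i : ℤ)
          + ((k p : ℝ)⁻¹ * A (p + 2)) * (mk3 p (-k (p + 2)) 0 (k p) i : ℤ) := by
        refine ext3 p ?_ ?_ ?_
        · rw [mk3_p, mk3_p]
          field_simp
          push_cast
          linarith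
        · rw [mk3_q, mk3_q]
          field_simp
          push_cast
          ring
        · rw [mk3_r, mk3_r]
          field_simp
          push_cast
          ring
      intro i
      rw [Fin.sum_univ_three]
      have h := congrFun key i
      rw [h]
      simp

end Pool.Agent.Zk27.UE
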