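import Pool.Agent.Zk27.UE.Mean

/-!
# Solutions in one tube with prescribed low modes
-/

open MeasureTheory Set
open scoped ENNReal NNReal Topology Pointwise ContDiff

set_option autoImplicit false

namespace Pool.Agent.Zk27.UE

open Pool.Agent.H708R2.EulerSign Pool.Agent.H708R2.EulerModes
open Pool.Agent.R739.ET (RP pA pA_rp pA_pos fine_resc periodic_resc)

/-- a solution in a tube whose low modes are those of
`(a cos (ν t) + b sin (ν t)) cos (k · x - φ) ξ` -/
structure Atom (ξ k : Fin 3 → ℤ) (φ a b ν : ℝ) (c : V) (δ : ℝ) (N : ℕ) (C : ℝ)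
    (F : ℝ → V → V) (P : V → ℝ) : Prop where
  sol : Sol F P
  supp : ∀ t x, δ ≤ nr (Z ξ c N x) → F t x = 0
  bound : ∀ t x i, |F t x i| ≤ C * N
  modes : ∀ t (l : Fin 3 → ℤ), (∀ i, |l i| + |k i| < N) → ∀ (i : Fin 3) (ψ : ℝ),
    ∫ x in Dom, F t x i * Real.cos (ph l x - ψ)
      = (a * Real.cos (ν * t) + b * Real.sin (ν * t)) * ξ i *
        ∫ x in Dom, Real.cos (ph k x - φ) * Real.cos (ph l x - ψ)
  tper : ∀ τ : ℝ, (∃ m : ℤ, ν * τ = m * (2 * Real.pi)) → ∀ t, F (t + τ) = F t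

/-- the inner cut-off -/
noncomputable def Ac (δ R : ℝ) : ℝ := Real.smoothTransition ((δ - R) / (δ / 2))

lemma Ac_rp {δ : ℝ} (hδ : 0 < δ) : RP δ (Ac δ) := by
  refine ⟨?_, fun R hR => ?_⟩
  · exact Real.smoothTransition.contDiff.comp ((contDiff_const.sub contDiff_id).div_const _)
  · exact Real.smoothTransition.zero_of_nonpos
      (div_nonpos_of_nonpos_of_nonneg (by linarith) (by linarith))

lemma Ac_one {δ R : ℝ} (hδ : 0 < δ) (hR : R ≤ δ / 2) : Ac δ R = 1 := by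
  apply Real.smoothTransition.one_of_one_le
  rw [le_div_iff₀ (by positivity)]
  linarith

lemma Ac_abs (δ R : ℝ) : |Ac δ R| ≤ 1 := by
  have h1 := Real.smoothTransition.nonneg ((δ - R) / (δ / 2))
  have h2 := Real.smoothTransition.le_one ((δ - R) / (δ / 2))
  unfold Ac
  rw [abs_of_nonneg h1]; exact h2

lemma pA_nonneg (d R : ℝ) : 0 ≤ pA d R := expNegInvGlue.nonneg _

lemma pA_le (d R : ℝ) : pA d R ≤ 1 := by
  unfold pA expNegInvGlue
  split_ifs with h
  · exact zero_le_one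
  · push Not at h
    rw [Real.exp_le_one_iff]
    exact neg_nonpos.2 (inv_nonneg.2 h.le)

lemma pA_abs (d R : ℝ) : |pA d R| ≤ 1 := by rw [abs_of_nonneg (pA_nonneg d R)]; exact pA_le d R

section

variable {ξ k : Fin 3 → ℤ} {c : V} {N : ℕ}

/-- the first moments -/
noncomputable def mu (B : ℝ → ℝ) (ξ : Fin 3 → ℤ) (c κ r : V) : ℝ :=
  ∫ x in Dom, B (nr (Z ξ c 1 x)) * dt r (Z ξ c 1 x) * Real.sin (dt κ (Z ξ c 1 x))

lemma gz_cont {g : V → ℝ} (hg : Continuous g) (hvan : ∀ z, 1 ≤ nr z → g z = 0) (N : ℕ) :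
    Continuous (fun x => g (Z ξ c N x)) :=
  (glue_contDiff' ξ c N g hvan (contDiff_zero.2 hg)).continuous

lemma gz_per (g : V → ℝ) (N : ℕ) : Periodic3 (fun x => g (Z ξ c N x)) := by
  intro i x; simp only; rw [Z_periodic ξ c N i x]

lemma gz_int {g : V → ℝ} (hg : Continuous g) (hvan : ∀ z, 1 ≤ nr z → g z = 0) (N : ℕ) :
    IntegrableOn (fun x => g (Z ξ c N x)) Dom :=
  (gz_per g N).integrableOn (gz_cont hg hvan N)

lemma gz_dilate {g : V → ℝ} (hg : Continuous g) (hvan : ∀ z, 1 ≤ nr z → g z = 0) (hN : 0 < N) :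
    ∫ x in Dom, g (Z ξ c N x) = ∫ x in Dom, g (Z ξ c 1 x) := by
  rw [← integral_dilate (gz_per g 1) (gz_cont hg hvan 1) hN]
  refine integral_congr_ae (Filter.Eventually.of_forall fun x => ?_)
  simp only
  rw [Z_one]

variable {δ : ℝ} {B : ℝ → ℝ}

lemma g2_cont (hB : RP δ B) (κ r : V) :
    Continuous (fun z => B (nr z) * dt r z * Real.sin (dt κ z)) :=
  ((hB.smooth.continuous.comp (nr_contDiff (n := 0)).continuous).mul
    (dt_contDiff r (n := 0)).continuous).mul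
    (Real.continuous_sin.comp (dt_contDiff κ (n := 0)).continuous)

lemma g2_van (hB : RP δ B) (hδ : δ ≤ 1) (κ r z : V) (hz : 1 ≤ nr z) :
    B (nr z) * dt r z * Real.sin (dt κ z) = 0 := by
  rw [hB.van _ (hδ.trans hz)]; ring

lemma g1_cont (hB : RP δ B) (κ r : V) :
    Continuous (fun z => B (nr z) * dt r z * Real.cos (dt κ z)) :=
  ((hB.smooth.continuous.comp (nr_contDiff (n := 0)).continuous).mul
    (dt_contDiff r (n := 0)).continuous).mul
    (Real.continuous_cos.comp (dt_contDiff κ (n := 0)).continuous)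

lemma g1_van (hB : RP δ B) (hδ : δ ≤ 1) (κ r z : V) (hz : 1 ≤ nr z) :
    B (nr z) * dt r z * Real.cos (dt κ z) = 0 := by
  rw [hB.van _ (hδ.trans hz)]; ring

lemma mu_lin (hB : RP δ B) (hδ : δ ≤ 1) (κ r s : V) (x y : ℝ) :
    mu B ξ c κ (x • r + y • s) = x * mu B ξ c κ r + y * mu B ξ c κ s := by
  unfold mu
  rw [← integral_const_mul, ← integral_const_mul, ← integral_add]
  · refine integral_congr_ae (Filter.Eventually.of_forall fun z => ?_)
    simp only
    rw [dt_add_left, dt_smul_left, dt_smul_left]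
    ring
  · exact (gz_int (g2_cont hB κ r) (g2_van hB hδ κ r) 1).const_mul _
  · exact (gz_int (g2_cont hB κ s) (g2_van hB hδ κ s) 1).const_mul _

/-- the modes of the rotating axial velocity -/
lemma wR_modes (hξ : ξ ≠ 0) (hc : dt (rv ξ) c = 0) (hB : RP δ B) (hδ : δ ≤ 1) (hN : 0 < N)
    (φ : ℝ) (κ r₀ : V) (ν t : ℝ) {l : Fin 3 → ℤ} (hkl : ∀ i, |l i| + |k i| < N) (ψ : ℝ) :
    ∫ x in Dom, wR B ξ k φ κ r₀ c N ν t x * Real.cos (ph l x - ψ)
      = mu B ξ c κ (rt ξ r₀ ν t) / vl *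
        ∫ x in Dom, Real.cos (ph k x - φ) * Real.cos (ph l x - ψ) := by
  set r := rt ξ r₀ ν t with hr
  set h1 : V → ℝ := fun x => B (nr (Z ξ c N x)) * dt r (Z ξ c N x) * Real.cos (dt κ (Z ξ c N x))
    with hh1
  set h2 : V → ℝ := fun x => B (nr (Z ξ c N x)) * dt r (Z ξ c N x) * Real.sin (dt κ (Z ξ c N x))
    with hh2
  have p1 : Periodic3 h1 := gz_per (fun z => B (nr z) * dt r z * Real.cos (dt κ z)) N
  have p2 : Periodic3 h2 := gz_per (fun z => B (nr z) * dt r z * Real.sin (dt κ z)) N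
  have c1 : Continuous h1 := gz_cont (g1_cont hB κ r) (g1_van hB hδ κ r) N
  have c2 : Continuous h2 := gz_cont (g2_cont hB κ r) (g2_van hB hδ κ r) N
  have f1 : ∀ (i : Fin 3) (x : V), h1 (x + Pi.single i (2 * Real.pi / N)) = h1 x := by
    intro i x; simp only [hh1]; rw [Z_fine ξ c hN i x]
  have f2 : ∀ (i : Fin 3) (x : V), h2 (x + Pi.single i (2 * Real.pi / N)) = h2 x := by
    intro i x; simp only [hh2]; rw [Z_fine ξ c hN i x]
  have m1 : ∫ x in Dom, h1 x = 0 := by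
    refine odd_mean hξ hc (g := fun z => B (nr z) * dt r z * Real.cos (dt κ z)) ?_
      (g1_van hB hδ κ r) (g1_cont hB κ r) hN
    intro z
    have e1 : dt r (-z) = -dt r z := by unfold dt; simp only [Pi.neg_apply]; ring
    have e2 : dt κ (-z) = -dt κ z := by unfold dt; simp only [Pi.neg_apply]; ring
    rw [nr_neg, e1, e2, Real.cos_neg]
    ring
  have m2 : ∫ x in Dom, h2 x = mu B ξ c κ r :=
    gz_dilate (g2_cont hB κ r) (g2_van hB hδ κ r) hN
  have e : ∀ x, wR B ξ k φ κ r₀ c N ν t x * Real.cos (ph l x - ψ)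
      = h2 x * (Real.cos (ph k x - φ) * Real.cos (ph l x - ψ))
        - h1 x * (Real.cos (ph k x - (φ + Real.pi / 2)) * Real.cos (ph l x - ψ)) := by
    intro x
    have e1 : Real.cos (ph k x - (φ + Real.pi / 2)) = Real.sin (ph k x - φ) := by
      have : ph k x - (φ + Real.pi / 2) = (ph k x - φ) - Real.pi / 2 := by ring
      rw [this, Real.cos_sub_pi_div_two]
    rw [e1]
    simp only [hh1, hh2]
    unfold wR Fw
    rw [Real.sin_sub (ph k x - φ)]
    ring
  have pp : ∀ φ', Periodic3 (fun x => Real.cos (ph k x - φ') * Real.cos (ph l x - ψ)) :=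
    fun φ' => Periodic3.mul' (cosp_periodic k φ') (cosp_periodic l ψ)
  have cc : ∀ φ', Continuous (fun x : V => Real.cos (ph k x - φ') * Real.cos (ph l x - ψ)) :=
    fun φ' => (cosp_cont k φ').mul (cosp_cont l ψ)
  simp only [e]
  rw [integral_sub ((Periodic3.mul' p2 (pp φ)).integrableOn (c2.mul (cc φ)))
    ((Periodic3.mul' p1 (pp _)).integrableOn (c1.mul (cc _))),
    fine_prod p2 c2 hN f2 hkl, fine_prod p1 c1 hN f1 hkl, m1, m2]
  ring

/-- the modes of the swirl vanish -/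
lemma Sw_modes {A : ℝ → ℝ} (hξ : ξ ≠ 0) (hc : dt (rv ξ) c = 0) (hA : RP δ A) (hδ : δ ≤ 1)
    (hN : 0 < N) {l : Fin 3 → ℤ} (hl : ∀ i, |l i| < N) (i : Fin 3) (ψ : ℝ) :
    ∫ x in Dom, Sw A ξ c N x i * Real.cos (ph l x - ψ) = 0 := by
  set h1 : V → ℝ := fun x => A (nr (Z ξ c N x)) * Z ξ c N x i with hh1
  have gc : Continuous (fun z : V => A (nr z) * z i) :=
    (hA.smooth.continuous.comp (nr_contDiff (n := 0)).continuous).mul (continuous_apply i)
  have gv : ∀ z : V, 1 ≤ nr z → A (nr z) * z i = 0 := by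
    intro z hz; rw [hA.van _ (hδ.trans hz)]; ring
  have p1 : Periodic3 h1 := gz_per (fun z => A (nr z) * z i) N
  have c1 : Continuous h1 := gz_cont gc gv N
  have f1 : ∀ (i : Fin 3) (x : V), h1 (x + Pi.single i (2 * Real.pi / N)) = h1 x := by
    intro i x; simp only [hh1]; rw [Z_fine ξ c hN i x]
  have m1 : ∫ x in Dom, h1 x = 0 := by
    refine odd_mean hξ hc (g := fun z => A (nr z) * z i) ?_ gv gc hN
    intro z
    rw [nr_neg, Pi.neg_apply]
    ring
  have h := fine_mean p1 c1 hN f1 hl ψ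
  rw [m1, zero_div, zero_mul] at h
  exact h

end

end Pool.Agent.Zk27.UE
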