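import Pool.Agent.Zk27.UE.Comb

/-!
# The rotating axial velocity
-/

open MeasureTheory Set
open scoped ENNReal NNReal Topology Pointwise ContDiff

set_option autoImplicit false

namespace Pool.Agent.Zk27.UE

open Pool.Agent.H708R2.EulerSign Pool.Agent.H708R2.EulerModes
open Pool.Agent.R739.ET (RP prim prim_hasDerivAt)

/-- the axial velocity as a function of the point and of the wrapped coordinates -/
noncomputable def Fw (B : ℝ → ℝ) (k : Fin 3 → ℤ) (φ : ℝ) (κ r : V) (x z : V) : ℝ :=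
  -(B (nr z) * dt r z * Real.sin (ph k x - φ - dt κ z))

section

variable {δ : ℝ} {B : ℝ → ℝ} (k : Fin 3 → ℤ) (φ : ℝ) (κ r : V)

lemma Fw_van (hB : RP δ B) (hδ : δ ≤ 1) (x z : V) (hz : 1 ≤ nr z) : Fw B k φ κ r x z = 0 := by
  unfold Fw
  rw [hB.van _ (hδ.trans hz)]
  ring

lemma Fw_smooth (hB : RP δ B) :
    ContDiff ℝ ∞ (fun q : (V × V) × V => Fw B k φ κ q.1.1 q.1.2 q.2) := by
  have h1 : ContDiff ℝ ∞ (fun q : (V × V) × V => B (nr q.2)) :=
    hB.smooth.comp (nr_contDiff.comp contDiff_snd)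
  have h2 : ContDiff ℝ ∞ (fun q : (V × V) × V => dt q.1.1 q.2) := by
    have hr : ∀ i : Fin 3, ContDiff ℝ ∞ (fun q : (V × V) × V => q.1.1 i) := fun i =>
      (contDiff_apply ℝ ℝ i).comp (contDiff_fst.comp contDiff_fst)
    have hz : ∀ i : Fin 3, ContDiff ℝ ∞ (fun q : (V × V) × V => q.2 i) := fun i =>
      (contDiff_apply ℝ ℝ i).comp contDiff_snd
    unfold dt
    exact (((hr 0).mul (hz 0)).add ((hr 1).mul (hz 1))).add ((hr 2).mul (hz 2))
  have h3 : ContDiff ℝ ∞ (fun q : (V × V) × V => Real.sin (ph k q.1.2 - φ - dt κ q.2)) :=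
    Real.contDiff_sin.comp ((((ph_contDiff k).comp (contDiff_snd.comp contDiff_fst)).sub
      contDiff_const).sub ((dt_contDiff κ).comp contDiff_snd))
  exact ((h1.mul h2).mul h3).neg

lemma Fw_hasFDerivAt (hB : RP δ B) (x z : V) :
    HasFDerivAt (fun q : V × V => Fw B k φ κ r q.1 q.2)
      (-((B (nr z) * dt r z) • (Real.cos (ph k x - φ - dt κ z) •
          ((dtL (rv k)).comp (ContinuousLinearMap.fst ℝ V V)
            - (dtL κ).comp (ContinuousLinearMap.snd ℝ V V)))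
        + Real.sin (ph k x - φ - dt κ z) • (B (nr z) • (dtL r).comp (ContinuousLinearMap.snd ℝ V V)
          + dt r z • ((deriv B (nr z)) • ((2 : ℝ) • dtL z)).comp
              (ContinuousLinearMap.snd ℝ V V)))) (x, z) := by
  have h1 : HasFDerivAt (fun q : V × V => B (nr q.2))
      (((deriv B (nr z)) • ((2 : ℝ) • dtL z)).comp (ContinuousLinearMap.snd ℝ V V)) (x, z) := by
    have h : HasFDerivAt (fun y => B (nr y)) ((deriv B (nr z)) • ((2 : ℝ) • dtL z))
        ((fun q : V × V => q.2) (x, z)) := (hB.hasDerivAt _).comp_hasFDerivAt z (nr_hasFDerivAt z)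
    exact h.comp (x, z) hasFDerivAt_snd
  have h2 : HasFDerivAt (fun q : V × V => dt r q.2)
      ((dtL r).comp (ContinuousLinearMap.snd ℝ V V)) (x, z) := by
    have h : HasFDerivAt (dt r) (dtL r) ((fun q : V × V => q.2) (x, z)) := dt_hasFDerivAt r z
    exact h.comp (x, z) hasFDerivAt_snd
  have h3 : HasFDerivAt (fun q : V × V => ph k q.1 - φ - dt κ q.2)
      ((dtL (rv k)).comp (ContinuousLinearMap.fst ℝ V V)
            - (dtL κ).comp (ContinuousLinearMap.snd ℝ V V)) (x, z) := by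
    have ha : HasFDerivAt (ph k) (dtL (rv k)) ((fun q : V × V => q.1) (x, z)) := by
      have e : ph k = dt (rv k) := by ext y; exact ph_eq_dt k y
      rw [e]
      exact dt_hasFDerivAt (rv k) x
    have hb : HasFDerivAt (dt κ) (dtL κ) ((fun q : V × V => q.2) (x, z)) := dt_hasFDerivAt κ z
    exact ((ha.comp (x, z) hasFDerivAt_fst).sub_const φ).sub (hb.comp (x, z) hasFDerivAt_snd)
  have h4 : HasFDerivAt (fun q : V × V => Real.sin (ph k q.1 - φ - dt κ q.2))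
      (Real.cos (ph k x - φ - dt κ z) • ((dtL (rv k)).comp (ContinuousLinearMap.fst ℝ V V)
            - (dtL κ).comp (ContinuousLinearMap.snd ℝ V V))) (x, z) :=
    h3.sin
  exact ((h1.mul h2).mul h4).neg

end

section

variable {δ : ℝ} {A B : ℝ → ℝ} (ξ k : Fin 3 → ℤ) (φ : ℝ) (κ r₀ : V) (c : V) (N : ℕ) (ν : ℝ)

/-- the second direction -/
noncomputable def r1 (ξ : Fin 3 → ℤ) (r₀ : V) : V := (Real.sqrt (q ξ))⁻¹ • J ξ r₀

/-- the rotating direction -/
noncomputable def rt (ξ : Fin 3 → ℤ) (r₀ : V) (ν t : ℝ) : V :=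
  Real.cos (ν * t) • r₀ + Real.sin (ν * t) • r1 ξ r₀

lemma J_rt {ξ : Fin 3 → ℤ} (hξ : ξ ≠ 0) {r₀ : V} (hr : dt (rv ξ) r₀ = 0) (t : ℝ) :
    J ξ (rt ξ r₀ ν t) = Real.sqrt (q ξ) •
      (Real.cos (ν * t) • r1 ξ r₀ - Real.sin (ν * t) • r₀) := by
  have hq := q_pos hξ
  have hs : 0 < Real.sqrt (q ξ) := Real.sqrt_pos.2 hq
  have hss : Real.sqrt (q ξ) * Real.sqrt (q ξ) = q ξ := Real.mul_self_sqrt hq.le
  unfold rt
  rw [map_add, map_smul, map_smul]
  have h1 : J ξ r₀ = Real.sqrt (q ξ) • r1 ξ r₀ := by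
    unfold r1
    rw [smul_smul, mul_inv_cancel₀ hs.ne', one_smul]
  have h2 : J ξ (r1 ξ r₀) = -(Real.sqrt (q ξ)) • r₀ := by
    unfold r1
    rw [map_smul, JJ ξ r₀ hr, smul_smul]
    congr 1
    field_simp
    linarith
  rw [h2, h1]
  module

lemma rt_hasDerivAt (r₀ : V) (t : ℝ) (z : V) : HasDerivAt (fun s => dt (rt ξ r₀ ν s) z)
    (ν * dt (Real.cos (ν * t) • r1 ξ r₀ - Real.sin (ν * t) • r₀) z) t := by
  have h1 : ∀ s, dt (rt ξ r₀ ν s) z = Real.cos (ν * s) * dt r₀ z + Real.sin (ν * s) *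
      dt (r1 ξ r₀) z := by
    intro s; unfold rt; rw [dt_add_left, dt_smul_left, dt_smul_left]
  simp only [h1]
  have h0 : HasDerivAt (fun s : ℝ => ν * s) ν t := by
    simpa using (hasDerivAt_id t).const_mul ν
  have h2 := (h0.cos.mul_const (dt r₀ z)).add (h0.sin.mul_const (dt (r1 ξ r₀) z))
  refine h2.congr_deriv ?_
  have h3 : dt (Real.cos (ν * t) • r1 ξ r₀ - Real.sin (ν * t) • r₀) z
      = Real.cos (ν * t) * dt (r1 ξ r₀) z - Real.sin (ν * t) * dt r₀ z := by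
    unfold dt; simp only [Pi.sub_apply, Pi.smul_apply, smul_eq_mul]; ring
  rw [h3]; ring

/-- the rotating axial velocity -/
noncomputable def wR (B : ℝ → ℝ) (ξ k : Fin 3 → ℤ) (φ : ℝ) (κ r₀ c : V) (N : ℕ) (ν t : ℝ)
    (x : V) : ℝ := Fw B k φ κ (rt ξ r₀ ν t) x (Z ξ c N x)

variable {ξ k κ r₀ N ν}

/-- the rotating axial velocity is transported by the swirl -/
theorem wR_axial (hξ : ξ ≠ 0) (hN : 0 < N) (hk : dt (rv k) (rv ξ) = 0) (hr : dt (rv ξ) r₀ = 0)
    (hκ : (N : ℝ) • J ξ κ = -rv k) {δ' : ℝ} (hδ' : δ' ≤ δ) (hδ : δ ≤ 1) (hB : RP δ' B)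
    (hAB : ∀ R, B R = 0 ∨ A R = 1) :
    Axial δ A (ν / (N * Real.sqrt (q ξ))) ξ c N (wR B ξ k φ κ r₀ c N ν) := by
  have hδ'1 : δ' ≤ 1 := hδ'.trans hδ
  have hq := q_pos hξ
  have hs : 0 < Real.sqrt (q ξ) := Real.sqrt_pos.2 hq
  have hNr : (0 : ℝ) < N := by exact_mod_cast hN
  have hder : ∀ t x e, fderiv ℝ (wR B ξ k φ κ r₀ c N ν t) x e
      = -((B (nr (Z ξ c N x)) * dt (rt ξ r₀ ν t) (Z ξ c N x)) *
          (Real.cos (ph k x - φ - dt κ (Z ξ c N x)) * (dt (rv k) e - dt κ ((N : ℝ) • J ξ e)))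
        + Real.sin (ph k x - φ - dt κ (Z ξ c N x)) * (B (nr (Z ξ c N x)) *
            dt (rt ξ r₀ ν t) ((N : ℝ) • J ξ e)
          + dt (rt ξ r₀ ν t) (Z ξ c N x) * (deriv B (nr (Z ξ c N x)) *
            (2 * dt (Z ξ c N x) ((N : ℝ) • J ξ e))))) := by
    intro t x e
    have h := glue_hasFDerivAt ξ c N (fun x z => Fw B k φ κ (rt ξ r₀ ν t) x z)
      (fun x z hz => Fw_van k φ κ _ hB hδ'1 x z hz)
      (Fw_hasFDerivAt k φ κ (rt ξ r₀ ν t) hB x (Z ξ c N x))
    have h2 : fderiv ℝ (wR B ξ k φ κ r₀ c N ν t) x = _ := h.fderiv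
    rw [h2]
    simp only [dt_smul_right, ContinuousLinearMap.comp_apply, neg_apply, add_apply, sub_apply,
      smul_apply, dtL_apply, smul_eq_mul, ContinuousLinearMap.prod_apply,
      ContinuousLinearMap.coe_fst', ContinuousLinearMap.coe_snd', ContinuousLinearMap.id_apply]
  refine ⟨?_, ?_, ?_, ?_, ?_⟩
  · have h1 := gluej ξ c N (E₁ := V × V) (fun p z => Fw B k φ κ p.1 p.2 z)
      (fun p z hz => Fw_van k φ κ _ hB hδ'1 _ z hz) (Fw_smooth k φ κ hB)
    have hrt : ContDiff ℝ ∞ (fun z : ℝ × V => rt ξ r₀ ν z.1) := by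
      unfold rt
      have h3 : ContDiff ℝ ∞ (fun z : ℝ × V => ν * z.1) := contDiff_const.mul contDiff_fst
      exact ((Real.contDiff_cos.comp h3).smul contDiff_const).add
        ((Real.contDiff_sin.comp h3).smul contDiff_const)
    have h2 : ContDiff ℝ ∞ (fun z : ℝ × V => (((rt ξ r₀ ν z.1, z.2), z.2) : (V × V) × V)) :=
      (hrt.prodMk contDiff_snd).prodMk contDiff_snd
    have h3 := ContDiff.comp (g := fun q : (V × V) × V => Fw B k φ κ q.1.1 q.1.2 (Z ξ c N q.2))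
      h1 h2
    simp only [Function.comp_def] at h3
    unfold wR
    exact h3
  · intro t i x
    unfold wR Fw
    rw [Z_periodic ξ c N i x]
    have e : ph k (x + Pi.single i (2 * Real.pi)) - φ - dt κ (Z ξ c N x)
        = (ph k x - φ - dt κ (Z ξ c N x)) + (k i : ℝ) * (2 * Real.pi) := by
      rw [ph_add, ph_single]; ring
    rw [e, Real.sin_add_int_mul_two_pi]
  · intro t x
    rw [hder, J_rv, hk]
    simp [dt]
  · intro t x hx
    unfold wR Fw
    rw [hB.van _ (hδ'.trans hx)]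
    ring
  · intro t x
    have h1 : deriv (fun s => wR B ξ k φ κ r₀ c N ν s x) t
        = -(B (nr (Z ξ c N x)) * (ν * dt (Real.cos (ν * t) • r1 ξ r₀
            - Real.sin (ν * t) • r₀) (Z ξ c N x))
          * Real.sin (ph k x - φ - dt κ (Z ξ c N x))) := by
      have h := (((rt_hasDerivAt ξ ν r₀ t (Z ξ c N x)).const_mul
        (B (nr (Z ξ c N x)))).mul_const (Real.sin (ph k x - φ - dt κ (Z ξ c N x)))).neg
      exact h.deriv
    rw [h1, hder]
    have e1 : dt κ ((N : ℝ) • J ξ (Z ξ c N x)) = dt (rv k) (Z ξ c N x) := by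
      rw [dt_smul_right, dt_J, ← neg_mul_eq_mul_neg, ← dt_smul_left, hκ]
      simp [dt]
      ring
    have e2 : dt (Z ξ c N x) ((N : ℝ) • J ξ (Z ξ c N x)) = 0 := by
      rw [dt_smul_right, dt_J_self, mul_zero]
    have e3 : dt (rt ξ r₀ ν t) ((N : ℝ) • J ξ (Z ξ c N x))
        = -(N * Real.sqrt (q ξ) * dt (Real.cos (ν * t) • r1 ξ r₀
            - Real.sin (ν * t) • r₀) (Z ξ c N x)) := by
      rw [dt_smul_right, dt_J, J_rt ν hξ hr, dt_smul_left]
      ring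
    rw [e1, e2, e3]
    rcases hAB (nr (Z ξ c N x)) with h | h
    · rw [h]; ring
    · rw [h]
      field_simp
      ring

end

end Pool.Agent.Zk27.UE
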