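import Pool.Agent.Zk27.UE.Tube
import Pool.Agent.R739.ET.Uniq

/-!
# Superposition of solutions with disjoint supports, uniqueness
-/

open MeasureTheory Set
open scoped ENNReal NNReal Topology Pointwise ContDiff

set_option autoImplicit false

namespace Pool.Agent.Zk27.UE

open Pool.Agent.H708R2.EulerSign Pool.Agent.H708R2.EulerModes
open Pool.Agent.R739.ET (unique')

lemma Sol.diff {F : ℝ → V → V} {P : V → ℝ} (h : Sol F P) (t : ℝ) : Differentiable ℝ (F t) :=
  (slice h.smooth t).differentiable (by simp)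

theorem Sol.sum {ι : Type*} [Fintype ι] {F : ι → ℝ → V → V} {P : ι → V → ℝ}
    (h : ∀ j, Sol (F j) (P j)) (hd : ∀ i j, i ≠ j → ∀ t x, F i t x = 0 ∨ F j t x = 0) :
    Sol (fun t x => ∑ j, F j t x) (fun x => ∑ j, P j x) := by
  classical
  have hder : ∀ t x, HasFDerivAt (fun x => ∑ j, F j t x) (∑ j, fderiv ℝ (F j t) x) x := by
    intro t x
    exact HasFDerivAt.fun_sum fun j _ => ((h j).diff t x).hasFDerivAt
  have hcross : ∀ i j, i ≠ j → ∀ t x, fderiv ℝ (F j t) x (F i t x) = 0 := by
    intro i j hij t x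
    by_cases h0 : F i t x = 0
    · rw [h0, map_zero]
    · have hc : Continuous (F i t) := ((h i).diff t).continuous
      have h1 : ∀ᶠ y in 𝓝 x, F i t y ≠ 0 := hc.continuousAt.eventually_ne h0
      have h2 : F j t =ᶠ[𝓝 x] fun _ => 0 := by
        filter_upwards [h1] with y hy
        exact (hd i j hij t y).resolve_left hy
      rw [h2.fderiv_eq]
      simp
  refine ⟨ContDiff.sum fun j _ => (h j).smooth, ContDiff.sum fun j _ => (h j).psmooth, ?_, ?_, ?_,
    ?_⟩
  · intro t i x
    exact Finset.sum_congr rfl fun j _ => (h j).per t i x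
  · intro i x
    exact Finset.sum_congr rfl fun j _ => (h j).pper i x
  · intro t x
    rw [divergence_eq_sum, (hder t x).fderiv]
    simp only [sum_apply, Finset.sum_apply]
    rw [Finset.sum_comm]
    refine Finset.sum_eq_zero fun j _ => ?_
    have := (h j).div t x
    rwa [divergence_eq_sum] at this
  · intro t x i
    have h1 : deriv (fun s => ∑ j, F j s x) t = ∑ j, deriv (fun s => F j s x) t := by
      rw [deriv_fun_sum]
      intro j _
      exact (slice_t (h j).smooth x).differentiable (by simp) t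
    have h1' : deriv (fun s => (∑ j, F j s x) i) t = ∑ j, deriv (fun s => F j s x i) t := by
      have e : (fun s => (∑ j, F j s x) i) = fun s => ∑ j, F j s x i := by
        ext s; rw [Finset.sum_apply]
      rw [e, deriv_fun_sum]
      intro j _
      have h3 : ContDiff ℝ ∞ (fun s => F j s x i) :=
        (contDiff_apply ℝ ℝ i).comp (slice_t (h j).smooth x)
      exact h3.differentiable (by simp) t
    have h2 : fderiv ℝ (fun x => ∑ j, P j x) x = ∑ j, fderiv ℝ (P j) x := by
      refine (HasFDerivAt.fun_sum fun j _ => ?_).fderiv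
      exact ((h j).psmooth.differentiable (by simp) x).hasFDerivAt
    rw [h1', h2, (hder t x).fderiv]
    simp only [sum_apply, map_sum, Finset.sum_apply]
    have h3 : ∑ j, ∑ k, fderiv ℝ (F k t) x (F j t x) i
        = ∑ j, fderiv ℝ (F j t) x (F j t x) i := by
      refine Finset.sum_congr rfl fun j _ => ?_
      refine Finset.sum_eq_single j (fun k _ hk => ?_) (fun hj => absurd (Finset.mem_univ _) hj)
      rw [hcross j k (Ne.symm hk) t x]
      rfl
    rw [h3, ← Finset.sum_add_distrib, ← Finset.sum_neg_distrib]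
    exact Finset.sum_congr rfl fun j _ => (h j).mom t x i

theorem Sol.classical {F : ℝ → V → V} {P : V → ℝ} (h : Sol F P) :
    IsClassicalSolution univ F (fun _ => P) := by
  refine ⟨?_, ?_, fun t _ => h.per t, fun t _ => h.pper, fun t _ => h.div t, fun t _ x i => ?_⟩
  · exact (h.smooth.of_le (by exact_mod_cast le_top)).contDiffOn
  · exact ((h.psmooth.comp contDiff_snd).of_le (by exact_mod_cast le_top)).contDiffOn
  · rw [derivWithin_univ, sum_mul_clm]
    exact h.mom t x i

theorem Sol.unique {F : ℝ → V → V} {P : V → ℝ} (h : Sol F P) {T : ℝ} {w : ℝ → V → V}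
    {q : ℝ → V → ℝ} (hw : IsClassicalSolution (Ico 0 T) w q) {t₀ : ℝ} (ht₀ : t₀ ∈ Ico 0 T)
    (h0 : w t₀ = F t₀) : ∀ t ∈ Ico 0 T, w t = F t := by
  have hj := h.smooth
  have hg : ∀ (t : ℝ) (x : V), fderiv ℝ (F t) x
      = (fderiv ℝ (fun z : ℝ × V => F z.1 z.2) (t, x)).comp
        (ContinuousLinearMap.inr ℝ ℝ V) := by
    intro t x
    have h1 := (hj.differentiable (by simp) (t, x)).hasFDerivAt
    have h2 : HasFDerivAt (fun y : V => ((t, y) : ℝ × V)) (ContinuousLinearMap.inr ℝ ℝ V) x := by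
      have := (hasFDerivAt_const t x).prodMk (hasFDerivAt_id (𝕜 := ℝ) x)
      exact this
    exact (h1.comp x h2).fderiv
  have hcont : Continuous (fun z : ℝ × V =>
      ‖(fderiv ℝ (fun z : ℝ × V => F z.1 z.2) z).comp
        (ContinuousLinearMap.inr ℝ ℝ V)‖) :=
    ((hj.continuous_fderiv (by simp)).clm_comp continuous_const).norm
  have hK : IsCompact (Icc 0 T ×ˢ closure Dom) := isCompact_Icc.prod dom_bdd.isCompact_closure
  obtain ⟨C, hC⟩ := hK.exists_bound_of_continuousOn hcont.continuousOn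
  have hbd : ∀ t ∈ Icc 0 T, ∀ x, ‖fderiv ℝ (F t) x‖ ≤ C := by
    intro t ht x
    obtain ⟨g, hg1, -⟩ := dom_exists_unique x
    have hp := (h.per t).fderiv
    have h1 : fderiv ℝ (F t) x = fderiv ℝ (F t) (g +ᵥ x : V) := (lat_invariant hp g x).symm
    rw [h1, hg]
    have := hC (t, (g +ᵥ x : V)) ⟨ht, subset_closure hg1⟩
    rwa [norm_norm] at this
  have hK' : ∀ t ∈ Ico 0 T, ∀ x i j, |grad (F t) x i j| ≤ C := by
    intro t ht x i j
    have h1 := norm_le_pi_norm (fderiv ℝ (F t) x (Pi.single j 1)) i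
    have h2 := (fderiv ℝ (F t) x).le_opNorm (Pi.single j 1)
    have h3 : ‖(Pi.single j (1 : ℝ) : V)‖ ≤ 1 := by
      rw [pi_norm_le_iff_of_nonneg zero_le_one]
      intro k
      by_cases hk : k = j
      · subst hk; simp
      · simp [hk]
    have h4 := hbd t ⟨ht.1, ht.2.le⟩ x
    have h5 : ‖fderiv ℝ (F t) x‖ * ‖(Pi.single j (1 : ℝ) : V)‖ ≤ C * 1 :=
      mul_le_mul h4 h3 (norm_nonneg _) ((norm_nonneg _).trans h4)
    rw [mul_one] at h5
    exact (h1.trans h2).trans h5
  exact unique' hw (hj.of_le (by exact_mod_cast le_top)) (fun t => h.per t)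
    (fun t x => h.div t x) (p := fun _ => P)
    (fun _ => h.psmooth.of_le (by exact_mod_cast le_top))
    (fun _ => h.pper)
    (fun t x i => by rw [sum_mul_clm]; exact h.mom t x i) hK' ht₀ h0

end Pool.Agent.Zk27.UE
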