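import Pool.Agent.Zk27.UE.Step

/-!
# The Fourier coefficients of classical solutions are Lipschitz continuous
-/

open MeasureTheory Set
open scoped ENNReal NNReal Topology Pointwise ContDiff

set_option autoImplicit false

namespace Pool.Agent.Zk27.UE

open Pool.Agent.H708R2.EulerSign Pool.Agent.H708R2.EulerModes

section generic

variable {T : ℝ} {g : ℝ → V → ℝ}

lemma int_continuousOn (hg : ContDiffOn ℝ 1 (fun z : ℝ × V => g z.1 z.2) (Ico 0 T ×ˢ univ)) :
    ContinuousOn (fun t => ∫ x in Dom, g t x) (Ico 0 T) := by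
  intro t ht
  have hS := hg.continuousOn
  obtain ⟨b, hb1, hb2⟩ := exists_between ht.2
  have hK : IsCompact (Icc 0 b ×ˢ closure Dom) := isCompact_Icc.prod dom_bdd.isCompact_closure
  have hsub : Icc 0 b ×ˢ closure Dom ⊆ Ico 0 T ×ˢ (univ : Set V) :=
    prod_mono (fun s hs => ⟨hs.1, hs.2.trans_lt hb2⟩) (subset_univ _)
  obtain ⟨C, hC⟩ := hK.exists_bound_of_continuousOn (hS.mono hsub)
  have hev : ∀ᶠ s in 𝓝[Ico 0 T] t, s ∈ Icc 0 b := by
    have h1 : ∀ᶠ s in 𝓝[Ico 0 T] t, s < b := nhdsWithin_le_nhds (Iio_mem_nhds hb1)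
    filter_upwards [h1, self_mem_nhdsWithin] with s hs1 hs2
    exact ⟨hs2.1, hs1.le⟩
  refine continuousWithinAt_of_dominated (bound := fun _ => C) ?_ ?_ ?_ ?_
  · filter_upwards [hev] with s hs
    have : ContDiff ℝ 1 (g s) := contDiff_slice hg ⟨hs.1, hs.2.trans_lt hb2⟩
    exact this.continuous.aestronglyMeasurable
  · filter_upwards [hev] with s hs
    refine (ae_restrict_iff' dom_meas).2 (Filter.Eventually.of_forall fun x hx => ?_)
    exact hC (s, x) ⟨hs, subset_closure hx⟩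
  · exact integrableOn_const dom_lt_top.ne
  · refine Filter.Eventually.of_forall fun x => ?_
    have h1 : ContinuousWithinAt (fun z : ℝ × V => g z.1 z.2) (Ico 0 T ×ˢ univ) (t, x) :=
      hS (t, x) ⟨ht, mem_univ _⟩
    exact h1.comp (t := Ico 0 T ×ˢ univ) (f := fun s : ℝ => ((s, x) : ℝ × V))
      (by fun_prop) (fun s hs => ⟨hs, mem_univ _⟩)

lemma int_hasDerivAt (hg : ContDiffOn ℝ 1 (fun z : ℝ × V => g z.1 z.2) (Ico 0 T ×ˢ univ))
    {t : ℝ} (ht : t ∈ Ioo 0 T) : HasDerivAt (fun t => ∫ x in Dom, g t x)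
      (∫ x in Dom, fderiv ℝ (fun z : ℝ × V => g z.1 z.2) (t, x) (1, 0)) t := by
  obtain ⟨a, ha1, ha2⟩ := exists_between ht.1
  obtain ⟨b, hb1, hb2⟩ := exists_between ht.2
  have hO : IsOpen (Ioo 0 T ×ˢ (univ : Set V)) := isOpen_Ioo.prod isOpen_univ
  have hS1 : ContDiffOn ℝ 1 (fun z : ℝ × V => g z.1 z.2) (Ioo 0 T ×ˢ univ) :=
    hg.mono (prod_mono Ioo_subset_Ico_self subset_rfl)
  have hd : ContinuousOn (fun z : ℝ × V =>
      fderiv ℝ (fun z : ℝ × V => g z.1 z.2) z (1, 0)) (Ioo 0 T ×ˢ univ) :=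
    (hS1.continuousOn_fderiv_of_isOpen hO le_rfl).clm_apply continuousOn_const
  have hK : IsCompact (Icc a b ×ˢ closure Dom) := isCompact_Icc.prod dom_bdd.isCompact_closure
  have hsub : Icc a b ×ˢ closure Dom ⊆ Ioo 0 T ×ˢ (univ : Set V) :=
    prod_mono (fun s hs => ⟨ha1.trans_le hs.1, hs.2.trans_lt hb2⟩) (subset_univ _)
  obtain ⟨C, hC⟩ := hK.exists_bound_of_continuousOn (hd.mono hsub)
  have hslice : ∀ s ∈ Ioo 0 T, Continuous (g s) := fun s hs =>
    (contDiff_slice hg ⟨hs.1.le, hs.2⟩).continuous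
  have hnh : Icc a b ∈ 𝓝 t := Icc_mem_nhds ha2 hb1
  refine (hasDerivAt_integral_of_dominated_loc_of_deriv_le (s := Icc a b)
    (F := fun s x => g s x)
    (F' := fun s x => fderiv ℝ (fun z : ℝ × V => g z.1 z.2) (s, x) (1, 0))
    (bound := fun _ => C) (μ := volume.restrict Dom) hnh ?_ ?_ ?_ ?_ ?_ ?_).2
  · filter_upwards [Ioo_mem_nhds ht.1 ht.2] with s hs
    exact (hslice s hs).aestronglyMeasurable
  · have hcl : IntegrableOn (fun x => g t x) (closure Dom) :=
      (hslice t ht).continuousOn.integrableOn_compact dom_bdd.isCompact_closure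
    exact hcl.mono_set subset_closure
  · have : Continuous (fun x => fderiv ℝ (fun z : ℝ × V => g z.1 z.2) (t, x) (1, 0)) := by
      have h := hd.comp_continuous (f := fun x : V => ((t, x) : ℝ × V)) (by fun_prop)
        (fun x => ⟨ht, mem_univ _⟩)
      exact h
    exact this.aestronglyMeasurable
  · refine (ae_restrict_iff' dom_meas).2 (Filter.Eventually.of_forall fun x hx s hs => ?_)
    exact hC (s, x) ⟨hs, subset_closure hx⟩
  · exact integrableOn_const dom_lt_top.ne
  · refine Filter.Eventually.of_forall fun x s hs => ?_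
    have hs' : s ∈ Ioo 0 T := ⟨ha1.trans_le hs.1, hs.2.trans_lt hb2⟩
    have hmem : Ico 0 T ×ˢ (univ : Set V) ∈ 𝓝 (s, x) :=
      prod_mem_nhds (Ico_mem_nhds hs'.1 hs'.2) Filter.univ_mem
    have h1 : DifferentiableAt ℝ (fun z : ℝ × V => g z.1 z.2) (s, x) :=
      (hg.contDiffAt hmem).differentiableAt one_ne_zero
    have h2 : HasDerivAt (fun s : ℝ => ((s, x) : ℝ × V)) (1, 0) s :=
      (hasDerivAt_id s).prodMk (hasDerivAt_const s x)
    exact h1.hasFDerivAt.comp_hasDerivAt s h2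

end generic

section sol

variable {T : ℝ} {w : ℝ → V → V} {q : ℝ → V → ℝ}

/-- conservation of energy, as an inequality -/
lemma energy_le (hw : IsClassicalSolution (Ico 0 T) w q) {t : ℝ} (ht : t ∈ Ico 0 T) :
    ∫ x in Dom, sq3 (w t x) ≤ ∫ x in Dom, sq3 (w 0 x) := by
  obtain ⟨z₀, hz₀⟩ : ∃ z₀ : ℝ → V → V, z₀ = fun _ _ => 0 := ⟨_, rfl⟩
  have h0 : ContDiff ℝ 1 (fun z : ℝ × V => z₀ z.1 z.2) := by rw [hz₀]; exact contDiff_const
  have hcont := en_continuousOn hw h0
  have hanti : AntitoneOn (en w z₀) (Ico 0 T) := by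
    refine antitoneOn_of_deriv_nonpos (convex_Ico _ _) hcont ?_ ?_
    · intro s hs
      rw [interior_Ico] at hs
      exact (en_hasDerivAt hw h0 hs).differentiableAt.differentiableWithinAt
    · intro s hs
      rw [interior_Ico] at hs
      rw [(en_hasDerivAt hw h0 hs).deriv]
      have hz : ∀ t x, fderiv ℝ (z₀ t) x = 0 := fun t x => by rw [hz₀]; simp
      have h1 := en_deriv_le hw h0 (fun t i x => by rw [hz₀])
        (fun t x => by rw [divergence_eq_sum, hz]; simp)
        (fun t x i => by rw [hz]; simp [hz₀]) (K := 0)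
        (fun t _ x i j => by
          show |fderiv ℝ (z₀ t) x (Pi.single j 1) i| ≤ 0
          rw [hz]; simp) hs
      rw [mul_zero, zero_mul] at h1
      exact (le_abs_self _).trans h1
  have hT : 0 < T := ht.1.trans_lt ht.2
  have := hanti ⟨le_rfl, hT⟩ ht ht.1
  unfold en at this
  rw [hz₀] at this
  simpa using this

variable {Φ : V → V}

/-- the weak form of the equation -/
lemma weak_deriv (hw : IsClassicalSolution (Ico 0 T) w q) (hΦ : ContDiff ℝ 1 Φ)
    (hΦp : Periodic3 Φ) (hΦd : ∀ x, divergence Φ x = 0) {t : ℝ} (ht : t ∈ Ioo 0 T) :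
    HasDerivAt (fun t => ∫ x in Dom, ∑ i, w t x i * Φ x i)
      (∫ x in Dom, ∑ i, w t x i * fderiv ℝ Φ x (w t x) i) t := by
  have hg : ContDiffOn ℝ 1 (fun z : ℝ × V => ∑ i, w z.1 z.2 i * Φ z.2 i) (Ico 0 T ×ˢ univ) := by
    refine ContDiffOn.sum fun i _ => ?_
    have h1 : ContDiffOn ℝ 1 (fun z : ℝ × V => w z.1 z.2 i) (Ico 0 T ×ˢ univ) :=
      (contDiff_apply ℝ ℝ i).comp_contDiffOn hw.contDiffOn_u
    have h2 : ContDiff ℝ 1 (fun z : ℝ × V => Φ z.2 i) :=
      (contDiff_apply ℝ ℝ i).comp (hΦ.comp contDiff_snd)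
    exact h1.mul h2.contDiffOn
  have h1 := int_hasDerivAt (g := fun t x => ∑ i, w t x i * Φ x i) hg ht
  refine h1.congr_deriv ?_
  have htI : t ∈ Ico 0 T := ⟨ht.1.le, ht.2⟩
  have hwt : ContDiff ℝ 1 (w t) := contDiff_slice hw.contDiffOn_u htI
  have hqt : ContDiff ℝ 1 (q t) := contDiff_slice hw.contDiffOn_p htI
  have hwp := hw.periodic_u t htI
  have hqp := hw.periodic_p t htI
  have hd : ContDiff ℝ 1 (fun y => ∑ i, w t y i * Φ y i) :=
    ContDiff.sum fun i _ => ((contDiff_apply ℝ ℝ i).comp hwt).mul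
      ((contDiff_apply ℝ ℝ i).comp hΦ)
  -- the pointwise identity
  have key : ∀ x, fderiv ℝ (fun z : ℝ × V => ∑ i, w z.1 z.2 i * Φ z.2 i) (t, x) (1, 0)
      = (∑ i, w t x i * fderiv ℝ Φ x (w t x) i)
        - divergence (fun y => (∑ i, w t y i * Φ y i) • w t y) x
        - divergence (fun y => q t y • Φ y) x := by
    intro x
    have hmem : Ico 0 T ×ˢ (univ : Set V) ∈ 𝓝 (t, x) :=
      prod_mem_nhds (Ico_mem_nhds ht.1 ht.2) Filter.univ_mem
    have hline : HasDerivAt (fun s : ℝ => ((s, x) : ℝ × V)) (1, 0) t :=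
      (hasDerivAt_id t).prodMk (hasDerivAt_const t x)
    have hgd : DifferentiableAt ℝ (fun z : ℝ × V => ∑ i, w z.1 z.2 i * Φ z.2 i) (t, x) :=
      (hg.contDiffAt hmem).differentiableAt one_ne_zero
    have hA : HasDerivAt (fun s => ∑ i, w s x i * Φ x i)
        (fderiv ℝ (fun z : ℝ × V => ∑ i, w z.1 z.2 i * Φ z.2 i) (t, x) (1, 0)) t :=
      HasFDerivAt.comp_hasDerivAt (l := fun z : ℝ × V => ∑ i, w z.1 z.2 i * Φ z.2 i)
        (f := fun s : ℝ => ((s, x) : ℝ × V)) t hgd.hasFDerivAt hline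
    have hwtime : DifferentiableAt ℝ (fun s => w s x) t := by
      have h1 : DifferentiableAt ℝ (fun z : ℝ × V => w z.1 z.2) (t, x) :=
        (hw.contDiffOn_u.contDiffAt hmem).differentiableAt one_ne_zero
      exact (h1.hasFDerivAt.comp_hasDerivAt t hline).differentiableAt
    have hwi : ∀ i, HasDerivAt (fun s => w s x i)
        (-(fderiv ℝ (w t) x (w t x) i) - fderiv ℝ (q t) x (Pi.single i 1)) t := by
      intro i
      have h1 : HasDerivAt (fun s => w s x i) (deriv (fun s => w s x i) t) t :=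
        (hasDerivAt_pi.1 hwtime.hasDerivAt i).differentiableAt.hasDerivAt
      have h2 := hw.momentum t htI x i
      rw [derivWithin_of_mem_nhds (Ico_mem_nhds ht.1 ht.2), sum_mul_clm] at h2
      have h3 : deriv (fun s => w s x i) t
          = -(fderiv ℝ (w t) x (w t x) i) - fderiv ℝ (q t) x (Pi.single i 1) := by linarith
      rwa [h3] at h1
    have hB : HasDerivAt (fun s => ∑ i, w s x i * Φ x i)
        (∑ i, (-(fderiv ℝ (w t) x (w t x) i) - fderiv ℝ (q t) x (Pi.single i 1)) * Φ x i) t :=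
      HasDerivAt.fun_sum fun i _ => (hwi i).mul_const (Φ x i)
    rw [hA.unique hB]
    have dw : DifferentiableAt ℝ (w t) x := hwt.differentiable one_ne_zero x
    have dq : DifferentiableAt ℝ (q t) x := hqt.differentiable one_ne_zero x
    have dΦ : DifferentiableAt ℝ Φ x := hΦ.differentiable one_ne_zero x
    have dd : DifferentiableAt ℝ (fun y => ∑ i, w t y i * Φ y i) x :=
      hd.differentiable one_ne_zero x
    have hcomp : ∀ (f : V → V), DifferentiableAt ℝ f x → ∀ i, HasFDerivAt (fun y => f y i)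
        ((ContinuousLinearMap.proj i : V →L[ℝ] ℝ).comp (fderiv ℝ f x)) x := by
      intro f hf i
      exact (ContinuousLinearMap.proj (R := ℝ) (φ := fun _ : Fin 3 => ℝ) i).hasFDerivAt.comp x
        hf.hasFDerivAt
    have hD : fderiv ℝ (fun y => ∑ i, w t y i * Φ y i) x (w t x)
        = ∑ i, (w t x i * fderiv ℝ Φ x (w t x) i + Φ x i * fderiv ℝ (w t) x (w t x) i) := by
      have h1 : HasFDerivAt (fun y => ∑ i, w t y i * Φ y i)
          (∑ i, (w t x i • ((ContinuousLinearMap.proj i : V →L[ℝ] ℝ).comp (fderiv ℝ Φ x))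
            + Φ x i • ((ContinuousLinearMap.proj i : V →L[ℝ] ℝ).comp (fderiv ℝ (w t) x)))) x :=
        HasFDerivAt.fun_sum fun i _ => (hcomp _ dw i).mul (hcomp _ dΦ i)
      rw [h1.fderiv]
      simp
    rw [divergence_smul dd dw, divergence_smul dq dΦ, hw.div_free t htI, hΦd, mul_zero, mul_zero,
      zero_add, zero_add, hD, ← sum_mul_clm' (fderiv ℝ (q t) x)]
    rw [← Finset.sum_sub_distrib, ← Finset.sum_sub_distrib]
    refine Finset.sum_congr rfl fun i _ => ?_
    ring
  simp only [key]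
  have g1 : ContDiff ℝ 1 (fun y => (∑ i, w t y i * Φ y i) • w t y) := hd.smul hwt
  have g1p : Periodic3 (fun y => (∑ i, w t y i * Φ y i) • w t y) := by
    intro i x
    simp only
    rw [hwp i x, hΦp i x]
  have g2 : ContDiff ℝ 1 (fun y => q t y • Φ y) := hqt.smul hΦ
  have g2p : Periodic3 (fun y => q t y • Φ y) := by
    intro i x
    simp only
    rw [hqp i x, hΦp i x]
  have iD : ∀ {f : V → V}, ContDiff ℝ 1 f → Periodic3 f → IntegrableOn (divergence f) Dom := by
    intro f hf hfp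
    refine Periodic3.integrableOn (Periodic3.trace hfp) ?_
    exact (continuous_grad hf).matrix_trace
  have hΦ1 : Periodic3 (fun x => ∑ i, w t x i * fderiv ℝ Φ x (w t x) i) := by
    intro i x
    simp only
    rw [hwp i x, (hΦp.fderiv) i x]
  have hΦ2 : Continuous (fun x => ∑ i, w t x i * fderiv ℝ Φ x (w t x) i) := by
    refine continuous_finsetSum _ fun i _ => ?_
    exact ((continuous_apply i).comp hwt.continuous).mul ((continuous_apply i).comp
      ((hΦ.continuous_fderiv (by simp)).clm_apply hwt.continuous))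
  have i1 := hΦ1.integrableOn hΦ2
  have i2 := iD g1 g1p
  have i3 := iD g2 g2p
  have i12 : Integrable (fun x => (∑ i, w t x i * fderiv ℝ Φ x (w t x) i)
      - divergence (fun y => (∑ i, w t y i * Φ y i) • w t y) x) (volume.restrict Dom) := i1.sub i2
  rw [integral_sub i12 i3, integral_sub i1 i2, integral_divergence_eq_zero g1 g1p,
    integral_divergence_eq_zero g2 g2p]
  ring

/-- Lipschitz bound -/
lemma weak_lip (hw : IsClassicalSolution (Ico 0 T) w q) (hΦ : ContDiff ℝ 1 Φ)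
    (hΦp : Periodic3 Φ) (hΦd : ∀ x, divergence Φ x = 0) {K : ℝ}
    (hK : ∀ x i j, |fderiv ℝ Φ x (Pi.single j 1) i| ≤ K) {t t' : ℝ} (ht : t ∈ Ico 0 T)
    (ht' : t' ∈ Ico 0 T) :
    |(∫ x in Dom, ∑ i, w t x i * Φ x i) - ∫ x in Dom, ∑ i, w t' x i * Φ x i|
      ≤ 3 * K * (∫ x in Dom, sq3 (w 0 x)) * |t - t'| := by
  set m : ℝ → ℝ := fun t => ∫ x in Dom, ∑ i, w t x i * Φ x i with hm
  set E₀ : ℝ := ∫ x in Dom, sq3 (w 0 x) with hE₀
  set L : ℝ := 3 * K * E₀ with hL
  have hK0 : 0 ≤ K := (abs_nonneg _).trans (hK 0 0 0)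
  have hE0 : 0 ≤ E₀ := integral_nonneg fun x => sq3_nonneg _
  have hL0 : 0 ≤ L := by positivity
  have hg : ContDiffOn ℝ 1 (fun z : ℝ × V => ∑ i, w z.1 z.2 i * Φ z.2 i) (Ico 0 T ×ˢ univ) := by
    refine ContDiffOn.sum fun i _ => ?_
    have h1 : ContDiffOn ℝ 1 (fun z : ℝ × V => w z.1 z.2 i) (Ico 0 T ×ˢ univ) :=
      (contDiff_apply ℝ ℝ i).comp_contDiffOn hw.contDiffOn_u
    have h2 : ContDiff ℝ 1 (fun z : ℝ × V => Φ z.2 i) :=
      (contDiff_apply ℝ ℝ i).comp (hΦ.comp contDiff_snd)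
    exact h1.mul h2.contDiffOn
  have hcont : ContinuousOn m (Ico 0 T) :=
    int_continuousOn (g := fun t x => ∑ i, w t x i * Φ x i) hg
  have hder : ∀ s ∈ Ioo 0 T, HasDerivAt m (∫ x in Dom, ∑ i, w s x i * fderiv ℝ Φ x (w s x) i) s :=
    fun s hs => weak_deriv hw hΦ hΦp hΦd hs
  have hbd : ∀ s ∈ Ioo 0 T, |∫ x in Dom, ∑ i, w s x i * fderiv ℝ Φ x (w s x) i| ≤ L := by
    intro s hs
    have hsI : s ∈ Ico 0 T := ⟨hs.1.le, hs.2⟩
    have hwt : ContDiff ℝ 1 (w s) := contDiff_slice hw.contDiffOn_u hsI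
    have hint : IntegrableOn (fun x => 3 * K * sq3 (w s x)) Dom := by
      refine Integrable.const_mul ?_ _
      refine Periodic3.integrableOn ?_ ((sq3_contDiff (n := 1)).comp hwt).continuous
      intro i x; simp only; rw [hw.periodic_u s hsI i x]
    have h1 := norm_integral_le_of_norm_le hint
      (f := fun x => ∑ i, w s x i * fderiv ℝ Φ x (w s x) i)
      (Filter.Eventually.of_forall fun x => ?_)
    · rw [integral_const_mul, Real.norm_eq_abs] at h1
      refine h1.trans ?_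
      have h2 := energy_le hw hsI
      rw [hL]
      gcongr
    · rw [Real.norm_eq_abs]
      have h2 := quad_bound (L := fderiv ℝ Φ x) (hK x) (w s x)
      have h3 : ∑ i, 2 * w s x i * fderiv ℝ Φ x (w s x) i
          = 2 * ∑ i, w s x i * fderiv ℝ Φ x (w s x) i := by
        rw [Finset.mul_sum]
        exact Finset.sum_congr rfl fun i _ => by ring
      rw [h3, abs_mul, abs_two] at h2
      linarith
  have hanti : AntitoneOn (fun s => m s - L * s) (Ico 0 T) := by
    refine antitoneOn_of_deriv_nonpos (convex_Ico _ _)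
      (hcont.sub (continuousOn_const.mul continuousOn_id)) ?_ ?_
    · intro s hs
      rw [interior_Ico] at hs
      exact ((hder s hs).sub ((hasDerivAt_id s).const_mul
        L)).differentiableAt.differentiableWithinAt
    · intro s hs
      rw [interior_Ico] at hs
      have h1 : HasDerivAt (fun s => m s - L * s) _ s :=
        (hder s hs).sub ((hasDerivAt_id s).const_mul L)
      rw [h1.deriv, mul_one]
      have := (abs_le.1 (hbd s hs)).2
      linarith
  have hmono : MonotoneOn (fun s => m s + L * s) (Ico 0 T) := by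
    refine monotoneOn_of_deriv_nonneg (convex_Ico _ _)
      (hcont.add (continuousOn_const.mul continuousOn_id)) ?_ ?_
    · intro s hs
      rw [interior_Ico] at hs
      exact ((hder s hs).add ((hasDerivAt_id s).const_mul
        L)).differentiableAt.differentiableWithinAt
    · intro s hs
      rw [interior_Ico] at hs
      have h1 : HasDerivAt (fun s => m s + L * s) _ s :=
        (hder s hs).add ((hasDerivAt_id s).const_mul L)
      rw [h1.deriv, mul_one]
      have := (abs_le.1 (hbd s hs)).1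
      linarith
  have main : ∀ a ∈ Ico 0 T, ∀ b ∈ Ico 0 T, a ≤ b → |m a - m b| ≤ L * |a - b| := by
    intro a ha b hb hab
    have h1 := hanti ha hb hab
    have h2 := hmono ha hb hab
    simp only at h1 h2
    rw [abs_of_nonpos (by linarith : a - b ≤ 0), abs_le]
    constructor <;> nlinarith
  rcases le_total t t' with h | h
  · exact main t ht t' ht' h
  · rw [abs_sub_comm, abs_sub_comm t t']
    exact main t' ht' t ht h

end sol

end Pool.Agent.Zk27.UE
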