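import Pool.Agent.Zk27.UE.Lip

/-!
# Periodic solutions near given solutions and near given curves
-/

open MeasureTheory Set
open scoped ENNReal NNReal Topology Pointwise ContDiff

set_option autoImplicit false

namespace Pool.Agent.Zk27.UE

open Pool.Agent.H708R2.EulerSign Pool.Agent.H708R2.EulerModes

lemma ext_zero {T : ℝ} (hT : 0 < T) {F : ℝ → ℝ} (hF : Continuous F)
    (h : ∀ t ∈ Ico 0 T, F t = 0) : ∀ t ∈ Icc 0 T, F t = 0 := by
  intro t ht
  have h1 : IsClosed {t | F t = 0} := isClosed_eq hF continuous_const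
  have h2 : closure (Ico 0 T) ⊆ {t | F t = 0} := closure_minimal (fun t ht => h t ht) h1
  rw [closure_Ico hT.ne] at h2
  exact h2 ht

lemma sinp_periodic (m : Fin 3 → ℤ) (ψ : ℝ) : Periodic3 (fun x => Real.sin (ph m x - ψ)) := by
  intro i x
  simp only
  have e : ph m (x + Pi.single i (2 * Real.pi)) - ψ = (ph m x - ψ) + (m i : ℝ) * (2 * Real.pi) := by
    rw [ph_add, ph_single]; ring
  rw [e, Real.sin_add_int_mul_two_pi]

lemma ph_hasFDerivAt (k : Fin 3 → ℤ) (x : V) : HasFDerivAt (ph k) (dtL (rv k)) x := by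
  have e : ph k = dt (rv k) := by ext y; exact ph_eq_dt k y
  rw [e]
  exact dt_hasFDerivAt (rv k) x

/-- the coefficients of divergence-free fields -/
lemma coeff_orth {f : V → V} (hf : ContDiff ℝ 1 f) (hp : Periodic3 f)
    (hd : ∀ x, divergence f x = 0) (k : Fin 3 → ℤ) (ψ : ℝ) :
    dt (rv k) (fun i => ∫ x in Dom, f x i * Real.cos (ph k x - ψ)) = 0 := by
  have hsc : ContDiff ℝ 1 (fun x : V => Real.sin (ph k x - ψ)) :=
    Real.contDiff_sin.comp (((ph_contDiff k).of_le (by simp)).sub contDiff_const)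
  have g1 : ContDiff ℝ 1 (fun y => Real.sin (ph k y - ψ) • f y) := hsc.smul hf
  have g1p : Periodic3 (fun y => Real.sin (ph k y - ψ) • f y) := by
    intro i x
    have := sinp_periodic k ψ i x
    simp only at this ⊢
    rw [this, hp i x]
  have h1 := integral_divergence_eq_zero g1 g1p
  have hint : ∀ i, IntegrableOn (fun x => f x i * Real.cos (ph k x - ψ)) Dom := fun i =>
    (Periodic3.mul' (f := fun x => f x i) (comp_periodic hp i) (cosp_periodic k ψ)).integrableOn
      (((continuous_apply i).comp hf.continuous).mul (cosp_cont k ψ))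
  have e : ∀ x, divergence (fun y => Real.sin (ph k y - ψ) • f y) x
      = (k 0 : ℝ) * (f x 0 * Real.cos (ph k x - ψ)) + (k 1 : ℝ) * (f x 1 * Real.cos (ph k x - ψ))
        + (k 2 : ℝ) * (f x 2 * Real.cos (ph k x - ψ)) := by
    intro x
    have hs : HasFDerivAt (fun y => Real.sin (ph k y - ψ))
        (Real.cos (ph k x - ψ) • dtL (rv k)) x := ((ph_hasFDerivAt k x).sub_const ψ).sin
    rw [divergence_smul hs.differentiableAt (hf.differentiable one_ne_zero x), hd, hs.fderiv]
    simp only [smul_apply, dtL_apply, dt, rv, smul_eq_mul]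
    ring
  simp only [e] at h1
  have i0 := (hint 0).const_mul (k 0 : ℝ)
  have i1 := (hint 1).const_mul (k 1 : ℝ)
  have i2 := (hint 2).const_mul (k 2 : ℝ)
  have i01 : Integrable (fun x => (k 0 : ℝ) * (f x 0 * Real.cos (ph k x - ψ))
      + (k 1 : ℝ) * (f x 1 * Real.cos (ph k x - ψ))) (volume.restrict Dom) := i0.add i1
  rw [integral_add i01 i2, integral_add i0 i1, integral_const_mul, integral_const_mul,
    integral_const_mul] at h1
  exact h1

/-- the Fourier coefficients of classical solutions are Lipschitz continuous, with a constant which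
depends only on the energy -/
lemma coeff_lip' (k : Fin 3 → ℤ) (ψ : ℝ) (i : Fin 3) :
    ∃ K : ℝ, 0 ≤ K ∧ (k = 0 → K = 0) ∧ ∀ {T : ℝ} {w : ℝ → V → V} {q : ℝ → V → ℝ},
      IsClassicalSolution (Ico 0 T) w q → ∀ t ∈ Ico 0 T, ∀ t' ∈ Ico 0 T,
      |(∫ x in Dom, w t x i * Real.cos (ph k x - ψ))
        - ∫ x in Dom, w t' x i * Real.cos (ph k x - ψ)|
          ≤ 3 * K * (∫ x in Dom, sq3 (w 0 x)) * |t - t'| := by
  obtain ⟨e, he1, he2⟩ : ∃ e : V, dt (rv k) e = 0 ∧ ∀ a : V, dt (rv k) a = 0 → dt e a = a i := by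
    by_cases hk : k = 0
    · subst hk
      refine ⟨Pi.single i 1, by simp [dt, rv], fun a _ => ?_⟩
      unfold dt
      fin_cases i <;> simp
    · have hn : 0 < nr (rv k) := by
        have h1 := q_pos hk
        have : nr (rv k) = Pool.Agent.Zk27.UE.q k := rfl
        rw [this]; exact h1
      have hsi : ∀ a : V, dt a (Pi.single i 1) = a i := by
        intro a
        unfold dt
        fin_cases i <;> simp
      refine ⟨Pi.single i 1 - ((k i : ℝ) / nr (rv k)) • rv k, ?_, fun a ha => ?_⟩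
      · have e1 : dt (rv k) (Pi.single i 1 - ((k i : ℝ) / nr (rv k)) • rv k)
            = dt (rv k) (Pi.single i 1) - ((k i : ℝ) / nr (rv k)) * dt (rv k) (rv k) := by
          unfold dt; simp only [Pi.sub_apply, Pi.smul_apply, smul_eq_mul]; ring
        rw [e1, hsi, ← nr_eq]
        show (k i : ℝ) - _ = 0
        field_simp
        ring
      · have e1 : dt (Pi.single i 1 - ((k i : ℝ) / nr (rv k)) • rv k) a
            = dt a (Pi.single i 1) - ((k i : ℝ) / nr (rv k)) * dt (rv k) a := by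
          unfold dt; simp only [Pi.sub_apply, Pi.smul_apply, smul_eq_mul]; ring
        rw [e1, hsi, ha]; ring
  set Φ : V → V := fun x => Real.cos (ph k x - ψ) • e with hΦdef
  have hΦ : ContDiff ℝ 1 Φ :=
    (Real.contDiff_cos.comp (((ph_contDiff k).of_le (by simp)).sub contDiff_const)).smul
      contDiff_const
  have hΦp : Periodic3 Φ := by
    intro j x
    have := cosp_periodic k ψ j x
    simp only [hΦdef] at this ⊢
    rw [this]
  have hder : ∀ x y, fderiv ℝ Φ x y = (-(Real.sin (ph k x - ψ)) * dt (rv k) y) • e := by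
    intro x y
    have hs : HasFDerivAt (fun y => Real.cos (ph k y - ψ))
        (-Real.sin (ph k x - ψ) • dtL (rv k)) x := ((ph_hasFDerivAt k x).sub_const ψ).cos
    have h2 := (hs.smul_const e).fderiv
    have h3 : fderiv ℝ Φ x = _ := h2
    rw [h3]
    simp only [ContinuousLinearMap.smulRight_apply, smul_apply, dtL_apply, smul_eq_mul]
  have hΦd : ∀ x, divergence Φ x = 0 := by
    intro x
    rw [divergence_eq_sum, Fin.sum_univ_three]
    simp only [hder, Pi.smul_apply, smul_eq_mul]
    have h1 : ∀ j : Fin 3, dt (rv k) (Pi.single j 1) = rv k j := by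
      intro j; unfold dt; fin_cases j <;> simp
    rw [h1, h1, h1]
    unfold dt at he1
    linear_combination (-Real.sin (ph k x - ψ)) * he1
  set K : ℝ := (∑ j, |(k j : ℝ)|) * ∑ j, |e j| with hK
  have hK0 : 0 ≤ K := mul_nonneg (Finset.sum_nonneg fun _ _ => abs_nonneg _)
    (Finset.sum_nonneg fun _ _ => abs_nonneg _)
  have hKb : ∀ x i j, |fderiv ℝ Φ x (Pi.single j 1) i| ≤ K := by
    intro x i' j
    rw [hder]
    simp only [Pi.smul_apply, smul_eq_mul]
    have h1 : dt (rv k) (Pi.single j 1) = k j := by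
      unfold dt; fin_cases j <;> simp [rv]
    rw [h1, abs_mul, abs_mul, abs_neg]
    have h2 := Real.abs_sin_le_one (ph k x - ψ)
    have h3 : |(k j : ℝ)| ≤ ∑ j, |(k j : ℝ)| :=
      Finset.single_le_sum (f := fun j => |(k j : ℝ)|) (fun _ _ => abs_nonneg _)
        (Finset.mem_univ j)
    have h4 : |e i'| ≤ ∑ j, |e j| :=
      Finset.single_le_sum (f := fun j => |e j|) (fun _ _ => abs_nonneg _) (Finset.mem_univ i')
    have h5 : |Real.sin (ph k x - ψ)| * |(k j : ℝ)| ≤ 1 * ∑ j, |(k j : ℝ)| := by gcongr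
    rw [one_mul] at h5
    rw [hK]
    gcongr
  refine ⟨K, hK0, ?_, ?_⟩
  · intro hk
    rw [hK, hk]; simp
  · intro T w q hw t ht t' ht'
    have hval : ∀ t ∈ Ico 0 T, ∫ x in Dom, ∑ j, w t x j * Φ x j
        = ∫ x in Dom, w t x i * Real.cos (ph k x - ψ) := by
      intro t ht
      have hwt : ContDiff ℝ 1 (w t) := contDiff_slice hw.contDiffOn_u ht
      have hwp := hw.periodic_u t ht
      have hint : ∀ i, IntegrableOn (fun x => w t x i * Real.cos (ph k x - ψ)) Dom := fun i =>
        (Periodic3.mul' (f := fun x => w t x i) (comp_periodic hwp i)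
          (cosp_periodic k ψ)).integrableOn
          (((continuous_apply i).comp hwt.continuous).mul (cosp_cont k ψ))
      have e1 : ∀ x, ∑ j, w t x j * Φ x j = ∑ j, e j * (w t x j * Real.cos (ph k x - ψ)) := by
        intro x
        refine Finset.sum_congr rfl fun j _ => ?_
        simp only [hΦdef, Pi.smul_apply, smul_eq_mul]
        ring
      simp only [e1]
      rw [integral_finsetSum _ fun j _ => (hint j).const_mul _]
      simp only [integral_const_mul]
      have h1 := he2 _ (coeff_orth hwt hwp (hw.div_free t ht) k ψ)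
      rw [Fin.sum_univ_three]
      exact h1
    rw [← hval t ht, ← hval t' ht']
    exact weak_lip hw hΦ hΦp hΦd hKb ht ht'

/-- the Fourier coefficients of classical solutions are Lipschitz continuous -/
lemma coeff_lip {T : ℝ} {w : ℝ → V → V} {q : ℝ → V → ℝ}
    (hw : IsClassicalSolution (Ico 0 T) w q) (k : Fin 3 → ℤ) (ψ : ℝ) (i : Fin 3) :
    ∃ L : ℝ, 0 ≤ L ∧ (k = 0 → L = 0) ∧ ∀ t ∈ Ico 0 T, ∀ t' ∈ Ico 0 T,
      |(∫ x in Dom, w t x i * Real.cos (ph k x - ψ))
        - ∫ x in Dom, w t' x i * Real.cos (ph k x - ψ)| ≤ L * |t - t'| := by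
  obtain ⟨K, hK0, hKz, hK⟩ := coeff_lip' k ψ i
  have hE0 : 0 ≤ ∫ x in Dom, sq3 (w 0 x) := integral_nonneg fun x => sq3_nonneg _
  refine ⟨3 * K * (∫ x in Dom, sq3 (w 0 x)), by positivity, ?_, hK hw⟩
  intro hk
  rw [hKz hk]; ring

lemma lip_ext {T : ℝ} {f : ℝ → ℝ} {L : ℝ} (hL : 0 ≤ L)
    (h : ∀ t ∈ Ico 0 T, ∀ t' ∈ Ico 0 T, |f t - f t'| ≤ L * |t - t'|) :
    ∃ g : ℝ → ℝ, Continuous g ∧ ∀ t ∈ Ico 0 T, f t = g t := by
  have h1 : LipschitzOnWith ⟨L, hL⟩ f (Ico 0 T) := by
    refine LipschitzOnWith.of_dist_le_mul fun t ht t' ht' => ?_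
    rw [Real.dist_eq, Real.dist_eq]
    exact h t ht t' ht'
  obtain ⟨g, hg1, hg2⟩ := h1.extend_real
  exact ⟨g, hg1.continuous, fun t ht => hg2 ht⟩

lemma memLp_cube {f : V → V} (hf : Continuous f) : MemLp f 2 (volume.restrict cube) := by
  have hK : IsCompact cube := isCompact_Icc
  obtain ⟨C, hC⟩ := hK.exists_bound_of_continuousOn hf.continuousOn
  have hfin : IsFiniteMeasure (volume.restrict cube : Measure V) := by
    constructor
    rw [Measure.restrict_apply_univ]
    exact hK.measure_lt_top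
  refine MemLp.of_bound hf.aestronglyMeasurable C ?_
  refine (ae_restrict_iff' measurableSet_Icc).2 (Filter.Eventually.of_forall fun x hx => ?_)
  exact hC x hx

/-- periodic solutions near a classical solution, up to its singularity -/
theorem near_solution {T : ℝ} (hT : 0 < T) {w : ℝ → V → V} {q : ℝ → V → ℝ}
    (hw : IsClassicalSolution (Ico 0 T) w q) (K₀ : ℕ) {s ε : ℝ} (hs : 1 < s) (hε : 0 < ε) :
    ∃ (u : ℝ → V → V) (p : V → ℝ), Sol u p ∧ (∀ t, u (t + 2 * T) = u t) ∧
      (∀ t ∈ Ico 0 T, HNegClose s ε (u t) (w t)) ∧ SameModes K₀ (u 0) (w 0) := by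
  have h0T : (0 : ℝ) ∈ Ico 0 T := ⟨le_rfl, hT⟩
  choose Lc hLc0 hLcz hLc using fun (k : Fin 3 → ℤ) (i : Fin 3) => coeff_lip hw k 0 i
  choose Ls hLs0 hLsz hLs using fun (k : Fin 3 → ℤ) (i : Fin 3) => coeff_lip hw k (Real.pi / 2) i
  choose a ha1 ha2 using fun (k : Fin 3 → ℤ) (i : Fin 3) => lip_ext (hLc0 k i) (hLc k i)
  choose b hb1 hb2 using fun (k : Fin 3 → ℤ) (i : Fin 3) => lip_ext (hLs0 k i) (hLs k i)
  simp only [sub_zero] at ha2
  simp only [Real.cos_sub_pi_div_two] at hb2
  have hwc : ∀ t ∈ Ico 0 T, ContDiff ℝ 1 (w t) := fun t ht => contDiff_slice hw.contDiffOn_u ht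
  have hph : ∀ (k : Fin 3 → ℤ) (f : Fin 3 → ℝ → ℝ), (∀ i, Continuous (f i)) →
      (∀ t ∈ Ico 0 T, dt (rv k) (fun i => f i t) = 0) →
      ∀ t ∈ Icc 0 T, ph k (fun i => f i t) = 0 := by
    intro k f hf h
    have hc : Continuous (fun t => dt (rv k) (fun i => f i t)) := by
      unfold dt
      exact ((continuous_const.mul (hf 0)).add (continuous_const.mul (hf 1))).add
        (continuous_const.mul (hf 2))
    intro t ht
    rw [ph_eq_dt]
    exact ext_zero hT hc h t ht
  have hE : ∀ t ∈ Ico 0 T, ∑ i, ∫ x in Dom, w t x i ^ 2 ≤ ∫ x in Dom, sq3 (w 0 x) := by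
    intro t ht
    have hint : ∀ i ∈ (Finset.univ : Finset (Fin 3)),
        Integrable (fun x => w t x i ^ 2) (volume.restrict Dom) := by
      intro i _
      refine Periodic3.integrableOn ?_ (((continuous_apply i).comp (hwc t ht).continuous).pow 2)
      intro j x; simp only; rw [hw.periodic_u t ht j x]
    rw [← integral_finsetSum _ hint]
    exact energy_le hw ht
  have oA : ∀ k, ∀ t ∈ Icc 0 T, ph k (fun i => a k i t) = 0 := by
    intro k
    refine hph k (a k) (ha1 k) fun t ht => ?_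
    have := coeff_orth (hwc t ht) (hw.periodic_u t ht) (hw.div_free t ht) k 0
    simp only [sub_zero] at this
    simp only [← ha2 k _ t ht]
    exact this
  have oB : ∀ k, ∀ t ∈ Icc 0 T, ph k (fun i => b k i t) = 0 := by
    intro k
    refine hph k (b k) (hb1 k) fun t ht => ?_
    have := coeff_orth (hwc t ht) (hw.periodic_u t ht) (hw.div_free t ht) k (Real.pi / 2)
    simp only [Real.cos_sub_pi_div_two] at this
    simp only [← hb2 k _ t ht]
    exact this
  have sA : ∀ k, ∀ t ∈ Icc 0 T, (fun i => a (-k) i t) = fun i => a k i t := by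
    intro k t ht
    ext i
    have := ext_zero hT ((ha1 (-k) i).sub (ha1 k i)) (fun t ht => by
      rw [Pi.sub_apply, ← ha2 (-k) i t ht, ← ha2 k i t ht]
      simp only [ph_neg, Real.cos_neg, sub_self]) t ht
    rw [Pi.sub_apply, sub_eq_zero] at this
    exact this
  have sB : ∀ k, ∀ t ∈ Icc 0 T, (fun i => b (-k) i t) = -fun i => b k i t := by
    intro k t ht
    ext i
    have := ext_zero hT ((hb1 (-k) i).add (hb1 k i)) (fun t ht => by
      rw [Pi.add_apply, ← hb2 (-k) i t ht, ← hb2 k i t ht]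
      simp only [ph_neg, Real.sin_neg, mul_neg]
      rw [integral_neg, neg_add_cancel]) t ht
    rw [Pi.add_apply, add_eq_zero_iff_eq_neg] at this
    exact this
  have m0 : ∀ t ∈ Icc 0 T, (fun i => a 0 i t) = fun i => a 0 i 0 := by
    intro t ht
    ext i
    have := ext_zero hT ((ha1 0 i).sub (continuous_const (y := a 0 i 0))) (fun t ht => by
      rw [Pi.sub_apply]
      show a 0 i t - a 0 i 0 = 0
      rw [← ha2 0 i t ht, ← ha2 0 i 0 h0T]
      have h := hLc 0 i t ht 0 h0T
      rw [hLcz 0 i rfl, zero_mul] at h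
      simp only [sub_zero] at h
      exact abs_nonpos_iff.1 h) t ht
    rw [Pi.sub_apply, sub_eq_zero] at this
    exact this
  obtain ⟨u, p, h1, h2, h3, h4⟩ := step (I := Ico 0 T) (v := w) hT Ico_subset_Icc_self
    (fun t ht => hw.periodic_u t ht) (fun t ht => memLp_cube (hwc t ht).continuous)
    hE (A := fun k t i => a k i t) (B := fun k t i => b k i t)
    (fun k => (continuous_pi fun i => ha1 k i).continuousOn)
    (fun k => (continuous_pi fun i => hb1 k i).continuousOn) oA oB sA sB m0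
    (fun t ht k i => (ha2 k i t ht).symm) (fun t ht k i => (hb2 k i t ht).symm) K₀ hs hε
  exact ⟨u, p, h1, h2, h3, h4 h0T⟩

end Pool.Agent.Zk27.UE
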