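import Pool.Agent.Zk27.UE.Axial
import Pool.Agent.R739.ET.Inv
import Pool.Agent.H708R2.EulerModes.Main

/-!
# Integrals of functions of the wrapped coordinates
-/

open MeasureTheory Set
open scoped ENNReal NNReal Topology Pointwise ContDiff

set_option autoImplicit false

namespace Pool.Agent.Zk27.UE

open Pool.Agent.H708R2.EulerSign Pool.Agent.H708R2.EulerModes
open Pool.Agent.R739.ET (RP wr wr_mem wr_exists wr_eq fine_resc periodic_resc)

/-- the volume of the torus -/
noncomputable def vl : ℝ := (volume Dom).toReal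

lemma vl_pos : 0 < vl := vol_pos

lemma finD : IsFiniteMeasure (volume.restrict Dom : Measure V) := by
  constructor
  rw [Measure.restrict_apply_univ]
  exact dom_lt_top

lemma int_const (a : ℝ) : ∫ _ in Dom, a = a * vl := by
  rw [setIntegral_const, smul_eq_mul, mul_comm]
  rfl

lemma cosp_periodic (m : Fin 3 → ℤ) (ψ : ℝ) : Periodic3 (fun x => Real.cos (ph m x - ψ)) := by
  intro i x
  simp only
  have e : ph m (x + Pi.single i (2 * Real.pi)) - ψ = (ph m x - ψ) + (m i : ℝ) * (2 * Real.pi) := by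
    rw [ph_add, ph_single]; ring
  rw [e, Real.cos_add_int_mul_two_pi]

lemma cosp_cont (m : Fin 3 → ℤ) (ψ : ℝ) : Continuous (fun x : V => Real.cos (ph m x - ψ)) :=
  Real.continuous_cos.comp ((ph_contDiff m).continuous.sub continuous_const)

lemma Periodic3.mul' {f g : V → ℝ} (hf : Periodic3 f) (hg : Periodic3 g) :
    Periodic3 (fun x => f x * g x) := by
  intro i x; simp only; rw [hf i x, hg i x]

lemma Periodic3.add' {f g : V → ℝ} (hf : Periodic3 f) (hg : Periodic3 g) :
    Periodic3 (fun x => f x + g x) := by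
  intro i x; simp only; rw [hf i x, hg i x]

lemma fine_zero {h : V → ℝ} (hp : Periodic3 h) (hc : Continuous h) {N : ℕ} (hN : 0 < N)
    (hfine : ∀ (i : Fin 3) (x : V), h (x + Pi.single i (2 * Real.pi / N)) = h x)
    {m : Fin 3 → ℤ} (hm : ∀ i, |m i| < N) (hm0 : m ≠ 0) (ψ : ℝ) :
    ∫ x in Dom, h x * Real.cos (ph m x - ψ) = 0 := by
  obtain ⟨i, hi⟩ : ∃ i, m i ≠ 0 := by
    by_contra hcon
    push Not at hcon
    exact hm0 (funext hcon)
  obtain ⟨h1, h2⟩ := integral_trig_eq_zero hp hc hN hfine hi (hm i)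
  have e : ∀ x, h x * Real.cos (ph m x - ψ)
      = (h x * Real.cos (ph m x)) * Real.cos ψ + (h x * Real.sin (ph m x)) * Real.sin ψ := by
    intro x; rw [Real.cos_sub]; ring
  simp only [e]
  rw [integral_add, integral_mul_const, integral_mul_const, h1, h2]
  · ring
  · refine Integrable.mul_const ?_ _
    exact (Periodic3.mul' hp (cos_periodic m)).integrableOn
      (hc.mul (Real.continuous_cos.comp (ph_contDiff m).continuous))
  · refine Integrable.mul_const ?_ _
    exact (Periodic3.mul' hp (sin_periodic m)).integrableOn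
      (hc.mul (Real.continuous_sin.comp (ph_contDiff m).continuous))

/-- functions with a fine period are uncorrelated with low modes -/
lemma fine_mean {h : V → ℝ} (hp : Periodic3 h) (hc : Continuous h) {N : ℕ} (hN : 0 < N)
    (hfine : ∀ (i : Fin 3) (x : V), h (x + Pi.single i (2 * Real.pi / N)) = h x)
    {m : Fin 3 → ℤ} (hm : ∀ i, |m i| < N) (ψ : ℝ) :
    ∫ x in Dom, h x * Real.cos (ph m x - ψ)
      = (∫ x in Dom, h x) / vl * ∫ x in Dom, Real.cos (ph m x - ψ) := by
  by_cases hm0 : m = 0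
  · subst hm0
    simp only [ph_zero]
    rw [integral_mul_const, int_const]
    have := vl_pos.ne'
    field_simp
  · rw [fine_zero hp hc hN hfine hm hm0]
    have h1 := fine_zero (h := fun _ => 1) (fun _ _ => rfl) continuous_const hN
      (fun _ _ => rfl) hm hm0 ψ
    simp only [one_mul] at h1
    rw [h1, mul_zero]

lemma fine_prod {h : V → ℝ} (hp : Periodic3 h) (hc : Continuous h) {N : ℕ} (hN : 0 < N)
    (hfine : ∀ (i : Fin 3) (x : V), h (x + Pi.single i (2 * Real.pi / N)) = h x)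
    {k l : Fin 3 → ℤ} (hkl : ∀ i, |l i| + |k i| < N) (φ ψ : ℝ) :
    ∫ x in Dom, h x * (Real.cos (ph k x - φ) * Real.cos (ph l x - ψ))
      = (∫ x in Dom, h x) / vl *
        ∫ x in Dom, Real.cos (ph k x - φ) * Real.cos (ph l x - ψ) := by
  have hsub : ∀ i, |(k - l) i| < N := by
    intro i
    have := abs_sub (k i) (l i)
    have h1 := hkl i
    simp only [Pi.sub_apply]
    omega
  have hadd : ∀ i, |(k + l) i| < N := by
    intro i
    have := abs_add_le (k i) (l i)
    have h1 := hkl i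
    simp only [Pi.add_apply]
    omega
  have e0 : ∀ x, Real.cos (ph k x - φ) * Real.cos (ph l x - ψ)
      = Real.cos (ph (k - l) x - (φ - ψ)) * (1 / 2)
        + Real.cos (ph (k + l) x - (φ + ψ)) * (1 / 2) := by
    intro x
    have e1 : ph (k - l) x - (φ - ψ) = (ph k x - φ) - (ph l x - ψ) := by
      rw [ph_sub_left]; ring
    have e2 : ph (k + l) x - (φ + ψ) = (ph k x - φ) + (ph l x - ψ) := by
      rw [ph_add_left]; ring
    rw [e1, e2, Real.cos_sub (ph k x - φ) (ph l x - ψ), Real.cos_add (ph k x - φ) (ph l x - ψ)]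
    ring
  have e : ∀ x, h x * (Real.cos (ph k x - φ) * Real.cos (ph l x - ψ))
      = (h x * Real.cos (ph (k - l) x - (φ - ψ))) * (1 / 2)
        + (h x * Real.cos (ph (k + l) x - (φ + ψ))) * (1 / 2) := by
    intro x; rw [e0]; ring
  have i1 : ∀ (m : Fin 3 → ℤ) (ψ : ℝ), IntegrableOn (fun x => h x * Real.cos (ph m x - ψ)) Dom :=
    fun m ψ => (Periodic3.mul' hp (cosp_periodic m ψ)).integrableOn (hc.mul (cosp_cont m ψ))
  have i2 : ∀ (m : Fin 3 → ℤ) (ψ : ℝ), IntegrableOn (fun x => Real.cos (ph m x - ψ)) Dom :=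
    fun m ψ => (cosp_periodic m ψ).integrableOn (cosp_cont m ψ)
  have hR : ∫ x in Dom, Real.cos (ph k x - φ) * Real.cos (ph l x - ψ)
      = (∫ x in Dom, Real.cos (ph (k - l) x - (φ - ψ))) * (1 / 2)
        + (∫ x in Dom, Real.cos (ph (k + l) x - (φ + ψ))) * (1 / 2) := by
    simp only [e0]
    rw [integral_add ((i2 _ _).mul_const _) ((i2 _ _).mul_const _)]
    simp only [integral_mul_const]
  simp only [e]
  rw [integral_add ((i1 _ _).mul_const _) ((i1 _ _).mul_const _), hR]
  simp only [integral_mul_const]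
  rw [fine_mean hp hc hN hfine hsub, fine_mean hp hc hN hfine hadd]
  ring

/-- reflection -/
lemma integral_neg_dom {f : V → ℝ} (hp : Periodic3 f) : ∫ x in Dom, f (-x) = ∫ x in Dom, f x := by
  have hp' : Periodic3 (fun x => f (-x)) := by
    intro i x
    simp only
    have h1 := hp i (-(x + Pi.single i (2 * Real.pi)))
    have h2 : -(x + Pi.single i (2 * Real.pi)) + Pi.single i (2 * Real.pi) = -x := by abel
    rw [h2] at h1
    exact h1.symm
  rw [← integral_cube hp', ← integral_cube hp]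
  have h1 := (Measure.measurePreserving_neg (volume : Measure V)).setIntegral_preimage_emb
    (MeasurableEquiv.neg V).measurableEmbedding f cube
  have h2 : (Neg.neg ⁻¹' cube : Set V) = cube := by
    ext y
    unfold cube
    simp only [mem_preimage, mem_Icc, Pi.le_def, Pi.neg_apply]
    constructor
    · rintro ⟨ha, hb⟩
      exact ⟨fun i => by linarith [hb i], fun i => by linarith [ha i]⟩
    · rintro ⟨ha, hb⟩
      exact ⟨fun i => by linarith [hb i], fun i => by linarith [ha i]⟩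
  rw [h2] at h1
  exact h1

lemma wr_neg (s : ℝ) : wr (-s) = -wr s ∨ (wr s = Real.pi ∧ wr (-s) = Real.pi) := by
  have hpi := Real.pi_pos
  obtain ⟨z, hz⟩ := wr_exists s
  have h0 := wr_mem s
  rcases h0.2.lt_or_eq with h | h
  · left
    refine wr_eq ⟨by linarith, by linarith [h0.1]⟩ ⟨-z, ?_⟩
    push_cast
    linarith
  · right
    refine ⟨h, wr_eq ⟨by linarith, le_rfl⟩ ⟨-z - 1, ?_⟩⟩
    rw [h] at hz
    push_cast
    rw [hz]; ring

section

variable (ξ : Fin 3 → ℤ) (c : V)

lemma Z1 (x : V) : Z ξ c 1 x = W c (J ξ x) := by unfold Z; simp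

lemma pi_abs_ge : 1 ≤ |Real.pi| := by
  rw [abs_of_pos Real.pi_pos]; linarith [Real.pi_gt_three]

lemma nr_neg (z : V) : nr (-z) = nr z := by unfold nr; simp only [Pi.neg_apply]; ring

variable {ξ c}

/-- the point in the middle of the tube -/
lemma center (hξ : ξ ≠ 0) (y : V) (hy : dt (rv ξ) y = 0) : J ξ (-((q ξ)⁻¹ • J ξ y)) = y := by
  rw [map_neg, map_smul, JJ ξ y hy, smul_smul]
  have := (q_pos hξ).ne'
  rw [mul_neg, inv_mul_cancel₀ this]
  simp

/-- odd functions of the wrapped coordinates have mean zero -/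
lemma odd_mean (hξ : ξ ≠ 0) (hc : dt (rv ξ) c = 0) {g : V → ℝ} (hodd : ∀ z, g (-z) = -g z)
    (hvan : ∀ z, 1 ≤ nr z → g z = 0) (hcont : Continuous g) {N : ℕ} (hN : 0 < N) :
    ∫ x in Dom, g (Z ξ c N x) = 0 := by
  set G : V → ℝ := fun x => g (Z ξ c 1 x) with hG
  have hGc : Continuous G :=
    (glue_contDiff' ξ c 1 g hvan (contDiff_zero.2 hcont)).continuous
  have hGp : Periodic3 G := by
    intro i x; simp only [hG]; rw [Z_periodic ξ c 1 i x]
  have h1 : ∫ x in Dom, g (Z ξ c N x) = ∫ x in Dom, G x := by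
    rw [← integral_dilate hGp hGc hN]
    refine integral_congr_ae (Filter.Eventually.of_forall fun x => ?_)
    simp only [hG]
    rw [Z_one]
  rw [h1]
  obtain ⟨y₀, hJy⟩ : ∃ y₀, J ξ y₀ = c := ⟨_, center hξ c hc⟩
  have hsym : ∀ x, G ((2 : ℝ) • y₀ + -x) = -G x := by
    intro x
    simp only [hG, Z1]
    have e : ∀ i, W c (J ξ ((2 : ℝ) • y₀ + -x)) i = wr (-(J ξ x i - c i)) := by
      intro i
      unfold W
      congr 1
      rw [map_add, map_smul, map_neg, hJy]
      simp only [Pi.add_apply, Pi.smul_apply, Pi.neg_apply, smul_eq_mul]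
      ring
    by_cases hall : ∀ i, wr (-(J ξ x i - c i)) = -wr (J ξ x i - c i)
    · have : W c (J ξ ((2 : ℝ) • y₀ + -x)) = -W c (J ξ x) := by
        ext i; rw [e, hall]; rfl
      rw [this, hodd]
    · push Not at hall
      obtain ⟨i, hi⟩ := hall
      obtain ⟨h1, h2⟩ := (wr_neg (J ξ x i - c i)).resolve_left hi
      have n1 : 1 ≤ nr (W c (J ξ x)) := one_le_nr (i := i) (by
        show 1 ≤ |wr (J ξ x i - c i)|
        rw [h1]; exact pi_abs_ge)
      have n2 : 1 ≤ nr (W c (J ξ ((2 : ℝ) • y₀ + -x))) := one_le_nr (i := i) (by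
        rw [e, h2]; exact pi_abs_ge)
      rw [hvan _ n1, hvan _ n2, neg_zero]
  have h2 : ∫ x in Dom, G ((2 : ℝ) • y₀ + -x) = ∫ x in Dom, G x := by
    have hp2 : Periodic3 (fun x => G ((2 : ℝ) • y₀ + x)) := by
      intro i x; simp only; rw [← add_assoc, hGp]
    rw [integral_neg_dom (f := fun x => G ((2 : ℝ) • y₀ + x)) hp2]
    have := integral_translate hGp ((2 : ℝ) • y₀)
    rw [← this]
    refine integral_congr_ae (Filter.Eventually.of_forall fun x => ?_)
    simp only [add_comm]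
  simp only [hsym] at h2
  rw [integral_neg] at h2
  linarith

/-- the wrapped coordinates take all small values in the plane -/
lemma Z_surj (hξ : ξ ≠ 0) (hc : dt (rv ξ) c = 0) {y : V} (hy : dt (rv ξ) y = 0)
    (hy1 : nr y < 1) : ∃ x, Z ξ c 1 x = y := by
  have h1 : dt (rv ξ) (c + y) = 0 := by rw [dt_add_right, hc, hy, add_zero]
  refine ⟨-((q ξ)⁻¹ • J ξ (c + y)), ?_⟩
  rw [Z1, center hξ _ h1]
  ext i
  unfold W
  have hi : |y i| < 1 := by
    rw [← sq_lt_one_iff_abs_lt_one]
    have h0 := sq_nonneg (y 0); have h1 := sq_nonneg (y 1); have h2 := sq_nonneg (y 2)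
    unfold nr at hy1
    fin_cases i
    · simp only [Fin.zero_eta]; linarith
    · simp only [Fin.mk_one]; linarith
    · simp only [Fin.reduceFinMk]; linarith
  rw [abs_lt] at hi
  have hpi := Real.pi_gt_three
  refine wr_eq ⟨by linarith, by linarith⟩ ⟨0, ?_⟩
  simp

/-- the moment is positive -/
lemma moment_pos (hξ : ξ ≠ 0) (hc : dt (rv ξ) c = 0) {δ : ℝ} (hδ0 : 0 < δ) (hδ : δ ≤ 1)
    {B : ℝ → ℝ} (hB : RP δ B) (hB0 : ∀ R, 0 ≤ B R) (hBp : ∀ R, R < δ → 0 < B R) {κ : V}
    (hκ : κ ≠ 0) (hκξ : dt (rv ξ) κ = 0) :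
    0 < ∫ x in Dom, B (nr (Z ξ c 1 x)) * dt κ (Z ξ c 1 x) ^ 2 := by
  have hnκ : 0 < nr κ := by
    rcases (nr_nonneg κ).lt_or_eq with h | h
    · exact h
    · exfalso
      apply hκ
      unfold nr at h
      have h0 := sq_nonneg (κ 0); have h1 := sq_nonneg (κ 1); have h2 := sq_nonneg (κ 2)
      ext i
      fin_cases i
      · show κ 0 = 0
        have : κ 0 ^ 2 = 0 := by linarith
        exact pow_eq_zero_iff (two_ne_zero) |>.1 this
      · show κ 1 = 0
        have : κ 1 ^ 2 = 0 := by linarith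
        exact pow_eq_zero_iff (two_ne_zero) |>.1 this
      · show κ 2 = 0
        have : κ 2 ^ 2 = 0 := by linarith
        exact pow_eq_zero_iff (two_ne_zero) |>.1 this
  set s : ℝ := Real.sqrt (δ / 2 / nr κ) with hs
  have hs0 : 0 < s := Real.sqrt_pos.2 (by positivity)
  have hs2 : s ^ 2 * nr κ = δ / 2 := by
    rw [hs, Real.sq_sqrt (by positivity)]
    field_simp
  have hns : nr (s • κ) = δ / 2 := by
    rw [← hs2]; unfold nr; simp only [Pi.smul_apply, smul_eq_mul]; ring
  obtain ⟨x, hx⟩ := Z_surj (ξ := ξ) (c := c) hξ hc (y := s • κ)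
    (by rw [dt_smul_right, hκξ, mul_zero]) (by rw [hns]; linarith)
  have hcont : Continuous (fun x => B (nr (Z ξ c 1 x)) * dt κ (Z ξ c 1 x) ^ 2) := by
    refine (glue_contDiff' ξ c 1 (fun z => B (nr z) * dt κ z ^ 2) (fun z hz => ?_)
      (n := 0) ?_).continuous
    · rw [hB.van _ (hδ.trans hz), zero_mul]
    · exact ((hB.smooth.comp nr_contDiff).mul ((dt_contDiff κ).pow 2)).of_le (by simp)
  refine Pool.Agent.R739.ET.pos_of_ne ?_ hcont (fun x => mul_nonneg (hB0 _) (sq_nonneg _))
    (x := x) ?_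
  · intro i x; simp only; rw [Z_periodic ξ c 1 i x]
  · rw [hx, hns, dt_smul_right, ← nr_eq]
    have h1 := hBp (δ / 2) (by linarith)
    positivity

end

end Pool.Agent.Zk27.UE
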