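import Pool.Agent.Zk27.UE.Approx

/-!
# Closeness in negative Sobolev norms
-/

open MeasureTheory Set
open scoped ENNReal NNReal Topology Pointwise ContDiff

set_option autoImplicit false

namespace Pool.Agent.Zk27.UE

open Pool.Agent.H708R2.EulerSign Pool.Agent.H708R2.EulerModes

lemma hneg' {h v : V → V} (hper : Periodic3 h) (hL2 : MemLp h 2 (volume.restrict cube))
    (hvp : Periodic3 v) (hvc : Continuous v) {K N : ℕ} {s ε M D E : ℝ} (hs : 0 < s)
    (hb : ∀ i, ∫ x in Dom, v x i ^ 2 ≤ M) (hE : ∑ i, ∫ x in Dom, h x i ^ 2 ≤ E)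
    (hvm : ∀ l ∈ Bx K, ∀ i,
      |(∫ x in Dom, v x i * Real.cos (ph l x)) - ∫ x in Dom, h x i * Real.cos (ph l x)| ≤ D ∧
      |(∫ x in Dom, v x i * Real.sin (ph l x)) - ∫ x in Dom, h x i * Real.sin (ph l x)| ≤ D)
    (hvz : ∀ l : Fin 3 → ℤ, l ∉ Bx K → (∀ i, |l i| + K < N) → ∀ i,
      ∫ x in Dom, v x i * Real.cos (ph l x) = 0 ∧ ∫ x in Dom, v x i * Real.sin (ph l x) = 0)
    (w0 : (Bx K).card * (3 * (2 * D ^ 2)) ≤ ε ^ 2 / 3)
    (w1 : (1 + ((N - K : ℕ) : ℝ) ^ 2) ^ (-s) * (2 * (3 * (vl * M))) ≤ ε ^ 2 / 3)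
    (w2 : (1 + (K : ℝ) ^ 2) ^ (-s) * (2 * (vl * E)) ≤ ε ^ 2 / 3) :
    HNegClose s ε v h := by
  classical
  have hu2 := memLp_dom hper hL2
  have hvol0 : 0 < vl := vl_pos
  obtain ⟨C, hC0, hC⟩ := hvp.bounded hvc
  have hv2 : ∀ i, MemLp (fun x => v x i) 2 (volume.restrict Dom) := by
    intro i
    refine MemLp.of_bound ((continuous_apply i).comp hvc).aestronglyMeasurable C
      (Filter.Eventually.of_forall fun x => ?_)
    exact (norm_le_pi_norm (v x) i).trans (hC x)
  intro S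
  have hsubp : ∀ i, Periodic3 (fun x => v x i - h x i) := by
    intro i j x; simp only; rw [hvp j x, hper j x]
  have vi : ∀ i, Integrable (fun x => v x i) (volume.restrict Dom) := fun i =>
    (hv2 i).integrable (by norm_num)
  have ui : ∀ i, Integrable (fun x => h x i) (volume.restrict Dom) := fun i =>
    (memLp_comp hu2 i).integrable (by norm_num)
  have mulc : ∀ (g : V → ℝ) (l : Fin 3 → ℤ), Integrable g (volume.restrict Dom) →
      Integrable (fun x => g x * Real.cos (ph l x)) (volume.restrict Dom) := by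
    intro g l hg
    refine hg.mul_bdd (c := 1)
      (Real.continuous_cos.comp (ph_contDiff l).continuous).aestronglyMeasurable
      (Filter.Eventually.of_forall fun x => ?_)
    exact Real.abs_cos_le_one _
  have muls : ∀ (g : V → ℝ) (l : Fin 3 → ℤ), Integrable g (volume.restrict Dom) →
      Integrable (fun x => g x * Real.sin (ph l x)) (volume.restrict Dom) := by
    intro g l hg
    refine hg.mul_bdd (c := 1)
      (Real.continuous_sin.comp (ph_contDiff l).continuous).aestronglyMeasurable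
      (Filter.Eventually.of_forall fun x => ?_)
    exact Real.abs_sin_le_one _
  have hcd : ∀ l i, cosCoeff l (fun x => v x i - h x i)
      = (∫ x in Dom, v x i * Real.cos (ph l x)) - ∫ x in Dom, h x i * Real.cos (ph l x) := by
    intro l i
    rw [cosCoeff_eq (hsubp i), ← integral_sub (mulc _ l (vi i)) (mulc _ l (ui i))]
    congr 1
    ext1 x
    ring
  have hsd : ∀ l i, sinCoeff l (fun x => v x i - h x i)
      = (∫ x in Dom, v x i * Real.sin (ph l x)) - ∫ x in Dom, h x i * Real.sin (ph l x) := by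
    intro l i
    rw [sinCoeff_eq (hsubp i), ← integral_sub (muls _ l (vi i)) (muls _ l (ui i))]
    congr 1
    ext1 x
    ring
  obtain ⟨av, hav⟩ : ∃ av : (Fin 3 → ℤ) → Fin 3 → ℝ, av = fun l i =>
    (∫ x in Dom, v x i * Real.cos (ph l x)) ^ 2 + (∫ x in Dom, v x i * Real.sin (ph l x)) ^ 2 :=
    ⟨_, rfl⟩
  obtain ⟨au, hau⟩ : ∃ au : (Fin 3 → ℤ) → Fin 3 → ℝ, au = fun l i =>
    (∫ x in Dom, h x i * Real.cos (ph l x)) ^ 2 + (∫ x in Dom, h x i * Real.sin (ph l x)) ^ 2 :=
    ⟨_, rfl⟩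
  have hav0 : ∀ l i, 0 ≤ av l i := fun l i => by rw [hav]; positivity
  have hau0 : ∀ l i, 0 ≤ au l i := fun l i => by rw [hau]; positivity
  -- weights
  have hwt : ∀ (l : Fin 3 → ℤ) (n : ℕ), (∃ i, (n : ℤ) ≤ |l i|) →
      (1 + ∑ i, (l i : ℝ) ^ 2) ^ (-s) ≤ (1 + (n : ℝ) ^ 2) ^ (-s) := by
    rintro l n ⟨i, hi⟩
    apply Real.rpow_le_rpow_of_nonpos (by positivity) _ (by linarith)
    have h1 : (l i : ℝ) ^ 2 ≤ ∑ i, (l i : ℝ) ^ 2 :=
      Finset.single_le_sum (f := fun i => (l i : ℝ) ^ 2) (fun _ _ => sq_nonneg _)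
        (Finset.mem_univ i)
    have h2 : (n : ℝ) ≤ |(l i : ℝ)| := by exact_mod_cast hi
    have h3 : (n : ℝ) ^ 2 ≤ (l i : ℝ) ^ 2 := by
      rw [← sq_abs (l i : ℝ)]
      gcongr
    linarith
  set W1 : ℝ := (1 + ((N - K : ℕ) : ℝ) ^ 2) ^ (-s) with hW1
  set W2 : ℝ := (1 + (K : ℝ) ^ 2) ^ (-s) with hW2
  have hW10 : 0 ≤ W1 := by positivity
  have hW20 : 0 ≤ W2 := by positivity
  have hterm : ∀ l ∈ S, (1 + ∑ i, (l i : ℝ) ^ 2) ^ (-s) *
      ∑ i, (cosCoeff l (fun x => v x i - h x i) ^ 2 + sinCoeff l (fun x => v x i - h x i) ^ 2)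
      ≤ ∑ i, ((if l ∈ Bx K then 2 * D ^ 2 else 0) + W1 * (2 * av l i) + W2 * (2 * au l i)) := by
    intro l _
    rw [Finset.mul_sum]
    refine Finset.sum_le_sum fun i _ => ?_
    have hw0 : 0 ≤ (1 + ∑ i, (l i : ℝ) ^ 2) ^ (-s) := by positivity
    have h1' := hav0 l i
    have h2' := hau0 l i
    have hr : 0 ≤ W1 * (2 * av l i) + W2 * (2 * au l i) := by positivity
    by_cases hl : l ∈ Bx K
    · obtain ⟨h1, h2⟩ := hvm l hl i
      rw [if_pos hl, hcd, hsd]
      have hw1 : (1 + ∑ i, (l i : ℝ) ^ 2) ^ (-s) ≤ 1 := by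
        apply Real.rpow_le_one_of_one_le_of_nonpos
        · have : 0 ≤ ∑ i, (l i : ℝ) ^ 2 := Finset.sum_nonneg fun i _ => sq_nonneg _
          linarith
        · linarith
      have s1 := sq_le_sq' (by linarith [(abs_le.1 h1).1]) (abs_le.1 h1).2
      have s2 := sq_le_sq' (by linarith [(abs_le.1 h2).1]) (abs_le.1 h2).2
      calc (1 + ∑ i, (l i : ℝ) ^ 2) ^ (-s) *
            (((∫ x in Dom, v x i * Real.cos (ph l x)) - ∫ x in Dom, h x i * Real.cos (ph l x)) ^ 2
              + ((∫ x in Dom, v x i * Real.sin (ph l x))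
                - ∫ x in Dom, h x i * Real.sin (ph l x)) ^ 2)
          ≤ 1 * (D ^ 2 + D ^ 2) := by gcongr
        _ = 2 * D ^ 2 := by ring
        _ ≤ 2 * D ^ 2 + W1 * (2 * av l i) + W2 * (2 * au l i) := by linarith
    · rw [if_neg hl, zero_add]
      have hbig : ∃ i, ((K : ℕ) : ℤ) ≤ |l i| := by
        rw [mem_Bx] at hl
        push Not at hl
        obtain ⟨i, hi⟩ := hl
        exact ⟨i, hi.le⟩
      have hw1 := hwt l K hbig
      have hsplit : cosCoeff l (fun x => v x i - h x i) ^ 2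
          + sinCoeff l (fun x => v x i - h x i) ^ 2 ≤ 2 * av l i + 2 * au l i := by
        rw [hcd, hsd]
        simp only [hav, hau]
        nlinarith [sq_nonneg ((∫ x in Dom, v x i * Real.cos (ph l x))
          + ∫ x in Dom, h x i * Real.cos (ph l x)),
          sq_nonneg ((∫ x in Dom, v x i * Real.sin (ph l x))
          + ∫ x in Dom, h x i * Real.sin (ph l x))]
      have hfirst : (1 + ∑ i, (l i : ℝ) ^ 2) ^ (-s) * (2 * av l i) ≤ W1 * (2 * av l i) := by
        by_cases hfar : ∃ i, ((N - K : ℕ) : ℤ) ≤ |l i|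
        · have := hwt l (N - K) hfar
          have h0 := hav0 l i
          gcongr
        · have hz : av l i = 0 := by
            push Not at hfar
            have hh : ∀ i, |l i| + K < N := by
              intro i
              have := hfar i
              have := abs_nonneg (l i)
              omega
            obtain ⟨y1, y2⟩ := hvz l hl hh i
            simp only [hav]
            rw [y1, y2]
            ring
          rw [hz]
          simp
      have hsecond : (1 + ∑ i, (l i : ℝ) ^ 2) ^ (-s) * (2 * au l i) ≤ W2 * (2 * au l i) := by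
        have h0 := hau0 l i
        gcongr
      calc (1 + ∑ i, (l i : ℝ) ^ 2) ^ (-s) *
            (cosCoeff l (fun x => v x i - h x i) ^ 2 + sinCoeff l (fun x => v x i - h x i) ^ 2)
          ≤ (1 + ∑ i, (l i : ℝ) ^ 2) ^ (-s) * (2 * av l i + 2 * au l i) := by gcongr
        _ = (1 + ∑ i, (l i : ℝ) ^ 2) ^ (-s) * (2 * av l i)
            + (1 + ∑ i, (l i : ℝ) ^ 2) ^ (-s) * (2 * au l i) := by ring
        _ ≤ _ := add_le_add hfirst hsecond
  refine (Finset.sum_le_sum hterm).trans ?_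
  rw [Finset.sum_comm]
  simp only [Finset.sum_add_distrib, ← Finset.mul_sum]
  -- Bessel
  have b0 : ∑ _i : Fin 3, ∑ l ∈ S, (if l ∈ Bx K then 2 * D ^ 2 else 0)
      ≤ (Bx K).card * (3 * (2 * D ^ 2)) := by
    have h1 : ∑ l ∈ S, (if l ∈ Bx K then 2 * D ^ 2 else 0) ≤ (Bx K).card * (2 * D ^ 2) := by
      rw [← Finset.sum_filter, Finset.sum_const, nsmul_eq_mul]
      have h2 : (S.filter (fun l => l ∈ Bx K)).card ≤ (Bx K).card := by
        apply Finset.card_le_card
        intro l hl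
        exact (Finset.mem_filter.1 hl).2
      have h3 : ((S.filter (fun l => l ∈ Bx K)).card : ℝ) ≤ (Bx K).card := by exact_mod_cast h2
      gcongr
    rw [Finset.sum_const, Finset.card_univ, Fintype.card_fin, nsmul_eq_mul]
    push_cast
    linarith
  have b1 : ∑ i, ∑ l ∈ S, av l i ≤ 3 * (vl * M) := by
    have hb' : ∀ i, ∑ l ∈ S, av l i ≤ vl * M := by
      intro i
      rw [hav]
      refine (bessel (hv2 i) S).trans ?_
      exact mul_le_mul_of_nonneg_left (hb i) hvol0.le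
    calc ∑ i, ∑ l ∈ S, av l i ≤ ∑ _i : Fin 3, vl * M :=
          Finset.sum_le_sum fun i _ => hb' i
      _ = 3 * (vl * M) := by simp
  have b2 : ∑ i, ∑ l ∈ S, au l i ≤ vl * E := by
    have hb' : ∀ i, ∑ l ∈ S, au l i ≤ vl * ∫ x in Dom, h x i ^ 2 := by
      intro i
      rw [hau]
      exact bessel (memLp_comp hu2 i) S
    calc ∑ i, ∑ l ∈ S, au l i ≤ ∑ i : Fin 3, vl * ∫ x in Dom, h x i ^ 2 :=
          Finset.sum_le_sum fun i _ => hb' i
      _ = vl * ∑ i : Fin 3, ∫ x in Dom, h x i ^ 2 := by rw [Finset.mul_sum]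
      _ ≤ vl * E := by gcongr
  calc (∑ _i : Fin 3, ∑ l ∈ S, (if l ∈ Bx K then 2 * D ^ 2 else 0))
        + W1 * (2 * ∑ i, ∑ l ∈ S, av l i) + W2 * (2 * ∑ i, ∑ l ∈ S, au l i)
      ≤ (Bx K).card * (3 * (2 * D ^ 2)) + W1 * (2 * (3 * (vl * M))) + W2 * (2 * (vl * E)) := by
        gcongr
    _ ≤ ε ^ 2 / 3 + ε ^ 2 / 3 + ε ^ 2 / 3 := add_le_add (add_le_add w0 w1) w2
    _ = ε ^ 2 := by ring

/-- the trigonometric integrals -/
lemma cosp_int (m : Fin 3 → ℤ) (θ : ℝ) :
    ∫ x in Dom, Real.cos (ph m x - θ) = if m = 0 then vl * Real.cos θ else 0 := by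
  have e : ∀ x, Real.cos (ph m x - θ)
      = Real.cos (ph m x) * Real.cos θ + Real.sin (ph m x) * Real.sin θ := by
    intro x; rw [Real.cos_sub]
  simp only [e]
  rw [integral_add ((integrable_cos m).mul_const _) ((integrable_sin m).mul_const _),
    integral_mul_const, integral_mul_const, cos_moment, sin_moment]
  split_ifs
  · unfold vl; ring
  · ring

lemma prod_int (k l : Fin 3 → ℤ) (φ ψ : ℝ) :
    ∫ x in Dom, Real.cos (ph k x - φ) * Real.cos (ph l x - ψ)
      = ((if k - l = 0 then vl * Real.cos (φ - ψ) else 0)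
        + (if k + l = 0 then vl * Real.cos (φ + ψ) else 0)) / 2 := by
  have e0 : ∀ x, Real.cos (ph k x - φ) * Real.cos (ph l x - ψ)
      = Real.cos (ph (k - l) x - (φ - ψ)) * (1 / 2)
        + Real.cos (ph (k + l) x - (φ + ψ)) * (1 / 2) := by
    intro x
    have e1 : ph (k - l) x - (φ - ψ) = (ph k x - φ) - (ph l x - ψ) := by
      rw [ph_sub_left]; ring
    have e2 : ph (k + l) x - (φ + ψ) = (ph k x - φ) + (ph l x - ψ) := by
      rw [ph_add_left]; ring
    rw [e1, e2, Real.cos_sub (ph k x - φ) (ph l x - ψ), Real.cos_add (ph k x - φ) (ph l x - ψ)]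
    ring
  have i2 : ∀ (m : Fin 3 → ℤ) (ψ : ℝ), IntegrableOn (fun x => Real.cos (ph m x - ψ)) Dom :=
    fun m ψ => (cosp_periodic m ψ).integrableOn (cosp_cont m ψ)
  simp only [e0]
  rw [integral_add ((i2 _ _).mul_const _) ((i2 _ _).mul_const _), integral_mul_const,
    integral_mul_const, cosp_int, cosp_int]
  ring

lemma prod_int_abs (k l : Fin 3 → ℤ) (φ ψ : ℝ) :
    |∫ x in Dom, Real.cos (ph k x - φ) * Real.cos (ph l x - ψ)| ≤ vl := by
  rw [prod_int]
  have hv := vl_pos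
  have h1 : |(if k - l = 0 then vl * Real.cos (φ - ψ) else 0)| ≤ vl := by
    split_ifs
    · rw [abs_mul, abs_of_pos hv]
      exact mul_le_of_le_one_right hv.le (Real.abs_cos_le_one _)
    · simp [hv.le]
  have h2 : |(if k + l = 0 then vl * Real.cos (φ + ψ) else 0)| ≤ vl := by
    split_ifs
    · rw [abs_mul, abs_of_pos hv]
      exact mul_le_of_le_one_right hv.le (Real.abs_cos_le_one _)
    · simp [hv.le]
  rw [abs_div, abs_two]
  have := abs_add_le (if k - l = 0 then vl * Real.cos (φ - ψ) else 0)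
    (if k + l = 0 then vl * Real.cos (φ + ψ) else 0)
  linarith

lemma prod_int_zero {K : ℕ} {k l : Fin 3 → ℤ} (hk : k ∈ Bx K) (hl : l ∉ Bx K) (φ ψ : ℝ) :
    ∫ x in Dom, Real.cos (ph k x - φ) * Real.cos (ph l x - ψ) = 0 := by
  rw [prod_int, if_neg, if_neg]
  · ring
  · intro h
    apply hl
    have : l = -k := by rw [eq_neg_iff_add_eq_zero, add_comm]; exact h
    rw [this, mem_Bx]
    intro i
    rw [Pi.neg_apply, abs_neg]
    exact mem_Bx.1 hk i
  · intro h
    apply hl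
    rw [← sub_eq_zero.1 h]
    exact hk

end Pool.Agent.Zk27.UE
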