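import Pool.Agent.Zk27.UE.Main

/-!
# Finite nets in classes of curves, concatenation of curves
-/

open MeasureTheory Set
open scoped ENNReal NNReal Topology Pointwise ContDiff

set_option autoImplicit false

namespace Pool.Agent.Zk27.UE

open Pool.Agent.H708R2.EulerSign Pool.Agent.H708R2.EulerModes

/-- the Fourier coefficients of a bounded equicontinuous class of curves -/
structure Cls (T R : ℝ) (μ : (Fin 3 → ℤ) → ℝ → ℝ) (m : V) (A B : (Fin 3 → ℤ) → ℝ → V) : Prop where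
  bdA : ∀ k, ∀ t ∈ Icc 0 T, ∀ i, |A k t i| ≤ R
  bdB : ∀ k, ∀ t ∈ Icc 0 T, ∀ i, |B k t i| ≤ R
  modA : ∀ k, ∀ t ∈ Icc 0 T, ∀ t' ∈ Icc 0 T, ∀ i, |A k t i - A k t' i| ≤ μ k |t - t'|
  modB : ∀ k, ∀ t ∈ Icc 0 T, ∀ t' ∈ Icc 0 T, ∀ i, |B k t i - B k t' i| ≤ μ k |t - t'|
  orthA : ∀ k, ∀ t ∈ Icc 0 T, ph k (A k t) = 0
  orthB : ∀ k, ∀ t ∈ Icc 0 T, ph k (B k t) = 0
  symA : ∀ k, ∀ t ∈ Icc 0 T, A (-k) t = A k t
  symB : ∀ k, ∀ t ∈ Icc 0 T, B (-k) t = -B k t
  mean : ∀ t ∈ Icc 0 T, A 0 t = m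

section

variable {T R : ℝ} {μ : (Fin 3 → ℤ) → ℝ → ℝ} {m : V}

lemma grid {T t : ℝ} (hT : 0 < T) (ht : t ∈ Icc 0 T) {n : ℕ} (hn : 0 < n) :
    ∃ j : Fin (n + 1), (j : ℝ) * (T / n) ∈ Icc 0 T ∧ |t - (j : ℝ) * (T / n)| ≤ T / n := by
  have hnr : (0 : ℝ) < n := by exact_mod_cast hn
  have hTn : 0 < T / n := by positivity
  have h0 : 0 ≤ t / (T / n) := div_nonneg ht.1 hTn.le
  have h1 := Nat.floor_le h0
  have h2 := Nat.lt_floor_add_one (t / (T / n))
  have h3 : t / (T / n) ≤ n := by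
    rw [div_le_iff₀ hTn]
    have : (n : ℝ) * (T / n) = T := by field_simp
    linarith [ht.2]
  have h4 : ⌊t / (T / n)⌋₊ < n + 1 := by
    have : ⌊t / (T / n)⌋₊ ≤ n := Nat.floor_le_of_le h3
    omega
  refine ⟨⟨⌊t / (T / n)⌋₊, h4⟩, ⟨by positivity, ?_⟩, ?_⟩
  · simp only
    have h5 : (⌊t / (T / n)⌋₊ : ℝ) ≤ n := h1.trans h3
    calc (⌊t / (T / n)⌋₊ : ℝ) * (T / n) ≤ n * (T / n) := by gcongr
      _ = T := by field_simp
  · simp only
    rw [le_div_iff₀ hTn] at h1
    rw [div_lt_iff₀ hTn] at h2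
    rw [abs_le]
    constructor
    · linarith
    · linarith

theorem net (hT : 0 < T)
    (hμ : ∀ k, ∀ η : ℝ, 0 < η → ∃ δ : ℝ, 0 < δ ∧ ∀ r, 0 ≤ r → r ≤ δ → μ k r ≤ η)
    (K : ℕ) {D : ℝ} (hD : 0 < D) :
    ∃ (n : ℕ) (A B : Fin n → (Fin 3 → ℤ) → ℝ → V), (∀ j, Cls T R μ m (A j) (B j)) ∧
      ∀ A' B' : (Fin 3 → ℤ) → ℝ → V, Cls T R μ m A' B' → ∃ j, ∀ k ∈ Bx K, ∀ t ∈ Icc 0 T, ∀ i,
        |A' k t i - A j k t i| ≤ D ∧ |B' k t i - B j k t i| ≤ D := by
  classical
  -- the mesh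
  have hev : ∀ k ∈ Bx K, ∀ᶠ δ in 𝓝[>] (0 : ℝ), ∀ r, 0 ≤ r → r ≤ δ → μ k r ≤ D / 3 := by
    intro k _
    obtain ⟨δ, hδ, h⟩ := hμ k (D / 3) (by positivity)
    filter_upwards [Ioo_mem_nhdsGT hδ] with δ' hδ' r h0 hr
    exact h r h0 (hr.trans hδ'.2.le)
  obtain ⟨δ, hδ, hδ0⟩ := (((Finset.eventually_all (Bx K)).2 hev).and
    self_mem_nhdsWithin).exists
  have hδ0' : 0 < δ := hδ0
  obtain ⟨n, hn⟩ := exists_nat_gt (T / δ)
  have hnr : (0 : ℝ) < n := lt_trans (by positivity) hn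
  have hn0 : 0 < n := by exact_mod_cast hnr
  have hmesh : T / n ≤ δ := by
    rw [div_le_iff₀ hnr]
    rw [div_lt_iff₀ hδ0'] at hn
    linarith
  let Q : Type := Fin (n + 1) × {k // k ∈ Bx K} × Fin 3 × Bool
  let Ψ : ((Fin 3 → ℤ) → ℝ → V) × ((Fin 3 → ℤ) → ℝ → V) → Q → ℝ := fun P q =>
    if q.2.2.2 then P.2 q.2.1 ((q.1 : ℝ) * (T / n)) q.2.2.1
      else P.1 q.2.1 ((q.1 : ℝ) * (T / n)) q.2.2.1
  let S : Set (((Fin 3 → ℤ) → ℝ → V) × ((Fin 3 → ℤ) → ℝ → V)) := {P | Cls T R μ m P.1 P.2}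
  have hgrid : ∀ j : Fin (n + 1), (j : ℝ) * (T / n) ∈ Icc 0 T := by
    intro j
    refine ⟨by positivity, ?_⟩
    have h5 : (j : ℝ) ≤ n := by
      have := j.2
      exact_mod_cast (by omega : (j : ℕ) ≤ n)
    calc (j : ℝ) * (T / n) ≤ n * (T / n) := by gcongr
      _ = T := by field_simp
  have hbd : Bornology.IsBounded (Ψ '' S) := by
    rw [isBounded_iff_forall_norm_le]
    refine ⟨|R|, ?_⟩
    rintro _ ⟨P, hP, rfl⟩
    rw [pi_norm_le_iff_of_nonneg (abs_nonneg _)]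
    intro q
    rw [Real.norm_eq_abs]
    simp only [Ψ]
    split_ifs
    · exact (hP.bdB _ _ (hgrid _) _).trans (le_abs_self _)
    · exact (hP.bdA _ _ (hgrid _) _).trans (le_abs_self _)
  have htb : TotallyBounded (Ψ '' S) :=
    hbd.isCompact_closure.totallyBounded.subset subset_closure
  obtain ⟨t, hts, htf, hcov⟩ := Metric.finite_approx_of_totallyBounded htb (D / 3) (by positivity)
  have hsurj : ∀ y : htf.toFinset, ∃ P ∈ S, Ψ P = y := by
    intro y
    exact hts (htf.mem_toFinset.1 y.2)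
  choose P hPS hPy using hsurj
  let e := htf.toFinset.equivFin
  refine ⟨htf.toFinset.card, fun j => (P (e.symm j)).1, fun j => (P (e.symm j)).2,
    fun j => hPS _, fun A' B' hAB => ?_⟩
  have hmem : Ψ (A', B') ∈ Ψ '' S := ⟨(A', B'), hAB, rfl⟩
  have h1 := hcov hmem
  simp only [mem_iUnion, Metric.mem_ball] at h1
  obtain ⟨y, hyt, hy⟩ := h1
  set y' : htf.toFinset := ⟨y, htf.mem_toFinset.2 hyt⟩ with hy'
  refine ⟨e y', fun k hk s hs i => ?_⟩
  simp only [e.symm_apply_apply]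
  have hcls : Cls T R μ m (P y').1 (P y').2 := hPS y'
  have hΨ : Ψ (P y') = y := hPy y'
  obtain ⟨j, hj1, hj2⟩ := grid hT hs hn0
  have hd : ∀ q : Q, |Ψ (A', B') q - Ψ (P y') q| ≤ D / 3 := by
    intro q
    have := (dist_le_pi_dist (Ψ (A', B')) y q).trans hy.le
    rw [Real.dist_eq] at this
    rw [hΨ]; exact this
  have hmod : μ k |s - (j : ℝ) * (T / n)| ≤ D / 3 :=
    hδ k hk _ (abs_nonneg _) (hj2.trans hmesh)
  constructor
  · have h2 := hd (j, ⟨k, hk⟩, i, false)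
    simp only [Ψ] at h2
    have h3 := (hAB.modA k s hs _ hj1 i).trans hmod
    have h4 := (hcls.modA k s hs _ hj1 i).trans hmod
    rw [abs_le] at h2 h3 h4 ⊢
    simp only [Bool.false_eq_true, if_false] at h2
    constructor <;> linarith [h2.1, h2.2, h3.1, h3.2, h4.1, h4.2]
  · have h2 := hd (j, ⟨k, hk⟩, i, true)
    simp only [Ψ] at h2
    have h3 := (hAB.modB k s hs _ hj1 i).trans hmod
    have h4 := (hcls.modB k s hs _ hj1 i).trans hmod
    rw [abs_le] at h2 h3 h4 ⊢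
    simp only [if_true] at h2
    constructor <;> linarith [h2.1, h2.2, h3.1, h3.2, h4.1, h4.2]

/-- cut-offs on the circle -/
lemma bumps {T : ℝ} (hT : 0 < T) (n : ℕ) (hn : 0 < n) : ∃ χ : Fin n → ℝ → ℝ,
    (∀ j, Continuous (χ j)) ∧ (∀ j t, χ j (t + 4 * n * T) = χ j t) ∧
      (∀ i j : Fin n, ∀ t ∈ Icc 0 T, χ j (4 * i * T + t) = if i = j then 1 else 0) := by
  have hnr : (0 : ℝ) < n := by exact_mod_cast hn
  set τ : ℝ := 4 * n * T with hτ
  have hτ0 : 0 < τ := by positivity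
  refine ⟨fun j t => max 0 (min 1 (2 - ‖((t - (4 * j * T + T / 2) : ℝ) : AddCircle τ)‖ / T)),
    ?_, ?_, ?_⟩
  · intro j
    have h1 : Continuous (fun t : ℝ => ‖((t - (4 * j * T + T / 2) : ℝ) : AddCircle τ)‖) :=
      continuous_norm.comp ((AddCircle.continuous_mk' τ).comp (continuous_id.sub continuous_const))
    exact continuous_const.max (continuous_const.min (continuous_const.sub (h1.div_const _)))
  · intro j t
    have : ((t + τ - (4 * j * T + T / 2) : ℝ) : AddCircle τ)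
        = ((t - (4 * j * T + T / 2) : ℝ) : AddCircle τ) := by
      have e : t + τ - (4 * j * T + T / 2) = (t - (4 * j * T + T / 2)) + τ := by ring
      rw [e, AddCircle.coe_add, AddCircle.coe_period, add_zero]
    simp only [this]
  · intro i j t ht
    simp only
    have e : 4 * (i : ℝ) * T + t - (4 * j * T + T / 2)
        = 4 * ((i : ℝ) - j) * T + (t - T / 2) := by ring
    rw [e]
    have hy : |t - T / 2| ≤ T / 2 := by
      rw [abs_le]; constructor <;> linarith [ht.1, ht.2]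
    split_ifs with hij
    · subst hij
      rw [sub_self, mul_zero, zero_mul, zero_add]
      have h1 : ‖((t - T / 2 : ℝ) : AddCircle τ)‖ ≤ T / 2 := by
        have h2 : ‖((t - T / 2 : ℝ) : AddCircle τ)‖ = |t - T / 2| := by
          rw [AddCircle.norm_coe_eq_abs_iff τ hτ0.ne', abs_of_pos hτ0]
          refine hy.trans ?_
          have h1n : (1 : ℝ) ≤ n := by exact_mod_cast hn
          rw [hτ]
          nlinarith
        rw [h2]; exact hy
      have h2 : ‖((t - T / 2 : ℝ) : AddCircle τ)‖ / T ≤ 1 / 2 := by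
        rw [div_le_iff₀ hT]; linarith
      rw [min_eq_left (by linarith), max_eq_right zero_le_one]
    · have h1 : 2 * T ≤ ‖((4 * ((i : ℝ) - j) * T + (t - T / 2) : ℝ) : AddCircle τ)‖ := by
        rw [AddCircle.norm_eq]
        set r : ℤ := round (τ⁻¹ * (4 * ((i : ℝ) - j) * T + (t - T / 2))) with hr
        have e2 : 4 * ((i : ℝ) - j) * T + (t - T / 2) - r * τ
            = 4 * T * (((i : ℤ) - (j : ℤ) - r * n : ℤ) : ℝ) + (t - T / 2) := by
          rw [hτ]; push_cast; ring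
        rw [e2]
        have hne : ((i : ℤ) - (j : ℤ) - r * n : ℤ) ≠ 0 := by
          intro h0
          have hi := i.2
          have hj := j.2
          have h3 : ((i : ℤ) - (j : ℤ)) = r * n := by linarith
          have h4 : |((i : ℤ) - (j : ℤ))| < n := by
            rw [abs_lt]; constructor <;> omega
          rw [h3, abs_mul, Nat.abs_cast] at h4
          have hn' : (0 : ℤ) < n := by exact_mod_cast hn
          have h5 : r = 0 := by
            by_contra hr0
            have := Int.one_le_abs hr0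
            nlinarith
          rw [h5, zero_mul, sub_eq_zero] at h3
          exact hij (Fin.ext (by exact_mod_cast h3))
        have h6 : (1 : ℝ) ≤ |(((i : ℤ) - (j : ℤ) - r * n : ℤ) : ℝ)| := by
          have := Int.one_le_abs hne
          exact_mod_cast this
        have h7 : 4 * T ≤ |4 * T * (((i : ℤ) - (j : ℤ) - r * n : ℤ) : ℝ)| := by
          rw [abs_mul, abs_of_pos (by positivity : 0 < 4 * T)]
          nlinarith
        have h8 := abs_sub_abs_le_abs_sub (4 * T * (((i : ℤ) - (j : ℤ) - r * n : ℤ) : ℝ))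
          (-(t - T / 2))
        rw [abs_neg, sub_neg_eq_add] at h8
        linarith
      have h2 : 2 ≤ ‖((4 * ((i : ℝ) - j) * T + (t - T / 2) : ℝ) : AddCircle τ)‖ / T := by
        rw [le_div_iff₀ hT]; exact h1
      rw [max_eq_left]
      exact (min_le_right _ _).trans (by linarith)

lemma ph_dtL (k : Fin 3 → ℤ) (x : V) : ph k x = dtL (rv k) x := by rw [dtL_apply, ph_eq_dt]

/-- concatenation of finitely many curves to a periodic curve -/
theorem concat (hT : 0 < T)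
    (hμ : ∀ k, ∀ η : ℝ, 0 < η → ∃ δ : ℝ, 0 < δ ∧ ∀ r, 0 ≤ r → r ≤ δ → μ k r ≤ η)
    (K : ℕ) {n : ℕ} (hn : 0 < n) {A B : Fin n → (Fin 3 → ℤ) → ℝ → V}
    (hC : ∀ j, Cls T R μ m (A j) (B j)) :
    ∃ A' B' : (Fin 3 → ℤ) → ℝ → V, Curves (4 * n * T) K A' B' ∧
      ∀ j : Fin n, ∀ k, ∀ t ∈ Icc 0 T, A' k (4 * j * T + t) = A j k t ∧
        B' k (4 * j * T + t) = B j k t := by
  obtain ⟨χ, hχc, hχp, hχv⟩ := bumps hT n hn
  have hcont : ∀ (f : ℝ → V) (μ' : ℝ → ℝ),
      (∀ η : ℝ, 0 < η → ∃ δ : ℝ, 0 < δ ∧ ∀ r, 0 ≤ r → r ≤ δ → μ' r ≤ η) →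
      (∀ t ∈ Icc 0 T, ∀ t' ∈ Icc 0 T, ∀ i, |f t i - f t' i| ≤ μ' |t - t'|) →
      Continuous (fun t => f (tri T t)) := by
    intro f μ' h1 h2
    have h3 : ContinuousOn f (Icc 0 T) := by
      rw [Metric.continuousOn_iff]
      intro t ht η hη
      obtain ⟨δ, hδ, h4⟩ := h1 (η / 2) (by positivity)
      refine ⟨δ, hδ, fun t' ht' hd => ?_⟩
      rw [Real.dist_eq] at hd
      have h5 : dist (f t') (f t) ≤ η / 2 := by
        rw [dist_pi_le_iff (by positivity)]
        intro i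
        rw [Real.dist_eq]
        exact (h2 t' ht' t ht i).trans (h4 _ (abs_nonneg _) hd.le)
      linarith
    exact h3.comp_continuous (tri_cont T) (fun t => tri_mem hT t)
  have hcA : ∀ j k, Continuous (fun t => A j k (tri T t)) := fun j k =>
    hcont (A j k) (μ k) (hμ k) ((hC j).modA k)
  have hcB : ∀ j k, Continuous (fun t => B j k (tri T t)) := fun j k =>
    hcont (B j k) (μ k) (hμ k) ((hC j).modB k)
  have htp : ∀ t, tri T (t + 4 * n * T) = tri T t := by
    intro t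
    have h1 : Function.Periodic (tri T) (2 * T) := fun t => tri_per T t
    have h2 := h1.nat_mul (2 * n) t
    calc tri T (t + 4 * n * T) = tri T (t + ((2 * n : ℕ) : ℝ) * (2 * T)) := by
          congr 1; push_cast; ring
      _ = tri T t := h2
  have htj : ∀ (j : Fin n), ∀ t ∈ Icc 0 T, tri T (4 * j * T + t) = t := by
    intro j t ht
    have h1 : Function.Periodic (tri T) (2 * T) := fun t => tri_per T t
    have h2 := h1.nat_mul (2 * j) t
    rw [tri_eq hT ht] at h2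
    calc tri T (4 * j * T + t) = tri T (t + ((2 * j : ℕ) : ℝ) * (2 * T)) := by
          congr 1; push_cast; ring
      _ = t := h2
  let j₀ : Fin n := ⟨0, hn⟩
  have hm := fun t => tri_mem hT t
  refine ⟨fun k t => A j₀ k (tri T t) + ∑ j, χ j t • (A j k (tri T t) - A j₀ k (tri T t)),
    fun k t => B j₀ k (tri T t) + ∑ j, χ j t • (B j k (tri T t) - B j₀ k (tri T t)), ?_, ?_⟩
  · refine ⟨?_, ?_, ?_, ?_, ?_, ?_, ?_, ?_, ?_⟩
    · intro k _
      exact (hcA j₀ k).add (continuous_finsetSum _ fun j _ =>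
        (hχc j).smul ((hcA j k).sub (hcA j₀ k)))
    · intro k _
      exact (hcB j₀ k).add (continuous_finsetSum _ fun j _ =>
        (hχc j).smul ((hcB j k).sub (hcB j₀ k)))
    · intro k _ t
      simp only [htp, hχp]
    · intro k _ t
      simp only [htp, hχp]
    · intro k _ t
      rw [ph_dtL]
      simp only [map_add, map_sum, map_smul, map_sub]
      simp only [← ph_dtL, (hC _).orthA k _ (hm t)]
      simp
    · intro k _ t
      rw [ph_dtL]
      simp only [map_add, map_sum, map_smul, map_sub]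
      simp only [← ph_dtL, (hC _).orthB k _ (hm t)]
      simp
    · intro k _ t
      simp only [(hC _).symA k _ (hm t)]
    · intro k _ t
      simp only [(hC _).symB k _ (hm t)]
      rw [neg_add, ← Finset.sum_neg_distrib]
      congr 1
      refine Finset.sum_congr rfl fun j _ => ?_
      rw [← smul_neg]
      congr 1
      abel
    · intro t
      simp only [(hC _).mean _ (hm _)]
      simp
  · intro j k t ht
    have e : ∀ (X : Fin n → V), X j₀ + ∑ i, (if j = i then (1 : ℝ) else 0) • (X i - X j₀)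
        = X j := by
      intro X
      simp only [ite_smul, one_smul, zero_smul, Finset.sum_ite_eq, Finset.mem_univ, if_true]
      abel
    simp only [htj j t ht, hχv j _ t ht]
    exact ⟨e fun i => A i k t, e fun i => B i k t⟩

end

end Pool.Agent.Zk27.UE
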