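import Pool.Agent.Zk27.UE.PCore
import Mathlib.Topology.PartitionOfUnity

/-!
# Approximation of compact families of functions by trigonometric polynomials
-/

open MeasureTheory Set
open scoped ENNReal NNReal Topology Pointwise ContDiff

set_option autoImplicit false

namespace Pool.Agent.Zk27.UE

open Pool.Agent.H708R2.EulerSign Pool.Agent.H708R2.EulerModes

lemma tc_add (ν a b a' b' t : ℝ) : tc ν (a + a') (b + b') t = tc ν a b t + tc ν a' b' t := by
  unfold tc; ring

lemma tc_mul (ν c a b t : ℝ) : tc ν (c * a) (c * b) t = c * tc ν a b t := by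
  unfold tc; ring

lemma tc_zero (ν t : ℝ) : tc ν 0 0 t = 0 := by unfold tc; ring

lemma tc_sum {ι : Type} (s : Finset ι) (ν t : ℝ) (a b : ι → ℝ) :
    tc ν (∑ i ∈ s, a i) (∑ i ∈ s, b i) t = ∑ i ∈ s, tc ν (a i) (b i) t := by
  classical
  induction s using Finset.induction_on with
  | empty => simp [tc_zero]
  | insert i s hi ih => rw [Finset.sum_insert hi, Finset.sum_insert hi, Finset.sum_insert hi,
      tc_add, ih]

/-- approximation of compact families of functions by trigonometric polynomials -/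
theorem papprox {Y : Type} [TopologicalSpace Y] [CompactSpace Y] [T2Space Y] {Q : Type}
    [Fintype Q] {I : Set ℝ} {f : Q → Y → ℝ → ℝ} {Pμ : ℝ → Prop}
    (H1 : ∀ q y η, 0 < η → ∃ (n : ℕ) (μ a b : Fin n → ℝ), (∀ j, Pμ (μ j)) ∧
      ∀ t ∈ I, |f q y t - ∑ j, tc (μ j) (a j) (b j) t| ≤ η)
    (H2 : ∀ q y₀ η, 0 < η → ∀ᶠ y in 𝓝 y₀, ∀ t ∈ I, |f q y t - f q y₀ t| ≤ η)
    {η : ℝ} (hη : 0 < η) :
    ∃ (Λ : Type) (_ : Fintype Λ) (μ : Λ → ℝ) (a b : Q → Λ → Y → ℝ), (∀ n, Pμ (μ n)) ∧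
      (∀ q n, Continuous (a q n) ∧ Continuous (b q n)) ∧
      ∀ q y, ∀ t ∈ I, |f q y t - ∑ n, tc (μ n) (a q n y) (b q n y) t| ≤ η := by
  classical
  have hη2 : 0 < η / 2 := half_pos hη
  let U : Y → Set Y := fun y₀ => interior {y | ∀ q, ∀ t ∈ I, |f q y t - f q y₀ t| ≤ η / 2}
  have hU : ∀ y₀, y₀ ∈ U y₀ := by
    intro y₀
    rw [mem_interior_iff_mem_nhds]
    exact (Filter.eventually_all.2 fun q => H2 q y₀ (η / 2) hη2)
  obtain ⟨s, hs⟩ := isCompact_univ.elim_finite_subcover U (fun y₀ => isOpen_interior)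
    (fun y _ => mem_iUnion.2 ⟨y, hU y⟩)
  have hs' : (univ : Set Y) ⊆ ⋃ i : s, U i := by
    intro y hy
    obtain ⟨i, hi⟩ := mem_iUnion.1 (hs hy)
    obtain ⟨hi', hy'⟩ := mem_iUnion.1 hi
    exact mem_iUnion.2 ⟨⟨i, hi'⟩, hy'⟩
  obtain ⟨ρ, hρ⟩ := PartitionOfUnity.exists_isSubordinate (isClosed_univ (X := Y))
    (fun i : s => U i) (fun i => isOpen_interior) hs'
  have hρ1 : ∀ y, ∑ i : s, ρ i y = 1 := by
    intro y
    have := ρ.sum_eq_one (mem_univ y)
    rwa [finsum_eq_sum_of_fintype] at this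
  have hρ0 : ∀ i y, 0 ≤ ρ i y := fun i y => ρ.nonneg i y
  have hρU : ∀ i y, ρ i y ≠ 0 → ∀ q, ∀ t ∈ I, |f q y t - f q i t| ≤ η / 2 := by
    intro i y hy
    have h1 : y ∈ tsupport (ρ i) := subset_tsupport _ hy
    exact interior_subset (hρ i h1)
  choose n μ a b hμ hab using fun (i : s) (q : Q) => H1 q i (η / 2) hη2
  let Λ : Type := Σ p : s × Q, Fin (n p.1 p.2)
  refine ⟨Λ, inferInstance, fun e => μ e.1.1 e.1.2 e.2,
    fun q e y => if e.1.2 = q then ρ e.1.1 y * a e.1.1 e.1.2 e.2 else 0,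
    fun q e y => if e.1.2 = q then ρ e.1.1 y * b e.1.1 e.1.2 e.2 else 0,
    fun e => hμ _ _ _, ?_, ?_⟩
  · intro q e
    by_cases h : e.1.2 = q
    · simp only [h, if_true]
      exact ⟨(ρ e.1.1).continuous.mul continuous_const, (ρ e.1.1).continuous.mul continuous_const⟩
    · simp only [h, if_false]
      exact ⟨continuous_const, continuous_const⟩
  · intro q y t ht
    have e1 : ∑ e : Λ, tc (μ e.1.1 e.1.2 e.2)
        (if e.1.2 = q then ρ e.1.1 y * a e.1.1 e.1.2 e.2 else 0)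
        (if e.1.2 = q then ρ e.1.1 y * b e.1.1 e.1.2 e.2 else 0) t
        = ∑ i : s, ρ i y * ∑ j, tc (μ i q j) (a i q j) (b i q j) t := by
      rw [Fintype.sum_sigma, Fintype.sum_prod_type]
      refine Finset.sum_congr rfl fun i _ => ?_
      rw [Finset.sum_eq_single q]
      · simp only [if_true]
        rw [Finset.mul_sum]
        refine Finset.sum_congr rfl fun j _ => ?_
        rw [tc_mul]
      · intro q' _ hq'
        simp only [hq', if_false, tc_zero]
        simp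
      · intro h; exact absurd (Finset.mem_univ _) h
    rw [e1]
    have e2 : f q y t = ∑ i : s, ρ i y * f q y t := by
      rw [← Finset.sum_mul, hρ1, one_mul]
    have e3 : f q y t - ∑ i : s, ρ i y * ∑ j, tc (μ i q j) (a i q j) (b i q j) t
        = ∑ i : s, ρ i y * (f q y t - ∑ j, tc (μ i q j) (a i q j) (b i q j) t) := by
      simp only [mul_sub, Finset.sum_sub_distrib]
      rw [← e2]
    rw [e3]
    refine (Finset.abs_sum_le_sum_abs _ _).trans ?_
    have h4 : ∀ i : s, |ρ i y * (f q y t - ∑ j, tc (μ i q j) (a i q j) (b i q j) t)|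
        ≤ ρ i y * η := by
      intro i
      rw [abs_mul, abs_of_nonneg (hρ0 i y)]
      by_cases h0 : ρ i y = 0
      · rw [h0]; simp
      · have h5 := hρU i y h0 q t ht
        have h6 := hab i q t ht
        have h7 : |f q y t - ∑ j, tc (μ i q j) (a i q j) (b i q j) t| ≤ η := by
          have e : f q y t - ∑ j, tc (μ i q j) (a i q j) (b i q j) t
              = (f q y t - f q i t) + (f q i t - ∑ j, tc (μ i q j) (a i q j) (b i q j) t) := by
            ring
          rw [e]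
          exact (abs_add_le _ _).trans (by linarith)
        exact mul_le_mul_of_nonneg_left h7 (hρ0 i y)
    refine (Finset.sum_le_sum fun i _ => h4 i).trans ?_
    rw [← Finset.sum_mul, hρ1, one_mul]

/-- continuous functions on an interval are limits of trigonometric polynomials -/
lemma h1_of_cont {T : ℝ} (hT : 0 < T) {g : ℝ → ℝ} (hg : ContinuousOn g (Icc 0 T)) {η : ℝ}
    (hη : 0 < η) : ∃ (n : ℕ) (μ a b : Fin n → ℝ), (∀ j, ∃ m : ℤ, μ j * (2 * T) = m * (2 * Real.pi)) ∧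
      ∀ t ∈ Icc 0 T, |g t - ∑ j, tc (μ j) (a j) (b j) t| ≤ η := by
  have hc : Continuous (fun t => g (tri T t)) := hg.comp_continuous (tri_cont T) (tri_mem hT)
  obtain ⟨S, a, b, h1, -⟩ := trig_approx (τ := 2 * T) (by positivity) hc
    (fun t => by simp only [tri_per]) hη
  let e := S.equivFin
  refine ⟨S.card, fun j => 2 * Real.pi * (e.symm j : ℤ) / (2 * T), fun j => a (e.symm j),
    fun j => b (e.symm j), fun j => ⟨e.symm j, by field_simp⟩, fun t ht => ?_⟩
  have h2 := h1 t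
  simp only [tri_eq hT ht] at h2
  have h3 : ∑ j, tc (2 * Real.pi * (e.symm j : ℤ) / (2 * T)) (a (e.symm j)) (b (e.symm j)) t
      = ∑ n ∈ S, (a n * Real.cos (2 * Real.pi * n / (2 * T) * t)
        + b n * Real.sin (2 * Real.pi * n / (2 * T) * t)) := by
    rw [← Finset.sum_coe_sort S]
    exact Equiv.sum_comp e.symm (fun n : S => tc (2 * Real.pi * ((n : ℤ) : ℝ) / (2 * T)) (a n)
      (b n) t)
  rw [h3]
  exact h2

/-- jointly continuous families depend continuously on the parameter, uniformly in time -/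
lemma h2_of_cont {Y : Type} [TopologicalSpace Y] {T : ℝ} {f : Y → ℝ → ℝ}
    (hf : ContinuousOn (fun z : Y × ℝ => f z.1 z.2) (univ ×ˢ Icc 0 T)) (y₀ : Y) {η : ℝ}
    (hη : 0 < η) : ∀ᶠ y in 𝓝 y₀, ∀ t ∈ Icc 0 T, |f y t - f y₀ t| ≤ η := by
  have h : Continuous (fun z : Y × Icc (0 : ℝ) T => f z.1 z.2 - f y₀ z.2) := by
    have h1 : Continuous (fun z : Y × Icc (0 : ℝ) T => f z.1 z.2) := by
      refine hf.comp_continuous (f := fun z : Y × Icc (0 : ℝ) T => (z.1, (z.2 : ℝ))) ?_ ?_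
      · exact continuous_fst.prodMk (continuous_subtype_val.comp continuous_snd)
      · intro z; exact ⟨mem_univ _, z.2.2⟩
    have h2 : Continuous (fun z : Y × Icc (0 : ℝ) T => f y₀ z.2) := by
      refine hf.comp_continuous (f := fun z : Y × Icc (0 : ℝ) T => (y₀, (z.2 : ℝ))) ?_ ?_
      · exact continuous_const.prodMk (continuous_subtype_val.comp continuous_snd)
      · intro z; exact ⟨mem_univ _, z.2.2⟩
    exact h1.sub h2
  have h3 : ∀ t ∈ (univ : Set (Icc (0 : ℝ) T)),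
      ∀ᶠ z : Y × Icc (0 : ℝ) T in 𝓝 (y₀, t), |f z.1 z.2 - f y₀ z.2| ≤ η := by
    intro t _
    have h4 : ∀ᶠ z : Y × Icc (0 : ℝ) T in 𝓝 (y₀, t), |f z.1 z.2 - f y₀ z.2| < η := by
      refine h.abs.continuousAt.eventually_lt (continuousAt_const (y := η)) ?_
      simp [hη]
    exact h4.mono fun z hz => hz.le
  have h5 := isCompact_univ.eventually_forall_of_forall_eventually (x₀ := y₀)
    (P := fun (y : Y) (t : Icc (0 : ℝ) T) => |f y t - f y₀ t| ≤ η) h3
  filter_upwards [h5] with y hy t ht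
  exact hy ⟨t, ht⟩ (mem_univ _)

end Pool.Agent.Zk27.UE
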