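import Pool.Agent.Zk27.UE.Univ

/-!
# Linear families of solutions in one tube
-/

open MeasureTheory Set
open scoped ENNReal NNReal Topology Pointwise ContDiff

set_option autoImplicit false

namespace Pool.Agent.Zk27.UE

open Pool.Agent.H708R2.EulerSign Pool.Agent.H708R2.EulerModes
open Pool.Agent.R739.ET (RP pA pA_rp pA_pos fine_resc periodic_resc)

/-- the first time factor -/
noncomputable def tc (ν a b t : ℝ) : ℝ := a * Real.cos (ν * t) + b * Real.sin (ν * t)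

/-- the second time factor -/
noncomputable def ts (ν a b t : ℝ) : ℝ := b * Real.cos (ν * t) - a * Real.sin (ν * t)

/-- a two-parameter family of solutions in a tube -/
structure PAtom (ξ k : Fin 3 → ℤ) (φ ν : ℝ) (c : V) (δ : ℝ) (N : ℕ) (C : ℝ)
    (S W W' : V → V) (P : V → ℝ) : Prop where
  sol : ∀ a b : ℝ, Sol (fun t x => S x + (tc ν a b t • W x + ts ν a b t • W' x)) P
  supp : ∀ x, δ ≤ nr (Z ξ c N x) → S x = 0 ∧ W x = 0 ∧ W' x = 0
  bound : ∀ x i, |S x i| ≤ C * N ∧ |W x i| ≤ C * N ∧ |W' x i| ≤ C * N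
  modes : ∀ a b t (l : Fin 3 → ℤ), (∀ i, |l i| + |k i| < N) → ∀ (i : Fin 3) (ψ : ℝ),
    ∫ x in Dom, (S x i + (tc ν a b t * W x i + ts ν a b t * W' x i)) * Real.cos (ph l x - ψ)
      = tc ν a b t * ξ i * ∫ x in Dom, Real.cos (ph k x - φ) * Real.cos (ph l x - ψ)

lemma r1_r1 {ξ : Fin 3 → ℤ} (hξ : ξ ≠ 0) {r : V} (hr : dt (rv ξ) r = 0) :
    r1 ξ (r1 ξ r) = -r := by
  have hq := q_pos hξ
  have hs : 0 < Real.sqrt (q ξ) := Real.sqrt_pos.2 hq
  have hss : Real.sqrt (q ξ) * Real.sqrt (q ξ) = q ξ := Real.mul_self_sqrt hq.le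
  unfold r1
  rw [map_smul, JJ ξ r hr, smul_smul, smul_smul, neg_eq_neg_one_mul (q ξ)]
  have : (Real.sqrt (q ξ))⁻¹ * (Real.sqrt (q ξ))⁻¹ * (-1 * q ξ) = -1 := by
    field_simp
    nlinarith
  rw [this, neg_one_smul]

lemma Fw_lin (B : ℝ → ℝ) (k : Fin 3 → ℤ) (φ : ℝ) (κ r s : V) (a b : ℝ) (x z : V) :
    Fw B k φ κ (a • r + b • s) x z = a * Fw B k φ κ r x z + b * Fw B k φ κ s x z := by
  unfold Fw
  rw [dt_add_left, dt_smul_left, dt_smul_left]
  ring

lemma rt_lin {ξ : Fin 3 → ℤ} (hξ : ξ ≠ 0) {r : V} (hr : dt (rv ξ) r = 0) (ν a b t : ℝ) :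
    rt ξ (a • r + (-b) • r1 ξ r) ν t = tc ν a b t • r + ts ν a b t • (-r1 ξ r) := by
  have h1 : r1 ξ (a • r + (-b) • r1 ξ r) = a • r1 ξ r + b • r := by
    have e : r1 ξ (a • r + (-b) • r1 ξ r) = a • r1 ξ r + (-b) • r1 ξ (r1 ξ r) := by
      unfold r1
      rw [map_add, map_smul, map_smul, smul_add]
      simp only [smul_smul]
      congr 2 <;> ring
    rw [e, r1_r1 hξ hr]
    simp
  unfold rt
  rw [h1]
  unfold tc ts
  module

lemma rt_zero (ξ : Fin 3 → ℤ) (r : V) : rt ξ r 0 0 = r := by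
  unfold rt; simp

lemma comp_le_X (ξ : Fin 3 → ℤ) (i : Fin 3) :
    |rv ξ i| ≤ |(ξ 0 : ℝ)| + |(ξ 1 : ℝ)| + |(ξ 2 : ℝ)| := by
  have h0 := abs_nonneg (ξ 0 : ℝ); have h1 := abs_nonneg (ξ 1 : ℝ)
  have h2 := abs_nonneg (ξ 2 : ℝ)
  fin_cases i
  · show |(ξ 0 : ℝ)| ≤ _; linarith
  · show |(ξ 1 : ℝ)| ≤ _; linarith
  · show |(ξ 2 : ℝ)| ≤ _; linarith

/-- a linear family of solutions with rotating axial velocities -/
theorem exists_prot {ξ k : Fin 3 → ℤ} (hξ : ξ ≠ 0) (hk0 : k ≠ 0) (hk : dt (rv k) (rv ξ) = 0)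
    (φ ν : ℝ) {c : V} (hc : dt (rv ξ) c = 0) {δ : ℝ} (hδ0 : 0 < δ) (hδ : δ ≤ 1) :
    ∃ C : ℝ, 0 ≤ C ∧ ∃ N₀ : ℕ, ∀ N, N₀ ≤ N →
      ∃ (S W W' : V → V) (P : V → ℝ), PAtom ξ k φ ν c δ N C S W W' P := by
  have hq := q_pos hξ
  have hq1 := one_le_q hξ
  set s : ℝ := Real.sqrt (q ξ) with hs
  have hs1 : 1 ≤ s := by rw [hs, Real.one_le_sqrt]; exact hq1
  have hs0 : 0 < s := by linarith
  have hs2 : s ^ 2 = q ξ := Real.sq_sqrt hq.le
  have hkξ : dt (rv ξ) (rv k) = 0 := by rw [dt_comm]; exact hk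
  obtain ⟨κ, hJκ, hκξ⟩ : ∃ κ, J ξ κ = -rv k ∧ dt (rv ξ) κ = 0 := by
    refine ⟨(q ξ)⁻¹ • J ξ (rv k), ?_, ?_⟩
    · rw [map_smul, JJ ξ _ hkξ, smul_smul, mul_neg, inv_mul_cancel₀ hq.ne', neg_smul, one_smul]
    · rw [dt_smul_right, dt_rv_J, mul_zero]
  have hκ0 : κ ≠ 0 := by
    intro h
    rw [h, map_zero] at hJκ
    apply hk0
    have : rv k = 0 := by rw [← neg_eq_zero]; exact hJκ.symm
    ext i
    have h1 := congrFun this i
    simp only [rv, Pi.zero_apply] at h1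
    exact_mod_cast h1
  have hJκξ : dt (rv ξ) (J ξ κ) = 0 := dt_rv_J ξ κ
  set B : ℝ → ℝ := pA (δ / 2) with hB
  have hBrp : RP (δ / 2) B := pA_rp _
  have hδ2 : δ / 2 ≤ 1 := by linarith
  set I₂ : ℝ := ∫ x in Dom, B (nr (Z ξ c 1 x)) * dt κ (Z ξ c 1 x) ^ 2 with hI₂
  have hI₂0 : 0 < I₂ := moment_pos hξ hc (by positivity) hδ2 hBrp (fun R => pA_nonneg _ R)
    (fun R hR => pA_pos hR) hκ0 hκξ
  set K₁ : ℝ := |κ 0| + |κ 1| + |κ 2| with hK₁
  set G : ℝ := ((1 + s) * |κ 0| + 2 * |J ξ κ 0|) + ((1 + s) * |κ 1| + 2 * |J ξ κ 1|)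
    + ((1 + s) * |κ 2| + 2 * |J ξ κ 2|) with hG
  have hG0 : 0 ≤ G := by positivity
  have hv0 := vl_pos
  set Cw : ℝ := (|1 * vl| + |0 * vl|) * (Real.pi / 2 / I₂) * G with hCw
  have hpi := Real.pi_pos
  have hCw0 : 0 ≤ Cw := by positivity
  set X : ℝ := |(ξ 0 : ℝ)| + |(ξ 1 : ℝ)| + |(ξ 2 : ℝ)| with hX
  have hX0 : 0 ≤ X := by positivity
  refine ⟨|ν| + Cw * X, by positivity, ⌈K₁⌉₊ + 1, fun N hN => ?_⟩
  have hN0 : 0 < N := by omega
  have hNr : (1 : ℝ) ≤ N := by exact_mod_cast hN0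
  have hNr0 : (0 : ℝ) < N := by linarith
  have hKN : K₁ ≤ N := (Nat.le_ceil K₁).trans (by exact_mod_cast (by omega : ⌈K₁⌉₊ ≤ N))
  set κ' : V := (N : ℝ)⁻¹ • κ with hκ'
  have hκ'J : (N : ℝ) • J ξ κ' = -rv k := by
    rw [hκ', map_smul, smul_smul, mul_inv_cancel₀ hNr0.ne', one_smul, hJκ]
  set P := mu B ξ c κ' κ with hP
  set Q := mu B ξ c κ' (J ξ κ) with hQ
  have hPlow : 2 / Real.pi / N * I₂ ≤ P := by
    rw [hP, hI₂, mu, ← integral_const_mul]
    refine setIntegral_mono_on ?_ ?_ dom_meas fun x _ => ?_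
    · refine Integrable.const_mul ?_ _
      refine gz_int (g := fun z => B (nr z) * dt κ z ^ 2) ?_ (fun z hz => ?_) 1
      · exact (hBrp.smooth.continuous.comp (nr_contDiff (n := 0)).continuous).mul
          ((dt_contDiff κ (n := 0)).continuous.pow 2)
      · rw [hBrp.van _ (hδ2.trans hz), zero_mul]
    · exact gz_int (g2_cont hBrp κ' κ) (g2_van hBrp hδ2 κ' κ) 1
    · set z := Z ξ c 1 x with hz
      by_cases h : nr z ≤ 1
      · have h1 : |dt κ z| ≤ N := (abs_dt_le κ z h).trans hKN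
        have h2 := sin_moment_le hNr0 h1
        have h3 : dt κ' z = (N : ℝ)⁻¹ * dt κ z := by rw [hκ', dt_smul_left]
        rw [h3]
        have h4 : 0 ≤ B (nr z) := pA_nonneg _ _
        calc 2 / Real.pi / N * (B (nr z) * dt κ z ^ 2)
            = B (nr z) * (2 / Real.pi / N * dt κ z ^ 2) := by ring
          _ ≤ B (nr z) * (dt κ z * Real.sin ((N : ℝ)⁻¹ * dt κ z)) := by gcongr
          _ = B (nr z) * dt κ z * Real.sin ((N : ℝ)⁻¹ * dt κ z) := by ring
      · push Not at h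
        rw [hBrp.van _ (hδ2.trans h.le)]
        simp
  have hP0 : 0 < P := lt_of_lt_of_le (by positivity) hPlow
  obtain ⟨x, y, e1, e2, bx, by'⟩ := solve2 (s := s) (P := P) (Q := Q) (a := 1 * vl) (b := 0 * vl)
    hs1 hP0
  set R : ℝ := (|1 * vl| + |0 * vl|) / P with hR
  have hR0 : 0 ≤ R := by positivity
  have hRle : R ≤ (|1 * vl| + |0 * vl|) * (Real.pi / 2 / I₂) * N := by
    rw [hR, div_le_iff₀ hP0]
    have h1 : 1 ≤ Real.pi / 2 / I₂ * N * P := by
      calc (1 : ℝ) = Real.pi / 2 / I₂ * N * (2 / Real.pi / N * I₂) := by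
            field_simp
        _ ≤ Real.pi / 2 / I₂ * N * P := by gcongr
    have h2 : 0 ≤ |1 * vl| + |0 * vl| := by positivity
    calc |1 * vl| + |0 * vl| = (|1 * vl| + |0 * vl|) * 1 := by ring
      _ ≤ (|1 * vl| + |0 * vl|) * (Real.pi / 2 / I₂ * N * P) := by gcongr
      _ = _ := by ring
  clear_value R P Q
  obtain ⟨r₀, hr₀⟩ : ∃ r₀ : V, r₀ = x • κ + y • J ξ κ := ⟨_, rfl⟩
  have hr₀ξ : dt (rv ξ) r₀ = 0 := by
    rw [hr₀, dt_add_right, dt_smul_right, dt_smul_right, hκξ, hJκξ]; ring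
  have hJr₀ : J ξ r₀ = x • J ξ κ + (-(y * q ξ)) • κ := by
    rw [hr₀, map_add, map_smul, map_smul, JJ ξ κ hκξ, smul_smul]
    congr 2; ring
  have hr1 : r1 ξ r₀ = (-(y * s)) • κ + (x / s) • J ξ κ := by
    unfold r1
    rw [hJr₀, ← hs, smul_add, smul_smul, smul_smul, add_comm]
    congr 2
    · rw [← hs2]; field_simp
    · field_simp
  have hm0 : mu B ξ c κ' r₀ = 1 * vl := by
    rw [hr₀, mu_lin hBrp hδ2, ← hP, ← hQ]; exact e1
  have hm1 : mu B ξ c κ' (r1 ξ r₀) = 0 * vl := by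
    rw [hr1, mu_lin hBrp hδ2, ← hP, ← hQ]; exact e2
  have hr1ξ : dt (rv ξ) (r1 ξ r₀) = 0 := by
    rw [hr1, dt_add_right, dt_smul_right, dt_smul_right, hκξ, hJκξ]; ring
  have hAB : ∀ R, B R = 0 ∨ Ac δ R = 1 := by
    intro R
    rcases le_total R (δ / 2) with h | h
    · right; exact Ac_one hδ0 h
    · left; exact hBrp.van R h
  have hAcrp := Ac_rp hδ0
  have hbr : ∀ i, |r₀ i| ≤ R * (|κ i| + |J ξ κ i|) := by
    intro i
    rw [hr₀]
    simp only [Pi.add_apply, Pi.smul_apply, smul_eq_mul]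
    refine (abs_add_le _ _).trans ?_
    rw [abs_mul, abs_mul]
    have h1 := mul_le_mul_of_nonneg_right bx (abs_nonneg (κ i))
    have h2 := mul_le_mul_of_nonneg_right by' (abs_nonneg (J ξ κ i))
    linarith
  have hbr1 : ∀ i, |r1 ξ r₀ i| ≤ R * (s * |κ i| + |J ξ κ i|) := by
    intro i
    rw [hr1]
    simp only [Pi.add_apply, Pi.smul_apply, smul_eq_mul]
    refine (abs_add_le _ _).trans ?_
    rw [abs_mul, abs_mul, abs_neg, abs_mul, abs_div, abs_of_pos hs0]
    have h1 := mul_le_mul_of_nonneg_right by' (mul_nonneg hs0.le (abs_nonneg (κ i)))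
    have h3 : |x| / s ≤ R := (div_le_self (abs_nonneg x) hs1).trans bx
    have h2 := mul_le_mul_of_nonneg_right h3 (abs_nonneg (J ξ κ i))
    linarith
  -- the bound of the profiles
  have hbF : ∀ r : V, (∀ i, |r i| ≤ R * ((1 + s) * |κ i| + 2 * |J ξ κ i|)) → ∀ x',
      |Fw B k φ κ' r x' (Z ξ c N x')| ≤ Cw * N := by
    intro r hr x'
    unfold Fw
    set z := Z ξ c N x' with hz
    by_cases h : nr z ≤ 1
    · rw [abs_neg, abs_mul, abs_mul]
      have h1 : |B (nr z)| ≤ 1 := pA_abs _ _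
      have h2 := Real.abs_sin_le_one (ph k x' - φ - dt κ' z)
      have h3 := abs_dt_le r z h
      have h4 : |dt r z| ≤ R * G := by
        have := hr 0
        have := hr 1
        have := hr 2
        rw [hG]
        linarith
      calc |B (nr z)| * |dt r z| * |Real.sin (ph k x' - φ - dt κ' z)|
          ≤ 1 * (R * G) * 1 := by gcongr
        _ = R * G := by ring
        _ ≤ (|1 * vl| + |0 * vl|) * (Real.pi / 2 / I₂) * N * G := by gcongr
        _ = Cw * N := by rw [hCw]; ring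
    · push Not at h
      rw [hBrp.van _ (hδ2.trans h.le)]
      simp only [zero_mul, neg_zero, abs_zero]
      positivity
  have hb0 : ∀ x', |Fw B k φ κ' r₀ x' (Z ξ c N x')| ≤ Cw * N := by
    refine hbF r₀ fun i => (hbr i).trans ?_
    have h1 := abs_nonneg (κ i)
    have h2 := abs_nonneg (J ξ κ i)
    gcongr
    · nlinarith
    · linarith
  have hb1 : ∀ x', |Fw B k φ κ' (-r1 ξ r₀) x' (Z ξ c N x')| ≤ Cw * N := by
    refine hbF _ fun i => ?_
    rw [Pi.neg_apply, abs_neg]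
    refine (hbr1 i).trans ?_
    have h1 := abs_nonneg (κ i)
    have h2 := abs_nonneg (J ξ κ i)
    gcongr
    · nlinarith
    · linarith
  set S : V → V := fun x => (ν / (N * s)) • Sw (Ac δ) ξ c N x with hS
  set W : V → V := fun x => Fw B k φ κ' r₀ x (Z ξ c N x) • rv ξ with hW
  set W' : V → V := fun x => Fw B k φ κ' (-r1 ξ r₀) x (Z ξ c N x) • rv ξ with hW'
  have hform : ∀ a b t x, tubeU (Ac δ) (ν / (N * s)) ξ c N
      (wR B ξ k φ κ' (a • r₀ + (-b) • r1 ξ r₀) c N ν) t x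
      = S x + (tc ν a b t • W x + ts ν a b t • W' x) := by
    intro a b t x
    unfold tubeU wR
    rw [rt_lin hξ hr₀ξ, Fw_lin, add_smul, mul_smul, mul_smul]
  have hrab : ∀ a b : ℝ, dt (rv ξ) (a • r₀ + (-b) • r1 ξ r₀) = 0 := by
    intro a b
    rw [dt_add_right, dt_smul_right, dt_smul_right, hr₀ξ, hr1ξ]; ring
  have hax : ∀ a b : ℝ, Axial δ (Ac δ) (ν / (N * s)) ξ c N
      (wR B ξ k φ κ' (a • r₀ + (-b) • r1 ξ r₀) c N ν) := by
    intro a b
    exact wR_axial (A := Ac δ) (ν := ν) (r₀ := a • r₀ + (-b) • r1 ξ r₀) (κ := κ') φ c hξ hN0 hk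
      (hrab a b) hκ'J (by linarith : δ / 2 ≤ δ) hδ hBrp hAB
  refine ⟨S, W, W', PS δ (Ac δ) (ν / (N * s)) ξ c N, ?_, ?_, ?_, ?_⟩
  · intro a b
    have h := tube_sol hAcrp hδ (hax a b)
    have e : (fun t x => S x + (tc ν a b t • W x + ts ν a b t • W' x))
        = tubeU (Ac δ) (ν / (N * s)) ξ c N
          (wR B ξ k φ κ' (a • r₀ + (-b) • r1 ξ r₀) c N ν) := by
      ext1 t; ext1 x; exact (hform a b t x).symm
    rw [e]; exact h
  · intro x' hx
    refine ⟨?_, ?_, ?_⟩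
    · simp only [hS]
      rw [Sw_eq, hAcrp.van _ hx]
      simp
    · simp only [hW]
      unfold Fw
      rw [hBrp.van _ ((by linarith : δ / 2 ≤ δ).trans hx)]
      simp
    · simp only [hW']
      unfold Fw
      rw [hBrp.van _ ((by linarith : δ / 2 ≤ δ).trans hx)]
      simp
  · intro x' i
    have h3 := comp_le_X ξ i
    rw [← hX] at h3
    have hνN : |ν| * 1 ≤ |ν| * N := by gcongr
    refine ⟨?_, ?_, ?_⟩
    · simp only [hS, Pi.smul_apply, smul_eq_mul]
      rw [abs_mul]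
      have h1 : |ν / (N * s)| ≤ |ν| := by
        rw [abs_div]
        refine div_le_self (abs_nonneg ν) ?_
        rw [abs_of_pos (by positivity)]
        calc (1 : ℝ) = 1 * 1 := by ring
          _ ≤ N * s := by gcongr
      have h2 : |Sw (Ac δ) ξ c N x' i| ≤ 1 := by
        rw [Sw_eq]
        simp only [Pi.smul_apply, smul_eq_mul]
        by_cases h : nr (Z ξ c N x') ≤ 1
        · rw [abs_mul]
          have h3 := Z_comp_le h i
          have h4 := Ac_abs δ (nr (Z ξ c N x'))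
          calc |Ac δ (nr (Z ξ c N x'))| * |Z ξ c N x' i| ≤ 1 * 1 := by gcongr
            _ = 1 := by ring
        · push Not at h
          rw [hAcrp.van _ (hδ.trans h.le)]
          simp
      calc |ν / (N * s)| * |Sw (Ac δ) ξ c N x' i| ≤ |ν| * 1 := by gcongr
        _ ≤ |ν| * N := hνN
        _ ≤ (|ν| + Cw * X) * N := by
            have : 0 ≤ Cw * X * N := by positivity
            linarith
    · simp only [hW, Pi.smul_apply, smul_eq_mul]
      rw [abs_mul]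
      calc |Fw B k φ κ' r₀ x' (Z ξ c N x')| * |rv ξ i| ≤ (Cw * N) * X := by
            have := hb0 x'
            gcongr
        _ ≤ (|ν| + Cw * X) * N := by
            have : 0 ≤ |ν| * N := by positivity
            linarith
    · simp only [hW', Pi.smul_apply, smul_eq_mul]
      rw [abs_mul]
      calc |Fw B k φ κ' (-r1 ξ r₀) x' (Z ξ c N x')| * |rv ξ i| ≤ (Cw * N) * X := by
            have := hb1 x'
            gcongr
        _ ≤ (|ν| + Cw * X) * N := by
            have : 0 ≤ |ν| * N := by positivity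
            linarith
  · intro a b t l hkl i ψ
    have hl : ∀ i, |l i| < N := fun i => by
      have := hkl i
      have := abs_nonneg (k i)
      omega
    have hmt : mu B ξ c κ' (rt ξ (a • r₀ + (-b) • r1 ξ r₀) ν t) = tc ν a b t * vl := by
      rw [rt_lin hξ hr₀ξ, smul_neg, ← neg_smul, mu_lin hBrp hδ2, hm0, hm1]; ring
    have e : ∀ x', (S x' i + (tc ν a b t * W x' i + ts ν a b t * W' x' i))
        * Real.cos (ph l x' - ψ)
        = (ν / (N * s)) * (Sw (Ac δ) ξ c N x' i * Real.cos (ph l x' - ψ))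
          + (ξ i : ℝ) * (wR B ξ k φ κ' (a • r₀ + (-b) • r1 ξ r₀) c N ν t x'
            * Real.cos (ph l x' - ψ)) := by
      intro x'
      have h1 := congrFun (hform a b t x') i
      have h2 : S x' i + (tc ν a b t * W x' i + ts ν a b t * W' x' i)
          = tubeU (Ac δ) (ν / (N * s)) ξ c N
            (wR B ξ k φ κ' (a • r₀ + (-b) • r1 ξ r₀) c N ν) t x' i := by
        rw [h1]
        simp only [Pi.add_apply, Pi.smul_apply, smul_eq_mul]
      rw [h2]
      unfold tubeU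
      simp only [Pi.add_apply, Pi.smul_apply, smul_eq_mul]
      have : rv ξ i = (ξ i : ℝ) := rfl
      rw [this]
      ring
    simp only [e]
    rw [integral_add, integral_const_mul, integral_const_mul,
      Sw_modes hξ hc hAcrp hδ hN0 hl,
      wR_modes hξ hc hBrp hδ2 hN0 φ κ' (a • r₀ + (-b) • r1 ξ r₀) ν t hkl ψ, hmt]
    · have := vl_pos.ne'
      field_simp
      ring
    · refine Integrable.const_mul ?_ _
      refine (Periodic3.mul' (f := fun x' => Sw (Ac δ) ξ c N x' i)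
        (comp_periodic (Sw_periodic ξ c N) i) (cosp_periodic l ψ)).integrableOn ?_
      exact ((continuous_apply i).comp (Sw_contDiff ξ c N hAcrp hδ).continuous).mul (cosp_cont l ψ)
    · refine Integrable.const_mul ?_ _
      refine (Periodic3.mul' ((hax a b).per t) (cosp_periodic l ψ)).integrableOn ?_
      exact (slice (hax a b).smooth t).continuous.mul (cosp_cont l ψ)

/-- a linear family of steady solutions in one tube -/
theorem exists_pstatic {ξ : Fin 3 → ℤ} (hξ : ξ ≠ 0) {c : V} (hc : dt (rv ξ) c = 0)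
    {δ : ℝ} (hδ0 : 0 < δ) (hδ : δ ≤ 1) :
    ∃ C : ℝ, 0 ≤ C ∧ ∃ N₀ : ℕ, ∀ N, N₀ ≤ N →
      ∃ (S W W' : V → V) (P : V → ℝ), PAtom ξ 0 0 0 c δ N C S W W' P := by
  set B : ℝ → ℝ := pA δ with hB
  have hBrp : RP δ B := pA_rp _
  have gc : Continuous (fun z : V => B (nr z)) :=
    hBrp.smooth.continuous.comp (nr_contDiff (n := 0)).continuous
  have gv : ∀ z : V, 1 ≤ nr z → B (nr z) = 0 := fun z hz => hBrp.van _ (hδ.trans hz)
  set I₀ : ℝ := ∫ x in Dom, B (nr (Z ξ c 1 x)) with hI₀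
  have hI₀0 : 0 < I₀ := by
    obtain ⟨x, hx⟩ := Z_surj (ξ := ξ) (c := c) hξ hc (y := 0) (by simp [dt]) (by simp [nr])
    refine Pool.Agent.R739.ET.pos_of_ne (gz_per (fun z => B (nr z)) 1) (gz_cont gc gv 1)
      (fun x => pA_nonneg _ _) (x := x) ?_
    simp only [hx]
    have : nr (0 : V) = 0 := by simp [nr]
    rw [this]
    exact (pA_pos hδ0).ne'
  set g : ℝ := vl / I₀ with hg
  set X : ℝ := |(ξ 0 : ℝ)| + |(ξ 1 : ℝ)| + |(ξ 2 : ℝ)| with hX
  have hX0 : 0 ≤ X := by positivity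
  refine ⟨|g| * X, by positivity, 1, fun N hN => ?_⟩
  have hN0 : 0 < N := by omega
  have hNr : (1 : ℝ) ≤ N := by exact_mod_cast hN0
  have hcd : ContDiff ℝ ∞ (fun x => B (nr (Z ξ c N x))) :=
    glue_contDiff' ξ c N (fun z => B (nr z)) gv (hBrp.smooth.comp nr_contDiff)
  have hax : ∀ a : ℝ, Axial δ (Ac δ) 0 ξ c N (fun _ x => a * g * B (nr (Z ξ c N x))) := by
    intro a
    refine ⟨?_, ?_, ?_, ?_, ?_⟩
    · exact contDiff_const.mul (hcd.comp contDiff_snd)
    · intro t i x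
      simp only
      rw [Z_periodic ξ c N i x]
    · intro t x
      refine fderiv_eq_zero_of_invariant ((contDiff_const.mul hcd).differentiable (by simp)) ?_ x
      intro x s
      rw [Z_inv]
    · intro t x hx
      rw [hBrp.van _ hx, mul_zero]
    · intro t x
      simp
  have hAcrp := Ac_rp hδ0
  have htc : ∀ a b t : ℝ, tc 0 a b t = a := by intro a b t; simp [tc]
  set W : V → V := fun x => (g * B (nr (Z ξ c N x))) • rv ξ with hW
  refine ⟨0, W, 0, PS δ (Ac δ) 0 ξ c N, ?_, ?_, ?_, ?_⟩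
  · intro a b
    have h := tube_sol hAcrp hδ (hax a)
    have e : (fun t x => (0 : V → V) x + (tc 0 a b t • W x + ts 0 a b t • (0 : V → V) x))
        = tubeU (Ac δ) 0 ξ c N (fun _ x => a * g * B (nr (Z ξ c N x))) := by
      ext1 t; ext1 x
      unfold tubeU
      rw [htc]
      simp only [hW, Pi.zero_apply, smul_zero, zero_add, add_zero, zero_smul, smul_smul, mul_assoc]
    rw [e]; exact h
  · intro x hx
    refine ⟨rfl, ?_, rfl⟩
    simp only [hW]
    rw [hBrp.van _ hx]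
    simp
  · intro x i
    have hN' : 0 ≤ |g| * X * N := by positivity
    refine ⟨by simpa using hN', ?_, by simpa using hN'⟩
    simp only [hW, Pi.smul_apply, smul_eq_mul]
    rw [abs_mul]
    have h1 : |g * B (nr (Z ξ c N x))| ≤ |g| := by
      rw [abs_mul]
      exact mul_le_of_le_one_right (abs_nonneg _) (pA_abs _ _)
    have h3 := comp_le_X ξ i
    calc |g * B (nr (Z ξ c N x))| * |rv ξ i| ≤ |g| * X := by gcongr
      _ = |g| * X * 1 := by ring
      _ ≤ |g| * X * N := by gcongr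
  · intro a b t l hkl i ψ
    have hl : ∀ i, |l i| < N := fun i => by
      have := hkl i
      simpa using this
    have e : ∀ x, ((0 : V → V) x i + (tc 0 a b t * W x i + ts 0 a b t * (0 : V → V) x i))
        * Real.cos (ph l x - ψ)
        = (a * g * ξ i) * (B (nr (Z ξ c N x)) * Real.cos (ph l x - ψ)) := by
      intro x
      rw [htc]
      simp only [hW, Pi.smul_apply, smul_eq_mul, Pi.zero_apply, mul_zero, add_zero, zero_add]
      have : rv ξ i = (ξ i : ℝ) := rfl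
      rw [this]
      ring
    simp only [e]
    rw [integral_const_mul, fine_mean (gz_per (fun z => B (nr z)) N) hcd.continuous hN0 ?_ hl,
      gz_dilate gc gv hN0, htc]
    · simp only [ph_zero, sub_zero, Real.cos_zero, one_mul]
      rw [← hI₀, hg]
      have := vl_pos.ne'
      field_simp
    · intro i x
      rw [Z_fine ξ c hN0 i x]

/-- linear families of solutions in one tube -/
lemma exists_patom {ξ k : Fin 3 → ℤ} (hξ : ξ ≠ 0) (hk : dt (rv k) (rv ξ) = 0)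
    (φ ν : ℝ) (h0 : k = 0 → φ = 0 ∧ ν = 0) {c : V} (hc : dt (rv ξ) c = 0) {δ : ℝ}
    (hδ0 : 0 < δ) (hδ : δ ≤ 1) :
    ∃ C : ℝ, 0 ≤ C ∧ ∃ N₀ : ℕ, ∀ N, N₀ ≤ N →
      ∃ (S W W' : V → V) (P : V → ℝ), PAtom ξ k φ ν c δ N C S W W' P := by
  by_cases hk0 : k = 0
  · obtain ⟨h1, h3⟩ := h0 hk0
    subst hk0 h1 h3
    exact exists_pstatic hξ hc hδ0 hδ
  · exact exists_prot hξ hk0 hk φ ν hc hδ0 hδ

end Pool.Agent.Zk27.UE
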