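import Pool.Agent.Zk27.UE.Univ

/-!
# Periodic solutions near given curves
-/

open MeasureTheory Set
open scoped ENNReal NNReal Topology Pointwise ContDiff

set_option autoImplicit false

namespace Pool.Agent.Zk27.UE

open Pool.Agent.H708R2.EulerSign Pool.Agent.H708R2.EulerModes

/-- the weights beat the amplitudes -/
lemma exists_weight {s : ℝ} (hs : 1 < s) (K : ℕ) {c ε : ℝ} (hc : 0 ≤ c) (hε : 0 < ε) :
    ∃ n₀ : ℕ, ∀ N : ℕ, n₀ ≤ N →
      (1 + ((N - K : ℕ) : ℝ) ^ 2) ^ (-s) * (c * (N : ℝ) ^ 2) ≤ ε := by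
  obtain ⟨n₀, hn₀⟩ := exists_pow_le (s - 1) (by linarith) (c * (2 * (1 + K) ^ 2)) ε hε
  refine ⟨n₀ + K, fun N hN => ?_⟩
  set n : ℕ := N - K with hn
  have hNn : (N : ℝ) = n + K := by
    have : N = n + K := by omega
    exact_mod_cast this
  have h1 := hn₀ n (by omega)
  have hb : 0 < 1 + (n : ℝ) ^ 2 := by positivity
  have h2 : (1 + (n : ℝ) ^ 2) ^ (-s) * (1 + (n : ℝ) ^ 2) = (1 + (n : ℝ) ^ 2) ^ (-(s - 1)) := by
    have : -(s - 1) = -s + 1 := by ring
    rw [this, Real.rpow_add hb, Real.rpow_one]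
  have h3 : (N : ℝ) ^ 2 ≤ 2 * (1 + K) ^ 2 * (1 + (n : ℝ) ^ 2) := by
    rw [hNn]
    have hK : (0 : ℝ) ≤ K := Nat.cast_nonneg K
    have hn0 : (0 : ℝ) ≤ n := Nat.cast_nonneg n
    have e1 : ((n : ℝ) + K) ^ 2 ≤ 2 * (n : ℝ) ^ 2 + 2 * (K : ℝ) ^ 2 := by
      nlinarith [sq_nonneg ((n : ℝ) - K)]
    have e2 : (1 : ℝ) ≤ (1 + K) ^ 2 := by nlinarith
    have e3 : (K : ℝ) ^ 2 ≤ (1 + K) ^ 2 := by nlinarith
    have e4 : (n : ℝ) ^ 2 ≤ (1 + K) ^ 2 * (n : ℝ) ^ 2 := by nlinarith [sq_nonneg (n : ℝ)]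
    nlinarith
  have hw : 0 ≤ (1 + (n : ℝ) ^ 2) ^ (-s) := by positivity
  calc (1 + (n : ℝ) ^ 2) ^ (-s) * (c * (N : ℝ) ^ 2)
      ≤ (1 + (n : ℝ) ^ 2) ^ (-s) * (c * (2 * (1 + K) ^ 2 * (1 + (n : ℝ) ^ 2))) := by gcongr
    _ = ((1 + (n : ℝ) ^ 2) ^ (-s) * (1 + (n : ℝ) ^ 2)) * (c * (2 * (1 + K) ^ 2)) := by ring
    _ = (1 + (n : ℝ) ^ 2) ^ (-(s - 1)) * (c * (2 * (1 + K) ^ 2)) := by rw [h2]
    _ ≤ ε := h1

/-- solutions near given curves, in the negative Sobolev norms -/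
theorem near {s ε E : ℝ} (hs : 1 < s) (hε : 0 < ε) (K₀ : ℕ) : ∃ K : ℕ, K₀ ≤ K ∧
    ∀ (τ : ℝ), 0 < τ → ∀ (A B : (Fin 3 → ℤ) → ℝ → V), Curves τ K A B →
      ∃ (u : ℝ → V → V) (p : V → ℝ), Sol u p ∧ (∀ t, u (t + τ) = u t) ∧
        ∀ (t : ℝ) (h : V → V), Periodic3 h → MemLp h 2 (volume.restrict cube) →
          ∑ i, ∫ x in Dom, h x i ^ 2 ≤ E →
          (∀ l ∈ Bx K, ∀ i, ∫ x in Dom, h x i * Real.cos (ph l x) = A l t i ∧
            ∫ x in Dom, h x i * Real.sin (ph l x) = B l t i) →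
          HNegClose s ε (u t) h ∧ (t = 0 → SameModes K₀ (u 0) h) := by
  have hv := vl_pos
  obtain ⟨K₁, hK₁⟩ := exists_pow_le s (by linarith) (2 * (vl * E)) (ε ^ 2 / 3) (by positivity)
  refine ⟨max K₀ K₁, le_max_left _ _, fun τ hτ A B hAB => ?_⟩
  set K := max K₀ K₁ with hK
  set D : ℝ := Real.sqrt (ε ^ 2 / (18 * ((Bx K).card + 1))) with hD
  have hD0 : 0 < D := Real.sqrt_pos.2 (by positivity)
  have hD2 : D ^ 2 = ε ^ 2 / (18 * ((Bx K).card + 1)) := Real.sq_sqrt (by positivity)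
  obtain ⟨C, hC0, N₀, hN₀⟩ := core hτ hAB hD0
  obtain ⟨N₁, hN₁⟩ := exists_weight hs K (c := 2 * (3 * (vl * (C ^ 2 * vl))))
    (ε := ε ^ 2 / 3) (by positivity) (by positivity)
  obtain ⟨u, p, hsol, hper, hbd, hm, hm0, hz⟩ := hN₀ (N₀ + N₁) (by omega)
  have hN1 := hN₁ (N₀ + N₁) (by omega)
  set N := N₀ + N₁ with hN
  have hsin : ∀ (l : Fin 3 → ℤ) (x : V), Real.cos (ph l x - Real.pi / 2) = Real.sin (ph l x) :=
    fun l x => Real.cos_sub_pi_div_two _
  refine ⟨u, p, hsol, hper, fun t h hhp hh2 hhE hhm => ⟨?_, ?_⟩⟩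
  · refine hneg' (K := K) (N := N) (M := (C * N) ^ 2 * vl) (D := D) (E := E) hhp hh2 (hsol.per t)
      (hsol.diff t).continuous (by linarith) ?_ hhE ?_ ?_ ?_ ?_ ?_
    · intro i
      rw [← int_const]
      refine setIntegral_mono_on ?_ (integrableOn_const dom_lt_top.ne) dom_meas fun x _ => ?_
      · refine Periodic3.integrableOn ?_
          (((continuous_apply i).comp (hsol.diff t).continuous).pow 2)
        intro j x; simp only; rw [hsol.per t j x]
      · have := hbd t x i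
        rw [← sq_abs]
        exact pow_le_pow_left₀ (abs_nonneg _) this 2
    · intro l hl i
      obtain ⟨h1, h2⟩ := hhm l hl i
      have e1 := hm l hl t i 0
      have e2 := hm l hl t i (Real.pi / 2)
      simp only [sub_zero, Real.cos_zero, Real.sin_zero, mul_one, mul_zero, add_zero] at e1
      simp only [hsin, Real.cos_pi_div_two, Real.sin_pi_div_two, mul_one, mul_zero,
        zero_add] at e2
      rw [h1, h2]
      exact ⟨e1, e2⟩
    · intro l hl hlN i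
      have e1 := hz l hl hlN t i 0
      have e2 := hz l hl hlN t i (Real.pi / 2)
      simp only [sub_zero] at e1
      simp only [hsin] at e2
      exact ⟨e1, e2⟩
    · rw [hD2]
      have hc : (0 : ℝ) ≤ (Bx K).card := Nat.cast_nonneg _
      have e : ((Bx K).card : ℝ) * (3 * (2 * (ε ^ 2 / (18 * ((Bx K).card + 1)))))
          = ε ^ 2 / 3 * ((Bx K).card / ((Bx K).card + 1)) := by
        field_simp; ring
      rw [e]
      have h1 : ((Bx K).card : ℝ) / ((Bx K).card + 1) ≤ 1 := by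
        rw [div_le_one (by positivity)]; linarith
      exact mul_le_of_le_one_right (by positivity) h1
    · refine le_trans (le_of_eq ?_) hN1
      ring
    · refine hK₁ K (le_max_right _ _)
  · intro ht l hl i
    have hl' : l ∈ Bx K := by
      rw [mem_Bx]
      intro i
      refine (hl i).trans ?_
      exact_mod_cast le_max_left K₀ K₁
    subst ht
    obtain ⟨h1, h2⟩ := hhm l hl' i
    have e1 := hm0 l hl' i 0
    have e2 := hm0 l hl' i (Real.pi / 2)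
    simp only [sub_zero, Real.cos_zero, Real.sin_zero, mul_one, mul_zero, add_zero] at e1
    simp only [hsin, Real.cos_pi_div_two, Real.sin_pi_div_two, mul_one, mul_zero,
      zero_add] at e2
    rw [cosCoeff_eq (comp_periodic (hsol.per 0) i), cosCoeff_eq (comp_periodic hhp i),
      sinCoeff_eq (comp_periodic (hsol.per 0) i), sinCoeff_eq (comp_periodic hhp i), h1, h2]
    exact ⟨e1, e2⟩

/-- the distance to the nearest multiple of `2 T` -/
noncomputable def tri (T t : ℝ) : ℝ := ‖(t : AddCircle (2 * T))‖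

lemma tri_cont (T : ℝ) : Continuous (tri T) :=
  continuous_norm.comp (AddCircle.continuous_mk' (2 * T))

lemma tri_per (T t : ℝ) : tri T (t + 2 * T) = tri T t := by
  unfold tri
  rw [AddCircle.coe_add, AddCircle.coe_period, add_zero]

lemma tri_mem {T : ℝ} (hT : 0 < T) (t : ℝ) : tri T t ∈ Icc 0 T := by
  refine ⟨norm_nonneg _, ?_⟩
  have h := AddCircle.norm_le_half_period (2 * T) (x := (t : AddCircle (2 * T))) (by positivity)
  rw [abs_of_pos (by positivity)] at h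
  unfold tri
  linarith

lemma tri_eq {T : ℝ} (hT : 0 < T) {t : ℝ} (ht : t ∈ Icc 0 T) : tri T t = t := by
  unfold tri
  have h : ‖(t : AddCircle (2 * T))‖ = |t| := by
    rw [AddCircle.norm_coe_eq_abs_iff (2 * T) (by positivity), abs_of_nonneg ht.1,
      abs_of_pos (by positivity)]
    linarith [ht.2]
  rw [h, abs_of_nonneg ht.1]

/-- periodic solutions near given curves on an interval -/
theorem step {T : ℝ} (hT : 0 < T) {I : Set ℝ} (hI : I ⊆ Icc 0 T) {v : ℝ → V → V}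
    (hper : ∀ t ∈ I, Periodic3 (v t)) (hL2 : ∀ t ∈ I, MemLp (v t) 2 (volume.restrict cube))
    {E : ℝ} (hE : ∀ t ∈ I, ∑ i, ∫ x in Dom, v t x i ^ 2 ≤ E)
    {A B : (Fin 3 → ℤ) → ℝ → V}
    (cA : ∀ k, ContinuousOn (A k) (Icc 0 T)) (cB : ∀ k, ContinuousOn (B k) (Icc 0 T))
    (oA : ∀ k, ∀ t ∈ Icc 0 T, ph k (A k t) = 0) (oB : ∀ k, ∀ t ∈ Icc 0 T, ph k (B k t) = 0)
    (sA : ∀ k, ∀ t ∈ Icc 0 T, A (-k) t = A k t) (sB : ∀ k, ∀ t ∈ Icc 0 T, B (-k) t = -B k t)
    (m0 : ∀ t ∈ Icc 0 T, A 0 t = A 0 0)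
    (mA : ∀ t ∈ I, ∀ k i, A k t i = ∫ x in Dom, v t x i * Real.cos (ph k x))
    (mB : ∀ t ∈ I, ∀ k i, B k t i = ∫ x in Dom, v t x i * Real.sin (ph k x))
    (K₀ : ℕ) {s ε : ℝ} (hs : 1 < s) (hε : 0 < ε) :
    ∃ (u : ℝ → V → V) (p : V → ℝ), Sol u p ∧ (∀ t, u (t + 2 * T) = u t) ∧
      (∀ t ∈ I, HNegClose s ε (u t) (v t)) ∧ (0 ∈ I → SameModes K₀ (u 0) (v 0)) := by
  obtain ⟨K, hK, hnear⟩ := near (E := E) hs hε K₀
  have hC : Curves (2 * T) K (fun k t => A k (tri T t)) (fun k t => B k (tri T t)) := by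
    refine ⟨?_, ?_, ?_, ?_, ?_, ?_, ?_, ?_, ?_⟩
    · intro k _
      exact (cA k).comp_continuous (tri_cont T) (fun t => tri_mem hT t)
    · intro k _
      exact (cB k).comp_continuous (tri_cont T) (fun t => tri_mem hT t)
    · intro k _ t
      simp only [tri_per]
    · intro k _ t
      simp only [tri_per]
    · intro k _ t
      exact oA k _ (tri_mem hT t)
    · intro k _ t
      exact oB k _ (tri_mem hT t)
    · intro k _ t
      exact sA k _ (tri_mem hT t)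
    · intro k _ t
      exact sB k _ (tri_mem hT t)
    · intro t
      have h1 := m0 _ (tri_mem hT t)
      have h2 := m0 _ (tri_mem hT 0)
      simp only [h1, h2]
  obtain ⟨u, p, hsol, hp, hcl⟩ := hnear (2 * T) (by positivity) _ _ hC
  have key : ∀ t ∈ I, HNegClose s ε (u t) (v t) ∧ (t = 0 → SameModes K₀ (u 0) (v t)) := by
    intro t ht
    refine hcl t (v t) (hper t ht) (hL2 t ht) (hE t ht) fun l _ i => ?_
    simp only [tri_eq hT (hI ht)]
    exact ⟨(mA t ht l i).symm, (mB t ht l i).symm⟩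
  exact ⟨u, p, hsol, hp, fun t ht => (key t ht).1, fun h0 => (key 0 h0).2 rfl⟩

end Pool.Agent.Zk27.UE
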