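import Pool.Agent.Zk27.UE.PAtom
import Pool.Agent.Zk27.UE.Step

/-!
# Linear families of solutions with prescribed low modes
-/

open MeasureTheory Set
open scoped ENNReal NNReal Topology Pointwise ContDiff

set_option autoImplicit false

namespace Pool.Agent.Zk27.UE

open Pool.Agent.H708R2.EulerSign Pool.Agent.H708R2.EulerModes

/-- the directions orthogonal to `k` -/
noncomputable def dxi (k : Fin 3 → ℤ) : Fin 3 → Fin 3 → ℤ := (dirs k).choose

/-- the coordinates -/
noncomputable def dco (k : Fin 3 → ℤ) : Fin 3 → (V →ₗ[ℝ] ℝ) := (dirs k).choose_spec.choose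

lemma dxi_ne (k : Fin 3 → ℤ) (j : Fin 3) : dxi k j ≠ 0 :=
  (dirs k).choose_spec.choose_spec.1 j

lemma dxi_orth (k : Fin 3 → ℤ) (j : Fin 3) : dt (rv k) (rv (dxi k j)) = 0 :=
  (dirs k).choose_spec.choose_spec.2.1 j

lemma dco_span (k : Fin 3 → ℤ) (A : V) (hA : ph k A = 0) (i : Fin 3) :
    A i = ∑ j, dco k j A * (dxi k j i : ℝ) :=
  (dirs k).choose_spec.choose_spec.2.2 A hA i

/-- the spatial indices of the atoms -/
abbrev QI (K : ℕ) : Type := {k // k ∈ Bx K} × Fin 3 × Bool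

/-- the integrals of the products -/
noncomputable def IJq {K : ℕ} (q : QI K) (l : Fin 3 → ℤ) (ψ : ℝ) : ℝ :=
  ∫ x in Dom, Real.cos (ph q.1 x - phq q.1 q.2.2) * Real.cos (ph l x - ψ)

/-- the frequencies in time -/
noncomputable def nuq {K : ℕ} {Λ : Type} (μ : Λ → ℝ) (e : QI K × Λ) : ℝ :=
  if (e.1.1 : Fin 3 → ℤ) = 0 then 0 else μ e.2

/-- the members of a linear family -/
noncomputable def fam {ι : Type} [Fintype ι] (ν : ι → ℝ) (S : V → V) (W W' : ι → V → V)
    (a b : ι → ℝ) (t : ℝ) (x : V) : V :=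
  S x + ∑ e, (tc (ν e) (a e) (b e) t • W e x + ts (ν e) (a e) (b e) t • W' e x)

theorem pcore (K : ℕ) {Λ : Type} [Fintype Λ] (μ : Λ → ℝ) :
    ∃ C : ℝ, 0 ≤ C ∧ ∃ N₀ : ℕ, ∀ N, N₀ ≤ N →
      ∃ (S : V → V) (W W' : QI K × Λ → V → V) (P : V → ℝ),
        (∀ a b, Sol (fam (nuq μ) S W W' a b) P) ∧
        (∀ x i, |S x i| ≤ C * N ∧ ∀ e, |W e x i| ≤ C * N ∧ |W' e x i| ≤ C * N) ∧
        (∀ a b t (l : Fin 3 → ℤ), (∀ i, |l i| + K < N) → ∀ i ψ,
          ∫ x in Dom, fam (nuq μ) S W W' a b t x i * Real.cos (ph l x - ψ)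
            = ∑ q : QI K, (∑ n, tc (nuq μ (q, n)) (a (q, n)) (b (q, n)) t)
              * (dxi q.1 q.2.1 i : ℝ) * IJq q l ψ) := by
  obtain ⟨cc, δ, hδ0, hδ1, hcc, hdis⟩ := disjoint_tubes (ι := QI K × Λ) (fun e => dxi e.1.1 e.1.2.1)
    (fun e => dxi_ne _ _)
  have hat : ∀ e : QI K × Λ, ∃ C : ℝ, 0 ≤ C ∧ ∃ N₀ : ℕ, ∀ N, N₀ ≤ N →
      ∃ (S W W' : V → V) (P : V → ℝ), PAtom (dxi e.1.1 e.1.2.1) e.1.1 (phq e.1.1 e.1.2.2)
        (nuq μ e) (cc e) δ N C S W W' P := by
    intro e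
    refine exists_patom (dxi_ne _ _) (dxi_orth _ _) _ _ (fun h0 => ⟨?_, ?_⟩) (hcc e) hδ0 hδ1
    · simp [phq, h0]
    · simp [nuq, h0]
  choose Cf hCf Nf hNf using hat
  refine ⟨∑ e, Cf e, Finset.sum_nonneg fun e _ => hCf e, ∑ e, Nf e, fun N hN => ?_⟩
  have hNe : ∀ e, Nf e ≤ N := by
    intro e
    have := Finset.single_le_sum (f := Nf) (fun _ _ => Nat.zero_le _) (Finset.mem_univ e)
    omega
  choose S W W' P hF using fun e => hNf e N (hNe e)
  have hform : ∀ (a b : QI K × Λ → ℝ) t x, fam (nuq μ) (fun x => ∑ e, S e x) W W' a b t x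
      = ∑ e, (S e x + (tc (nuq μ e) (a e) (b e) t • W e x
        + ts (nuq μ e) (a e) (b e) t • W' e x)) := by
    intro a b t x
    unfold fam
    simp only [Finset.sum_add_distrib]
  have hsol : ∀ a b : QI K × Λ → ℝ, Sol (fam (nuq μ) (fun x => ∑ e, S e x) W W' a b)
      (fun x => ∑ e, P e x) := by
    intro a b
    have h := Sol.sum (F := fun e t x => S e x + (tc (nuq μ e) (a e) (b e) t • W e x
        + ts (nuq μ e) (a e) (b e) t • W' e x)) (P := P) (fun e => (hF e).sol (a e) (b e)) (by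
      intro e e' hee t x
      rcases hdis e e' hee N x with h1 | h1
      · left
        obtain ⟨h2, h3, h4⟩ := (hF e).supp x h1
        rw [h2, h3, h4]; simp
      · right
        obtain ⟨h2, h3, h4⟩ := (hF e').supp x h1
        rw [h2, h3, h4]; simp)
    have e : fam (nuq μ) (fun x => ∑ e, S e x) W W' a b = fun t x => ∑ e, (S e x
        + (tc (nuq μ e) (a e) (b e) t • W e x + ts (nuq μ e) (a e) (b e) t • W' e x)) := by
      ext1 t; ext1 x; exact hform a b t x
    rw [e]; exact h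
  refine ⟨fun x => ∑ e, S e x, W, W', fun x => ∑ e, P e x, hsol, ?_, ?_⟩
  · intro x i
    refine ⟨?_, fun e => ?_⟩
    · simp only [Finset.sum_apply]
      rw [Finset.sum_mul]
      refine (Finset.abs_sum_le_sum_abs _ _).trans ?_
      exact Finset.sum_le_sum fun e _ => ((hF e).bound x i).1
    · have h1 : Cf e ≤ ∑ e, Cf e :=
        Finset.single_le_sum (f := Cf) (fun e _ => hCf e) (Finset.mem_univ e)
      have hN0 : (0 : ℝ) ≤ N := Nat.cast_nonneg N
      obtain ⟨-, h2, h3⟩ := (hF e).bound x i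
      exact ⟨h2.trans (by gcongr), h3.trans (by gcongr)⟩
  · intro a b t l hl i ψ
    have e1 : ∀ x, fam (nuq μ) (fun x => ∑ e, S e x) W W' a b t x i * Real.cos (ph l x - ψ)
        = ∑ e, (S e x i + (tc (nuq μ e) (a e) (b e) t * W e x i
          + ts (nuq μ e) (a e) (b e) t * W' e x i)) * Real.cos (ph l x - ψ) := by
      intro x
      rw [hform, Finset.sum_apply, Finset.sum_mul]
      rfl
    simp only [e1]
    rw [integral_finsetSum]
    · have e2 : ∀ e : QI K × Λ, ∫ x in Dom, (S e x i + (tc (nuq μ e) (a e) (b e) t * W e x i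
          + ts (nuq μ e) (a e) (b e) t * W' e x i)) * Real.cos (ph l x - ψ)
          = tc (nuq μ e) (a e) (b e) t * (dxi e.1.1 e.1.2.1 i : ℝ) * IJq e.1 l ψ := by
        intro e
        refine (hF e).modes _ _ t l (fun i => ?_) i ψ
        have h1 := hl i
        have h2 := mem_Bx.1 e.1.1.2 i
        omega
      rw [Finset.sum_congr rfl fun e _ => e2 e, Fintype.sum_prod_type]
      refine Finset.sum_congr rfl fun q _ => ?_
      rw [Finset.sum_mul, Finset.sum_mul]
    · intro e _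
      have hs := (hF e).sol (a e) (b e)
      have h1 : Periodic3 (fun x => S e x i + (tc (nuq μ e) (a e) (b e) t * W e x i
          + ts (nuq μ e) (a e) (b e) t * W' e x i)) := by
        intro j x
        have := congrFun (hs.per t j x) i
        exact this
      have h2 : Continuous (fun x => S e x i + (tc (nuq μ e) (a e) (b e) t * W e x i
          + ts (nuq μ e) (a e) (b e) t * W' e x i)) :=
        (continuous_apply i).comp (hs.diff t).continuous
      exact (Periodic3.mul' h1 (cosp_periodic l ψ)).integrableOn (h2.mul (cosp_cont l ψ))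

lemma tc_abs {ν a b t R : ℝ} (ha : |a| ≤ R) (hb : |b| ≤ R) : |tc ν a b t| ≤ 2 * R := by
  unfold tc
  refine (abs_add_le _ _).trans ?_
  rw [abs_mul, abs_mul]
  have h1 := Real.abs_cos_le_one (ν * t)
  have h2 := Real.abs_sin_le_one (ν * t)
  have h3 := abs_nonneg a
  have h4 := abs_nonneg b
  nlinarith

lemma ts_abs {ν a b t R : ℝ} (ha : |a| ≤ R) (hb : |b| ≤ R) : |ts ν a b t| ≤ 2 * R := by
  unfold ts
  refine (abs_sub _ _).trans ?_
  rw [abs_mul, abs_mul]
  have h1 := Real.abs_cos_le_one (ν * t)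
  have h2 := Real.abs_sin_le_one (ν * t)
  have h3 := abs_nonneg a
  have h4 := abs_nonneg b
  nlinarith

/-- linear families of solutions near given fields, in the negative Sobolev norms, with a
tolerance -/
theorem pnear {s ε E : ℝ} (hs : 1 < s) (hε : 0 < ε) (K₀ : ℕ) : ∃ (K : ℕ) (D : ℝ), K₀ ≤ K ∧ 0 < D ∧
    ∀ {Λ : Type} [Fintype Λ] (μ : Λ → ℝ) (R : ℝ),
      ∃ (S : V → V) (W W' : QI K × Λ → V → V) (P : V → ℝ),
        (∀ a b, Sol (fam (nuq μ) S W W' a b) P) ∧
        (∀ a b t, ∀ l ∈ Bx K, ∀ i ψ,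
          ∫ x in Dom, fam (nuq μ) S W W' a b t x i * Real.cos (ph l x - ψ)
            = ∑ q : QI K, (∑ n, tc (nuq μ (q, n)) (a (q, n)) (b (q, n)) t)
              * (dxi q.1 q.2.1 i : ℝ) * IJq q l ψ) ∧
        ∀ a b, (∀ e, |a e| ≤ R ∧ |b e| ≤ R) → ∀ (t : ℝ) (h : V → V), Periodic3 h →
          MemLp h 2 (volume.restrict cube) → ∑ i, ∫ x in Dom, h x i ^ 2 ≤ E →
          (∀ l ∈ Bx K, ∀ i, |(∫ x in Dom, h x i * Real.cos (ph l x))
              - ∑ q : QI K, (∑ n, tc (nuq μ (q, n)) (a (q, n)) (b (q, n)) t)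
                * (dxi q.1 q.2.1 i : ℝ) * IJq q l 0| ≤ D ∧
            |(∫ x in Dom, h x i * Real.sin (ph l x))
              - ∑ q : QI K, (∑ n, tc (nuq μ (q, n)) (a (q, n)) (b (q, n)) t)
                * (dxi q.1 q.2.1 i : ℝ) * IJq q l (Real.pi / 2)| ≤ D) →
          HNegClose s ε (fam (nuq μ) S W W' a b t) h := by
  classical
  have hv := vl_pos
  obtain ⟨K₁, hK₁⟩ := exists_pow_le s (by linarith) (2 * (vl * E)) (ε ^ 2 / 3) (by positivity)
  set K := max K₀ K₁ with hK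
  set D : ℝ := Real.sqrt (ε ^ 2 / (18 * ((Bx K).card + 1))) with hD
  have hD0 : 0 < D := Real.sqrt_pos.2 (by positivity)
  have hD2 : D ^ 2 = ε ^ 2 / (18 * ((Bx K).card + 1)) := Real.sq_sqrt (by positivity)
  refine ⟨K, D, le_max_left _ _, hD0, fun {Λ} _ μ R => ?_⟩
  obtain ⟨C, hC0, N₀, hN₀⟩ := pcore K μ
  set C' : ℝ := C + ∑ _e : QI K × Λ, 4 * |R| * C with hC'
  have hC'0 : 0 ≤ C' := by
    have : 0 ≤ ∑ _e : QI K × Λ, 4 * |R| * C := Finset.sum_nonneg fun _ _ => by positivity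
    positivity
  obtain ⟨N₁, hN₁⟩ := exists_weight hs K (c := 2 * (3 * (vl * (C' ^ 2 * vl))))
    (ε := ε ^ 2 / 3) (by positivity) (by positivity)
  obtain ⟨S, W, W', P, hsol, hbd, hm⟩ := hN₀ (2 * K + 1 + N₀ + N₁) (by omega)
  have hN1 := hN₁ (2 * K + 1 + N₀ + N₁) (by omega)
  set N := 2 * K + 1 + N₀ + N₁ with hN
  have hN0 : (0 : ℝ) ≤ N := Nat.cast_nonneg N
  have hKN : ∀ l ∈ Bx K, ∀ i, |l i| + K < N := by
    intro l hl i
    have := mem_Bx.1 hl i
    omega
  have hsin : ∀ (l : Fin 3 → ℤ) (x : V), Real.cos (ph l x - Real.pi / 2) = Real.sin (ph l x) :=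
    fun l x => Real.cos_sub_pi_div_two _
  refine ⟨S, W, W', P, hsol, fun a b t l hl i ψ => hm a b t l (hKN l hl) i ψ, ?_⟩
  intro a b hab t h hhp hh2 hhE hhm
  have hbd' : ∀ x i, |fam (nuq μ) S W W' a b t x i| ≤ C' * N := by
    intro x i
    unfold fam
    rw [Pi.add_apply, Finset.sum_apply, hC', add_mul, Finset.sum_mul]
    refine (abs_add_le _ _).trans (add_le_add (hbd x i).1 ?_)
    refine (Finset.abs_sum_le_sum_abs _ _).trans (Finset.sum_le_sum fun e _ => ?_)
    simp only [Pi.add_apply, Pi.smul_apply, smul_eq_mul]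
    refine (abs_add_le _ _).trans ?_
    rw [abs_mul, abs_mul]
    obtain ⟨h1, h2⟩ := (hbd x i).2 e
    obtain ⟨h3, h4⟩ := hab e
    have h5 : |tc (nuq μ e) (a e) (b e) t| ≤ 2 * |R| :=
      (tc_abs h3 h4).trans (by have := le_abs_self R; linarith)
    have h6 : |ts (nuq μ e) (a e) (b e) t| ≤ 2 * |R| :=
      (ts_abs h3 h4).trans (by have := le_abs_self R; linarith)
    calc |tc (nuq μ e) (a e) (b e) t| * |W e x i| + |ts (nuq μ e) (a e) (b e) t| * |W' e x i|
        ≤ 2 * |R| * (C * N) + 2 * |R| * (C * N) := by gcongr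
      _ = 4 * |R| * C * N := by ring
  refine hneg' (K := K) (N := N) (M := (C' * N) ^ 2 * vl) (D := D) (E := E) hhp hh2
    ((hsol a b).per t) ((hsol a b).diff t).continuous (by linarith) ?_ hhE ?_ ?_ ?_ ?_ ?_
  · intro i
    rw [← int_const]
    refine setIntegral_mono_on ?_ (integrableOn_const dom_lt_top.ne) dom_meas fun x _ => ?_
    · refine Periodic3.integrableOn ?_
        (((continuous_apply i).comp ((hsol a b).diff t).continuous).pow 2)
      intro j x; simp only; rw [(hsol a b).per t j x]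
    · have := hbd' x i
      rw [← sq_abs]
      exact pow_le_pow_left₀ (abs_nonneg _) this 2
  · intro l hl i
    obtain ⟨h1, h2⟩ := hhm l hl i
    have e1 := hm a b t l (hKN l hl) i 0
    have e2 := hm a b t l (hKN l hl) i (Real.pi / 2)
    simp only [sub_zero] at e1
    simp only [hsin] at e2
    rw [e1, e2, abs_sub_comm, abs_sub_comm _ (∫ x in Dom, h x i * Real.sin (ph l x))]
    exact ⟨h1, h2⟩
  · intro l hl hlN i
    have hz : ∀ ψ, ∑ q : QI K, (∑ n, tc (nuq μ (q, n)) (a (q, n)) (b (q, n)) t)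
                * (dxi q.1 q.2.1 i : ℝ) * IJq q l ψ = 0 := by
      intro ψ
      refine Finset.sum_eq_zero fun q _ => ?_
      have : IJq q l ψ = 0 := prod_int_zero q.1.2 hl _ _
      rw [this, mul_zero]
    have e1 := hm a b t l hlN i 0
    have e2 := hm a b t l hlN i (Real.pi / 2)
    simp only [sub_zero] at e1
    simp only [hsin] at e2
    rw [e1, e2]
    exact ⟨hz 0, hz _⟩
  · rw [hD2]
    have hc : (0 : ℝ) ≤ (Bx K).card := Nat.cast_nonneg _
    have e : ((Bx K).card : ℝ) * (3 * (2 * (ε ^ 2 / (18 * ((Bx K).card + 1)))))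
        = ε ^ 2 / 3 * ((Bx K).card / ((Bx K).card + 1)) := by
      field_simp; ring
    rw [e]
    have h1 : ((Bx K).card : ℝ) / ((Bx K).card + 1) ≤ 1 := by
      rw [div_le_one (by positivity)]; linarith
    exact mul_le_of_le_one_right (by positivity) h1
  · refine le_trans (le_of_eq ?_) hN1
    ring
  · refine hK₁ K (le_max_right _ _)

/-- the Fourier series reproduces the coefficients -/
lemma series_static {K : ℕ} {A B : (Fin 3 → ℤ) → V} (oA : ∀ k ∈ Bx K, ph k (A k) = 0)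
    (oB : ∀ k ∈ Bx K, ph k (B k) = 0) (sA : ∀ k ∈ Bx K, A (-k) = A k)
    (sB : ∀ k ∈ Bx K, B (-k) = -B k) {l : Fin 3 → ℤ} (hl : l ∈ Bx K) (ψ : ℝ) (i : Fin 3) :
    ∑ q : QI K, (dco q.1 q.2.1 (if q.2.2 then B q.1 else A q.1) / vl)
      * (dxi q.1 q.2.1 i : ℝ) * IJq q l ψ = A l i * Real.cos ψ + B l i * Real.sin ψ := by
  classical
  have h : Curves 1 K (fun k _ => A k) (fun k _ => B k) :=
    ⟨fun _ _ => continuous_const, fun _ _ => continuous_const, fun _ _ _ => rfl,
      fun _ _ _ => rfl, fun k hk _ => oA k hk, fun k hk _ => oB k hk, fun k hk _ => sA k hk,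
      fun k hk _ => sB k hk, fun _ => rfl⟩
  rw [← h.series hl 0 ψ i, Fintype.sum_prod_type]
  rw [← Finset.sum_coe_sort (Bx K)]
  refine Finset.sum_congr rfl fun k _ => ?_
  rw [Fintype.sum_prod_type, Finset.sum_comm]
  refine Finset.sum_congr rfl fun β _ => ?_
  have h1 : (if β then B k i else A k i)
      = ∑ j, dco k j (if β then B k else A k) * (dxi k j i : ℝ) := by
    have h2 : ph k (if β then B k else A k) = 0 := by
      split_ifs
      · exact oB _ k.2
      · exact oA _ k.2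
    have h3 := dco_span k _ h2 i
    rw [← h3]
    split_ifs <;> rfl
  rw [h1, Finset.sum_div, Finset.sum_mul]
  refine Finset.sum_congr rfl fun j _ => ?_
  simp only [IJq]
  ring

end Pool.Agent.Zk27.UE
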