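import Pool.Agent.Zk27.UE.PFam
import Pool.Agent.Zk27.UE.UnivSol

/-!
# Linear families of solutions whose low modes are all quasi-periodic motions
-/

open MeasureTheory Set
open scoped ENNReal NNReal Topology Pointwise ContDiff

set_option autoImplicit false

namespace Pool.Agent.Zk27.UE

open Pool.Agent.H708R2.EulerSign Pool.Agent.H708R2.EulerModes

/-- periodic square-integrable divergence-free fields with a bound for the energy -/
structure Fld (R : ℝ) (f : V → V) : Prop where
  periodic : Periodic3 f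
  memLp : MemLp f 2 (volume.restrict cube)
  divFree : WeakDivFree f
  energy : ∑ i, ∫ x in Dom, f x i ^ 2 ≤ R

/-- the quasi-periodic motions -/
noncomputable def qp {m : ℕ} (μ : Fin m → ℝ) (f g : Fin m → V → V) (t : ℝ) (x : V) : V :=
  ∑ j, (Real.cos (μ j * t) • f j x + Real.sin (μ j * t) • g j x)

lemma cube_fin : IsFiniteMeasure (volume.restrict cube : Measure V) := by
  constructor
  rw [Measure.restrict_apply_univ]
  exact (isCompact_Icc : IsCompact cube).measure_lt_top

lemma fderiv_int {ψ : V → ℝ} (hψ : ContDiff ℝ ∞ ψ) {f : V → V}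
    (hf : MemLp f 2 (volume.restrict cube)) :
    Integrable (fun x => fderiv ℝ ψ x (f x)) (volume.restrict cube) := by
  have := cube_fin
  have hi : ∀ i, Integrable (fun x => f x i) (volume.restrict cube) := fun i =>
    (memLp_comp hf i).integrable (by norm_num)
  have e : (fun x => fderiv ℝ ψ x (f x))
      = fun x => ∑ i, f x i * fderiv ℝ ψ x (Pi.single i 1) := by
    ext1 x
    conv_lhs => rw [vec_eq_sum (f x), map_sum]
    simp only [map_smul, smul_eq_mul]
  rw [e]
  refine integrable_finsetSum _ fun i _ => ?_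
  have hc : Continuous (fun x => fderiv ℝ ψ x (Pi.single i 1)) :=
    (hψ.continuous_fderiv (by simp)).clm_apply continuous_const
  obtain ⟨C, hC⟩ := (isCompact_Icc : IsCompact cube).exists_bound_of_continuousOn hc.continuousOn
  refine (hi i).mul_bdd (c := C) hc.aestronglyMeasurable ?_
  exact (ae_restrict_iff' measurableSet_Icc).2 (Filter.Eventually.of_forall fun x hx => hC x hx)

section

variable {m : ℕ} {μ : Fin m → ℝ} {R : ℝ} {f g : Fin m → V → V}

lemma qp_periodic (hf : ∀ j, Fld R (f j)) (hg : ∀ j, Fld R (g j)) (t : ℝ) :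
    Periodic3 (qp μ f g t) := by
  intro i x
  unfold qp
  refine Finset.sum_congr rfl fun j _ => ?_
  rw [(hf j).periodic i x, (hg j).periodic i x]

lemma qp_memLp (hf : ∀ j, Fld R (f j)) (hg : ∀ j, Fld R (g j)) (t : ℝ) :
    MemLp (qp μ f g t) 2 (volume.restrict cube) := by
  have h := memLp_finsetSum (μ := volume.restrict cube) (p := 2) Finset.univ
    (f := fun j x => Real.cos (μ j * t) • f j x + Real.sin (μ j * t) • g j x)
    (fun j _ => ((hf j).memLp.const_smul (Real.cos (μ j * t))).add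
      ((hg j).memLp.const_smul (Real.sin (μ j * t))))
  exact h

lemma qp_div (hf : ∀ j, Fld R (f j)) (hg : ∀ j, Fld R (g j)) (t : ℝ) :
    WeakDivFree (qp μ f g t) := by
  intro ψ hψ hp
  have e : ∀ x, fderiv ℝ ψ x (qp μ f g t x) = ∑ j, (Real.cos (μ j * t) * fderiv ℝ ψ x (f j x)
      + Real.sin (μ j * t) * fderiv ℝ ψ x (g j x)) := by
    intro x
    unfold qp
    rw [map_sum]
    refine Finset.sum_congr rfl fun j _ => ?_
    rw [map_add, map_smul, map_smul, smul_eq_mul, smul_eq_mul]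
  simp only [e]
  rw [integral_finsetSum]
  · refine Finset.sum_eq_zero fun j _ => ?_
    rw [integral_add ((fderiv_int hψ (hf j).memLp).const_mul _)
      ((fderiv_int hψ (hg j).memLp).const_mul _), integral_const_mul, integral_const_mul,
      (hf j).divFree ψ hψ hp, (hg j).divFree ψ hψ hp]
    ring
  · intro j _
    exact ((fderiv_int hψ (hf j).memLp).const_mul _).add
      ((fderiv_int hψ (hg j).memLp).const_mul _)

lemma coefc_int {R : ℝ} {f : V → V} (hf : Fld R f) (k : Fin 3 → ℤ) (i : Fin 3) :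
    Integrable (fun x => f x i * Real.cos (ph k x)) (volume.restrict Dom) := by
  have h := (memLp_comp (memLp_dom hf.periodic hf.memLp) i).integrable (by norm_num)
  refine h.mul_bdd (c := 1)
    (Real.continuous_cos.comp (ph_contDiff k).continuous).aestronglyMeasurable
    (Filter.Eventually.of_forall fun x => ?_)
  exact Real.abs_cos_le_one _

lemma coefs_int {R : ℝ} {f : V → V} (hf : Fld R f) (k : Fin 3 → ℤ) (i : Fin 3) :
    Integrable (fun x => f x i * Real.sin (ph k x)) (volume.restrict Dom) := by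
  have h := (memLp_comp (memLp_dom hf.periodic hf.memLp) i).integrable (by norm_num)
  refine h.mul_bdd (c := 1)
    (Real.continuous_sin.comp (ph_contDiff k).continuous).aestronglyMeasurable
    (Filter.Eventually.of_forall fun x => ?_)
  exact Real.abs_sin_le_one _

lemma qp_apply (t : ℝ) (x : V) (i : Fin 3) : qp μ f g t x i
    = ∑ j, (Real.cos (μ j * t) * f j x i + Real.sin (μ j * t) * g j x i) := by
  unfold qp
  rw [Finset.sum_apply]
  rfl

lemma cA_qp (hf : ∀ j, Fld R (f j)) (hg : ∀ j, Fld R (g j)) (t : ℝ) (k : Fin 3 → ℤ) (i : Fin 3) :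
    cA (qp μ f g t) k i = ∑ j, (Real.cos (μ j * t) * cA (f j) k i
      + Real.sin (μ j * t) * cA (g j) k i) := by
  unfold cA
  have e : ∀ x, qp μ f g t x i * Real.cos (ph k x)
      = ∑ j, (Real.cos (μ j * t) * (f j x i * Real.cos (ph k x))
        + Real.sin (μ j * t) * (g j x i * Real.cos (ph k x))) := by
    intro x
    rw [qp_apply, Finset.sum_mul]
    refine Finset.sum_congr rfl fun j _ => ?_
    ring
  simp only [e]
  rw [integral_finsetSum]
  · refine Finset.sum_congr rfl fun j _ => ?_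
    rw [integral_add ((coefc_int (hf j) k i).const_mul _) ((coefc_int (hg j) k i).const_mul _),
      integral_const_mul, integral_const_mul]
  · intro j _
    exact ((coefc_int (hf j) k i).const_mul _).add ((coefc_int (hg j) k i).const_mul _)

lemma cB_qp (hf : ∀ j, Fld R (f j)) (hg : ∀ j, Fld R (g j)) (t : ℝ) (k : Fin 3 → ℤ) (i : Fin 3) :
    cB (qp μ f g t) k i = ∑ j, (Real.cos (μ j * t) * cB (f j) k i
      + Real.sin (μ j * t) * cB (g j) k i) := by
  unfold cB
  have e : ∀ x, qp μ f g t x i * Real.sin (ph k x)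
      = ∑ j, (Real.cos (μ j * t) * (f j x i * Real.sin (ph k x))
        + Real.sin (μ j * t) * (g j x i * Real.sin (ph k x))) := by
    intro x
    rw [qp_apply, Finset.sum_mul]
    refine Finset.sum_congr rfl fun j _ => ?_
    ring
  simp only [e]
  rw [integral_finsetSum]
  · refine Finset.sum_congr rfl fun j _ => ?_
    rw [integral_add ((coefs_int (hf j) k i).const_mul _) ((coefs_int (hg j) k i).const_mul _),
      integral_const_mul, integral_const_mul]
  · intro j _
    exact ((coefs_int (hf j) k i).const_mul _).add ((coefs_int (hg j) k i).const_mul _)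

lemma fq_qp (hf : ∀ j, Fld R (f j)) (hg : ∀ j, Fld R (g j)) (t : ℝ) {K : ℕ} (q : QI K) :
    fq q (qp μ f g t) = ∑ j, (Real.cos (μ j * t) * fq q (f j)
      + Real.sin (μ j * t) * fq q (g j)) := by
  simp only [fq_eq, cA_qp hf hg, cB_qp hf hg]
  simp only [Finset.mul_sum, ← Finset.sum_add_distrib]
  rw [Finset.sum_comm]
  refine Finset.sum_congr rfl fun i _ => ?_
  split_ifs
  · rw [Finset.mul_sum]
    refine Finset.sum_congr rfl fun j _ => ?_
    ring
  · rw [Finset.mul_sum]
    refine Finset.sum_congr rfl fun j _ => ?_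
    ring

lemma sq_rot (θ a b : ℝ) : (Real.cos θ * a + Real.sin θ * b) ^ 2 ≤ a ^ 2 + b ^ 2 := by
  have h := Real.sin_sq_add_cos_sq θ
  have e : a ^ 2 + b ^ 2 = (Real.cos θ * a + Real.sin θ * b) ^ 2
      + (Real.sin θ * a - Real.cos θ * b) ^ 2 := by
    have : a ^ 2 + b ^ 2 = (a ^ 2 + b ^ 2) * (Real.sin θ ^ 2 + Real.cos θ ^ 2) := by
      rw [h, mul_one]
    rw [this]; ring
  rw [e]
  have := sq_nonneg (Real.sin θ * a - Real.cos θ * b)
  linarith

lemma qp_energy (hf : ∀ j, Fld R (f j)) (hg : ∀ j, Fld R (g j)) (t : ℝ) :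
    ∑ i, ∫ x in Dom, qp μ f g t x i ^ 2 ≤ m * (m * (2 * R)) := by
  have sf : ∀ j i, Integrable (fun x => f j x i ^ 2) (volume.restrict Dom) := fun j i =>
    (memLp_comp (memLp_dom (hf j).periodic (hf j).memLp) i).integrable_sq
  have sg : ∀ j i, Integrable (fun x => g j x i ^ 2) (volume.restrict Dom) := fun j i =>
    (memLp_comp (memLp_dom (hg j).periodic (hg j).memLp) i).integrable_sq
  have hq : ∀ i, Integrable (fun x => qp μ f g t x i ^ 2) (volume.restrict Dom) := fun i =>
    (memLp_comp (memLp_dom (qp_periodic hf hg t) (qp_memLp hf hg t)) i).integrable_sq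
  have h1 : ∀ i, ∫ x in Dom, qp μ f g t x i ^ 2
      ≤ m * ∑ j, ((∫ x in Dom, f j x i ^ 2) + ∫ x in Dom, g j x i ^ 2) := by
    intro i
    have h2 : ∫ x in Dom, qp μ f g t x i ^ 2
        ≤ ∫ x in Dom, m * ∑ j, (f j x i ^ 2 + g j x i ^ 2) := by
      refine setIntegral_mono_on (hq i) ?_ dom_meas fun x _ => ?_
      · exact (integrable_finsetSum _ fun j _ => (sf j i).add (sg j i)).const_mul _
      · rw [qp_apply]
        have h3 := sq_sum_le_card_mul_sum_sq (s := (Finset.univ : Finset (Fin m)))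
          (f := fun j => Real.cos (μ j * t) * f j x i + Real.sin (μ j * t) * g j x i)
        rw [Finset.card_univ, Fintype.card_fin] at h3
        refine h3.trans ?_
        gcongr with j _
        exact sq_rot _ _ _
    refine h2.trans (le_of_eq ?_)
    have h6 : ∫ x in Dom, ∑ j, (f j x i ^ 2 + g j x i ^ 2)
        = ∑ j, ∫ x in Dom, (f j x i ^ 2 + g j x i ^ 2) :=
      integral_finsetSum _ fun j _ => (sf j i).add (sg j i)
    rw [integral_const_mul, h6]
    congr 1
    refine Finset.sum_congr rfl fun j _ => ?_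
    exact integral_add (sf j i) (sg j i)
  refine (Finset.sum_le_sum fun i _ => h1 i).trans ?_
  rw [← Finset.mul_sum, Finset.sum_comm]
  have h4 : ∀ j, ∑ i, ((∫ x in Dom, f j x i ^ 2) + ∫ x in Dom, g j x i ^ 2) ≤ 2 * R := by
    intro j
    rw [Finset.sum_add_distrib]
    have := (hf j).energy
    have := (hg j).energy
    linarith
  have h5 : ∑ j : Fin m, ∑ i, ((∫ x in Dom, f j x i ^ 2) + ∫ x in Dom, g j x i ^ 2)
      ≤ ∑ _j : Fin m, 2 * R := Finset.sum_le_sum fun j _ => h4 j
  rw [Finset.sum_const, Finset.card_univ, Fintype.card_fin, nsmul_eq_mul] at h5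
  gcongr

lemma fq_abs {R : ℝ} {f : V → V} (hf : Fld R f) {K : ℕ} (q : QI K) :
    |fq q f| ≤ ∑ i, |dco q.1 q.2.1 (Pi.single i 1) / vl| * (vl * R + 1) := by
  rw [fq_eq]
  refine (Finset.abs_sum_le_sum_abs _ _).trans (Finset.sum_le_sum fun i _ => ?_)
  rw [abs_mul]
  obtain ⟨h1, h2⟩ := coeff_bound hf.periodic hf.memLp hf.energy q.1 i
  refine mul_le_mul_of_nonneg_left ?_ (abs_nonneg _)
  split_ifs
  · exact h2
  · exact h1

end

lemma fq_zero {K : ℕ} (q : QI K) (hq : (q.1 : Fin 3 → ℤ) = 0) {v : V → V} (h : cA v 0 = 0) :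
    fq q v = 0 := by
  unfold fq
  rw [hq, cB_zero, h]
  split_ifs <;> simp

/-- linear families of solutions whose low modes are all quasi-periodic motions with given
frequencies -/
theorem pexact {s ε R : ℝ} (hs : 1 < s) (hε : 0 < ε) (K₀ : ℕ) {m : ℕ} (μ : Fin m → ℝ) :
    ∃ (ι : Type) (_ : Fintype ι) (ν : ι → ℝ) (S : V → V) (W W' : ι → V → V) (P : V → ℝ),
      (∀ a b, Sol (fam ν S W W' a b) P) ∧
      ∀ f g : Fin m → V → V, (∀ j, Fld R (f j)) → (∀ j, Fld R (g j)) →
        (∀ j, μ j = 0 ∨ (cA (f j) 0 = 0 ∧ cA (g j) 0 = 0)) →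
        ∃ a b : ι → ℝ, ∀ t, SameModes K₀ (fam ν S W W' a b t) (qp μ f g t) ∧
          HNegClose s ε (fam ν S W W' a b t) (qp μ f g t) := by
  obtain ⟨K, D, hK, hD, hnear⟩ := pnear (E := m * (m * (2 * R))) hs hε K₀
  have hv := vl_pos
  obtain ⟨M, hM⟩ : ∃ M : ℝ, ∀ q : QI K,
      ∑ i, |dco q.1 q.2.1 (Pi.single i 1) / vl| * (vl * R + 1) ≤ M := by
    obtain ⟨M, hM⟩ := (Set.finite_range (fun q : QI K =>
      ∑ i, |dco q.1 q.2.1 (Pi.single i 1) / vl| * (vl * R + 1))).bddAbove
    exact ⟨M, fun q => hM ⟨q, rfl⟩⟩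
  obtain ⟨S, W, W', P, hsol, hm, hcl⟩ := hnear μ M
  refine ⟨QI K × Fin m, inferInstance, nuq μ, S, W, W', P, hsol, fun f g hf hg h0 => ?_⟩
  obtain ⟨a, ha⟩ : ∃ a : QI K × Fin m → ℝ, ∀ q j, a (q, j) = fq q (f j) :=
    ⟨fun e => fq e.1 (f e.2), fun q j => rfl⟩
  obtain ⟨b, hb⟩ : ∃ b : QI K × Fin m → ℝ, ∀ q j, b (q, j) = fq q (g j) :=
    ⟨fun e => fq e.1 (g e.2), fun q j => rfl⟩
  have hsum : ∀ (q : QI K) t, ∑ n, tc (nuq μ (q, n)) (a (q, n)) (b (q, n)) t
      = fq q (qp μ f g t) := by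
    intro q t
    rw [fq_qp hf hg]
    refine Finset.sum_congr rfl fun j _ => ?_
    rw [ha, hb]
    by_cases hq : (q.1 : Fin 3 → ℤ) = 0
    · have e1 : nuq μ (q, j) = 0 := if_pos hq
      rw [e1]
      rcases h0 j with h1 | ⟨h1, h2⟩
      · rw [h1]; simp [tc]
      · rw [fq_zero q hq h1, fq_zero q hq h2]; simp [tc]
    · have e1 : nuq μ (q, j) = μ j := if_neg hq
      rw [e1]
      unfold tc; ring
  have hmode : ∀ t, ∀ l ∈ Bx K, ∀ i ψ, ∑ q : QI K, (∑ n, tc (nuq μ (q, n)) (a (q, n))
      (b (q, n)) t) * (dxi q.1 q.2.1 i : ℝ) * IJq q l ψ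
      = cA (qp μ f g t) l i * Real.cos ψ + cB (qp μ f g t) l i * Real.sin ψ := by
    intro t l hl i ψ
    rw [← fq_series (qp_periodic hf hg t) (qp_memLp hf hg t) (qp_div hf hg t) hl ψ i]
    refine Finset.sum_congr rfl fun q _ => ?_
    rw [hsum]
  have hsin : ∀ (l : Fin 3 → ℤ) (x : V), Real.cos (ph l x - Real.pi / 2) = Real.sin (ph l x) :=
    fun l x => Real.cos_sub_pi_div_two _
  refine ⟨a, b, fun t => ⟨?_, ?_⟩⟩
  · intro l hl i
    have hl' : l ∈ Bx K := by
      rw [mem_Bx]
      intro i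
      exact (hl i).trans (by exact_mod_cast hK)
    have e1 := hm a b t l hl' i 0
    have e2 := hm a b t l hl' i (Real.pi / 2)
    rw [hmode t l hl'] at e1 e2
    simp only [sub_zero, Real.cos_zero, Real.sin_zero, mul_one, mul_zero, add_zero] at e1
    simp only [hsin, Real.cos_pi_div_two, Real.sin_pi_div_two, mul_one, mul_zero,
      zero_add] at e2
    have hper := (hsol a b).per t
    rw [cosCoeff_eq (comp_periodic hper i), cosCoeff_eq (comp_periodic (qp_periodic hf hg t) i),
      sinCoeff_eq (comp_periodic hper i), sinCoeff_eq (comp_periodic (qp_periodic hf hg t) i)]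
    exact ⟨e1, e2⟩
  · refine hcl a b ?_ t _ (qp_periodic hf hg t) (qp_memLp hf hg t) (qp_energy hf hg t) ?_
    · rintro ⟨q, j⟩
      rw [ha, hb]
      exact ⟨(fq_abs (hf j) q).trans (hM q), (fq_abs (hg j) q).trans (hM q)⟩
    · intro l hl i
      rw [hmode t l hl, hmode t l hl]
      simp only [Real.cos_zero, Real.sin_zero, mul_one, mul_zero, add_zero,
        Real.cos_pi_div_two, Real.sin_pi_div_two, zero_add]
      unfold cA cB
      rw [sub_self, sub_self, abs_zero]
      exact ⟨hD.le, hD.le⟩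

end Pool.Agent.Zk27.UE
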