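import Pool.Agent.Zk27.UE.PApprox

/-!
# Linear families of solutions near compact families of curves
-/

open MeasureTheory Set
open scoped ENNReal NNReal Topology Pointwise ContDiff

set_option autoImplicit false

namespace Pool.Agent.Zk27.UE

open Pool.Agent.H708R2.EulerSign Pool.Agent.H708R2.EulerModes

/-- the cosine coefficients -/
noncomputable def cA (v : V → V) (k : Fin 3 → ℤ) : V :=
  fun i => ∫ x in Dom, v x i * Real.cos (ph k x)

/-- the sine coefficients -/
noncomputable def cB (v : V → V) (k : Fin 3 → ℤ) : V :=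
  fun i => ∫ x in Dom, v x i * Real.sin (ph k x)

/-- the coordinates of the coefficients -/
noncomputable def fq {K : ℕ} (q : QI K) (v : V → V) : ℝ :=
  dco q.1 q.2.1 (if q.2.2 then cB v q.1 else cA v q.1) / vl

lemma fq_series {v : V → V} (hp : Periodic3 v) (h2 : MemLp v 2 (volume.restrict cube))
    (hd : WeakDivFree v) {K : ℕ} {l : Fin 3 → ℤ} (hl : l ∈ Bx K) (ψ : ℝ) (i : Fin 3) :
    ∑ q : QI K, fq q v * (dxi q.1 q.2.1 i : ℝ) * IJq q l ψ
      = cA v l i * Real.cos ψ + cB v l i * Real.sin ψ := by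
  refine series_static (A := cA v) (B := cB v) (fun k _ => (ph_coeff hp h2 hd k).1)
    (fun k _ => (ph_coeff hp h2 hd k).2) ?_ ?_ hl ψ i
  · intro k _
    ext i
    simp only [cA, ph_neg, Real.cos_neg]
  · intro k _
    ext i
    simp only [cB, ph_neg, Real.sin_neg, mul_neg, Pi.neg_apply]
    rw [integral_neg]

lemma fq_eq {K : ℕ} (q : QI K) (v : V → V) :
    fq q v = ∑ i, (dco q.1 q.2.1 (Pi.single i 1) / vl) *
      (if q.2.2 then cB v q.1 i else cA v q.1 i) := by
  unfold fq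
  have h : ∀ A : V, dco q.1 q.2.1 A = ∑ i, A i * dco q.1 q.2.1 (Pi.single i 1) := by
    intro A
    have h1 : A = ∑ i, A i • (Pi.single i (1 : ℝ) : V) := by
      ext j
      simp [Finset.sum_apply, Pi.single_apply]
    conv_lhs => rw [h1, map_sum]
    simp only [map_smul, smul_eq_mul]
  rw [h, Finset.sum_div]
  refine Finset.sum_congr rfl fun i _ => ?_
  split_ifs <;> ring

/-- uniform approximation by trigonometric polynomials -/
def TA (Pμ : ℝ → Prop) (I : Set ℝ) (g : ℝ → ℝ) : Prop :=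
  ∀ η, 0 < η → ∃ (n : ℕ) (μ a b : Fin n → ℝ), (∀ j, Pμ (μ j)) ∧
    ∀ t ∈ I, |g t - ∑ j, tc (μ j) (a j) (b j) t| ≤ η

lemma TA.add {Pμ : ℝ → Prop} {I : Set ℝ} {g h : ℝ → ℝ} (hg : TA Pμ I g) (hh : TA Pμ I h) :
    TA Pμ I (fun t => g t + h t) := by
  intro η hη
  obtain ⟨n, μ, a, b, h1, h2⟩ := hg (η / 2) (half_pos hη)
  obtain ⟨n', μ', a', b', h1', h2'⟩ := hh (η / 2) (half_pos hη)
  refine ⟨n + n', Fin.append μ μ', Fin.append a a', Fin.append b b', ?_, fun t ht => ?_⟩
  · intro j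
    refine Fin.addCases (fun j => ?_) (fun j => ?_) j
    · rw [Fin.append_left]; exact h1 j
    · rw [Fin.append_right]; exact h1' j
  · rw [Fin.sum_univ_add]
    simp only [Fin.append_left, Fin.append_right]
    have e : g t + h t - (∑ j, tc (μ j) (a j) (b j) t + ∑ j, tc (μ' j) (a' j) (b' j) t)
        = (g t - ∑ j, tc (μ j) (a j) (b j) t) + (h t - ∑ j, tc (μ' j) (a' j) (b' j) t) := by ring
    rw [e]
    exact (abs_add_le _ _).trans (by linarith [h2 t ht, h2' t ht])

lemma TA.const_mul {Pμ : ℝ → Prop} {I : Set ℝ} {g : ℝ → ℝ} (hg : TA Pμ I g) (c : ℝ) :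
    TA Pμ I (fun t => c * g t) := by
  intro η hη
  obtain ⟨n, μ, a, b, h1, h2⟩ := hg (η / (|c| + 1)) (by positivity)
  refine ⟨n, μ, fun j => c * a j, fun j => c * b j, h1, fun t ht => ?_⟩
  simp only [tc_mul]
  rw [← Finset.mul_sum, ← mul_sub, abs_mul]
  calc |c| * |g t - ∑ j, tc (μ j) (a j) (b j) t| ≤ |c| * (η / (|c| + 1)) := by
        have := h2 t ht
        gcongr
    _ = η * (|c| / (|c| + 1)) := by ring
    _ ≤ η * 1 := by
        gcongr
        rw [div_le_one (by positivity)]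
        linarith
    _ = η := mul_one η

/-- continuous dependence on the parameter, uniformly in time -/
def UC {Y : Type} [TopologicalSpace Y] (I : Set ℝ) (g : Y → ℝ → ℝ) : Prop :=
  ∀ y₀ η, 0 < η → ∀ᶠ y in 𝓝 y₀, ∀ t ∈ I, |g y t - g y₀ t| ≤ η

section

variable {Y : Type} [TopologicalSpace Y] {I : Set ℝ}

lemma UC.add {g h : Y → ℝ → ℝ} (hg : UC I g) (hh : UC I h) :
    UC I (fun y t => g y t + h y t) := by
  intro y₀ η hη
  filter_upwards [hg y₀ (η / 2) (half_pos hη), hh y₀ (η / 2) (half_pos hη)] with y h1 h2 t ht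
  have e : g y t + h y t - (g y₀ t + h y₀ t) = (g y t - g y₀ t) + (h y t - h y₀ t) := by ring
  rw [e]
  exact (abs_add_le _ _).trans (by linarith [h1 t ht, h2 t ht])

lemma UC.const_mul {g : Y → ℝ → ℝ} (hg : UC I g) (c : ℝ) : UC I (fun y t => c * g y t) := by
  intro y₀ η hη
  filter_upwards [hg y₀ (η / (|c| + 1)) (by positivity)] with y h1 t ht
  rw [← mul_sub, abs_mul]
  calc |c| * |g y t - g y₀ t| ≤ |c| * (η / (|c| + 1)) := by
        have := h1 t ht
        gcongr
    _ = η * (|c| / (|c| + 1)) := by ring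
    _ ≤ η * 1 := by
        gcongr
        rw [div_le_one (by positivity)]
        linarith
    _ = η := mul_one η

lemma UC.cont {g : Y → ℝ → ℝ} (hg : UC I g) {t : ℝ} (ht : t ∈ I) :
    Continuous (fun y => g y t) := by
  rw [continuous_iff_continuousAt]
  intro y₀
  rw [ContinuousAt, Metric.tendsto_nhds]
  intro η hη
  filter_upwards [hg y₀ (η / 2) (half_pos hη)] with y hy
  rw [Real.dist_eq]
  exact (hy t ht).trans_lt (by linarith)

/-- families of divergence-free fields with mean values which do not depend on time, whose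
Fourier coefficients can be approximated by trigonometric polynomials in time, and depend
continuously on the parameter -/
structure PFamily (Pμ : ℝ → Prop) (I : Set ℝ) (E : ℝ) (v : Y → ℝ → V → V) : Prop where
  periodic : ∀ y, ∀ t ∈ I, Periodic3 (v y t)
  memLp : ∀ y, ∀ t ∈ I, MemLp (v y t) 2 (volume.restrict cube)
  divFree : ∀ y, ∀ t ∈ I, WeakDivFree (v y t)
  energy : ∀ y, ∀ t ∈ I, ∑ i, ∫ x in Dom, v y t x i ^ 2 ≤ E
  mean : ∀ y, ∀ t ∈ I, ∀ t' ∈ I, cA (v y t) 0 = cA (v y t') 0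
  apc : ∀ y l i, TA Pμ I (fun t => cA (v y t) l i)
  aps : ∀ y l i, TA Pμ I (fun t => cB (v y t) l i)
  ucc : ∀ l i, UC I (fun y t => cA (v y t) l i)
  ucs : ∀ l i, UC I (fun y t => cB (v y t) l i)

variable {Pμ : ℝ → Prop} {E : ℝ} {v : Y → ℝ → V → V}

lemma PFamily.ta (h : PFamily Pμ I E v) {K : ℕ} (q : QI K) (y : Y) :
    TA Pμ I (fun t => fq q (v y t)) := by
  have h1 : ∀ i, TA Pμ I (fun t => if q.2.2 then cB (v y t) q.1 i else cA (v y t) q.1 i) := by
    intro i
    by_cases hq : q.2.2 = true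
    · simp only [hq, if_true]; exact h.aps y _ i
    · simp only [hq]; exact h.apc y _ i
  simp only [fq_eq, Fin.sum_univ_three]
  exact (((h1 0).const_mul _).add ((h1 1).const_mul _)).add ((h1 2).const_mul _)

lemma PFamily.uc (h : PFamily Pμ I E v) {K : ℕ} (q : QI K) :
    UC I (fun y t => fq q (v y t)) := by
  have h1 : ∀ i, UC I (fun y t => if q.2.2 then cB (v y t) q.1 i else cA (v y t) q.1 i) := by
    intro i
    by_cases hq : q.2.2 = true
    · simp only [hq, if_true]; exact h.ucs _ i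
    · simp only [hq]; exact h.ucc _ i
  simp only [fq_eq, Fin.sum_univ_three]
  exact (((h1 0).const_mul _).add ((h1 1).const_mul _)).add ((h1 2).const_mul _)

lemma cB_zero (v : V → V) : cB v 0 = 0 := by
  ext i
  simp [cB, ph_zero]

lemma fq_const {K : ℕ} (q : QI K) (hq : (q.1 : Fin 3 → ℤ) = 0) {v v' : V → V}
    (h : cA v 0 = cA v' 0) : fq q v = fq q v' := by
  unfold fq
  rw [hq, cB_zero, cB_zero, h]

lemma abs3 {f g x y η X M : ℝ} (h1 : |f - g| ≤ η) (h2 : |x| ≤ X) (h3 : |y| ≤ M) :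
    |f * x * y - g * x * y| ≤ η * (X * M) := by
  have e : f * x * y - g * x * y = (f - g) * (x * y) := by ring
  rw [e, abs_mul, abs_mul]
  have h4 := abs_nonneg (f - g)
  have h5 := abs_nonneg x
  have h6 := abs_nonneg y
  have h7 : 0 ≤ η := h4.trans h1
  have h8 : 0 ≤ X := h5.trans h2
  gcongr

/-- the coefficients of the atoms: the steady ones carry the mean -/
noncomputable def ext0 {K : ℕ} {Λ : Type} (c : QI K → ℝ) (a : QI K → Λ → ℝ)
    (e : QI K × Option Λ) : ℝ :=
  if (e.1.1 : Fin 3 → ℤ) = 0 then Option.elim e.2 (c e.1) (fun _ => 0)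
    else Option.elim e.2 0 (a e.1)

/-- the frequencies, with an additional frequency `0` -/
noncomputable def ext1 {Λ : Type} (μ : Λ → ℝ) (n : Option Λ) : ℝ := Option.elim n 0 μ

lemma ext_sum0 {K : ℕ} {Λ : Type} [Fintype Λ] (μ : Λ → ℝ) (c : QI K → ℝ) (a b : QI K → Λ → ℝ)
    (q : QI K) (hq : (q.1 : Fin 3 → ℤ) = 0) (t : ℝ) :
    ∑ n, tc (nuq (ext1 μ) (q, n)) (ext0 c a (q, n)) (ext0 (fun _ => 0) b (q, n)) t = c q := by
  rw [Fintype.sum_option]
  have h1 : tc (nuq (ext1 μ) (q, none)) (ext0 c a (q, none)) (ext0 (fun _ => 0) b (q, none)) t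
      = c q := by
    have e1 : nuq (ext1 μ) (q, none) = 0 := if_pos hq
    have e2 : ext0 c a (q, none) = c q := if_pos hq
    have e3 : ext0 (fun _ => 0) b (q, none) = 0 := if_pos hq
    rw [e1, e2, e3]
    simp [tc]
  have h2 : ∀ n : Λ, tc (nuq (ext1 μ) (q, some n)) (ext0 c a (q, some n))
      (ext0 (fun _ => 0) b (q, some n)) t = 0 := by
    intro n
    have e2 : ext0 c a (q, some n) = 0 := if_pos hq
    have e3 : ext0 (fun _ => 0) b (q, some n) = 0 := if_pos hq
    rw [e2, e3, tc_zero]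
  rw [h1, Finset.sum_congr rfl fun n _ => h2 n]
  simp

lemma ext_sum1 {K : ℕ} {Λ : Type} [Fintype Λ] (μ : Λ → ℝ) (c : QI K → ℝ) (a b : QI K → Λ → ℝ)
    (q : QI K) (hq : (q.1 : Fin 3 → ℤ) ≠ 0) (t : ℝ) :
    ∑ n, tc (nuq (ext1 μ) (q, n)) (ext0 c a (q, n)) (ext0 (fun _ => 0) b (q, n)) t
      = ∑ n, tc (μ n) (a q n) (b q n) t := by
  rw [Fintype.sum_option]
  have h1 : tc (nuq (ext1 μ) (q, none)) (ext0 c a (q, none)) (ext0 (fun _ => 0) b (q, none)) t
      = 0 := by
    have e2 : ext0 c a (q, none) = 0 := if_neg hq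
    have e3 : ext0 (fun _ => 0) b (q, none) = 0 := if_neg hq
    rw [e2, e3, tc_zero]
  have h2 : ∀ n : Λ, tc (nuq (ext1 μ) (q, some n)) (ext0 c a (q, some n))
      (ext0 (fun _ => 0) b (q, some n)) t = tc (μ n) (a q n) (b q n) t := by
    intro n
    have e1 : nuq (ext1 μ) (q, some n) = μ n := if_neg hq
    have e2 : ext0 c a (q, some n) = a q n := if_neg hq
    have e3 : ext0 (fun _ => 0) b (q, some n) = b q n := if_neg hq
    rw [e1, e2, e3]
  rw [h1, Finset.sum_congr rfl fun n _ => h2 n, zero_add]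

lemma ext0_cont {K : ℕ} {Λ : Type} {c : Y → QI K → ℝ} {a : QI K → Λ → Y → ℝ}
    (hc : ∀ q, Continuous (fun y => c y q)) (ha : ∀ q n, Continuous (a q n)) :
    Continuous (fun y => ext0 (c y) (fun q n => a q n y)) := by
  refine continuous_pi fun e => ?_
  obtain ⟨q, n⟩ := e
  by_cases h0 : (q.1 : Fin 3 → ℤ) = 0
  · rcases n with _ | n
    · have : (fun y => ext0 (c y) (fun q n => a q n y) (q, none)) = fun y => c y q := by
        ext1 y; exact if_pos h0
      rw [this]; exact hc q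
    · have : (fun y => ext0 (c y) (fun q n => a q n y) (q, some n)) = fun y => 0 := by
        ext1 y; exact if_pos h0
      rw [this]; exact continuous_const
  · rcases n with _ | n
    · have : (fun y => ext0 (c y) (fun q n => a q n y) (q, none)) = fun y => 0 := by
        ext1 y; exact if_neg h0
      rw [this]; exact continuous_const
    · have : (fun y => ext0 (c y) (fun q n => a q n y) (q, some n)) = fun y => a q n y := by
        ext1 y; exact if_neg h0
      rw [this]; exact ha q n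

variable [CompactSpace Y] [T2Space Y]

/-- linear families of solutions near compact families of curves -/
theorem pfamily (P0 : Pμ 0) (h : PFamily Pμ I E v) {s ε : ℝ} (hs : 1 < s) (hε : 0 < ε) :
    ∃ (ι : Type) (_ : Fintype ι) (ν : ι → ℝ) (S : V → V) (W W' : ι → V → V) (P : V → ℝ),
      (∀ e, Pμ (ν e)) ∧ (∀ a b, Sol (fam ν S W W' a b) P) ∧
      ∃ a b : Y → ι → ℝ, Continuous a ∧ Continuous b ∧
        ∀ y, ∀ t ∈ I, HNegClose s ε (fam ν S W W' (a y) (b y) t) (v y t) := by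
  classical
  obtain ⟨K, D, -, hD, hnear⟩ := pnear (E := E) hs hε 0
  have hv := vl_pos
  set C₁ : ℝ := ∑ q : QI K, (∑ i, |(dxi q.1 q.2.1 i : ℝ)|) * vl with hC₁
  have hC₁0 : 0 ≤ C₁ := Finset.sum_nonneg fun q _ => by positivity
  have hη : 0 < D / (C₁ + 1) := by positivity
  obtain ⟨Λ, _, μ, a, b, hμ, hab, happ⟩ := papprox (Y := Y) (Q := QI K) (I := I)
    (f := fun q y t => fq q (v y t)) (Pμ := Pμ) (fun q y => h.ta q y) (fun q => h.uc q) hη
  -- one time
  rcases I.eq_empty_or_nonempty with hI | ⟨t₀, ht₀⟩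
  · obtain ⟨S, W, W', P, hsol, -, -⟩ := hnear (Λ := Empty) (fun _ => 0) 0
    refine ⟨QI K × Empty, inferInstance, nuq (fun _ => 0), S, W, W', P, ?_, hsol,
      fun _ _ => 0, fun _ _ => 0, continuous_const, continuous_const, ?_⟩
    · intro e; exact e.2.elim
    · intro y t ht
      rw [hI] at ht
      exact absurd ht (notMem_empty t)
  obtain ⟨μ', hμ'⟩ : ∃ μ' : Option Λ → ℝ, μ' = ext1 μ := ⟨_, rfl⟩
  obtain ⟨a', hadef⟩ : ∃ a' : Y → QI K × Option Λ → ℝ, a' = fun y =>
    ext0 (fun q => fq q (v y t₀)) (fun q n => a q n y) := ⟨_, rfl⟩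
  obtain ⟨b', hbdef⟩ : ∃ b' : Y → QI K × Option Λ → ℝ, b' = fun y =>
    ext0 (fun _ => 0) (fun q n => b q n y) := ⟨_, rfl⟩
  have ha' : Continuous a' := by
    rw [hadef]
    exact ext0_cont (c := fun y q => fq q (v y t₀)) (fun q => (h.uc q).cont ht₀)
      (fun q n => (hab q n).1)
  have hb' : Continuous b' := by
    rw [hbdef]
    exact ext0_cont (c := fun y q => 0) (fun q => continuous_const) (fun q n => (hab q n).2)
  obtain ⟨R₁, hR₁⟩ := isCompact_univ.exists_bound_of_continuousOn ha'.continuousOn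
  obtain ⟨R₂, hR₂⟩ := isCompact_univ.exists_bound_of_continuousOn hb'.continuousOn
  obtain ⟨S, W, W', P, hsol, -, hcl⟩ := hnear μ' (max R₁ R₂)
  have hsum : ∀ (q : QI K) y, ∀ t ∈ I, |fq q (v y t) - ∑ n, tc (nuq μ' (q, n)) (a' y (q, n))
      (b' y (q, n)) t| ≤ D / (C₁ + 1) := by
    intro q y t ht
    rw [hμ', hadef, hbdef]
    by_cases h0 : (q.1 : Fin 3 → ℤ) = 0
    · rw [ext_sum0 μ _ _ _ q h0 t, fq_const q h0 (h.mean y t ht t₀ ht₀), sub_self, abs_zero]
      exact hη.le
    · rw [ext_sum1 μ _ _ _ q h0 t]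
      exact happ q y t ht
  have hmode : ∀ y, ∀ t ∈ I, ∀ l ∈ Bx K, ∀ i ψ, |cA (v y t) l i * Real.cos ψ
      + cB (v y t) l i * Real.sin ψ - ∑ q : QI K, (∑ n, tc (nuq μ' (q, n)) (a' y (q, n))
        (b' y (q, n)) t) * (dxi q.1 q.2.1 i : ℝ) * IJq q l ψ| ≤ D := by
    intro y t ht l hl i ψ
    rw [← fq_series (h.periodic y t ht) (h.memLp y t ht) (h.divFree y t ht) hl ψ i,
      ← Finset.sum_sub_distrib]
    refine (Finset.abs_sum_le_sum_abs _ _).trans ?_
    have h1 : ∀ q : QI K, |fq q (v y t) * (dxi q.1 q.2.1 i : ℝ) * IJq q l ψ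
        - (∑ n, tc (nuq μ' (q, n)) (a' y (q, n)) (b' y (q, n)) t) * (dxi q.1 q.2.1 i : ℝ)
          * IJq q l ψ| ≤ D / (C₁ + 1) * ((∑ i, |(dxi q.1 q.2.1 i : ℝ)|) * vl) := by
      intro q
      have h2 : |(dxi q.1 q.2.1 i : ℝ)| ≤ ∑ i, |(dxi q.1 q.2.1 i : ℝ)| :=
        Finset.single_le_sum (f := fun i => |(dxi q.1 q.2.1 i : ℝ)|) (fun _ _ => abs_nonneg _)
          (Finset.mem_univ i)
      have h3 : |IJq q l ψ| ≤ vl := prod_int_abs _ _ _ _
      exact abs3 (hsum q y t ht) h2 h3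
    refine (Finset.sum_le_sum fun q _ => h1 q).trans ?_
    rw [← Finset.mul_sum, ← hC₁, div_mul_eq_mul_div, div_le_iff₀ (by positivity)]
    nlinarith
  refine ⟨QI K × Option Λ, inferInstance, nuq μ', S, W, W', P, ?_, hsol, a', b', ha', hb', ?_⟩
  · intro e
    rw [hμ']
    unfold nuq
    split_ifs
    · exact P0
    · obtain ⟨q, n⟩ := e
      rcases n with _ | n
      · exact P0
      · exact hμ n
  · intro y t ht
    refine hcl (a' y) (b' y) ?_ t (v y t) (h.periodic y t ht) (h.memLp y t ht) (h.energy y t ht) ?_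
    · intro e
      have h1 := (norm_le_pi_norm (a' y) e).trans (hR₁ y (mem_univ y))
      have h2 := (norm_le_pi_norm (b' y) e).trans (hR₂ y (mem_univ y))
      rw [Real.norm_eq_abs] at h1 h2
      exact ⟨h1.trans (le_max_left _ _), h2.trans (le_max_right _ _)⟩
    · intro l hl i
      have h1 := hmode y t ht l hl i 0
      have h2 := hmode y t ht l hl i (Real.pi / 2)
      simp only [Real.cos_zero, Real.sin_zero, mul_one, mul_zero, add_zero] at h1
      simp only [Real.cos_pi_div_two, Real.sin_pi_div_two, mul_one, mul_zero, zero_add] at h2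
      exact ⟨h1, h2⟩

end

end Pool.Agent.Zk27.UE
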