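import Pool.Agent.Zk27.UE.PExact

/-!
# Stability of the approximation under perturbations which are small in `L²`
-/

open MeasureTheory Set
open scoped ENNReal NNReal Topology Pointwise ContDiff

set_option autoImplicit false

namespace Pool.Agent.Zk27.UE

open Pool.Agent.H708R2.EulerSign Pool.Agent.H708R2.EulerModes
open Pool.Agent.R739.ET (en_deriv_le')

/-- the growth of the distance to a classical solution -/
theorem Sol.stab {F : ℝ → V → V} {P : V → ℝ} (h : Sol F P) {T : ℝ} {w : ℝ → V → V}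
    {q : ℝ → V → ℝ} (hw : IsClassicalSolution (Ico 0 T) w q) {K : ℝ}
    (hK : ∀ t ∈ Ico 0 T, ∀ x i j, |grad (F t) x i j| ≤ K) :
    ∀ t ∈ Ico 0 T, en w F t ≤ en w F 0 * Real.exp (6 * K * t) := by
  have hj : ContDiff ℝ 1 (fun z : ℝ × V => F z.1 z.2) := h.smooth.of_le (by exact_mod_cast le_top)
  have hcont := en_continuousOn hw hj
  intro t ht
  have h0 : (0 : ℝ) ∈ Ico 0 T := ⟨le_rfl, ht.1.trans_lt ht.2⟩
  have hanti : AntitoneOn (fun s => en w F s * Real.exp (-(6 * K) * s)) (Ico 0 T) := by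
    have hder : ∀ s ∈ interior (Ico 0 T), HasDerivAt
        (fun s => en w F s * Real.exp (-(6 * K) * s))
        ((∫ x in Dom, dS w F s x) * Real.exp (-(6 * K) * s)
          + en w F s * (Real.exp (-(6 * K) * s) * (-(6 * K) * 1))) s := by
      intro s hs
      rw [interior_Ico] at hs
      exact (en_hasDerivAt hw hj hs).mul (((hasDerivAt_id s).const_mul (-(6 * K))).exp)
    refine antitoneOn_of_deriv_nonpos (convex_Ico _ _) ?_ ?_ ?_
    · exact hcont.mul (by fun_prop)
    · intro s hs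
      exact (hder s hs).differentiableAt.differentiableWithinAt
    · intro s hs
      rw [(hder s hs).deriv]
      rw [interior_Ico] at hs
      have h1 := (abs_le.1 (en_deriv_le' (p := fun _ => P) hw hj (fun t => h.per t)
        (fun t x => h.div t x) (fun _ => h.psmooth.of_le (by exact_mod_cast le_top))
        (fun _ => h.pper) (fun t x i => by rw [sum_mul_clm]; exact h.mom t x i) hK hs)).2
      have h2 : 0 < Real.exp (-(6 * K) * s) := Real.exp_pos _
      nlinarith
  have h1 := hanti h0 ht ht.1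
  simp only [mul_zero, Real.exp_zero, mul_one] at h1
  have h2 : Real.exp (6 * K * t) * Real.exp (-(6 * K) * t) = 1 := by
    rw [← Real.exp_add]
    have : 6 * K * t + -(6 * K) * t = 0 := by ring
    rw [this, Real.exp_zero]
  have h3 : 0 < Real.exp (6 * K * t) := Real.exp_pos _
  calc en w F t = Real.exp (6 * K * t) * (en w F t * Real.exp (-(6 * K) * t)) := by
        rw [mul_left_comm, h2, mul_one]
    _ ≤ Real.exp (6 * K * t) * en w F 0 := by gcongr
    _ = en w F 0 * Real.exp (6 * K * t) := by ring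

/-- the gradients of smooth periodic fields are bounded -/
lemma grad_bdd {f : V → V} (hf : ContDiff ℝ 1 f) (hp : Periodic3 f) :
    ∃ C : ℝ, 0 ≤ C ∧ ∀ x i j, |fderiv ℝ f x (Pi.single j 1) i| ≤ C := by
  have hcont : Continuous (fun x : V => ‖fderiv ℝ f x‖) :=
    (hf.continuous_fderiv one_ne_zero).norm
  obtain ⟨C, hC⟩ := dom_bdd.isCompact_closure.exists_bound_of_continuousOn hcont.continuousOn
  have hbd : ∀ x, ‖fderiv ℝ f x‖ ≤ C := by
    intro x
    obtain ⟨g, hg1, -⟩ := dom_exists_unique x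
    have h1 : fderiv ℝ f x = fderiv ℝ f (g +ᵥ x : V) := (lat_invariant hp.fderiv g x).symm
    rw [h1]
    have := hC (g +ᵥ x : V) (subset_closure hg1)
    rwa [norm_norm] at this
  refine ⟨C, (norm_nonneg _).trans (hbd 0), fun x i j => ?_⟩
  have h1 := norm_le_pi_norm (fderiv ℝ f x (Pi.single j 1)) i
  have h2 := (fderiv ℝ f x).le_opNorm (Pi.single j 1)
  have h3 : ‖(Pi.single j (1 : ℝ) : V)‖ ≤ 1 := by
    rw [pi_norm_le_iff_of_nonneg zero_le_one]
    intro k
    by_cases hk : k = j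
    · subst hk; simp
    · simp [hk]
  have h5 : ‖fderiv ℝ f x‖ * ‖(Pi.single j (1 : ℝ) : V)‖ ≤ C * 1 :=
    mul_le_mul (hbd x) h3 (norm_nonneg _) ((norm_nonneg _).trans (hbd x))
  rw [mul_one] at h5
  exact (h1.trans h2).trans h5

section

variable {ι : Type} [Fintype ι] {ν : ι → ℝ} {S : V → V} {W W' : ι → V → V} {P : V → ℝ}

lemma fam_smooth (h : ∀ a b, Sol (fam ν S W W' a b) P) :
    (ContDiff ℝ 1 S ∧ Periodic3 S) ∧ ∀ e, (ContDiff ℝ 1 (W e) ∧ Periodic3 (W e)) ∧
      (ContDiff ℝ 1 (W' e) ∧ Periodic3 (W' e)) := by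
  classical
  have hsm : ∀ a b, ContDiff ℝ 1 (fam ν S W W' a b 0) ∧ Periodic3 (fam ν S W W' a b 0) :=
    fun a b => ⟨(slice (h a b).smooth 0).of_le (by exact_mod_cast le_top), (h a b).per 0⟩
  have e0 : fam ν S W W' 0 0 0 = S := by
    ext1 x
    unfold fam
    simp [tc, ts]
  have hS : ContDiff ℝ 1 S ∧ Periodic3 S := by
    have := hsm 0 0
    rwa [e0] at this
  have e1 : ∀ e, W e = fun x => fam ν S W W' (Pi.single e 1) 0 0 x - S x := by
    intro e
    ext1 x
    unfold fam
    rw [add_sub_cancel_left, Finset.sum_eq_single e]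
    · simp [tc, ts]
    · intro e' _ he
      simp [tc, ts, he]
    · intro hh; exact absurd (Finset.mem_univ _) hh
  have e2 : ∀ e, W' e = fun x => fam ν S W W' 0 (Pi.single e 1) 0 x - S x := by
    intro e
    ext1 x
    unfold fam
    rw [add_sub_cancel_left, Finset.sum_eq_single e]
    · simp [tc, ts]
    · intro e' _ he
      simp [tc, ts, he]
    · intro hh; exact absurd (Finset.mem_univ _) hh
  refine ⟨hS, fun e => ⟨?_, ?_⟩⟩
  · rw [e1 e]
    refine ⟨(hsm _ _).1.sub hS.1, fun i x => ?_⟩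
    simp only
    rw [(hsm _ _).2 i x, hS.2 i x]
  · rw [e2 e]
    refine ⟨(hsm _ _).1.sub hS.1, fun i x => ?_⟩
    simp only
    rw [(hsm _ _).2 i x, hS.2 i x]

/-- the gradients in a family are bounded uniformly in time -/
lemma fam_grad (h : ∀ a b, Sol (fam ν S W W' a b) P) (R : ℝ) :
    ∃ K : ℝ, 0 ≤ K ∧ ∀ a b, (∀ e, |a e| ≤ R ∧ |b e| ≤ R) → ∀ t x i j,
      |grad (fam ν S W W' a b t) x i j| ≤ K := by
  obtain ⟨⟨hS, hSp⟩, hW⟩ := fam_smooth h
  obtain ⟨C₀, hC₀0, hC₀⟩ := grad_bdd hS hSp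
  choose C₁ hC₁0 hC₁ using fun e => grad_bdd (hW e).1.1 (hW e).1.2
  choose C₂ hC₂0 hC₂ using fun e => grad_bdd (hW e).2.1 (hW e).2.2
  refine ⟨C₀ + ∑ e, 2 * |R| * (C₁ e + C₂ e), ?_, fun a b hab t x i j => ?_⟩
  · have : 0 ≤ ∑ e, 2 * |R| * (C₁ e + C₂ e) := Finset.sum_nonneg fun e _ => by
      have := hC₁0 e
      have := hC₂0 e
      positivity
    linarith
  · have hd : HasFDerivAt (fam ν S W W' a b t) (fderiv ℝ S x + ∑ e,
        (tc (ν e) (a e) (b e) t • fderiv ℝ (W e) x + ts (ν e) (a e) (b e) t • fderiv ℝ (W' e) x))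
        x := by
      unfold fam
      refine (hS.differentiable one_ne_zero x).hasFDerivAt.add ?_
      refine HasFDerivAt.fun_sum fun e _ => ?_
      exact (((hW e).1.1.differentiable one_ne_zero x).hasFDerivAt.const_smul
        (tc (ν e) (a e) (b e) t)).add
        (((hW e).2.1.differentiable one_ne_zero x).hasFDerivAt.const_smul
        (ts (ν e) (a e) (b e) t))
    have e : grad (fam ν S W W' a b t) x i j
        = fderiv ℝ (fam ν S W W' a b t) x (Pi.single j 1) i := rfl
    rw [e, hd.fderiv]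
    simp only [add_apply, sum_apply, smul_apply, Pi.add_apply, Finset.sum_apply, Pi.smul_apply,
      smul_eq_mul]
    refine (abs_add_le _ _).trans (add_le_add (hC₀ x i j) ?_)
    refine (Finset.abs_sum_le_sum_abs _ _).trans (Finset.sum_le_sum fun e _ => ?_)
    refine (abs_add_le _ _).trans ?_
    rw [abs_mul, abs_mul]
    obtain ⟨h3, h4⟩ := hab e
    have h5 : |tc (ν e) (a e) (b e) t| ≤ 2 * |R| :=
      (tc_abs h3 h4).trans (by have := le_abs_self R; linarith)
    have h6 : |ts (ν e) (a e) (b e) t| ≤ 2 * |R| :=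
      (ts_abs h3 h4).trans (by have := le_abs_self R; linarith)
    have h7 := hC₁ e x i j
    have h8 := hC₂ e x i j
    calc |tc (ν e) (a e) (b e) t| * |fderiv ℝ (W e) x (Pi.single j 1) i|
          + |ts (ν e) (a e) (b e) t| * |fderiv ℝ (W' e) x (Pi.single j 1) i|
        ≤ 2 * |R| * C₁ e + 2 * |R| * C₂ e := by gcongr
      _ = 2 * |R| * (C₁ e + C₂ e) := by ring

end

/-- the triangle inequality -/
lemma hneg_tri {w u h : V → V} (wp : Periodic3 w) (wc : Continuous w) (up : Periodic3 u)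
    (uc : Continuous u) (h2 : MemLp h 2 (volume.restrict cube)) {s ε η : ℝ}
    (hs : 0 ≤ s) (h1 : HNegClose s (ε / 2) u h)
    (hwu : ∑ i, ∫ x in Dom, (w x i - u x i) ^ 2 ≤ η) (hη : vl * η ≤ ε ^ 2 / 4) :
    HNegClose s ε w h := by
  have hfin : IsFiniteMeasure (volume.restrict cube : Measure V) := cube_fin
  have hv := vl_pos
  have ic : ∀ {f : V → V}, Continuous f → ∀ i,
      Integrable (fun x => f x i) (volume.restrict cube) := by
    intro f hf i
    exact (memLp_comp (memLp_cube hf) i).integrable (by norm_num)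
  have ih : ∀ i, Integrable (fun x => h x i) (volume.restrict cube) := fun i =>
    (memLp_comp h2 i).integrable (by norm_num)
  have mulc : ∀ (g : V → ℝ) (l : Fin 3 → ℤ), Integrable g (volume.restrict cube) →
      Integrable (fun x => g x * Real.cos (ph l x)) (volume.restrict cube) := by
    intro g l hg
    refine hg.mul_bdd (c := 1)
      (Real.continuous_cos.comp (ph_contDiff l).continuous).aestronglyMeasurable
      (Filter.Eventually.of_forall fun x => ?_)
    exact Real.abs_cos_le_one _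
  have muls : ∀ (g : V → ℝ) (l : Fin 3 → ℤ), Integrable g (volume.restrict cube) →
      Integrable (fun x => g x * Real.sin (ph l x)) (volume.restrict cube) := by
    intro g l hg
    refine hg.mul_bdd (c := 1)
      (Real.continuous_sin.comp (ph_contDiff l).continuous).aestronglyMeasurable
      (Filter.Eventually.of_forall fun x => ?_)
    exact Real.abs_sin_le_one _
  have ec : ∀ l i, cosCoeff l (fun x => w x i - h x i)
      = cosCoeff l (fun x => u x i - h x i) + cosCoeff l (fun x => w x i - u x i) := by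
    intro l i
    have i1 := mulc (fun x => u x i - h x i) l ((ic uc i).sub (ih i))
    have i2 := mulc (fun x => w x i - u x i) l ((ic wc i).sub (ic uc i))
    unfold cosCoeff
    rw [← integral_add i1 i2]
    congr 1
    ext1 x
    ring
  have es : ∀ l i, sinCoeff l (fun x => w x i - h x i)
      = sinCoeff l (fun x => u x i - h x i) + sinCoeff l (fun x => w x i - u x i) := by
    intro l i
    have i1 := muls (fun x => u x i - h x i) l ((ic uc i).sub (ih i))
    have i2 := muls (fun x => w x i - u x i) l ((ic wc i).sub (ic uc i))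
    unfold sinCoeff
    rw [← integral_add i1 i2]
    congr 1
    ext1 x
    ring
  intro S
  have hwt : ∀ l : Fin 3 → ℤ, 0 ≤ (1 + ∑ i, (l i : ℝ) ^ 2) ^ (-s) ∧
      (1 + ∑ i, (l i : ℝ) ^ 2) ^ (-s) ≤ 1 := by
    intro l
    have h0 : 0 ≤ ∑ i, (l i : ℝ) ^ 2 := Finset.sum_nonneg fun i _ => sq_nonneg _
    exact ⟨by positivity, Real.rpow_le_one_of_one_le_of_nonpos (by linarith) (by linarith)⟩
  have hterm : ∀ l ∈ S, (1 + ∑ i, (l i : ℝ) ^ 2) ^ (-s) *
      ∑ i, (cosCoeff l (fun x => w x i - h x i) ^ 2 + sinCoeff l (fun x => w x i - h x i) ^ 2)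
      ≤ 2 * ((1 + ∑ i, (l i : ℝ) ^ 2) ^ (-s) *
        ∑ i, (cosCoeff l (fun x => u x i - h x i) ^ 2 + sinCoeff l (fun x => u x i - h x i) ^ 2))
        + 2 * ∑ i, (cosCoeff l (fun x => w x i - u x i) ^ 2
          + sinCoeff l (fun x => w x i - u x i) ^ 2) := by
    intro l _
    obtain ⟨w0, w1⟩ := hwt l
    have ha : ∑ i, (cosCoeff l (fun x => w x i - h x i) ^ 2
        + sinCoeff l (fun x => w x i - h x i) ^ 2)
        ≤ 2 * ∑ i, (cosCoeff l (fun x => u x i - h x i) ^ 2
          + sinCoeff l (fun x => u x i - h x i) ^ 2)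
        + 2 * ∑ i, (cosCoeff l (fun x => w x i - u x i) ^ 2
          + sinCoeff l (fun x => w x i - u x i) ^ 2) := by
      rw [Finset.mul_sum, Finset.mul_sum, ← Finset.sum_add_distrib]
      refine Finset.sum_le_sum fun i _ => ?_
      rw [ec, es]
      nlinarith [sq_nonneg (cosCoeff l (fun x => u x i - h x i)
        - cosCoeff l (fun x => w x i - u x i)),
        sq_nonneg (sinCoeff l (fun x => u x i - h x i) - sinCoeff l (fun x => w x i - u x i))]
    have hb : 0 ≤ ∑ i, (cosCoeff l (fun x => w x i - u x i) ^ 2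
          + sinCoeff l (fun x => w x i - u x i) ^ 2) :=
      Finset.sum_nonneg fun i _ => by positivity
    calc (1 + ∑ i, (l i : ℝ) ^ 2) ^ (-s) * ∑ i, (cosCoeff l (fun x => w x i - h x i) ^ 2
          + sinCoeff l (fun x => w x i - h x i) ^ 2)
        ≤ (1 + ∑ i, (l i : ℝ) ^ 2) ^ (-s) * (2 * ∑ i, (cosCoeff l (fun x => u x i - h x i) ^ 2
          + sinCoeff l (fun x => u x i - h x i) ^ 2)
        + 2 * ∑ i, (cosCoeff l (fun x => w x i - u x i) ^ 2
          + sinCoeff l (fun x => w x i - u x i) ^ 2)) := by gcongr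
      _ = 2 * ((1 + ∑ i, (l i : ℝ) ^ 2) ^ (-s) * ∑ i, (cosCoeff l (fun x => u x i - h x i) ^ 2
          + sinCoeff l (fun x => u x i - h x i) ^ 2))
        + 2 * ((1 + ∑ i, (l i : ℝ) ^ 2) ^ (-s) * ∑ i, (cosCoeff l (fun x => w x i - u x i) ^ 2
          + sinCoeff l (fun x => w x i - u x i) ^ 2)) := by ring
      _ ≤ _ := by
        have : (1 + ∑ i, (l i : ℝ) ^ 2) ^ (-s) * ∑ i, (cosCoeff l (fun x => w x i - u x i) ^ 2
          + sinCoeff l (fun x => w x i - u x i) ^ 2) ≤ 1 * ∑ i,
          (cosCoeff l (fun x => w x i - u x i) ^ 2 + sinCoeff l (fun x => w x i - u x i) ^ 2) :=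
          mul_le_mul_of_nonneg_right w1 hb
        linarith
  refine (Finset.sum_le_sum hterm).trans ?_
  rw [Finset.sum_add_distrib, ← Finset.mul_sum, ← Finset.mul_sum]
  have h3 := h1 S
  have h4 : ∑ l ∈ S, ∑ i, (cosCoeff l (fun x => w x i - u x i) ^ 2
      + sinCoeff l (fun x => w x i - u x i) ^ 2) ≤ vl * η := by
    rw [Finset.sum_comm]
    have hb : ∀ i, ∑ l ∈ S, (cosCoeff l (fun x => w x i - u x i) ^ 2
        + sinCoeff l (fun x => w x i - u x i) ^ 2) ≤ vl * ∫ x in Dom, (w x i - u x i) ^ 2 := by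
      intro i
      have hper : Periodic3 (fun x => w x i - u x i) := by
        intro j x; simp only; rw [wp j x, up j x]
      have hc : Continuous (fun x => w x - u x) := wc.sub uc
      have hpp : Periodic3 (fun x => w x - u x) := by
        intro j x; simp only; rw [wp j x, up j x]
      have hm := memLp_comp (memLp_dom hpp (memLp_cube hc)) i
      have h5 := bessel (g := fun x => w x i - u x i) hm S
      simp only [cosCoeff_eq hper, sinCoeff_eq hper]
      exact h5
    calc ∑ i, ∑ l ∈ S, (cosCoeff l (fun x => w x i - u x i) ^ 2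
        + sinCoeff l (fun x => w x i - u x i) ^ 2)
        ≤ ∑ i, vl * ∫ x in Dom, (w x i - u x i) ^ 2 := Finset.sum_le_sum fun i _ => hb i
      _ = vl * ∑ i, ∫ x in Dom, (w x i - u x i) ^ 2 := by rw [Finset.mul_sum]
      _ ≤ vl * η := by gcongr
  nlinarith

lemma en_eq {w u : ℝ → V → V} {t : ℝ} (wp : Periodic3 (w t)) (wc : Continuous (w t))
    (up : Periodic3 (u t)) (uc : Continuous (u t)) :
    en w u t = ∑ i, ∫ x in Dom, (w t x i - u t x i) ^ 2 := by
  have hint : ∀ i ∈ (Finset.univ : Finset (Fin 3)),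
      Integrable (fun x => (w t x i - u t x i) ^ 2) (volume.restrict Dom) := by
    intro i _
    refine Periodic3.integrableOn ?_
      ((((continuous_apply i).comp wc).sub ((continuous_apply i).comp uc)).pow 2)
    intro j x; simp only; rw [wp j x, up j x]
  rw [← integral_finsetSum _ hint]
  rfl

/-- the approximation is stable under perturbations which are small in `L²` -/
theorem probust {ι : Type} [Fintype ι] {ν : ι → ℝ} {S : V → V} {W W' : ι → V → V} {P : V → ℝ}
    (h : ∀ a b, Sol (fam ν S W W' a b) P) {s ε : ℝ} (hs : 0 ≤ s) (hε : 0 < ε) (R T : ℝ) :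
    ∃ δ : ℝ, 0 < δ ∧ ∀ a b, (∀ e, |a e| ≤ R ∧ |b e| ≤ R) → ∀ (T' : ℝ) (w : ℝ → V → V)
      (q : ℝ → V → ℝ), T' ≤ T → IsClassicalSolution (Ico 0 T') w q →
      ∑ i, ∫ x in Dom, (w 0 x i - fam ν S W W' a b 0 x i) ^ 2 ≤ δ → ∀ t ∈ Ico 0 T',
      ∀ g : V → V, MemLp g 2 (volume.restrict cube) →
        HNegClose s (ε / 2) (fam ν S W W' a b t) g → HNegClose s ε (w t) g := by
  have hv := vl_pos
  obtain ⟨K, hK0, hK⟩ := fam_grad h R
  have hexp := Real.exp_pos (6 * K * T)
  refine ⟨ε ^ 2 / (4 * vl) / Real.exp (6 * K * T), by positivity, ?_⟩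
  intro a b hab T' w q hTT hw h0 t ht g hg2 hclose
  have h0T : (0 : ℝ) ∈ Ico 0 T' := ⟨le_rfl, ht.1.trans_lt ht.2⟩
  have hwc : ∀ t ∈ Ico 0 T', Continuous (w t) := fun t ht =>
    (contDiff_slice hw.contDiffOn_u ht).continuous
  have hwp := hw.periodic_u
  have huc := fun t => ((h a b).diff t).continuous
  have hup := fun t => (h a b).per t
  have hst := (h a b).stab hw (K := K) (fun t _ x i j => hK a b hab t x i j) t ht
  rw [en_eq (hwp t ht) (hwc t ht) (hup t) (huc t), en_eq (hwp 0 h0T) (hwc 0 h0T) (hup 0) (huc 0)]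
    at hst
  refine hneg_tri (hwp t ht) (hwc t ht) (hup t) (huc t) hg2 hs hclose hst ?_
  have h1 : Real.exp (6 * K * t) ≤ Real.exp (6 * K * T) := by
    apply Real.exp_le_exp.2
    have := ht.2.le.trans hTT
    gcongr
  have h2 : 0 ≤ ∑ i, ∫ x in Dom, (w 0 x i - fam ν S W W' a b 0 x i) ^ 2 :=
    Finset.sum_nonneg fun i _ => integral_nonneg fun x => sq_nonneg _
  calc vl * ((∑ i, ∫ x in Dom, (w 0 x i - fam ν S W W' a b 0 x i) ^ 2)
        * Real.exp (6 * K * t))
      ≤ vl * (ε ^ 2 / (4 * vl) / Real.exp (6 * K * T) * Real.exp (6 * K * T)) := by gcongr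
    _ = ε ^ 2 / 4 := by field_simp

end Pool.Agent.Zk27.UE
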