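import Pool.Agent.Zk27.UE.PRobust

/-!
# Linear families of solutions near compact families of curves, with exact modes
-/

open MeasureTheory Set
open scoped ENNReal NNReal Topology Pointwise ContDiff

set_option autoImplicit false

namespace Pool.Agent.Zk27.UE

open Pool.Agent.H708R2.EulerSign Pool.Agent.H708R2.EulerModes

/-- trigonometric polynomials on `I` with given frequencies and with continuous coefficients -/
def TrigF {Y : Type} [TopologicalSpace Y] {m : ℕ} (μ : Fin m → ℝ) (I : Set ℝ)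
    (f : Y → ℝ → ℝ) : Prop :=
  ∃ a b : Y → Fin m → ℝ, Continuous a ∧ Continuous b ∧
    ∀ y, ∀ t ∈ I, f y t = ∑ j, tc (μ j) (a y j) (b y j) t

section

variable {Y : Type} [TopologicalSpace Y] {m : ℕ} {μ : Fin m → ℝ} {I : Set ℝ}

lemma TrigF.add {f g : Y → ℝ → ℝ} (hf : TrigF μ I f) (hg : TrigF μ I g) :
    TrigF μ I (fun y t => f y t + g y t) := by
  obtain ⟨a, b, ha, hb, h⟩ := hf
  obtain ⟨a', b', ha', hb', h'⟩ := hg
  refine ⟨fun y j => a y j + a' y j, fun y j => b y j + b' y j, ?_, ?_, fun y t ht => ?_⟩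
  · exact continuous_pi fun j => ((continuous_apply j).comp ha).add ((continuous_apply j).comp ha')
  · exact continuous_pi fun j => ((continuous_apply j).comp hb).add ((continuous_apply j).comp hb')
  · simp only [tc_add, Finset.sum_add_distrib]
    rw [h y t ht, h' y t ht]

lemma TrigF.const_mul {f : Y → ℝ → ℝ} (hf : TrigF μ I f) (c : ℝ) :
    TrigF μ I (fun y t => c * f y t) := by
  obtain ⟨a, b, ha, hb, h⟩ := hf
  refine ⟨fun y j => c * a y j, fun y j => c * b y j, ?_, ?_, fun y t ht => ?_⟩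
  · exact continuous_pi fun j => continuous_const.mul ((continuous_apply j).comp ha)
  · exact continuous_pi fun j => continuous_const.mul ((continuous_apply j).comp hb)
  · simp only [tc_mul]
    rw [h y t ht, Finset.mul_sum]

lemma TrigF.fq {v : Y → ℝ → V → V} {K K₀ : ℕ}
    (h : ∀ l ∈ Bx K₀, ∀ i, TrigF μ I (fun y t => cA (v y t) l i) ∧
      TrigF μ I (fun y t => cB (v y t) l i)) (q : QI K) (hq : (q.1 : Fin 3 → ℤ) ∈ Bx K₀) :
    TrigF μ I (fun y t => fq q (v y t)) := by
  have h1 : ∀ i, TrigF μ I (fun y t => if q.2.2 then cB (v y t) q.1 i else cA (v y t) q.1 i) := by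
    intro i
    by_cases hq2 : q.2.2 = true
    · simp only [hq2, if_true]; exact (h _ hq i).2
    · simp only [hq2]; exact (h _ hq i).1
  simp only [fq_eq, Fin.sum_univ_three]
  exact (((h1 0).const_mul _).add ((h1 1).const_mul _)).add ((h1 2).const_mul _)

variable [CompactSpace Y] [T2Space Y]

/-- approximation by trigonometric polynomials, exact for given indices -/
theorem papprox' {Q : Type} [Fintype Q] {f : Q → Y → ℝ → ℝ}
    (H1 : ∀ q y, TA (fun _ => True) I (f q y)) (H2 : ∀ q, UC I (f q)) (Ex : Q → Prop)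
    (H3 : ∀ q, Ex q → TrigF μ I (f q)) {η : ℝ} (hη : 0 < η) :
    ∃ (Λ : Type) (_ : Fintype Λ) (μ' : Λ → ℝ) (a b : Q → Λ → Y → ℝ),
      (∀ q n, Continuous (a q n) ∧ Continuous (b q n)) ∧
      (∀ q y, ∀ t ∈ I, |f q y t - ∑ n, tc (μ' n) (a q n y) (b q n y) t| ≤ η) ∧
      ∀ q, Ex q → ∀ y, ∀ t ∈ I, f q y t = ∑ n, tc (μ' n) (a q n y) (b q n y) t := by
  classical
  obtain ⟨Λ, _, μ', a, b, -, hab, happ⟩ := papprox (Y := Y) (Q := Q) (I := I) (f := f)
    (Pμ := fun _ => True) (fun q y => H1 q y) H2 hη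
  have hex : ∀ q, ∃ a' b' : Y → Fin m → ℝ, (Continuous a' ∧ Continuous b') ∧ (Ex q →
      ∀ y, ∀ t ∈ I, f q y t = ∑ j, tc (μ j) (a' y j) (b' y j) t) := by
    intro q
    by_cases h : Ex q
    · obtain ⟨a', b', ha', hb', h'⟩ := H3 q h
      exact ⟨a', b', ⟨ha', hb'⟩, fun _ => h'⟩
    · exact ⟨fun _ _ => 0, fun _ _ => 0, ⟨continuous_const, continuous_const⟩,
        fun h' => absurd h' h⟩
  choose a' b' hab' hex' using hex
  refine ⟨Λ ⊕ Fin m, inferInstance, Sum.elim μ' μ,
    fun q => Sum.elim (fun n y => if Ex q then 0 else a q n y)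
      (fun j y => if Ex q then a' q y j else 0),
    fun q => Sum.elim (fun n y => if Ex q then 0 else b q n y)
      (fun j y => if Ex q then b' q y j else 0), ?_, ?_, ?_⟩
  · intro q n
    by_cases h : Ex q
    · rcases n with n | j
      · simp only [Sum.elim_inl, h, if_true]
        exact ⟨continuous_const, continuous_const⟩
      · simp only [Sum.elim_inr, h, if_true]
        exact ⟨(continuous_apply j).comp (hab' q).1, (continuous_apply j).comp (hab' q).2⟩
    · rcases n with n | j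
      · simp only [Sum.elim_inl, h, if_false]
        exact hab q n
      · simp only [Sum.elim_inr, h, if_false]
        exact ⟨continuous_const, continuous_const⟩
  · intro q y t ht
    by_cases h : Ex q
    · rw [Fintype.sum_sum_type]
      simp only [Sum.elim_inl, Sum.elim_inr, h, if_true, tc_zero, Finset.sum_const_zero, zero_add]
      rw [← hex' q h y t ht, sub_self, abs_zero]
      exact hη.le
    · rw [Fintype.sum_sum_type]
      simp only [Sum.elim_inl, Sum.elim_inr, h, if_false, tc_zero, Finset.sum_const_zero, add_zero]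
      exact happ q y t ht
  · intro q h y t ht
    rw [Fintype.sum_sum_type]
    simp only [Sum.elim_inl, Sum.elim_inr, h, if_true, tc_zero, Finset.sum_const_zero, zero_add]
    exact hex' q h y t ht

variable {E : ℝ} {v : Y → ℝ → V → V}

/-- linear families of solutions near compact families of curves -/
theorem pfamily2 (h : PFamily (fun _ => True) I E v) (K₀ : ℕ) {s ε : ℝ} (hs : 1 < s)
    (hε : 0 < ε) (Hex : Prop) (hex : Hex → ∀ l ∈ Bx K₀, ∀ i,
      TrigF μ I (fun y t => cA (v y t) l i) ∧ TrigF μ I (fun y t => cB (v y t) l i)) :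
    ∃ (ι : Type) (_ : Fintype ι) (ν : ι → ℝ) (S : V → V) (W W' : ι → V → V) (P : V → ℝ),
      (∀ a b, Sol (fam ν S W W' a b) P) ∧
      ∃ a b : Y → ι → ℝ, Continuous a ∧ Continuous b ∧
        (∀ y, ∀ t ∈ I, HNegClose s ε (fam ν S W W' (a y) (b y) t) (v y t)) ∧
        (Hex → ∀ y, ∀ t ∈ I, SameModes K₀ (fam ν S W W' (a y) (b y) t) (v y t)) := by
  classical
  obtain ⟨K, D, hK, hD, hnear⟩ := pnear (E := E) hs hε K₀
  have hv := vl_pos
  set C₁ : ℝ := ∑ q : QI K, (∑ i, |(dxi q.1 q.2.1 i : ℝ)|) * vl with hC₁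
  have hC₁0 : 0 ≤ C₁ := Finset.sum_nonneg fun q _ => by positivity
  have hη : 0 < D / (C₁ + 1) := by positivity
  obtain ⟨Λ, _, μ₁, a, b, hab, happ, hexact⟩ := papprox' (Y := Y) (Q := QI K) (I := I) (μ := μ)
    (f := fun q y t => fq q (v y t)) (fun q y => h.ta q y) (fun q => h.uc q)
    (fun q => Hex ∧ (q.1 : Fin 3 → ℤ) ∈ Bx K₀) (fun q hq => TrigF.fq (hex hq.1) q hq.2) hη
  rcases I.eq_empty_or_nonempty with hI | ⟨t₀, ht₀⟩
  · obtain ⟨S, W, W', P, hsol, -, -⟩ := hnear (Λ := Empty) (fun _ => 0) 0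
    refine ⟨QI K × Empty, inferInstance, nuq (fun _ => 0), S, W, W', P, hsol,
      fun _ _ => 0, fun _ _ => 0, continuous_const, continuous_const, ?_, ?_⟩
    · intro y t ht
      rw [hI] at ht
      exact absurd ht (notMem_empty t)
    · intro _ y t ht
      rw [hI] at ht
      exact absurd ht (notMem_empty t)
  obtain ⟨μ', hμ'⟩ : ∃ μ' : Option Λ → ℝ, μ' = ext1 μ₁ := ⟨_, rfl⟩
  obtain ⟨a', hadef⟩ : ∃ a' : Y → QI K × Option Λ → ℝ, a' = fun y =>
    ext0 (fun q => fq q (v y t₀)) (fun q n => a q n y) := ⟨_, rfl⟩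
  obtain ⟨b', hbdef⟩ : ∃ b' : Y → QI K × Option Λ → ℝ, b' = fun y =>
    ext0 (fun _ => 0) (fun q n => b q n y) := ⟨_, rfl⟩
  have ha' : Continuous a' := by
    rw [hadef]
    exact ext0_cont (c := fun y q => fq q (v y t₀)) (fun q => (h.uc q).cont ht₀)
      (fun q n => (hab q n).1)
  have hb' : Continuous b' := by
    rw [hbdef]
    exact ext0_cont (c := fun y q => 0) (fun q => continuous_const) (fun q n => (hab q n).2)
  obtain ⟨R₁, hR₁⟩ := isCompact_univ.exists_bound_of_continuousOn ha'.continuousOn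
  obtain ⟨R₂, hR₂⟩ := isCompact_univ.exists_bound_of_continuousOn hb'.continuousOn
  obtain ⟨S, W, W', P, hsol, hm, hcl⟩ := hnear μ' (max R₁ R₂)
  have hsum0 : ∀ (q : QI K) y, ∀ t ∈ I, (q.1 : Fin 3 → ℤ) = 0 →
      ∑ n, tc (nuq μ' (q, n)) (a' y (q, n)) (b' y (q, n)) t = fq q (v y t) := by
    intro q y t ht h0
    rw [hμ', hadef, hbdef, ext_sum0 μ₁ _ _ _ q h0 t, fq_const q h0 (h.mean y t ht t₀ ht₀)]
  have hsum1 : ∀ (q : QI K) y t, (q.1 : Fin 3 → ℤ) ≠ 0 →
      ∑ n, tc (nuq μ' (q, n)) (a' y (q, n)) (b' y (q, n)) t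
        = ∑ n, tc (μ₁ n) (a q n y) (b q n y) t := by
    intro q y t h0
    rw [hμ', hadef, hbdef, ext_sum1 μ₁ _ _ _ q h0 t]
  have hsum : ∀ (q : QI K) y, ∀ t ∈ I, |fq q (v y t) - ∑ n, tc (nuq μ' (q, n)) (a' y (q, n))
      (b' y (q, n)) t| ≤ D / (C₁ + 1) := by
    intro q y t ht
    by_cases h0 : (q.1 : Fin 3 → ℤ) = 0
    · rw [hsum0 q y t ht h0, sub_self, abs_zero]
      exact hη.le
    · rw [hsum1 q y t h0]
      exact happ q y t ht
  have hmode : ∀ y, ∀ t ∈ I, ∀ l ∈ Bx K, ∀ i ψ, |cA (v y t) l i * Real.cos ψ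
      + cB (v y t) l i * Real.sin ψ - ∑ q : QI K, (∑ n, tc (nuq μ' (q, n)) (a' y (q, n))
        (b' y (q, n)) t) * (dxi q.1 q.2.1 i : ℝ) * IJq q l ψ| ≤ D := by
    intro y t ht l hl i ψ
    rw [← fq_series (h.periodic y t ht) (h.memLp y t ht) (h.divFree y t ht) hl ψ i,
      ← Finset.sum_sub_distrib]
    refine (Finset.abs_sum_le_sum_abs _ _).trans ?_
    have h1 : ∀ q : QI K, |fq q (v y t) * (dxi q.1 q.2.1 i : ℝ) * IJq q l ψ
        - (∑ n, tc (nuq μ' (q, n)) (a' y (q, n)) (b' y (q, n)) t) * (dxi q.1 q.2.1 i : ℝ)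
          * IJq q l ψ| ≤ D / (C₁ + 1) * ((∑ i, |(dxi q.1 q.2.1 i : ℝ)|) * vl) := by
      intro q
      have h2 : |(dxi q.1 q.2.1 i : ℝ)| ≤ ∑ i, |(dxi q.1 q.2.1 i : ℝ)| :=
        Finset.single_le_sum (f := fun i => |(dxi q.1 q.2.1 i : ℝ)|) (fun _ _ => abs_nonneg _)
          (Finset.mem_univ i)
      have h3 : |IJq q l ψ| ≤ vl := prod_int_abs _ _ _ _
      exact abs3 (hsum q y t ht) h2 h3
    refine (Finset.sum_le_sum fun q _ => h1 q).trans ?_
    rw [← Finset.mul_sum, ← hC₁, div_mul_eq_mul_div, div_le_iff₀ (by positivity)]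
    nlinarith
  refine ⟨QI K × Option Λ, inferInstance, nuq μ', S, W, W', P, hsol, a', b', ha', hb', ?_, ?_⟩
  · intro y t ht
    refine hcl (a' y) (b' y) ?_ t (v y t) (h.periodic y t ht) (h.memLp y t ht) (h.energy y t ht) ?_
    · intro e
      have h1 := (norm_le_pi_norm (a' y) e).trans (hR₁ y (mem_univ y))
      have h2 := (norm_le_pi_norm (b' y) e).trans (hR₂ y (mem_univ y))
      rw [Real.norm_eq_abs] at h1 h2
      exact ⟨h1.trans (le_max_left _ _), h2.trans (le_max_right _ _)⟩
    · intro l hl i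
      have h1 := hmode y t ht l hl i 0
      have h2 := hmode y t ht l hl i (Real.pi / 2)
      simp only [Real.cos_zero, Real.sin_zero, mul_one, mul_zero, add_zero] at h1
      simp only [Real.cos_pi_div_two, Real.sin_pi_div_two, mul_one, mul_zero, zero_add] at h2
      exact ⟨h1, h2⟩
  · intro hHex y t ht l hl i
    have hl₀ : l ∈ Bx K₀ := by rw [mem_Bx]; exact hl
    have hl' : l ∈ Bx K := by
      rw [mem_Bx]
      intro i
      exact (hl i).trans (by exact_mod_cast hK)
    have hsin : ∀ (l : Fin 3 → ℤ) (x : V), Real.cos (ph l x - Real.pi / 2) = Real.sin (ph l x) :=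
      fun l x => Real.cos_sub_pi_div_two _
    have key : ∀ ψ, ∑ q : QI K, (∑ n, tc (nuq μ' (q, n)) (a' y (q, n))
        (b' y (q, n)) t) * (dxi q.1 q.2.1 i : ℝ) * IJq q l ψ
        = cA (v y t) l i * Real.cos ψ + cB (v y t) l i * Real.sin ψ := by
      intro ψ
      rw [← fq_series (h.periodic y t ht) (h.memLp y t ht) (h.divFree y t ht) hl' ψ i]
      refine Finset.sum_congr rfl fun q _ => ?_
      by_cases h0 : (q.1 : Fin 3 → ℤ) = 0
      · rw [hsum0 q y t ht h0]
      · by_cases h1 : (q.1 : Fin 3 → ℤ) ∈ Bx K₀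
        · rw [hsum1 q y t h0, ← hexact q ⟨hHex, h1⟩ y t ht]
        · -- the frequency is different from `l`
          have h2 : IJq q l ψ = 0 := by
            unfold IJq
            rw [prod_int, if_neg, if_neg]
            · ring
            · intro h3
              apply h1
              have h4 : (q.1 : Fin 3 → ℤ) = -l := eq_neg_of_add_eq_zero_left h3
              rw [h4, mem_Bx]
              intro j
              rw [Pi.neg_apply, abs_neg]
              exact hl j
            · intro h3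
              apply h1
              rw [sub_eq_zero.1 h3]
              exact hl₀
          rw [h2, mul_zero, mul_zero]
    have e1 := hm (a' y) (b' y) t l hl' i 0
    have e2 := hm (a' y) (b' y) t l hl' i (Real.pi / 2)
    rw [key] at e1 e2
    simp only [sub_zero, Real.cos_zero, Real.sin_zero, mul_one, mul_zero, add_zero] at e1
    simp only [hsin, Real.cos_pi_div_two, Real.sin_pi_div_two, mul_one, mul_zero,
      zero_add] at e2
    have hper := (hsol (a' y) (b' y)).per t
    rw [cosCoeff_eq (comp_periodic hper i), cosCoeff_eq (comp_periodic (h.periodic y t ht) i),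
      sinCoeff_eq (comp_periodic hper i), sinCoeff_eq (comp_periodic (h.periodic y t ht) i)]
    exact ⟨e1, e2⟩

end

/-- a shift in time -/
lemma TA.shift {I : Set ℝ} {g : ℝ → ℝ} {c : ℝ} (h : TA (fun _ => True) ((fun t => t + c) '' I)
    (fun t => g (t - c))) : TA (fun _ => True) I g := by
  intro η hη
  obtain ⟨n, μ, a, b, -, h1⟩ := h η hη
  refine ⟨n, μ, fun j => tc (μ j) (a j) (b j) c, fun j => ts (μ j) (a j) (b j) c,
    fun _ => trivial, fun t ht => ?_⟩
  have h2 := h1 (t + c) ⟨t, ht, rfl⟩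
  simp only [add_sub_cancel_right] at h2
  have e : ∀ j, tc (μ j) (a j) (b j) (t + c)
      = tc (μ j) (tc (μ j) (a j) (b j) c) (ts (μ j) (a j) (b j) c) t := by
    intro j
    unfold tc ts
    rw [mul_add, Real.cos_add, Real.sin_add]
    ring
  simp only [← e]
  exact h2

/-- continuous functions on compact sets of times are limits of trigonometric polynomials -/
lemma TA.of_compact {I : Set ℝ} (hI : IsCompact I) {g : ℝ → ℝ} (hg : ContinuousOn g I) :
    TA (fun _ => True) I g := by
  obtain ⟨M, hM⟩ := hI.isBounded.subset_closedBall (0 : ℝ)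
  obtain ⟨G, hG⟩ := ContinuousMap.exists_restrict_eq hI.isClosed
    (⟨I.domRestrict g, continuousOn_iff_continuous_domRestrict.1 hg⟩ : C(I, ℝ))
  have hGg : ∀ t ∈ I, G t = g t := by
    intro t ht
    have := DFunLike.congr_fun hG ⟨t, ht⟩
    exact this
  set T : ℝ := |M| + 1 with hT
  have hT0 : 0 < T := by positivity
  refine TA.shift (c := T) ?_
  intro η hη
  obtain ⟨n, μ, a, b, -, h⟩ := h1_of_cont (T := 2 * T) (by positivity)
    (g := fun t => G (t - T)) (by fun_prop) hη
  refine ⟨n, μ, a, b, fun _ => trivial, ?_⟩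
  rintro _ ⟨t, ht, rfl⟩
  have h1 := hM ht
  rw [Metric.mem_closedBall, dist_zero_right, Real.norm_eq_abs] at h1
  have h2 := h1.trans (le_abs_self M)
  have h3 := abs_le.1 h2
  have h4 := h (t + T) ⟨by linarith [h3.1], by linarith [h3.2]⟩
  simp only [add_sub_cancel_right] at h4 ⊢
  rw [hGg t ht] at h4
  exact h4

/-- jointly continuous families depend continuously on the parameter, uniformly in time -/
lemma UC.of_compact {Y : Type} [TopologicalSpace Y] {I : Set ℝ} (hI : IsCompact I)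
    {f : Y → ℝ → ℝ} (hf : ContinuousOn (fun z : Y × ℝ => f z.1 z.2) (univ ×ˢ I)) : UC I f := by
  intro y₀ η hη
  have hcs : CompactSpace I := isCompact_iff_compactSpace.1 hI
  have h : Continuous (fun z : Y × I => f z.1 z.2 - f y₀ z.2) := by
    have h1 : Continuous (fun z : Y × I => f z.1 z.2) := by
      refine hf.comp_continuous (f := fun z : Y × I => (z.1, (z.2 : ℝ))) ?_ ?_
      · exact continuous_fst.prodMk (continuous_subtype_val.comp continuous_snd)
      · intro z; exact ⟨mem_univ _, z.2.2⟩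
    have h2 : Continuous (fun z : Y × I => f y₀ z.2) := by
      refine hf.comp_continuous (f := fun z : Y × I => (y₀, (z.2 : ℝ))) ?_ ?_
      · exact continuous_const.prodMk (continuous_subtype_val.comp continuous_snd)
      · intro z; exact ⟨mem_univ _, z.2.2⟩
    exact h1.sub h2
  have h3 : ∀ t ∈ (univ : Set I), ∀ᶠ z : Y × I in 𝓝 (y₀, t), |f z.1 z.2 - f y₀ z.2| ≤ η := by
    intro t _
    have h4 : ∀ᶠ z : Y × I in 𝓝 (y₀, t), |f z.1 z.2 - f y₀ z.2| < η := by
      refine h.abs.continuousAt.eventually_lt (continuousAt_const (y := η)) ?_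
      simp [hη]
    exact h4.mono fun z hz => hz.le
  have h5 := isCompact_univ.eventually_forall_of_forall_eventually (x₀ := y₀)
    (P := fun (y : Y) (t : I) => |f y t - f y₀ t| ≤ η) h3
  filter_upwards [h5] with y hy t ht
  exact hy ⟨t, ht⟩ (mem_univ _)

end Pool.Agent.Zk27.UE
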