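import Pool.Agent.Zk27.UE.Atom

/-!
# Existence of solutions in one tube with prescribed low modes
-/

open MeasureTheory Set
open scoped ENNReal NNReal Topology Pointwise ContDiff

set_option autoImplicit false

namespace Pool.Agent.Zk27.UE

open Pool.Agent.H708R2.EulerSign Pool.Agent.H708R2.EulerModes
open Pool.Agent.R739.ET (RP pA pA_rp pA_pos fine_resc periodic_resc)

lemma solve2 {s P Q a b : ℝ} (hs : 1 ≤ s) (hP : 0 < P) :
    ∃ x y : ℝ, x * P + y * Q = a ∧ -(y * s) * P + x / s * Q = b ∧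
      |x| ≤ (|a| + |b|) / P ∧ |y| ≤ (|a| + |b|) / P := by
  have hs0 : 0 < s := by linarith
  have hD : 0 < s ^ 2 * P ^ 2 + Q ^ 2 := by positivity
  have hD' := hD.ne'
  refine ⟨(a * (s ^ 2 * P) + b * (s * Q)) / (s ^ 2 * P ^ 2 + Q ^ 2),
    (a * Q - b * (s * P)) / (s ^ 2 * P ^ 2 + Q ^ 2), ?_, ?_, ?_, ?_⟩
  · field_simp
    ring
  · field_simp
    ring
  · rw [abs_div, abs_of_pos hD, div_le_div_iff₀ hD hP]
    have h1 : |a * (s ^ 2 * P) + b * (s * Q)| ≤ |a| * (s ^ 2 * P) + |b| * (s * |Q|) := by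
      refine (abs_add_le _ _).trans ?_
      rw [abs_mul a, abs_mul b, abs_mul s Q, abs_of_pos (by positivity : 0 < s ^ 2 * P),
        abs_of_pos hs0]
    have h2 : s * |Q| * P ≤ s ^ 2 * P ^ 2 + Q ^ 2 := by
      rw [← sq_abs Q]
      nlinarith [sq_nonneg (s * P - |Q|), mul_pos hs0 hP, abs_nonneg Q]
    have h3 : s ^ 2 * P * P ≤ s ^ 2 * P ^ 2 + Q ^ 2 := by nlinarith [sq_nonneg Q]
    calc |a * (s ^ 2 * P) + b * (s * Q)| * P
        ≤ (|a| * (s ^ 2 * P) + |b| * (s * |Q|)) * P := by gcongr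
      _ = |a| * (s ^ 2 * P * P) + |b| * (s * |Q| * P) := by ring
      _ ≤ |a| * (s ^ 2 * P ^ 2 + Q ^ 2) + |b| * (s ^ 2 * P ^ 2 + Q ^ 2) := by gcongr
      _ = (|a| + |b|) * (s ^ 2 * P ^ 2 + Q ^ 2) := by ring
  · rw [abs_div, abs_of_pos hD, div_le_div_iff₀ hD hP]
    have h1 : |a * Q - b * (s * P)| ≤ |a| * |Q| + |b| * (s * P) := by
      refine (abs_sub _ _).trans ?_
      rw [abs_mul a, abs_mul b, abs_of_pos (mul_pos hs0 hP)]
    have h2 : |Q| * P ≤ s ^ 2 * P ^ 2 + Q ^ 2 := by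
      rw [← sq_abs Q]
      have : P ^ 2 ≤ s ^ 2 * P ^ 2 := by nlinarith [sq_nonneg P, sq_nonneg (s - 1)]
      nlinarith [sq_nonneg (P - |Q|), abs_nonneg Q]
    have h3 : s * P * P ≤ s ^ 2 * P ^ 2 + Q ^ 2 := by
      have : s * P * P ≤ s ^ 2 * P ^ 2 := by
        have h4 : s ≤ s ^ 2 := by nlinarith
        nlinarith [sq_nonneg P]
      nlinarith [sq_nonneg Q]
    calc |a * Q - b * (s * P)| * P
        ≤ (|a| * |Q| + |b| * (s * P)) * P := by gcongr
      _ = |a| * (|Q| * P) + |b| * (s * P * P) := by ring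
      _ ≤ |a| * (s ^ 2 * P ^ 2 + Q ^ 2) + |b| * (s ^ 2 * P ^ 2 + Q ^ 2) := by gcongr
      _ = (|a| + |b|) * (s ^ 2 * P ^ 2 + Q ^ 2) := by ring

lemma one_le_q {ξ : Fin 3 → ℤ} (h : ξ ≠ 0) : 1 ≤ q ξ := by
  have h1 := q_pos h
  have h2 : q ξ = ((ξ 0 ^ 2 + ξ 1 ^ 2 + ξ 2 ^ 2 : ℤ) : ℝ) := by unfold q; push_cast; ring
  rw [h2] at h1 ⊢
  have h3 : 0 < ξ 0 ^ 2 + ξ 1 ^ 2 + ξ 2 ^ 2 := by exact_mod_cast h1
  exact_mod_cast h3

/-- `y sin (y / n) ≥ (2 / π) y² / n` -/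
lemma sin_moment_le {y n : ℝ} (hn : 0 < n) (hy : |y| ≤ n) :
    2 / Real.pi / n * y ^ 2 ≤ y * Real.sin (n⁻¹ * y) := by
  have hpi := Real.pi_gt_three
  have h0 : |n⁻¹ * y| ≤ Real.pi / 2 := by
    rw [abs_mul, abs_of_pos (inv_pos.2 hn)]
    have : n⁻¹ * |y| ≤ 1 := by
      rw [inv_mul_le_iff₀ hn]; linarith
    linarith
  rcases le_total 0 y with h | h
  · have h1 : 0 ≤ n⁻¹ * y := by positivity
    rw [abs_of_nonneg h1] at h0
    have h2 := Real.mul_le_sin h1 h0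
    calc 2 / Real.pi / n * y ^ 2 = y * (2 / Real.pi * (n⁻¹ * y)) := by
          field_simp
      _ ≤ y * Real.sin (n⁻¹ * y) := by gcongr
  · have h1 : 0 ≤ n⁻¹ * (-y) := by
      have : 0 ≤ -y := by linarith
      positivity
    have h0' : n⁻¹ * (-y) ≤ Real.pi / 2 := by
      have := neg_le_abs (n⁻¹ * y)
      linarith
    have h2 := Real.mul_le_sin h1 h0'
    have h3 : Real.sin (n⁻¹ * -y) = -Real.sin (n⁻¹ * y) := by
      rw [mul_neg, Real.sin_neg]
    rw [h3] at h2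
    have hy' : 0 ≤ -y := by linarith
    calc 2 / Real.pi / n * y ^ 2 = (-y) * (2 / Real.pi * (n⁻¹ * (-y))) := by
          field_simp
      _ ≤ (-y) * (-Real.sin (n⁻¹ * y)) := by gcongr
      _ = y * Real.sin (n⁻¹ * y) := by ring

lemma Z_comp_le {z : V} (hz : nr z ≤ 1) (i : Fin 3) : |z i| ≤ 1 := by
  rw [← sq_le_one_iff_abs_le_one]
  have h0 := sq_nonneg (z 0); have h1 := sq_nonneg (z 1); have h2 := sq_nonneg (z 2)
  unfold nr at hz
  fin_cases i
  · simp only [Fin.zero_eta]; linarith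
  · simp only [Fin.mk_one]; linarith
  · simp only [Fin.reduceFinMk]; linarith

theorem exists_rot {ξ k : Fin 3 → ℤ} (hξ : ξ ≠ 0) (hk0 : k ≠ 0) (hk : dt (rv k) (rv ξ) = 0)
    (φ a b ν : ℝ) {c : V} (hc : dt (rv ξ) c = 0) {δ : ℝ} (hδ0 : 0 < δ) (hδ : δ ≤ 1) :
    ∃ C : ℝ, 0 ≤ C ∧ ∃ N₀ : ℕ, ∀ N, N₀ ≤ N →
      ∃ (F : ℝ → V → V) (P : V → ℝ), Atom ξ k φ a b ν c δ N C F P := by
  have hq := q_pos hξ
  have hq1 := one_le_q hξ
  set s : ℝ := Real.sqrt (q ξ) with hs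
  have hs1 : 1 ≤ s := by rw [hs, Real.one_le_sqrt]; exact hq1
  have hs0 : 0 < s := by linarith
  have hs2 : s ^ 2 = q ξ := Real.sq_sqrt hq.le
  have hkξ : dt (rv ξ) (rv k) = 0 := by rw [dt_comm]; exact hk
  obtain ⟨κ, hJκ, hκξ⟩ : ∃ κ, J ξ κ = -rv k ∧ dt (rv ξ) κ = 0 := by
    refine ⟨(q ξ)⁻¹ • J ξ (rv k), ?_, ?_⟩
    · rw [map_smul, JJ ξ _ hkξ, smul_smul, mul_neg, inv_mul_cancel₀ hq.ne', neg_smul, one_smul]
    · rw [dt_smul_right, dt_rv_J, mul_zero]
  have hκ0 : κ ≠ 0 := by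
    intro h
    rw [h, map_zero] at hJκ
    apply hk0
    have : rv k = 0 := by rw [← neg_eq_zero]; exact hJκ.symm
    ext i
    have h1 := congrFun this i
    simp only [rv, Pi.zero_apply] at h1
    exact_mod_cast h1
  have hJκξ : dt (rv ξ) (J ξ κ) = 0 := dt_rv_J ξ κ
  set B : ℝ → ℝ := pA (δ / 2) with hB
  have hBrp : RP (δ / 2) B := pA_rp _
  have hδ2 : δ / 2 ≤ 1 := by linarith
  set I₂ : ℝ := ∫ x in Dom, B (nr (Z ξ c 1 x)) * dt κ (Z ξ c 1 x) ^ 2 with hI₂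
  have hI₂0 : 0 < I₂ := moment_pos hξ hc (by positivity) hδ2 hBrp (fun R => pA_nonneg _ R)
    (fun R hR => pA_pos hR) hκ0 hκξ
  set K₁ : ℝ := |κ 0| + |κ 1| + |κ 2| with hK₁
  set G : ℝ := ((1 + s) * |κ 0| + 2 * |J ξ κ 0|) + ((1 + s) * |κ 1| + 2 * |J ξ κ 1|)
    + ((1 + s) * |κ 2| + 2 * |J ξ κ 2|) with hG
  have hG0 : 0 ≤ G := by positivity
  set Cw : ℝ := (|a * vl| + |b * vl|) * (Real.pi / 2 / I₂) * G with hCw
  have hpi := Real.pi_pos
  have hCw0 : 0 ≤ Cw := by positivity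
  set X : ℝ := |(ξ 0 : ℝ)| + |(ξ 1 : ℝ)| + |(ξ 2 : ℝ)| with hX
  have hX0 : 0 ≤ X := by positivity
  refine ⟨|ν| + Cw * X, by positivity, ⌈K₁⌉₊ + 1, fun N hN => ?_⟩
  have hN0 : 0 < N := by omega
  have hNr : (1 : ℝ) ≤ N := by exact_mod_cast hN0
  have hNr0 : (0 : ℝ) < N := by linarith
  have hKN : K₁ ≤ N := (Nat.le_ceil K₁).trans (by exact_mod_cast (by omega : ⌈K₁⌉₊ ≤ N))
  set κ' : V := (N : ℝ)⁻¹ • κ with hκ'
  have hκ'J : (N : ℝ) • J ξ κ' = -rv k := by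
    rw [hκ', map_smul, smul_smul, mul_inv_cancel₀ hNr0.ne', one_smul, hJκ]
  set P := mu B ξ c κ' κ with hP
  set Q := mu B ξ c κ' (J ξ κ) with hQ
  have hPlow : 2 / Real.pi / N * I₂ ≤ P := by
    rw [hP, hI₂, mu, ← integral_const_mul]
    refine setIntegral_mono_on ?_ ?_ dom_meas fun x _ => ?_
    · refine Integrable.const_mul ?_ _
      refine gz_int (g := fun z => B (nr z) * dt κ z ^ 2) ?_ (fun z hz => ?_) 1
      · exact (hBrp.smooth.continuous.comp (nr_contDiff (n := 0)).continuous).mul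
          ((dt_contDiff κ (n := 0)).continuous.pow 2)
      · rw [hBrp.van _ (hδ2.trans hz), zero_mul]
    · exact gz_int (g2_cont hBrp κ' κ) (g2_van hBrp hδ2 κ' κ) 1
    · set z := Z ξ c 1 x with hz
      by_cases h : nr z ≤ 1
      · have h1 : |dt κ z| ≤ N := (abs_dt_le κ z h).trans hKN
        have h2 := sin_moment_le hNr0 h1
        have h3 : dt κ' z = (N : ℝ)⁻¹ * dt κ z := by rw [hκ', dt_smul_left]
        rw [h3]
        have h4 : 0 ≤ B (nr z) := pA_nonneg _ _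
        calc 2 / Real.pi / N * (B (nr z) * dt κ z ^ 2)
            = B (nr z) * (2 / Real.pi / N * dt κ z ^ 2) := by ring
          _ ≤ B (nr z) * (dt κ z * Real.sin ((N : ℝ)⁻¹ * dt κ z)) := by gcongr
          _ = B (nr z) * dt κ z * Real.sin ((N : ℝ)⁻¹ * dt κ z) := by ring
      · push Not at h
        rw [hBrp.van _ (hδ2.trans h.le)]
        simp
  have hP0 : 0 < P := lt_of_lt_of_le (by positivity) hPlow
  obtain ⟨x, y, e1, e2, bx, by'⟩ := solve2 (s := s) (P := P) (Q := Q) (a := a * vl) (b := b * vl)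
    hs1 hP0
  set R : ℝ := (|a * vl| + |b * vl|) / P with hR
  have hR0 : 0 ≤ R := by positivity
  have hRle : R ≤ (|a * vl| + |b * vl|) * (Real.pi / 2 / I₂) * N := by
    rw [hR, div_le_iff₀ hP0]
    have h1 : 1 ≤ Real.pi / 2 / I₂ * N * P := by
      calc (1 : ℝ) = Real.pi / 2 / I₂ * N * (2 / Real.pi / N * I₂) := by
            field_simp
        _ ≤ Real.pi / 2 / I₂ * N * P := by gcongr
    have h2 : 0 ≤ |a * vl| + |b * vl| := by positivity
    calc |a * vl| + |b * vl| = (|a * vl| + |b * vl|) * 1 := by ring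
      _ ≤ (|a * vl| + |b * vl|) * (Real.pi / 2 / I₂ * N * P) := by gcongr
      _ = _ := by ring
  clear_value R P Q
  obtain ⟨r₀, hr₀⟩ : ∃ r₀ : V, r₀ = x • κ + y • J ξ κ := ⟨_, rfl⟩
  have hr₀ξ : dt (rv ξ) r₀ = 0 := by
    rw [hr₀, dt_add_right, dt_smul_right, dt_smul_right, hκξ, hJκξ]; ring
  have hJr₀ : J ξ r₀ = x • J ξ κ + (-(y * q ξ)) • κ := by
    rw [hr₀, map_add, map_smul, map_smul, JJ ξ κ hκξ, smul_smul]
    congr 2; ring
  have hr1 : r1 ξ r₀ = (-(y * s)) • κ + (x / s) • J ξ κ := by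
    unfold r1
    rw [hJr₀, ← hs, smul_add, smul_smul, smul_smul, add_comm]
    congr 2
    · rw [← hs2]; field_simp
    · field_simp
  have hm0 : mu B ξ c κ' r₀ = a * vl := by
    rw [hr₀, mu_lin hBrp hδ2, ← hP, ← hQ]; exact e1
  have hm1 : mu B ξ c κ' (r1 ξ r₀) = b * vl := by
    rw [hr1, mu_lin hBrp hδ2, ← hP, ← hQ]; exact e2
  have hmt : ∀ t, mu B ξ c κ' (rt ξ r₀ ν t)
      = (a * Real.cos (ν * t) + b * Real.sin (ν * t)) * vl := by
    intro t
    unfold rt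
    rw [mu_lin hBrp hδ2, hm0, hm1]; ring
  have hAB : ∀ R, B R = 0 ∨ Ac δ R = 1 := by
    intro R
    rcases le_total R (δ / 2) with h | h
    · right; exact Ac_one hδ0 h
    · left; exact hBrp.van R h
  have hax := wR_axial (A := Ac δ) (ν := ν) (r₀ := r₀) (κ := κ') φ c hξ hN0 hk hr₀ξ hκ'J
    (by linarith : δ / 2 ≤ δ) hδ hBrp hAB
  have hAcrp := Ac_rp hδ0
  have hbr : ∀ i, |r₀ i| ≤ R * (|κ i| + |J ξ κ i|) := by
    intro i
    rw [hr₀]
    simp only [Pi.add_apply, Pi.smul_apply, smul_eq_mul]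
    refine (abs_add_le _ _).trans ?_
    rw [abs_mul, abs_mul]
    have h1 := mul_le_mul_of_nonneg_right bx (abs_nonneg (κ i))
    have h2 := mul_le_mul_of_nonneg_right by' (abs_nonneg (J ξ κ i))
    linarith
  have hbr1 : ∀ i, |r1 ξ r₀ i| ≤ R * (s * |κ i| + |J ξ κ i|) := by
    intro i
    rw [hr1]
    simp only [Pi.add_apply, Pi.smul_apply, smul_eq_mul]
    refine (abs_add_le _ _).trans ?_
    rw [abs_mul, abs_mul, abs_neg, abs_mul, abs_div, abs_of_pos hs0]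
    have h1 := mul_le_mul_of_nonneg_right by' (mul_nonneg hs0.le (abs_nonneg (κ i)))
    have h3 : |x| / s ≤ R := (div_le_self (abs_nonneg x) hs1).trans bx
    have h2 := mul_le_mul_of_nonneg_right h3 (abs_nonneg (J ξ κ i))
    linarith
  have hbrt : ∀ t i, |rt ξ r₀ ν t i| ≤ R * ((1 + s) * |κ i| + 2 * |J ξ κ i|) := by
    intro t i
    unfold rt
    simp only [Pi.add_apply, Pi.smul_apply, smul_eq_mul]
    refine (abs_add_le _ _).trans ?_
    rw [abs_mul, abs_mul]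
    have h1 : |Real.cos (ν * t)| * |r₀ i| ≤ 1 * |r₀ i| :=
      mul_le_mul_of_nonneg_right (Real.abs_cos_le_one _) (abs_nonneg _)
    have h2 : |Real.sin (ν * t)| * |r1 ξ r₀ i| ≤ 1 * |r1 ξ r₀ i| :=
      mul_le_mul_of_nonneg_right (Real.abs_sin_le_one _) (abs_nonneg _)
    have h3 := hbr i
    have h4 := hbr1 i
    linarith
  have hbw : ∀ t x', |wR B ξ k φ κ' r₀ c N ν t x'| ≤ Cw * N := by
    intro t x'
    unfold wR Fw
    set z := Z ξ c N x' with hz
    by_cases h : nr z ≤ 1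
    · rw [abs_neg, abs_mul, abs_mul]
      have h1 : |B (nr z)| ≤ 1 := pA_abs _ _
      have h2 := Real.abs_sin_le_one (ph k x' - φ - dt κ' z)
      have h3 := abs_dt_le (rt ξ r₀ ν t) z h
      have h4 : |dt (rt ξ r₀ ν t) z| ≤ R * G := by
        have := hbrt t 0
        have := hbrt t 1
        have := hbrt t 2
        rw [hG]
        linarith
      calc |B (nr z)| * |dt (rt ξ r₀ ν t) z| * |Real.sin (ph k x' - φ - dt κ' z)|
          ≤ 1 * (R * G) * 1 := by gcongr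
        _ = R * G := by ring
        _ ≤ (|a * vl| + |b * vl|) * (Real.pi / 2 / I₂) * N * G := by gcongr
        _ = Cw * N := by rw [hCw]; ring
    · push Not at h
      rw [hBrp.van _ (hδ2.trans h.le)]
      simp only [zero_mul, neg_zero, abs_zero]
      positivity
  refine ⟨tubeU (Ac δ) (ν / (N * s)) ξ c N (wR B ξ k φ κ' r₀ c N ν), PS δ (Ac δ) (ν / (N * s)) ξ c N,
    tube_sol hAcrp hδ hax, ?_, ?_, ?_, ?_⟩
  · intro t x' hx
    unfold tubeU
    rw [hax.supp t x' hx, Sw_eq, hAcrp.van _ hx]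
    simp
  · intro t x' i
    unfold tubeU
    simp only [Pi.add_apply, Pi.smul_apply, smul_eq_mul]
    refine (abs_add_le _ _).trans ?_
    rw [abs_mul, abs_mul]
    have h1 : |ν / (N * s)| ≤ |ν| := by
      rw [abs_div]
      refine div_le_self (abs_nonneg ν) ?_
      rw [abs_of_pos (by positivity)]
      calc (1 : ℝ) = 1 * 1 := by ring
        _ ≤ N * s := by gcongr
    have h2 : |Sw (Ac δ) ξ c N x' i| ≤ 1 := by
      rw [Sw_eq]
      simp only [Pi.smul_apply, smul_eq_mul]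
      by_cases h : nr (Z ξ c N x') ≤ 1
      · rw [abs_mul]
        have h3 := Z_comp_le h i
        have h4 := Ac_abs δ (nr (Z ξ c N x'))
        calc |Ac δ (nr (Z ξ c N x'))| * |Z ξ c N x' i| ≤ 1 * 1 := by gcongr
          _ = 1 := by ring
      · push Not at h
        rw [hAcrp.van _ (hδ.trans h.le)]
        simp
    have h3 : |rv ξ i| ≤ X := by
      rw [hX]
      have h0 := abs_nonneg (ξ 0 : ℝ); have h1 := abs_nonneg (ξ 1 : ℝ)
      have h2 := abs_nonneg (ξ 2 : ℝ)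
      fin_cases i
      · show |(ξ 0 : ℝ)| ≤ _; linarith
      · show |(ξ 1 : ℝ)| ≤ _; linarith
      · show |(ξ 2 : ℝ)| ≤ _; linarith
    calc |ν / (N * s)| * |Sw (Ac δ) ξ c N x' i| + |wR B ξ k φ κ' r₀ c N ν t x'| * |rv ξ i|
        ≤ |ν| * 1 + (Cw * N) * X := by
          have := hbw t x'
          gcongr
      _ ≤ |ν| * N + (Cw * N) * X := by gcongr
      _ = (|ν| + Cw * X) * N := by ring
  · intro t l hkl i ψ
    have hl : ∀ i, |l i| < N := fun i => by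
      have := hkl i
      have := abs_nonneg (k i)
      omega
    have e : ∀ x', tubeU (Ac δ) (ν / (N * s)) ξ c N (wR B ξ k φ κ' r₀ c N ν) t x' i
        * Real.cos (ph l x' - ψ)
        = (ν / (N * s)) * (Sw (Ac δ) ξ c N x' i * Real.cos (ph l x' - ψ))
          + (ξ i : ℝ) * (wR B ξ k φ κ' r₀ c N ν t x' * Real.cos (ph l x' - ψ)) := by
      intro x'
      unfold tubeU
      simp only [Pi.add_apply, Pi.smul_apply, smul_eq_mul]
      have : rv ξ i = (ξ i : ℝ) := rfl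
      rw [this]
      ring
    simp only [e]
    rw [integral_add, integral_const_mul, integral_const_mul,
      Sw_modes hξ hc hAcrp hδ hN0 hl, wR_modes hξ hc hBrp hδ2 hN0 φ κ' r₀ ν t hkl ψ, hmt]
    · have := vl_pos.ne'
      field_simp
      ring
    · refine Integrable.const_mul ?_ _
      refine (Periodic3.mul' (f := fun x' => Sw (Ac δ) ξ c N x' i)
        (comp_periodic (Sw_periodic ξ c N) i) (cosp_periodic l ψ)).integrableOn ?_
      exact ((continuous_apply i).comp (Sw_contDiff ξ c N hAcrp hδ).continuous).mul (cosp_cont l ψ)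
    · refine Integrable.const_mul ?_ _
      refine (Periodic3.mul' (hax.per t) (cosp_periodic l ψ)).integrableOn ?_
      exact (slice hax.smooth t).continuous.mul (cosp_cont l ψ)
  · rintro τ ⟨m, hm⟩ t
    have hrt : rt ξ r₀ ν (t + τ) = rt ξ r₀ ν t := by
      unfold rt
      have e : ν * (t + τ) = ν * t + m * (2 * Real.pi) := by rw [mul_add, hm]
      rw [e, Real.cos_add_int_mul_two_pi, Real.sin_add_int_mul_two_pi]
    ext x' i
    unfold tubeU wR
    rw [hrt]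

end Pool.Agent.Zk27.UE
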