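import Pool.Agent.Zk27.UE.Rot

/-!
# Steady solutions in one tube with a prescribed mean; disjoint tubes
-/

open MeasureTheory Set
open scoped ENNReal NNReal Topology Pointwise ContDiff

set_option autoImplicit false

namespace Pool.Agent.Zk27.UE

open Pool.Agent.H708R2.EulerSign Pool.Agent.H708R2.EulerModes
open Pool.Agent.R739.ET (RP pA pA_rp pA_pos fine_resc periodic_resc wr wr_exists)

theorem exists_static {ξ : Fin 3 → ℤ} (hξ : ξ ≠ 0) (a : ℝ) {c : V} (hc : dt (rv ξ) c = 0)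
    {δ : ℝ} (hδ0 : 0 < δ) (hδ : δ ≤ 1) :
    ∃ C : ℝ, 0 ≤ C ∧ ∃ N₀ : ℕ, ∀ N, N₀ ≤ N →
      ∃ (F : ℝ → V → V) (P : V → ℝ), Atom ξ 0 0 a 0 0 c δ N C F P := by
  set B : ℝ → ℝ := pA δ with hB
  have hBrp : RP δ B := pA_rp _
  have gc : Continuous (fun z : V => B (nr z)) :=
    hBrp.smooth.continuous.comp (nr_contDiff (n := 0)).continuous
  have gv : ∀ z : V, 1 ≤ nr z → B (nr z) = 0 := fun z hz => hBrp.van _ (hδ.trans hz)
  set I₀ : ℝ := ∫ x in Dom, B (nr (Z ξ c 1 x)) with hI₀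
  have hI₀0 : 0 < I₀ := by
    obtain ⟨x, hx⟩ := Z_surj (ξ := ξ) (c := c) hξ hc (y := 0) (by simp [dt]) (by simp [nr])
    refine Pool.Agent.R739.ET.pos_of_ne (gz_per (fun z => B (nr z)) 1) (gz_cont gc gv 1)
      (fun x => pA_nonneg _ _) (x := x) ?_
    simp only [hx]
    have : nr (0 : V) = 0 := by simp [nr]
    rw [this]
    exact (pA_pos hδ0).ne'
  set g : ℝ := a * vl / I₀ with hg
  set X : ℝ := |(ξ 0 : ℝ)| + |(ξ 1 : ℝ)| + |(ξ 2 : ℝ)| with hX
  have hX0 : 0 ≤ X := by positivity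
  refine ⟨|g| * X, by positivity, 1, fun N hN => ?_⟩
  have hN0 : 0 < N := by omega
  have hNr : (1 : ℝ) ≤ N := by exact_mod_cast hN0
  set w : ℝ → V → ℝ := fun _ x => g * B (nr (Z ξ c N x)) with hw
  have hcd : ContDiff ℝ ∞ (fun x => B (nr (Z ξ c N x))) :=
    glue_contDiff' ξ c N (fun z => B (nr z)) gv (hBrp.smooth.comp nr_contDiff)
  have hax : Axial δ (Ac δ) 0 ξ c N w := by
    refine ⟨?_, ?_, ?_, ?_, ?_⟩
    · exact contDiff_const.mul (hcd.comp contDiff_snd)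
    · intro t i x
      simp only [hw]
      rw [Z_periodic ξ c N i x]
    · intro t x
      refine fderiv_eq_zero_of_invariant ((contDiff_const.mul hcd).differentiable (by simp)) ?_ x
      intro x s
      rw [Z_inv]
    · intro t x hx
      simp only [hw]
      rw [hBrp.van _ hx, mul_zero]
    · intro t x
      simp [hw]
  have hAcrp := Ac_rp hδ0
  refine ⟨tubeU (Ac δ) 0 ξ c N w, PS δ (Ac δ) 0 ξ c N, tube_sol hAcrp hδ hax, ?_, ?_, ?_, ?_⟩
  · intro t x hx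
    unfold tubeU
    rw [hax.supp t x hx]
    simp
  · intro t x i
    unfold tubeU
    simp only [Pi.add_apply, Pi.smul_apply, smul_eq_mul, zero_mul, zero_add]
    rw [abs_mul]
    have h1 : |w t x| ≤ |g| := by
      simp only [hw]
      rw [abs_mul]
      exact mul_le_of_le_one_right (abs_nonneg _) (pA_abs _ _)
    have h3 : |rv ξ i| ≤ X := by
      rw [hX]
      have h0 := abs_nonneg (ξ 0 : ℝ); have h1 := abs_nonneg (ξ 1 : ℝ)
      have h2 := abs_nonneg (ξ 2 : ℝ)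
      fin_cases i
      · show |(ξ 0 : ℝ)| ≤ _; linarith
      · show |(ξ 1 : ℝ)| ≤ _; linarith
      · show |(ξ 2 : ℝ)| ≤ _; linarith
    calc |w t x| * |rv ξ i| ≤ |g| * X := by gcongr
      _ = |g| * X * 1 := by ring
      _ ≤ |g| * X * N := by gcongr
  · intro t l hkl i ψ
    have hl : ∀ i, |l i| < N := fun i => by
      have := hkl i
      simpa using this
    have e : ∀ x, tubeU (Ac δ) 0 ξ c N w t x i * Real.cos (ph l x - ψ)
        = (g * ξ i) * (B (nr (Z ξ c N x)) * Real.cos (ph l x - ψ)) := by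
      intro x
      unfold tubeU
      simp only [Pi.add_apply, Pi.smul_apply, smul_eq_mul, zero_mul, zero_add, hw]
      have : rv ξ i = (ξ i : ℝ) := rfl
      rw [this]
      ring
    simp only [e]
    rw [integral_const_mul, fine_mean (gz_per (fun z => B (nr z)) N) hcd.continuous hN0 ?_ hl,
      gz_dilate gc gv hN0]
    · simp only [ph_zero, zero_mul, sub_zero, Real.cos_zero, one_mul, mul_one, add_zero]
      rw [← hI₀, hg]
      have := vl_pos.ne'
      field_simp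
    · intro i x
      rw [Z_fine ξ c hN0 i x]
  · intro τ _ t
    rfl

/-- the row `i` of the matrix of `J ξ` -/
def row (ξ : Fin 3 → ℤ) : Fin 3 → (Fin 3 → ℤ) :=
  ![![0, -ξ 2, ξ 1], ![ξ 2, 0, -ξ 0], ![-ξ 1, ξ 0, 0]]

lemma J_row (ξ : Fin 3 → ℤ) (y : V) (i : Fin 3) : J ξ y i = ph (row ξ i) y := by
  fin_cases i
  · show J ξ y 0 = ph (row ξ 0) y
    rw [J_0]; simp [row, ph, Fin.sum_univ_three]; ring
  · show J ξ y 1 = ph (row ξ 1) y
    rw [J_1]; simp [row, ph, Fin.sum_univ_three]; ring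
  · show J ξ y 2 = ph (row ξ 2) y
    rw [J_2]; simp [row, ph, Fin.sum_univ_three]; ring

/-- the centre of the tube number `e` -/
noncomputable def cen (ξ : Fin 3 → ℤ) (p : Fin 3) (e : ℕ) : V :=
  mk3 p (-(ξ (p + 1) * phs (2 * e + 1) + ξ (p + 2) * phs (2 * e + 2)) / ξ p)
    (phs (2 * e + 1)) (phs (2 * e + 2))

lemma dt_eq3 (x y : V) (p : Fin 3) :
    dt x y = x p * y p + x (p + 1) * y (p + 1) + x (p + 2) * y (p + 2) := by
  unfold dt
  fin_cases p
  · simp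
  · simp; ring
  · simp; ring

lemma nr_eq3 (x : V) (p : Fin 3) : nr x = x p ^ 2 + x (p + 1) ^ 2 + x (p + 2) ^ 2 := by
  rw [nr_eq, dt_eq3 x x p]; ring

lemma cen_perp {ξ : Fin 3 → ℤ} {p : Fin 3} (hp : ξ p ≠ 0) (e : ℕ) :
    dt (rv ξ) (cen ξ p e) = 0 := by
  rw [dt_eq3 _ _ p]
  unfold cen
  rw [mk3_p, mk3_q, mk3_r]
  have hpr : (ξ p : ℝ) ≠ 0 := by exact_mod_cast hp
  show (ξ p : ℝ) * _ + (ξ (p + 1) : ℝ) * _ + (ξ (p + 2) : ℝ) * _ = 0
  field_simp
  ring

lemma one_sub_cos_le (s : ℝ) : 1 - Real.cos s ≤ (wr s) ^ 2 / 2 := by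
  obtain ⟨z, hz⟩ := wr_exists s
  rw [hz, Real.cos_add_int_mul_two_pi]
  have h := Real.one_sub_sq_div_two_le_cos (x := wr s)
  have e : wr (wr s + (z : ℝ) * (2 * Real.pi)) = wr s := by rw [← hz]
  rw [e]
  linarith

lemma gfun_le (ξ : Fin 3 → ℤ) (p : Fin 3) (e : ℕ) (N : ℕ) (x : V) :
    gfun (row ξ (p + 1)) (row ξ (p + 2)) e ((N : ℝ) • x) ≤ nr (Z ξ (cen ξ p e) N x) / 2 := by
  rw [nr_eq3 _ p]
  unfold gfun
  have h1 : Z ξ (cen ξ p e) N x (p + 1)
      = wr (ph (row ξ (p + 1)) ((N : ℝ) • x) - phs (2 * e + 1)) := by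
    unfold Z W
    rw [J_row]
    unfold cen
    rw [mk3_q]
  have h2 : Z ξ (cen ξ p e) N x (p + 2)
      = wr (ph (row ξ (p + 2)) ((N : ℝ) • x) - phs (2 * e + 2)) := by
    unfold Z W
    rw [J_row]
    unfold cen
    rw [mk3_r]
  rw [h1, h2]
  have h3 := one_sub_cos_le (ph (row ξ (p + 1)) ((N : ℝ) • x) - phs (2 * e + 1))
  have h4 := one_sub_cos_le (ph (row ξ (p + 2)) ((N : ℝ) • x) - phs (2 * e + 2))
  have h5 := sq_nonneg (Z ξ (cen ξ p e) N x p)
  linarith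

/-- Disjoint tubes -/
theorem disjoint_tubes {ι : Type} [Fintype ι] (ξ : ι → Fin 3 → ℤ) (hξ : ∀ j, ξ j ≠ 0) :
    ∃ (c : ι → V) (δ : ℝ), 0 < δ ∧ δ ≤ 1 ∧ (∀ j, dt (rv (ξ j)) (c j) = 0) ∧
      ∀ i j, i ≠ j → ∀ (N : ℕ) (x : V), δ ≤ nr (Z (ξ i) (c i) N x) ∨
        δ ≤ nr (Z (ξ j) (c j) N x) := by
  classical
  have hp : ∀ j, ∃ p, ξ j p ≠ 0 := by
    intro j
    by_contra hcon
    push Not at hcon
    exact hξ j (funext hcon)
  choose p hp using hp
  let e : ι ≃ Fin (Fintype.card ι) := Fintype.equivFin ι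
  let G : ι → V → ℝ := fun j => gfun (row (ξ j) (p j + 1)) (row (ξ j) (p j + 2)) (e j)
  have hδ : ∀ q : ι × ι, ∃ δ : ℝ, 0 < δ ∧ (q.1 ≠ q.2 → ∀ x, δ ≤ G q.1 x + G q.2 x) := by
    intro q
    by_cases hq : q.1 = q.2
    · exact ⟨1, one_pos, fun h => absurd hq h⟩
    · have hne : ((e q.1 : Fin _) : ℕ) ≠ ((e q.2 : Fin _) : ℕ) := by
        intro h
        exact hq (e.injective (Fin.ext h))
      have hp : Periodic3 (fun x => G q.1 x + G q.2 x) := by
        intro i x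
        simp only [G]
        rw [gfun_periodic _ _ _ i x, gfun_periodic _ _ _ i x]
      obtain ⟨δ, h1, h2⟩ := Periodic3.exists_pos_le hp
        ((gfun_contDiff _ _ _).continuous.add (gfun_contDiff _ _ _).continuous)
        (fun x => gfun_add_pos _ _ _ _ hne x)
      exact ⟨δ, h1, fun _ => h2⟩
  choose δ hδ1 hδ2 using hδ
  obtain ⟨η, hη, hη1, hηle⟩ : ∃ η : ℝ, 0 < η ∧ η ≤ 1 ∧ ∀ q, η ≤ δ q := by
    refine ⟨∏ q, min 1 (δ q), Finset.prod_pos fun q _ => lt_min one_pos (hδ1 q),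
      Finset.prod_le_one (fun r _ => (lt_min one_pos (hδ1 r)).le)
        (fun r _ => min_le_left _ _), fun q => ?_⟩
    calc ∏ q, min 1 (δ q) = min 1 (δ q) * ∏ r ∈ Finset.univ.erase q, min 1 (δ r) :=
          (Finset.mul_prod_erase _ _ (Finset.mem_univ q)).symm
      _ ≤ min 1 (δ q) * 1 := by
          gcongr
          · exact (lt_min one_pos (hδ1 q)).le
          · exact Finset.prod_le_one (fun r _ => (lt_min one_pos (hδ1 r)).le)
              (fun r _ => min_le_left _ _)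
      _ ≤ δ q := by rw [mul_one]; exact min_le_right _ _
  refine ⟨fun j => cen (ξ j) (p j) (e j), η, hη, hη1, fun j => cen_perp (hp j) _, ?_⟩
  intro i j hij N x
  by_contra hcon
  push Not at hcon
  obtain ⟨h1, h2⟩ := hcon
  have h3 := gfun_le (ξ i) (p i) (e i) N x
  have h4 := gfun_le (ξ j) (p j) (e j) N x
  have h5 := hδ2 (i, j) hij ((N : ℝ) • x)
  have h6 := hηle (i, j)
  simp only [G] at h5
  linarith

end Pool.Agent.Zk27.UE
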