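import Pool.Agent.Zk27.UE.Wrap
import Pool.Agent.R739.ET.Prof

/-!
# Flows in a tube around the closed lines with an integer direction: a swirl and a transported
# axial velocity
-/

open MeasureTheory Set
open scoped ENNReal NNReal Topology Pointwise ContDiff

set_option autoImplicit false

namespace Pool.Agent.Zk27.UE

open Pool.Agent.H708R2.EulerSign Pool.Agent.H708R2.EulerModes
open Pool.Agent.R739.ET (RP prim prim_hasDerivAt)

variable (ξ : Fin 3 → ℤ) (c : V) (N : ℕ)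

/-- smoothness in the presence of parameters -/
lemma gluej {E₁ E : Type*} [NormedAddCommGroup E₁] [NormedSpace ℝ E₁] [NormedAddCommGroup E]
    [NormedSpace ℝ E] (F : E₁ → V → E) (hF : ∀ p z, 1 ≤ nr z → F p z = 0) {n : WithTop ℕ∞}
    (hs : ContDiff ℝ n (fun q : E₁ × V => F q.1 q.2)) :
    ContDiff ℝ n (fun q : E₁ × V => F q.1 (Z ξ c N q.2)) := by
  rw [contDiff_iff_contDiffAt]
  intro q₀
  have h : (fun q : E₁ × V => F q.1 (Z ξ c N q.2)) =ᶠ[𝓝 q₀]
      fun q => F q.1 ((N : ℝ) • J ξ q.2 + tz ξ c N q₀.2) := by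
    have h1 := (continuous_snd.tendsto q₀).eventually (Z_near ξ c N q₀.2)
    filter_upwards [h1] with q hq
    rcases hq with hq | ⟨h1, h2⟩
    · rw [hq]
    · rw [hF _ _ h1, hF _ _ h2]
  refine ContDiffAt.congr_of_eventuallyEq ?_ h
  have h1 : ContDiff ℝ n (fun q : E₁ × V => (q.1, (N : ℝ) • J ξ q.2 + tz ξ c N q₀.2)) :=
    contDiff_fst.prodMk ((((J ξ).contDiff.comp contDiff_snd).const_smul _).add contDiff_const)
  exact (hs.comp h1).contDiffAt

/-- the derivative of a function of the point and of the wrapped coordinates -/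
lemma glue_hasFDerivAt {E : Type*} [NormedAddCommGroup E] [NormedSpace ℝ E] (F : V → V → E)
    (hF : ∀ p z, 1 ≤ nr z → F p z = 0) {x₀ : V} {L : V × V →L[ℝ] E}
    (h : HasFDerivAt (fun q : V × V => F q.1 q.2) L (x₀, Z ξ c N x₀)) :
    HasFDerivAt (fun x => F x (Z ξ c N x))
      (L.comp ((ContinuousLinearMap.id ℝ V).prod ((N : ℝ) • J ξ))) x₀ := by
  refine HasFDerivAt.congr_of_eventuallyEq ?_ (glue ξ c N x₀ F hF)
  have h1 : HasFDerivAt (fun x : V => (x, (N : ℝ) • J ξ x + tz ξ c N x₀))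
      ((ContinuousLinearMap.id ℝ V).prod ((N : ℝ) • J ξ)) x₀ :=
    (hasFDerivAt_id x₀).prodMk (((J ξ).hasFDerivAt.const_smul (N : ℝ)).add_const _)
  have h2 : HasFDerivAt (fun q : V × V => F q.1 q.2) L
      ((fun x : V => (x, (N : ℝ) • J ξ x + tz ξ c N x₀)) x₀) := by
    show HasFDerivAt _ L (x₀, (N : ℝ) • J ξ x₀ + tz ξ c N x₀)
    rw [Z_self]; exact h
  exact h2.comp x₀ h1

/-- a version for functions of the wrapped coordinates only -/
lemma glue_hasFDerivAt' {E : Type*} [NormedAddCommGroup E] [NormedSpace ℝ E] (F : V → E)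
    (hF : ∀ z, 1 ≤ nr z → F z = 0) {x₀ : V} {L : V →L[ℝ] E}
    (h : HasFDerivAt F L (Z ξ c N x₀)) :
    HasFDerivAt (fun x => F (Z ξ c N x)) (L.comp ((N : ℝ) • J ξ)) x₀ := by
  have h1 : HasFDerivAt (fun q : V × V => F q.2) (L.comp (ContinuousLinearMap.snd ℝ V V))
      (x₀, Z ξ c N x₀) := by
    have h2 : HasFDerivAt F L ((fun q : V × V => q.2) (x₀, Z ξ c N x₀)) := h
    exact h2.comp (x₀, Z ξ c N x₀) hasFDerivAt_snd
  exact glue_hasFDerivAt ξ c N (fun _ z => F z) (fun _ z hz => hF z hz) h1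

lemma glue_contDiff' {E : Type*} [NormedAddCommGroup E] [NormedSpace ℝ E] (F : V → E)
    (hF : ∀ z, 1 ≤ nr z → F z = 0) {n : WithTop ℕ∞} (hs : ContDiff ℝ n F) :
    ContDiff ℝ n (fun x => F (Z ξ c N x)) :=
  glue_contDiff ξ c N (fun _ z => F z) (fun _ z hz => hF z hz) (hs.comp contDiff_snd)

/-- the linear map `dt z` -/
noncomputable def dtL (z : V) : V →L[ℝ] ℝ :=
  z 0 • (ContinuousLinearMap.proj 0 : V →L[ℝ] ℝ) + z 1 • (ContinuousLinearMap.proj 1 : V →L[ℝ] ℝ)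
    + z 2 • (ContinuousLinearMap.proj 2 : V →L[ℝ] ℝ)

lemma dtL_apply (z h : V) : dtL z h = dt z h := by
  simp [dtL, dt]

lemma nr_hasFDerivAt (z : V) : HasFDerivAt nr ((2 : ℝ) • dtL z) z := by
  have h : ∀ i : Fin 3, HasFDerivAt (fun y : V => y i ^ 2)
      ((2 * z i) • (ContinuousLinearMap.proj i : V →L[ℝ] ℝ)) z := by
    intro i
    have h1 : HasFDerivAt (fun y : V => y i) (ContinuousLinearMap.proj i : V →L[ℝ] ℝ) z :=
      (ContinuousLinearMap.proj (R := ℝ) (φ := fun _ : Fin 3 => ℝ) i).hasFDerivAt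
    have h2 := h1.pow 2
    refine h2.congr_fderiv ?_
    ext y
    simp
  have h3 := ((h 0).add (h 1)).add (h 2)
  refine h3.congr_fderiv ?_
  ext y
  simp [dtL]
  ring

lemma dt_hasFDerivAt (r z : V) : HasFDerivAt (dt r) (dtL r) z := by
  have h : dt r = dtL r := by ext h; exact (dtL_apply r h).symm
  rw [h]
  exact (dtL r).hasFDerivAt

/-- the radial cut-off of the position -/
noncomputable def Gs (A : ℝ → ℝ) (z : V) : V := A (nr z) • z

section

variable {δ : ℝ} {A : ℝ → ℝ}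

lemma Gs_van (hA : RP δ A) (hδ : δ ≤ 1) (z : V) (hz : 1 ≤ nr z) : Gs A z = 0 := by
  unfold Gs; rw [hA.van _ (hδ.trans hz), zero_smul]

lemma Gs_contDiff (hA : RP δ A) : ContDiff ℝ ∞ (Gs A) :=
  (hA.smooth.comp nr_contDiff).smul contDiff_id

lemma Gs_hasFDerivAt (hA : RP δ A) (z : V) : HasFDerivAt (Gs A)
    (A (nr z) • ContinuousLinearMap.id ℝ V
      + ((deriv A (nr z)) • ((2 : ℝ) • dtL z)).smulRight z) z := by
  have h1 : HasFDerivAt (fun y => A (nr y)) ((deriv A (nr z)) • ((2 : ℝ) • dtL z)) z :=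
    (hA.hasDerivAt _).comp_hasFDerivAt z (nr_hasFDerivAt z)
  exact h1.smul (hasFDerivAt_id z)

/-- the swirl -/
noncomputable def Sw (A : ℝ → ℝ) (ξ : Fin 3 → ℤ) (c : V) (N : ℕ) (x : V) : V := Gs A (Z ξ c N x)

lemma Sw_eq (x : V) : Sw A ξ c N x = A (nr (Z ξ c N x)) • Z ξ c N x := rfl

lemma Sw_contDiff (hA : RP δ A) (hδ : δ ≤ 1) : ContDiff ℝ ∞ (Sw A ξ c N) :=
  glue_contDiff' ξ c N (Gs A) (Gs_van hA hδ) (Gs_contDiff hA)

lemma Sw_fderiv (hA : RP δ A) (hδ : δ ≤ 1) (x e : V) : fderiv ℝ (Sw A ξ c N) x e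
    = (A (nr (Z ξ c N x)) * N) • J ξ e
      + (2 * deriv A (nr (Z ξ c N x)) * N * dt (Z ξ c N x) (J ξ e)) • Z ξ c N x := by
  have h := glue_hasFDerivAt' ξ c N (Gs A) (Gs_van hA hδ) (Gs_hasFDerivAt hA (Z ξ c N x))
  have h2 : fderiv ℝ (Sw A ξ c N) x = _ := h.fderiv
  rw [h2]
  simp only [ContinuousLinearMap.comp_apply, add_apply, smul_apply,
    ContinuousLinearMap.id_apply, ContinuousLinearMap.smulRight_apply, dtL_apply, dt_smul_right,
    smul_smul, smul_eq_mul]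
  congr 2
  ring

lemma Sw_xi (hA : RP δ A) (hδ : δ ≤ 1) (x : V) : fderiv ℝ (Sw A ξ c N) x (rv ξ) = 0 := by
  rw [Sw_fderiv ξ c N hA hδ, J_rv]
  have : dt (Z ξ c N x) 0 = 0 := by simp [dt]
  rw [this]; simp

lemma Sw_self (hA : RP δ A) (hδ : δ ≤ 1) (x : V) :
    fderiv ℝ (Sw A ξ c N) x (Sw A ξ c N x)
      = (N * A (nr (Z ξ c N x)) ^ 2) • J ξ (Z ξ c N x) := by
  rw [Sw_fderiv ξ c N hA hδ, Sw_eq, map_smul, dt_smul_right, dt_J_self, smul_smul]
  simp only [mul_zero, zero_smul, add_zero]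
  congr 1; ring

lemma Sw_div (hA : RP δ A) (hδ : δ ≤ 1) (x : V) : divergence (Sw A ξ c N) x = 0 := by
  rw [divergence_eq_sum, Fin.sum_univ_three]
  simp only [Sw_fderiv ξ c N hA hδ, Pi.add_apply, Pi.smul_apply, smul_eq_mul]
  unfold dt
  simp only [J_0, J_1, J_2]
  simp
  ring

lemma Sw_periodic : Periodic3 (Sw A ξ c N) := by
  intro i x; unfold Sw; rw [Z_periodic ξ c N i x]

lemma AA_rp (hA : RP δ A) : RP δ (fun R => A R ^ 2) := by
  refine ⟨hA.smooth.pow 2, fun R hR => ?_⟩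
  simp only [hA.van R hR]; ring

/-- the pressure -/
noncomputable def PS (δ : ℝ) (A : ℝ → ℝ) (α : ℝ) (ξ : Fin 3 → ℤ) (c : V) (N : ℕ) (x : V) : ℝ :=
  α ^ 2 / 2 * prim δ (fun R => A R ^ 2) (nr (Z ξ c N x))

variable (α : ℝ)

lemma PS_van (hA : RP δ A) (hδ : δ ≤ 1) (z : V) (hz : 1 ≤ nr z) :
    α ^ 2 / 2 * prim δ (fun R => A R ^ 2) (nr z) = 0 := by
  rw [(AA_rp hA).prim.van _ (hδ.trans hz), mul_zero]

lemma PS_contDiff (hA : RP δ A) (hδ : δ ≤ 1) : ContDiff ℝ ∞ (PS δ A α ξ c N) :=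
  glue_contDiff' ξ c N (fun z => α ^ 2 / 2 * prim δ (fun R => A R ^ 2) (nr z))
    (PS_van α hA hδ) (contDiff_const.mul ((AA_rp hA).prim.smooth.comp nr_contDiff))

lemma PS_periodic : Periodic3 (PS δ A α ξ c N) := by
  intro i x; unfold PS; rw [Z_periodic ξ c N i x]

lemma PS_fderiv (hA : RP δ A) (hδ : δ ≤ 1) (x e : V) : fderiv ℝ (PS δ A α ξ c N) x e
    = - (α ^ 2 * N * A (nr (Z ξ c N x)) ^ 2 * dt (J ξ (Z ξ c N x)) e) := by
  have h1 : HasFDerivAt (fun z => α ^ 2 / 2 * prim δ (fun R => A R ^ 2) (nr z))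
      ((α ^ 2 / 2) • ((A (nr (Z ξ c N x)) ^ 2) • ((2 : ℝ) • dtL (Z ξ c N x)))) (Z ξ c N x) :=
    ((prim_hasDerivAt (AA_rp hA) _).comp_hasFDerivAt _ (nr_hasFDerivAt _)).const_mul _
  have h := glue_hasFDerivAt' ξ c N (fun z => α ^ 2 / 2 * prim δ (fun R => A R ^ 2) (nr z))
    (PS_van α hA hδ) h1
  have h2 : fderiv ℝ (PS δ A α ξ c N) x = _ := h.fderiv
  rw [h2]
  simp only [ContinuousLinearMap.comp_apply, smul_apply, dtL_apply,
    dt_smul_right, smul_eq_mul, dt_J]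
  ring

/-- the velocity in a tube -/
noncomputable def tubeU (A : ℝ → ℝ) (α : ℝ) (ξ : Fin 3 → ℤ) (c : V) (N : ℕ) (w : ℝ → V → ℝ)
    (t : ℝ) (x : V) : V := α • Sw A ξ c N x + w t x • rv ξ

/-- the properties of the transported axial velocity -/
structure Axial (δ : ℝ) (A : ℝ → ℝ) (α : ℝ) (ξ : Fin 3 → ℤ) (c : V) (N : ℕ)
    (w : ℝ → V → ℝ) : Prop where
  smooth : ContDiff ℝ ∞ (fun z : ℝ × V => w z.1 z.2)
  per : ∀ t, Periodic3 (w t)
  inv : ∀ t x, fderiv ℝ (w t) x (rv ξ) = 0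
  supp : ∀ t x, δ ≤ nr (Z ξ c N x) → w t x = 0
  trans : ∀ t x, deriv (fun s => w s x) t
    + α * A (nr (Z ξ c N x)) * fderiv ℝ (w t) x (Z ξ c N x) = 0

variable {ξ c N α} {w : ℝ → V → ℝ}

/-- classical solutions of the Euler equations for all times with a steady pressure -/
structure Sol (F : ℝ → V → V) (P : V → ℝ) : Prop where
  smooth : ContDiff ℝ ∞ (fun z : ℝ × V => F z.1 z.2)
  psmooth : ContDiff ℝ ∞ P
  per : ∀ t, Periodic3 (F t)
  pper : Periodic3 P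
  div : ∀ t x, divergence (F t) x = 0
  mom : ∀ t x i, deriv (fun s => F s x i) t + fderiv ℝ (F t) x (F t x) i
    = - fderiv ℝ P x (Pi.single i 1)

lemma slice {E : Type*} [NormedAddCommGroup E] [NormedSpace ℝ E] {f : ℝ → V → E}
    (h : ContDiff ℝ ∞ (fun z : ℝ × V => f z.1 z.2)) (t : ℝ) : ContDiff ℝ ∞ (f t) := by
  have h1 : ContDiff ℝ ∞ (fun x : V => ((t, x) : ℝ × V)) := contDiff_const.prodMk contDiff_id
  exact h.comp h1

lemma slice_t {E : Type*} [NormedAddCommGroup E] [NormedSpace ℝ E] {f : ℝ → V → E}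
    (h : ContDiff ℝ ∞ (fun z : ℝ × V => f z.1 z.2)) (x : V) : ContDiff ℝ ∞ (fun s => f s x) := by
  have h1 : ContDiff ℝ ∞ (fun s : ℝ => ((s, x) : ℝ × V)) := contDiff_id.prodMk contDiff_const
  exact h.comp h1

lemma tubeU_fderiv (hA : RP δ A) (hδ : δ ≤ 1) (hw : Axial δ A α ξ c N w) (t : ℝ) (x e : V) :
    fderiv ℝ (tubeU A α ξ c N w t) x e
      = α • fderiv ℝ (Sw A ξ c N) x e + fderiv ℝ (w t) x e • rv ξ := by
  have h1 := (((Sw_contDiff ξ c N hA hδ).differentiable (by simp) x).hasFDerivAt).const_smul α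
  have h2 := (((slice hw.smooth t).differentiable (by simp) x).hasFDerivAt).smul_const (rv ξ)
  have h3 := (h1.add h2).fderiv
  have h4 : fderiv ℝ (tubeU A α ξ c N w t) x = _ := h3
  rw [h4]
  rfl

theorem tube_sol (hA : RP δ A) (hδ : δ ≤ 1) (hw : Axial δ A α ξ c N w) :
    Sol (tubeU A α ξ c N w) (PS δ A α ξ c N) := by
  refine ⟨?_, PS_contDiff ξ c N α hA hδ, ?_, PS_periodic ξ c N α, ?_, ?_⟩
  · exact (((Sw_contDiff ξ c N hA hδ).comp contDiff_snd).const_smul α).add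
      (hw.smooth.smul contDiff_const)
  · intro t i x
    unfold tubeU
    rw [Sw_periodic ξ c N i x, hw.per t i x]
  · intro t x
    have h1 := Sw_div ξ c N hA hδ x
    have h2 := hw.inv t x
    rw [divergence_eq_sum] at h1 ⊢
    simp only [tubeU_fderiv hA hδ hw, Pi.add_apply, Pi.smul_apply, smul_eq_mul,
      Finset.sum_add_distrib, ← Finset.mul_sum]
    rw [h1, mul_zero, zero_add]
    rw [vec_eq_sum (rv ξ), map_sum] at h2
    simp only [map_smul, smul_eq_mul] at h2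
    rw [← h2]
    refine Finset.sum_congr rfl fun i _ => ?_
    ring
  · intro t x i
    have h1 : deriv (fun s => tubeU A α ξ c N w s x i) t
        = deriv (fun s => w s x) t * rv ξ i := by
      have h : (fun s => tubeU A α ξ c N w s x i)
          = fun s => α * Sw A ξ c N x i + w s x * rv ξ i := rfl
      have hd : DifferentiableAt ℝ (fun s => w s x) t :=
        (slice_t hw.smooth x).differentiable (by simp) t
      rw [h, deriv_const_add, deriv_mul_const hd]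
    have h2 : fderiv ℝ (tubeU A α ξ c N w t) x (tubeU A α ξ c N w t x)
        = (α ^ 2 * (N * A (nr (Z ξ c N x)) ^ 2)) • J ξ (Z ξ c N x)
          + (α * A (nr (Z ξ c N x)) * fderiv ℝ (w t) x (Z ξ c N x)) • rv ξ := by
      rw [tubeU_fderiv hA hδ hw]
      unfold tubeU
      simp only [map_add, map_smul]
      rw [Sw_self ξ c N hA hδ, Sw_xi ξ c N hA hδ, hw.inv, Sw_eq, map_smul]
      simp only [smul_zero, add_zero, smul_smul, smul_eq_mul]
      congr 2 <;> ring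
    rw [h1, h2, PS_fderiv ξ c N α hA hδ]
    have h3 := hw.trans t x
    have h4 : dt (J ξ (Z ξ c N x)) (Pi.single i 1) = J ξ (Z ξ c N x) i := by
      unfold dt
      fin_cases i <;> simp
    rw [h4]
    simp only [Pi.add_apply, Pi.smul_apply, smul_eq_mul]
    linear_combination (rv ξ i) * h3

end

end Pool.Agent.Zk27.UE
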