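import Pool.Agent.Zk27.UE.UnivSol
import Pool.Agent.Zk27.UE.PRobust

/-!
# Stability in `L²` of the universal solution, and translations in time
-/

open MeasureTheory Set
open scoped ENNReal NNReal Topology Pointwise ContDiff

set_option autoImplicit false

namespace Pool.Agent.Zk27.UE

open Pool.Agent.H708R2.EulerSign Pool.Agent.H708R2.EulerModes

lemma grad_joint {u : ℝ → V → V} (h : ContDiff ℝ ∞ (fun z : ℝ × V => u z.1 z.2)) (t : ℝ) (x : V)
    (i j : Fin 3) : grad (u t) x i j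
      = fderiv ℝ (fun z : ℝ × V => u z.1 z.2) (t, x) (0, Pi.single j 1) i := by
  have h1 : HasFDerivAt (fun z : ℝ × V => u z.1 z.2)
      (fderiv ℝ (fun z : ℝ × V => u z.1 z.2) (t, x)) (t, x) :=
    (h.differentiable (by simp) (t, x)).hasFDerivAt
  have h2 : HasFDerivAt (fun y : V => ((t, y) : ℝ × V)) (ContinuousLinearMap.inr ℝ ℝ V) x := by
    have := (hasFDerivAt_const t x).prodMk (hasFDerivAt_id (𝕜 := ℝ) x)
    exact this
  have h3 : HasFDerivAt (u t) ((fderiv ℝ (fun z : ℝ × V => u z.1 z.2) (t, x)).comp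
      (ContinuousLinearMap.inr ℝ ℝ V)) x := HasFDerivAt.comp x h1 h2
  have e : grad (u t) x i j = fderiv ℝ (u t) x (Pi.single j 1) i := rfl
  rw [e, h3.fderiv]
  rfl

/-- the gradients of a time-periodic solution are bounded -/
lemma sol_grad_bdd {u : ℝ → V → V} {p : V → ℝ} (h : Sol u p) {τ : ℝ} (hτ : 0 < τ)
    (hper : ∀ t, u (t + τ) = u t) :
    ∃ K : ℝ, 0 ≤ K ∧ ∀ t x i j, |grad (u t) x i j| ≤ K := by
  have hc : Continuous (fun z : ℝ × V => fderiv ℝ (fun z : ℝ × V => u z.1 z.2) z) :=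
    h.smooth.continuous_fderiv (by simp)
  have hcomp : IsCompact (Icc (0 : ℝ) τ ×ˢ closure (Dom : Set V)) :=
    isCompact_Icc.prod dom_bdd.isCompact_closure
  obtain ⟨C, hC⟩ := hcomp.exists_bound_of_continuousOn hc.continuousOn
  have hC0 : 0 ≤ C := by
    obtain ⟨g, hg1, -⟩ := dom_exists_unique (0 : V)
    exact (norm_nonneg _).trans (hC ((0 : ℝ), (g +ᵥ (0 : V) : V))
      ⟨⟨le_rfl, hτ.le⟩, subset_closure hg1⟩)
  refine ⟨C, hC0, fun t x i j => ?_⟩
  -- move the time to `[0, τ]`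
  obtain ⟨t', ht', hut⟩ : ∃ t' ∈ Icc (0 : ℝ) τ, u t = u t' := by
    have hP : Function.Periodic u τ := hper
    obtain ⟨y, hy, hy2⟩ := hP.exists_mem_Ico₀ hτ t
    exact ⟨y, ⟨hy.1, hy.2.le⟩, hy2⟩
  rw [hut]
  -- move the point to `Dom`
  obtain ⟨g, hg1, -⟩ := dom_exists_unique x
  have e1 : grad (u t') x i j = grad (u t') (g +ᵥ x : V) i j := by
    have : fderiv ℝ (u t') (g +ᵥ x : V) = fderiv ℝ (u t') x :=
      lat_invariant (h.per t').fderiv g x
    unfold grad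
    rw [this]
  rw [e1, grad_joint h.smooth]
  have h1 := hC (t', (g +ᵥ x : V)) ⟨ht', subset_closure hg1⟩
  have h2 := (fderiv ℝ (fun z : ℝ × V => u z.1 z.2) (t', (g +ᵥ x : V))).le_opNorm
    ((0 : ℝ), (Pi.single j (1 : ℝ) : V))
  have h3 : ‖((0 : ℝ), (Pi.single j (1 : ℝ) : V))‖ ≤ 1 := by
    rw [Prod.norm_def, norm_zero]
    refine max_le zero_le_one ?_
    rw [pi_norm_le_iff_of_nonneg zero_le_one]
    intro k
    by_cases hk : k = j
    · subst hk; simp
    · simp [hk]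
  have h4 := norm_le_pi_norm (fderiv ℝ (fun z : ℝ × V => u z.1 z.2) (t', (g +ᵥ x : V))
    ((0 : ℝ), (Pi.single j (1 : ℝ) : V))) i
  rw [Real.norm_eq_abs] at h4
  refine h4.trans (h2.trans ?_)
  calc _ ≤ C * 1 := mul_le_mul h1 h3 (norm_nonneg _) hC0
    _ = C := mul_one C

/-- closeness persists under perturbations small in `L²` -/
theorem sol_robust {u : ℝ → V → V} {p : V → ℝ} (h : Sol u p) {τ : ℝ} (hτ : 0 < τ)
    (hper : ∀ t, u (t + τ) = u t) {s ε : ℝ} (hs : 0 ≤ s) (hε : 0 < ε) (T : ℝ) :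
    ∃ δ : ℝ, 0 < δ ∧ ∀ (S : ℝ) (w : ℝ → V → V) (q : ℝ → V → ℝ),
      IsClassicalSolution (Ico 0 S) w q →
      ∑ i, ∫ x in Dom, (w 0 x i - u 0 x i) ^ 2 ≤ δ → ∀ t ∈ Ico 0 S, t ≤ T →
      ∀ g : V → V, MemLp g 2 (volume.restrict cube) →
        HNegClose s (ε / 2) (u t) g → HNegClose s ε (w t) g := by
  have hv := vl_pos
  obtain ⟨K, hK0, hK⟩ := sol_grad_bdd h hτ hper
  have hexp := Real.exp_pos (6 * K * T)
  refine ⟨ε ^ 2 / (4 * vl) / Real.exp (6 * K * T), by positivity, ?_⟩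
  intro S w q hw h0 t ht htT g hg2 hclose
  have h0T : (0 : ℝ) ∈ Ico 0 S := ⟨le_rfl, ht.1.trans_lt ht.2⟩
  have hwc : ∀ t ∈ Ico 0 S, Continuous (w t) := fun t ht =>
    (contDiff_slice hw.contDiffOn_u ht).continuous
  have hwp := hw.periodic_u
  have huc := fun t => (h.diff t).continuous
  have hup := fun t => h.per t
  have hst := h.stab hw (K := K) (fun t _ x i j => hK t x i j) t ht
  rw [en_eq (hwp t ht) (hwc t ht) (hup t) (huc t), en_eq (hwp 0 h0T) (hwc 0 h0T) (hup 0) (huc 0)]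
    at hst
  refine hneg_tri (hwp t ht) (hwc t ht) (hup t) (huc t) hg2 hs hclose hst ?_
  have h1 : Real.exp (6 * K * t) ≤ Real.exp (6 * K * T) := by
    apply Real.exp_le_exp.2
    gcongr
  have h2 : 0 ≤ ∑ i, ∫ x in Dom, (w 0 x i - u 0 x i) ^ 2 :=
    Finset.sum_nonneg fun i _ => integral_nonneg fun x => sq_nonneg _
  calc vl * ((∑ i, ∫ x in Dom, (w 0 x i - u 0 x i) ^ 2)
        * Real.exp (6 * K * t))
      ≤ vl * (ε ^ 2 / (4 * vl) / Real.exp (6 * K * T) * Real.exp (6 * K * T)) := by gcongr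
    _ = ε ^ 2 / 4 := by field_simp

/-- translations in time of global solutions -/
lemma Sol.shift {u : ℝ → V → V} {p : V → ℝ} (h : Sol u p) (t₀ : ℝ) :
    Sol (fun t => u (t₀ + t)) p := by
  refine ⟨?_, h.psmooth, fun t => h.per _, h.pper, fun t x => h.div _ x, fun t x i => ?_⟩
  · have h1 : ContDiff ℝ ∞ (fun z : ℝ × V => ((t₀ + z.1, z.2) : ℝ × V)) := by fun_prop
    exact h.smooth.comp h1
  · have h1 := h.mom (t₀ + t) x i
    have e : deriv (fun s => u (t₀ + s) x i) t = deriv (fun s => u s x i) (t₀ + t) := by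
      have := deriv_comp_const_add (f := fun s => u s x i) t₀ t
      exact this
    rw [e]
    exact h1

end Pool.Agent.Zk27.UE
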