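import Pool.Agent.Zk27.UE.Step

/-!
# Even functions with compact support are approximated by cosine integrals
-/

open MeasureTheory Set
open scoped ENNReal NNReal Topology Pointwise ContDiff

set_option autoImplicit false

namespace Pool.Agent.Zk27.UE

open Pool.Agent.H708R2.EulerSign Pool.Agent.H708R2.EulerModes
open Pool.Agent.R739.ET (RP prim prim_hasDerivAt)

/-- the cosine integral -/
noncomputable def ci (b : ℝ → ℝ) (t : ℝ) : ℝ := ∫ y, b y * Real.cos (y * t)

lemma ci_int {b : ℝ → ℝ} (hb : Continuous b) (hs : HasCompactSupport b) (t : ℝ) :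
    Integrable (fun y => b y * Real.cos (y * t)) :=
  (hb.mul (by fun_prop)).integrable_of_hasCompactSupport hs.mul_right

/-- the Riemann-Lebesgue lemma -/
lemma ci_tendsto {b : ℝ → ℝ} (hb : Continuous b) (hs : HasCompactSupport b) {η : ℝ} (hη : 0 < η) :
    ∃ t₂ : ℝ, 0 < t₂ ∧ ∀ t, t₂ ≤ |t| → |ci b t| ≤ η := by
  have h1 := Real.tendsto_integral_exp_smul_cocompact (fun v : ℝ => ((b v : ℝ) : ℂ))
  rw [← Metric.cobounded_eq_cocompact] at h1
  have h2 := (Metric.tendsto_nhds.1 h1) η hη
  rw [Filter.hasBasis_cobounded_norm.eventually_iff] at h2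
  obtain ⟨R, -, hR⟩ := h2
  have hpi := Real.pi_pos
  refine ⟨2 * Real.pi * max R 1, by positivity, fun t ht => ?_⟩
  have h3 : (t / (2 * Real.pi)) ∈ {x : ℝ | R ≤ ‖x‖} := by
    show R ≤ ‖t / (2 * Real.pi)‖
    rw [Real.norm_eq_abs]
    rw [abs_div, abs_of_pos (show 0 < 2 * Real.pi by positivity), le_div_iff₀ (by positivity)]
    have : R ≤ max R 1 := le_max_left _ _
    nlinarith
  have h4 := hR h3
  rw [dist_zero_right] at h4
  set F : ℂ := ∫ v : ℝ, Real.fourierChar (-(v * (t / (2 * Real.pi)))) • ((b v : ℝ) : ℂ) with hF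
  have hint : Integrable (fun v : ℝ =>
      Real.fourierChar (-(v * (t / (2 * Real.pi)))) • ((b v : ℝ) : ℂ)) := by
    have hc : Continuous (fun v : ℝ =>
        Real.fourierChar (-(v * (t / (2 * Real.pi)))) • ((b v : ℝ) : ℂ)) := by
      have h5 : Continuous (fun v : ℝ => (Real.fourierChar (-(v * (t / (2 * Real.pi)))) : ℂ)) :=
        continuous_subtype_val.comp (Real.continuous_fourierChar.comp (by fun_prop))
      exact h5.mul (Complex.continuous_ofReal.comp hb)
    refine hc.integrable_of_hasCompactSupport ?_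
    refine hs.mono fun v hv => ?_
    rw [Function.mem_support] at hv ⊢
    intro h0
    apply hv
    simp [h0]
  have e : ci b t = F.re := by
    have h6 := integral_re hint
    have h7 : F.re = RCLike.re (∫ v : ℝ,
      Real.fourierChar (-(v * (t / (2 * Real.pi)))) • ((b v : ℝ) : ℂ)) := rfl
    rw [h7, ← h6]
    unfold ci
    refine integral_congr_ae (Filter.Eventually.of_forall fun v => ?_)
    simp only [Circle.smul_def, Real.fourierChar_apply, smul_eq_mul]
    have h8 : (RCLike.re (Complex.exp (↑(2 * Real.pi * -(v * (t / (2 * Real.pi)))) * Complex.I)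
        * ((b v : ℝ) : ℂ)) : ℝ)
        = (Complex.exp (↑(2 * Real.pi * -(v * (t / (2 * Real.pi)))) * Complex.I)
        * ((b v : ℝ) : ℂ)).re := rfl
    rw [h8, Complex.re_mul_ofReal, Complex.exp_ofReal_mul_I_re]
    have h9 : 2 * Real.pi * -(v * (t / (2 * Real.pi))) = -(v * t) := by field_simp
    rw [h9, Real.cos_neg]
    ring
  rw [e]
  exact (Complex.abs_re_le_norm F).trans h4.le

/-- the window -/
lemma exists_window : ∃ w : ℝ → ℝ, ContDiff ℝ ∞ w ∧ HasCompactSupport w ∧ (∀ x, 0 ≤ w x) ∧
    ∫ x, w x = 1 := by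
  let f : ContDiffBump (0 : ℝ) := ⟨1, 2, one_pos, one_lt_two⟩
  exact ⟨f.normed volume, f.contDiff_normed, f.hasCompactSupport_normed, f.nonneg_normed,
    f.integral_normed⟩

lemma ci_le {w : ℝ → ℝ} (hw : Continuous w) (hs : HasCompactSupport w) (h0 : ∀ x, 0 ≤ w x)
    (h1 : ∫ x, w x = 1) (t : ℝ) : |ci w t| ≤ 1 := by
  unfold ci
  refine (abs_integral_le_integral_abs).trans ?_
  rw [← h1]
  refine integral_mono (ci_int hw hs t).abs (hw.integrable_of_hasCompactSupport hs) fun x => ?_
  simp only
  rw [abs_mul, abs_of_nonneg (h0 x)]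
  exact mul_le_of_le_one_right (h0 x) (Real.abs_cos_le_one _)

lemma abs_cos_sub_cos_le' (x y : ℝ) : |Real.cos x - Real.cos y| ≤ |x - y| :=
  Real.abs_cos_sub_cos_le x y

/-- near the time `0` -/
lemma ci_near {w : ℝ → ℝ} (hw : Continuous w) (hs : HasCompactSupport w) (h0 : ∀ x, 0 ≤ w x)
    (h1 : ∫ x, w x = 1) {η : ℝ} (hη : 0 < η) :
    ∃ t₁ : ℝ, 0 < t₁ ∧ ∀ t, |t| ≤ t₁ → |ci w t - 1| ≤ η := by
  obtain ⟨Λ, hΛ⟩ := hs.isCompact.isBounded.exists_norm_le
  have hΛ' : ∀ x, w x ≠ 0 → |x| ≤ |Λ| + 1 := by
    intro x hx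
    have h2 := hΛ x (subset_tsupport _ hx)
    rw [Real.norm_eq_abs] at h2
    linarith [le_abs_self Λ]
  set C : ℝ := |Λ| + 1 with hC
  have hC0 : 0 < C := by positivity
  refine ⟨η / C, by positivity, fun t ht => ?_⟩
  have e : ci w t - 1 = ∫ x, w x * (Real.cos (x * t) - 1) := by
    have e0 : ci w t - 1 = ci w t - ∫ x, w x := by rw [h1]
    rw [e0]
    unfold ci
    rw [← integral_sub (ci_int hw hs t) (hw.integrable_of_hasCompactSupport hs)]
    refine integral_congr_ae (Filter.Eventually.of_forall fun x => ?_)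
    simp only; ring
  rw [e]
  refine (abs_integral_le_integral_abs).trans ?_
  have hi : Integrable (fun x => w x * η) :=
    (hw.integrable_of_hasCompactSupport hs).mul_const _
  calc ∫ x, |w x * (Real.cos (x * t) - 1)| ≤ ∫ x, w x * η := by
        refine integral_mono ?_ hi fun x => ?_
        · refine Integrable.abs ?_
          exact (hw.mul (by fun_prop)).integrable_of_hasCompactSupport hs.mul_right
        · simp only
          rw [abs_mul, abs_of_nonneg (h0 x)]
          by_cases hx : w x = 0
          · rw [hx]; simp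
          · have h3 : |Real.cos (x * t) - 1| ≤ |x * t| := by
              have h4 := abs_cos_sub_cos_le' (x * t) 0
              simpa using h4
            have h5 : |x * t| ≤ η := by
              rw [abs_mul]
              calc |x| * |t| ≤ C * (η / C) := by
                    have := hΛ' x hx
                    gcongr
                _ = η := by field_simp
            exact mul_le_mul_of_nonneg_left (h3.trans h5) (h0 x)
    _ = η := by rw [integral_mul_const, h1, one_mul]

/-- dilations and translations of the spectral density -/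
lemma ci_shift {w : ℝ → ℝ} (hw : Continuous w) (hs : HasCompactSupport w) {M : ℝ} (hM : 0 < M)
    (ν t : ℝ) : ∫ y, (M * w (M * (y - ν)) + M * w (M * (y + ν))) * Real.cos (y * t)
      = 2 * Real.cos (ν * t) * ci w (t / M) := by
  have key : ∀ ν : ℝ, ∫ y, (M * w (M * (y - ν))) * Real.cos (y * t)
      = ∫ y, w y * Real.cos ((y / M + ν) * t) := by
    intro ν
    have h1 := integral_sub_right_eq_self (μ := volume)
      (fun y : ℝ => (M * w (M * y)) * Real.cos ((y + ν) * t)) ν
    have e1 : ∀ y : ℝ, (M * w (M * (y - ν))) * Real.cos (y * t)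
        = (fun y : ℝ => (M * w (M * y)) * Real.cos ((y + ν) * t)) (y - ν) := by
      intro y; simp only [sub_add_cancel]
    simp only [e1]
    rw [h1]
    have h2 := Measure.integral_comp_mul_left (fun y : ℝ => w y * Real.cos ((y / M + ν) * t)) M
    rw [abs_of_pos (inv_pos.2 hM), smul_eq_mul] at h2
    have e2 : ∀ y : ℝ, M * w (M * y) * Real.cos ((y + ν) * t)
        = M * (w (M * y) * Real.cos ((M * y / M + ν) * t)) := by
      intro y
      rw [mul_div_cancel_left₀ _ hM.ne']
      ring
    simp only [e2]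
    rw [integral_const_mul, h2, ← mul_assoc, mul_inv_cancel₀ hM.ne', one_mul]
  have hi : ∀ ν : ℝ, Integrable (fun y => (M * w (M * (y - ν))) * Real.cos (y * t)) := by
    intro ν
    have hc : Continuous (fun y => M * w (M * (y - ν))) :=
      continuous_const.mul (hw.comp (by fun_prop))
    have hs1 : HasCompactSupport (fun y => M * w (M * (y - ν))) := by
      refine HasCompactSupport.mul_left ?_
      let e : ℝ ≃ₜ ℝ := (Homeomorph.subRight ν).trans (Homeomorph.mulLeft₀ M hM.ne')
      exact hs.comp_homeomorph e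
    exact (hc.mul (by fun_prop)).integrable_of_hasCompactSupport hs1.mul_right
  have hi2 : ∀ ν : ℝ, Integrable (fun y => w y * Real.cos ((y / M + ν) * t)) := by
    intro ν
    exact (hw.mul (by fun_prop)).integrable_of_hasCompactSupport hs.mul_right
  have e3 : ∀ y : ℝ, (M * w (M * (y - ν)) + M * w (M * (y + ν))) * Real.cos (y * t)
      = (M * w (M * (y - ν))) * Real.cos (y * t)
        + (M * w (M * (y - -ν))) * Real.cos (y * t) := by
    intro y; rw [sub_neg_eq_add]; ring
  simp only [e3]
  rw [integral_add (hi ν) (hi (-ν)), key, key, ← integral_add (hi2 ν) (hi2 (-ν))]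
  unfold ci
  rw [← integral_const_mul]
  refine integral_congr_ae (Filter.Eventually.of_forall fun y => ?_)
  simp only
  have e4 : (y / M + ν) * t = y * (t / M) + ν * t := by ring
  have e5 : (y / M + -ν) * t = y * (t / M) - ν * t := by ring
  rw [e4, e5, Real.cos_add, Real.cos_sub]
  ring

/-- even functions with compact support are approximated by cosine integrals -/
theorem spectral {g : ℝ → ℝ} (hg : Continuous g) (hge : ∀ t, g (-t) = g t) {S : ℝ} (hS : 0 < S)
    (hgS : ∀ t, S ≤ |t| → g t = 0) {η : ℝ} (hη : 0 < η) :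
    ∃ b : ℝ → ℝ, ContDiff ℝ ∞ b ∧ HasCompactSupport b ∧ ∀ t, |g t - ci b t| ≤ η := by
  obtain ⟨w, hws, hwc, hw0, hw1⟩ := exists_window
  have hw := hws.continuous
  -- a bound for `g`
  obtain ⟨G, hG0, hG⟩ : ∃ G : ℝ, 0 ≤ G ∧ ∀ t, |g t| ≤ G := by
    obtain ⟨C, hC⟩ := (isCompact_Icc (a := -S) (b := S)).exists_bound_of_continuousOn
      hg.continuousOn
    refine ⟨|C|, abs_nonneg _, fun t => ?_⟩
    by_cases ht : |t| ≤ S
    · rw [abs_le] at ht
      exact (hC t ht).trans (le_abs_self _)
    · rw [hgS t (not_le.1 ht).le, abs_zero]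
      exact abs_nonneg _
  set η' : ℝ := min 1 (η / (G + 2)) with hη'
  have hη'0 : 0 < η' := lt_min one_pos (by positivity)
  have hη'1 : η' ≤ 1 := min_le_left _ _
  have hη'2 : η' * (G + 2) ≤ η := by
    have : η' ≤ η / (G + 2) := min_le_right _ _
    rwa [le_div_iff₀ (by positivity)] at this
  obtain ⟨t₁, ht₁, hW1⟩ := ci_near hw hwc hw0 hw1 hη'0
  obtain ⟨t₂, ht₂, hW2⟩ := ci_tendsto hw hwc hη'0
  set M : ℝ := S / t₁ with hM
  have hM0 : 0 < M := by positivity
  set L : ℝ := S + M * t₂ with hL
  have hL0 : 0 < L := by positivity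
  -- the periodic extension
  have hgp : Continuous (fun t => g (tri L t)) := hg.comp (tri_cont L)
  obtain ⟨F, a, b', hab, -⟩ := trig_approx (τ := 2 * L) (by positivity) hgp
    (fun t => by rw [tri_per]) hη'0
  set ν : ℤ → ℝ := fun n => 2 * Real.pi * n / (2 * L) with hν
  have hneg : ∀ t, tri L (-t) = tri L t := by
    intro t; unfold tri; rw [AddCircle.coe_neg, norm_neg]
  have hP : ∀ t, |g (tri L t) - ∑ n ∈ F, a n * Real.cos (ν n * t)| ≤ η' := by
    intro t
    have h1 := hab t
    have h2 := hab (-t)
    simp only [hneg] at h2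
    have e : g (tri L t) - ∑ n ∈ F, a n * Real.cos (ν n * t)
        = ((g (tri L t) - ∑ n ∈ F, (a n * Real.cos (ν n * t) + b' n * Real.sin (ν n * t)))
          + (g (tri L t) - ∑ n ∈ F, (a n * Real.cos (ν n * -t) + b' n * Real.sin (ν n * -t)))) / 2
        := by
      simp only [mul_neg, Real.cos_neg, Real.sin_neg, Finset.sum_add_distrib,
        Finset.sum_neg_distrib]
      ring
    rw [e]
    have h3 := abs_add_le
      (g (tri L t) - ∑ n ∈ F, (a n * Real.cos (ν n * t) + b' n * Real.sin (ν n * t)))
      (g (tri L t) - ∑ n ∈ F, (a n * Real.cos (ν n * -t) + b' n * Real.sin (ν n * -t)))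
    rw [abs_div, abs_two, div_le_iff₀ two_pos]
    linarith
  -- the tent is at least `S` between the supports
  have htri : ∀ t, S ≤ |t| → |t| ≤ 2 * L - S → S ≤ tri L t := by
    intro t h1 h2
    have h3 : tri L t = tri L |t| := by
      rcases abs_choice t with h | h
      · rw [h]
      · rw [h, hneg]
    rw [h3]
    rcases le_total |t| L with h4 | h4
    · rw [tri_eq hL0 ⟨abs_nonneg _, h4⟩]; exact h1
    · have h5 : tri L |t| = tri L (2 * L - |t|) := by
        have h6 := tri_per L (-|t|)
        rw [hneg] at h6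
        rw [← h6]
        congr 1
        ring
      rw [h5, tri_eq hL0 ⟨by linarith, by linarith⟩]
      linarith
  set P : ℝ → ℝ := fun t => ∑ n ∈ F, a n * Real.cos (ν n * t) with hPdef
  have hPb : ∀ t, |P t| ≤ G + η' := by
    intro t
    have h1 := hP t
    have h2 := hG (tri L t)
    have h3 : P t = g (tri L t) - (g (tri L t) - P t) := by ring
    rw [h3]
    exact (abs_sub _ _).trans (add_le_add h2 h1)
  have hmain : ∀ t, |g t - P t * ci w (t / M)| ≤ η := by
    intro t
    have hWle := ci_le hw hwc hw0 hw1 (t / M)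
    by_cases h1 : |t| ≤ S
    · have h2 : |t / M| ≤ t₁ := by
        rw [abs_div, abs_of_pos hM0, div_le_iff₀ hM0, hM]
        have : t₁ * (S / t₁) = S := by field_simp
        rw [this]; exact h1
      have h3 := hW1 _ h2
      have h4 : g (tri L t) = g t := by
        have h5 : tri L t = |t| := by
          rcases abs_choice t with h | h
          · rw [h, tri_eq hL0]
            refine ⟨by rw [← h]; exact abs_nonneg _, ?_⟩
            rw [← h]
            have : 0 ≤ M * t₂ := by positivity
            linarith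
          · rw [h, ← hneg, tri_eq hL0]
            refine ⟨by rw [← h]; exact abs_nonneg _, ?_⟩
            rw [← h]
            have : 0 ≤ M * t₂ := by positivity
            linarith
        rw [h5]
        rcases abs_choice t with h | h
        · rw [h]
        · rw [h, hge]
      have h5 := hP t
      rw [h4] at h5
      have e : g t - P t * ci w (t / M) = (g t - P t) + P t * (1 - ci w (t / M)) := by ring
      rw [e]
      refine (abs_add_le _ _).trans ?_
      rw [abs_mul]
      have h6 : |1 - ci w (t / M)| ≤ η' := by rw [abs_sub_comm]; exact h3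
      have h7 := hPb t
      have h8 : |P t| * |1 - ci w (t / M)| ≤ (G + η') * η' := by gcongr
      have h9 : (G + η') * η' ≤ (G + 1) * η' := by gcongr
      have h10 : |g t - P t| ≤ η' := h5
      nlinarith
    · push Not at h1
      rw [hgS t h1.le, zero_sub, abs_neg, abs_mul]
      by_cases h2 : |t| ≤ 2 * L - S
      · have h3 := hP t
        rw [hgS (tri L t) (by
          rw [abs_of_nonneg (tri_mem hL0 t).1]; exact htri t h1.le h2), zero_sub, abs_neg] at h3
        calc |P t| * |ci w (t / M)| ≤ η' * 1 := by gcongr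
          _ ≤ η' * (G + 2) := by gcongr; linarith
          _ ≤ η := hη'2
      · push Not at h2
        have h3 : t₂ ≤ |t / M| := by
          rw [abs_div, abs_of_pos hM0, le_div_iff₀ hM0]
          have : 0 ≤ M * t₂ := by positivity
          nlinarith
        have h4 := hW2 _ h3
        calc |P t| * |ci w (t / M)| ≤ (G + η') * η' := by
              have := hPb t
              gcongr
          _ ≤ (G + 2) * η' := by gcongr; linarith
          _ ≤ η := by linarith
  refine ⟨fun y => ∑ n ∈ F, a n / 2 * (M * w (M * (y - ν n)) + M * w (M * (y + ν n))), ?_, ?_, ?_⟩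
  · refine ContDiff.sum fun n _ => contDiff_const.mul ?_
    exact (contDiff_const.mul (hws.comp (contDiff_const.mul (contDiff_id.sub contDiff_const)))).add
      (contDiff_const.mul (hws.comp (contDiff_const.mul (contDiff_id.add contDiff_const))))
  · have hs1 : ∀ ν : ℝ, HasCompactSupport (fun y => M * w (M * (y - ν))) := by
      intro ν
      refine HasCompactSupport.mul_left ?_
      let e : ℝ ≃ₜ ℝ := (Homeomorph.subRight ν).trans (Homeomorph.mulLeft₀ M hM0.ne')
      exact hwc.comp_homeomorph e
    have hs2 : ∀ n, HasCompactSupport (fun y => a n / 2 * (M * w (M * (y - ν n))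
        + M * w (M * (y + ν n)))) := by
      intro n
      refine HasCompactSupport.mul_left ?_
      refine (hs1 (ν n)).add ?_
      have := hs1 (-ν n)
      simpa only [sub_neg_eq_add] using this
    have hs3 : ∀ F' : Finset ℤ, HasCompactSupport (fun y => ∑ n ∈ F', a n / 2 *
        (M * w (M * (y - ν n)) + M * w (M * (y + ν n)))) := by
      intro F'
      induction F' using Finset.induction_on with
      | empty => simp only [Finset.sum_empty]; exact HasCompactSupport.zero
      | insert n F' hn ih =>
        simp only [Finset.sum_insert hn]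
        exact (hs2 n).add ih
    exact hs3 F
  · intro t
    have e : ci (fun y => ∑ n ∈ F, a n / 2 * (M * w (M * (y - ν n)) + M * w (M * (y + ν n)))) t
        = P t * ci w (t / M) := by
      have e1 : ∀ y : ℝ, (∑ n ∈ F, a n / 2 * (M * w (M * (y - ν n)) + M * w (M * (y + ν n))))
          * Real.cos (y * t) = ∑ n ∈ F, a n / 2 * ((M * w (M * (y - ν n))
          + M * w (M * (y + ν n))) * Real.cos (y * t)) := by
        intro y
        rw [Finset.sum_mul]
        refine Finset.sum_congr rfl fun n _ => ?_
        ring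
      have e0 : ci (fun y => ∑ n ∈ F, a n / 2 * (M * w (M * (y - ν n))
          + M * w (M * (y + ν n)))) t = ∫ y, ∑ n ∈ F, a n / 2 * ((M * w (M * (y - ν n))
          + M * w (M * (y + ν n))) * Real.cos (y * t)) := by
        unfold ci
        simp only [e1]
      rw [e0, integral_finsetSum, hPdef, Finset.sum_mul]
      · refine Finset.sum_congr rfl fun n _ => ?_
        rw [integral_const_mul, ci_shift hw hwc hM0]
        ring
      · intro n _
        refine Integrable.const_mul ?_ _
        have hc : Continuous (fun y => M * w (M * (y - ν n)) + M * w (M * (y + ν n))) :=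
          (continuous_const.mul (hw.comp (by fun_prop))).add
            (continuous_const.mul (hw.comp (by fun_prop)))
        have hs1 : ∀ ν : ℝ, HasCompactSupport (fun y => M * w (M * (y - ν))) := by
          intro ν
          refine HasCompactSupport.mul_left ?_
          let e : ℝ ≃ₜ ℝ := (Homeomorph.subRight ν).trans (Homeomorph.mulLeft₀ M hM0.ne')
          exact hwc.comp_homeomorph e
        have hs2 : HasCompactSupport (fun y => M * w (M * (y - ν n)) + M * w (M * (y + ν n))) := by
          refine (hs1 (ν n)).add ?_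
          have := hs1 (-ν n)
          simpa only [sub_neg_eq_add] using this
        exact (hc.mul (by fun_prop)).integrable_of_hasCompactSupport hs2.mul_right
    rw [e]
    exact hmain t

/-- the radial density -/
theorem spectral_radial {g : ℝ → ℝ} (hg : Continuous g) (hge : ∀ t, g (-t) = g t) {S : ℝ}
    (hS : 0 < S) (hgS : ∀ t, S ≤ |t| → g t = 0) {d c₁ : ℝ} (hd : 0 < d) (hc₁ : 0 < c₁) {η : ℝ}
    (hη : 0 < η) : ∃ (ν κ : ℝ) (B : ℝ → ℝ), 0 < ν ∧ 0 < κ ∧ RP d B ∧ (∀ R, R ≤ κ → B R = 0) ∧
      ∀ t, |g t - c₁ * ∫ R in (0 : ℝ)..d, B R * Real.cos (ν * R * t) * R| ≤ η := by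
  obtain ⟨b, hbs, hbc, hbg⟩ := spectral hg hge hS hgS (η := η / 2) (by positivity)
  have hb := hbs.continuous
  obtain ⟨Λ₀, hΛ₀⟩ := hbc.isCompact.isBounded.exists_norm_le
  set Λ : ℝ := |Λ₀| + 1 with hΛ
  have hΛ0 : 0 < Λ := by positivity
  have hbz : ∀ y, Λ ≤ |y| → b y = 0 := by
    intro y hy
    by_contra hne
    have h2 := hΛ₀ y (subset_tsupport _ hne)
    rw [Real.norm_eq_abs] at h2
    linarith [le_abs_self Λ₀]
  obtain ⟨Bm, hBm⟩ : ∃ C, ∀ y, ‖b y‖ ≤ C := hbc.exists_bound_of_continuous hb
  have hBm0 : 0 ≤ Bm := (norm_nonneg _).trans (hBm 0)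
  set be : ℝ → ℝ := fun y => b y + b (-y) with hbe
  have hbes : ContDiff ℝ ∞ be := hbs.add (hbs.comp contDiff_neg)
  have hbec := hbes.continuous
  have hbez : ∀ y, Λ ≤ |y| → be y = 0 := by
    intro y hy
    simp only [hbe]
    rw [hbz y hy, hbz (-y) (by rwa [abs_neg]), add_zero]
  have hbeb : ∀ y, |be y| ≤ 2 * Bm := by
    intro y
    have h1 := hBm y; have h2 := hBm (-y)
    rw [Real.norm_eq_abs] at h1 h2
    simp only [hbe]
    have := abs_add_le (b y) (b (-y))
    linarith
  have hci : ∀ t, ci b t = ∫ y in (0 : ℝ)..Λ, be y * Real.cos (y * t) := by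
    intro t
    have h1 : ∫ y in (-Λ)..Λ, b y * Real.cos (y * t) = ci b t := by
      refine intervalIntegral.integral_eq_integral_of_support_subset fun y hy => ?_
      have h2 : b y ≠ 0 := by
        intro h0
        apply hy
        simp [h0]
      by_contra hcon
      apply h2
      apply hbz
      rw [mem_Ioc, not_and_or, not_lt, not_le] at hcon
      rcases hcon with h | h
      · rw [abs_of_nonpos (by linarith)]; linarith
      · rw [abs_of_pos (by linarith)]; exact h.le
    have hint : ∀ u v : ℝ, IntervalIntegrable (fun y => b y * Real.cos (y * t)) volume u v :=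
      fun u v => (hb.mul (by fun_prop)).intervalIntegrable _ _
    have hint2 : ∀ u v : ℝ, IntervalIntegrable (fun y => b (-y) * Real.cos (y * t)) volume u v :=
      fun u v => ((hb.comp continuous_neg).mul (by fun_prop)).intervalIntegrable _ _
    have h3 := intervalIntegral.integral_comp_neg (a := 0) (b := Λ)
      (fun y => b y * Real.cos (y * t))
    rw [neg_zero] at h3
    rw [← h1, ← intervalIntegral.integral_add_adjacent_intervals (hint (-Λ) 0) (hint 0 Λ), ← h3,
      ← intervalIntegral.integral_add _ (hint 0 Λ)]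
    · refine intervalIntegral.integral_congr fun y _ => ?_
      simp only [hbe]
      rw [neg_mul, Real.cos_neg]
      ring
    · refine (hint2 0 Λ).congr ?_
      intro y _
      simp only
      rw [neg_mul, Real.cos_neg]
  -- the cut-off
  set κ₀ : ℝ := min (Λ / 2) (η / (8 * (Bm + 1))) with hκ₀
  have hκ₀0 : 0 < κ₀ := lt_min (by positivity) (by positivity)
  have hκ₀1 : 2 * κ₀ ≤ Λ := by
    have : κ₀ ≤ Λ / 2 := min_le_left _ _
    linarith
  have hκ₀2 : κ₀ * (8 * (Bm + 1)) ≤ η := by
    have : κ₀ ≤ η / (8 * (Bm + 1)) := min_le_right _ _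
    rwa [le_div_iff₀ (by positivity)] at this
  set χ : ℝ → ℝ := fun y => Real.smoothTransition (y / κ₀ - 1) with hχ
  have hχs : ContDiff ℝ ∞ χ :=
    Real.smoothTransition.contDiff.comp ((contDiff_id.div_const _).sub contDiff_const)
  have hχc := hχs.continuous
  have hχ0 : ∀ y, y ≤ κ₀ → χ y = 0 := by
    intro y hy
    apply Real.smoothTransition.zero_of_nonpos
    have : y / κ₀ ≤ 1 := by rw [div_le_one hκ₀0]; exact hy
    linarith
  have hχ1 : ∀ y, 2 * κ₀ ≤ y → χ y = 1 := by
    intro y hy
    apply Real.smoothTransition.one_of_one_le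
    have : 2 ≤ y / κ₀ := by rw [le_div_iff₀ hκ₀0]; exact hy
    linarith
  have hχ01 : ∀ y, |1 - χ y| ≤ 1 := by
    intro y
    have h1 := Real.smoothTransition.nonneg (y / κ₀ - 1)
    have h2 := Real.smoothTransition.le_one (y / κ₀ - 1)
    simp only [hχ]
    rw [abs_of_nonneg (by linarith)]
    linarith
  have hcut : ∀ t, |(∫ y in (0 : ℝ)..Λ, be y * Real.cos (y * t))
      - ∫ y in (0 : ℝ)..Λ, (be y * χ y) * Real.cos (y * t)| ≤ η / 2 := by
    intro t
    have i1 : ∀ u v : ℝ, IntervalIntegrable (fun y => be y * Real.cos (y * t)) volume u v :=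
      fun u v => (hbec.mul (by fun_prop)).intervalIntegrable _ _
    have i2 : ∀ u v : ℝ, IntervalIntegrable (fun y => (be y * χ y) * Real.cos (y * t)) volume u v :=
      fun u v => ((hbec.mul hχc).mul (by fun_prop)).intervalIntegrable _ _
    rw [← intervalIntegral.integral_sub (i1 _ _) (i2 _ _)]
    have i3 : ∀ u v : ℝ, IntervalIntegrable (fun y => be y * Real.cos (y * t)
        - (be y * χ y) * Real.cos (y * t)) volume u v := fun u v => (i1 u v).sub (i2 u v)
    rw [← intervalIntegral.integral_add_adjacent_intervals (i3 0 (2 * κ₀)) (i3 (2 * κ₀) Λ)]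
    have h1 : ∫ y in (2 * κ₀)..Λ, (be y * Real.cos (y * t)
        - (be y * χ y) * Real.cos (y * t)) = 0 := by
      rw [intervalIntegral.integral_zero_ae]
      refine Filter.Eventually.of_forall fun y hy => ?_
      rw [uIoc_of_le hκ₀1] at hy
      rw [hχ1 y hy.1.le]; ring
    rw [h1, add_zero]
    have h2 := intervalIntegral.norm_integral_le_of_norm_le_const (a := 0) (b := 2 * κ₀)
      (f := fun y => be y * Real.cos (y * t) - (be y * χ y) * Real.cos (y * t)) (C := 2 * Bm)
      (fun y _ => by
        have e : be y * Real.cos (y * t) - (be y * χ y) * Real.cos (y * t)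
            = be y * (1 - χ y) * Real.cos (y * t) := by ring
        rw [e, Real.norm_eq_abs, abs_mul, abs_mul]
        calc |be y| * |1 - χ y| * |Real.cos (y * t)| ≤ (2 * Bm) * 1 * 1 := by
              have := hbeb y; have := hχ01 y; have := Real.abs_cos_le_one (y * t)
              gcongr
          _ = 2 * Bm := by ring)
    rw [Real.norm_eq_abs, sub_zero, abs_of_pos (show 0 < 2 * κ₀ by positivity)] at h2
    refine h2.trans ?_
    nlinarith
  -- the profile
  set ν : ℝ := Λ / d with hν
  have hν0 : 0 < ν := by positivity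
  have hνd : ν * d = Λ := by rw [hν]; field_simp
  set B : ℝ → ℝ := fun R => ν * (be (ν * R) * χ (ν * R)) * (c₁ * R)⁻¹ with hB
  have hBκ : ∀ R, R ≤ κ₀ / ν → B R = 0 := by
    intro R hR
    rw [le_div_iff₀ hν0] at hR
    simp only [hB]
    rw [hχ0 (ν * R) (by linarith)]
    ring
  have hκ0 : 0 < κ₀ / ν := by positivity
  have hBrp : RP d B := by
    refine ⟨?_, fun R hR => ?_⟩
    · rw [contDiff_iff_contDiffAt]
      intro R
      rcases lt_or_ge R (κ₀ / ν) with hR | hR
      · refine (contDiffAt_const (c := (0 : ℝ))).congr_of_eventuallyEq ?_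
        filter_upwards [gt_mem_nhds hR] with s hs
        exact hBκ s hs.le
      · have hR0 : 0 < R := hκ0.trans_le hR
        have hsm : ContDiff ℝ ∞ (fun R : ℝ => ν * (be (ν * R) * χ (ν * R))) :=
          contDiff_const.mul ((hbes.comp (contDiff_const.mul contDiff_id)).mul
            (hχs.comp (contDiff_const.mul contDiff_id)))
        exact hsm.contDiffAt.mul ((contDiffAt_const.mul contDiffAt_id).inv
          (mul_pos hc₁ hR0).ne')
    · simp only [hB]
      rw [hbez (ν * R) (by
        have h0 : 0 ≤ ν * R := mul_nonneg hν0.le (hd.le.trans hR)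
        rw [abs_of_nonneg h0, ← hνd]
        gcongr)]
      ring
  refine ⟨ν, κ₀ / ν, B, hν0, hκ0, hBrp, hBκ, fun t => ?_⟩
  have h1 : c₁ * ∫ R in (0 : ℝ)..d, B R * Real.cos (ν * R * t) * R
      = ∫ y in (0 : ℝ)..Λ, (be y * χ y) * Real.cos (y * t) := by
    rw [← intervalIntegral.integral_const_mul]
    have h2 : ∀ R : ℝ, c₁ * (B R * Real.cos (ν * R * t) * R)
        = ν * ((be (ν * R) * χ (ν * R)) * Real.cos ((ν * R) * t)) := by
      intro R
      by_cases hR : R = 0
      · subst hR
        have h3 : χ (ν * 0) = 0 := hχ0 _ (by rw [mul_zero]; exact hκ₀0.le)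
        rw [h3]; ring
      · simp only [hB]
        have := hc₁.ne'
        field_simp
    simp only [h2]
    rw [intervalIntegral.integral_const_mul, intervalIntegral.integral_comp_mul_left
      (fun y => (be y * χ y) * Real.cos (y * t)) hν0.ne', mul_zero, hνd, smul_eq_mul,
      ← mul_assoc, mul_inv_cancel₀ hν0.ne', one_mul]
  rw [h1]
  have h2 := hbg t
  have h3 := hcut t
  rw [← hci t] at h3
  have e : g t - ∫ y in (0 : ℝ)..Λ, (be y * χ y) * Real.cos (y * t)
      = (g t - ci b t) + (ci b t - ∫ y in (0 : ℝ)..Λ, (be y * χ y) * Real.cos (y * t)) := by ring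
  rw [e]
  refine (abs_add_le _ _).trans ?_
  linarith

end Pool.Agent.Zk27.UE
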