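import Pool.Agent.Zk27.UE.VMean
import Pool.Agent.Zk27.UE.VApprox
import Pool.Agent.Zk27.UE.Static

/-!
# Solutions in one tube whose low modes follow a function which decays
-/

open MeasureTheory Set
open scoped ENNReal NNReal Topology Pointwise ContDiff

set_option autoImplicit false

namespace Pool.Agent.Zk27.UE

open Pool.Agent.H708R2.EulerSign Pool.Agent.H708R2.EulerModes
open Pool.Agent.R739.ET (RP pA pA_rp pA_pos fine_resc periodic_resc)

/-- a solution in a tube whose low modes are those of `a(t) cos (k · x - φ) ξ`, where `a` is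
uniformly close to `g` -/
structure VAtom (ξ k : Fin 3 → ℤ) (φ : ℝ) (g : ℝ → ℝ) (c : V) (δ : ℝ) (N : ℕ) (C η : ℝ)
    (F : ℝ → V → V) (P : V → ℝ) : Prop where
  sol : Sol F P
  supp : ∀ t x, δ ≤ nr (Z ξ c N x) → F t x = 0
  bound : ∀ t x i, |F t x i| ≤ C * N
  modes : ∃ a : ℝ → ℝ, (∀ t, |a t - g t| ≤ η) ∧
    ∀ t (l : Fin 3 → ℤ), (∀ i, |l i| + |k i| < N) → ∀ (i : Fin 3) (ψ : ℝ),
      ∫ x in Dom, F t x i * Real.cos (ph l x - ψ)
        = a t * ξ i * ∫ x in Dom, Real.cos (ph k x - φ) * Real.cos (ph l x - ψ)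

lemma rp_mul {d : ℝ} {k g : ℝ → ℝ} (hk : RP d k) (hg : ContDiff ℝ ∞ g) :
    RP d (fun R => k R * g R) :=
  ⟨hk.smooth.mul hg, fun R hR => by rw [hk.van R hR, zero_mul]⟩

lemma sin_near {n y : ℝ} (hn : 0 < n) (hy : |y| ≤ n) :
    |n * Real.sin (n⁻¹ * y) - y| ≤ y ^ 2 / n := by
  set x := n⁻¹ * y with hx
  have hx1 : |x| ≤ 1 := by
    rw [hx, abs_mul, abs_of_pos (inv_pos.2 hn), inv_mul_le_iff₀ hn]
    linarith
  have hyx : y = n * x := by rw [hx]; field_simp
  have h1 := Real.sin_bound hx1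
  have h2 : |Real.sin x - x| ≤ x ^ 2 := by
    have e : Real.sin x - x = (Real.sin x - (x - x ^ 3 / 6)) - x ^ 3 / 6 := by ring
    rw [e]
    refine (abs_sub _ _).trans ?_
    have h3 : |x ^ 3 / 6| = |x| ^ 3 / 6 := by
      rw [abs_div, abs_pow, abs_of_pos (show (0 : ℝ) < 6 by norm_num)]
    rw [h3, ← sq_abs x]
    have h0 := abs_nonneg x
    have h00 := sq_nonneg |x|
    have h4 : |x| ^ 3 ≤ |x| ^ 2 := by
      have : |x| ^ 3 = |x| ^ 2 * |x| := by ring
      nlinarith [sq_nonneg |x|]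
    have h5 : |x| ^ 5 ≤ |x| ^ 2 := by
      have : |x| ^ 5 = |x| ^ 2 * |x| ^ 3 := by ring
      have h6 : |x| ^ 3 ≤ 1 := pow_le_one₀ h0 hx1
      nlinarith [sq_nonneg |x|]
    linarith [h1, h4, h5, h00]
  rw [hyx]
  have e1 : n * Real.sin x - n * x = n * (Real.sin x - x) := by ring
  rw [e1, abs_mul, abs_of_pos hn]
  have e2 : (n * x) ^ 2 / n = n * x ^ 2 := by field_simp
  rw [e2]
  gcongr

section

variable {δ δ' : ℝ} {A B : ℝ → ℝ} {ξ k : Fin 3 → ℤ} {c : V} {N : ℕ}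

lemma rg_neg (r₀ r₁ : V) (ν t : ℝ) (z : V) : rg A r₀ r₁ ν t (-z) = -rg A r₀ r₁ ν t z := by
  unfold rg
  have e1 : dt r₀ (-z) = -dt r₀ z := by unfold dt; simp only [Pi.neg_apply]; ring
  have e2 : dt r₁ (-z) = -dt r₁ z := by unfold dt; simp only [Pi.neg_apply]; ring
  rw [nr_neg, e1, e2]
  ring

lemma rg_cont (hA : RP δ A) (r₀ r₁ : V) (ν t : ℝ) : Continuous (rg A r₀ r₁ ν t) := by
  have h := rg_smooth r₀ r₁ ν hA
  have h1 : ContDiff ℝ ∞ (fun x : V => ((t, x) : ℝ × V)) := contDiff_const.prodMk contDiff_id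
  exact (h.comp h1).continuous

/-- the modes of the axial velocity with variable rotation -/
lemma wV_modes (hξ : ξ ≠ 0) (hc : dt (rv ξ) c = 0) (hA : RP δ A) (hB : RP δ' B) (hδ : δ' ≤ 1)
    (hN : 0 < N) (φ : ℝ) (κ r₀ : V) (ν t : ℝ) {l : Fin 3 → ℤ} (hkl : ∀ i, |l i| + |k i| < N)
    (ψ : ℝ) :
    ∫ x in Dom, wV A B ξ k φ κ r₀ c N ν t x * Real.cos (ph l x - ψ)
      = (∫ x in Dom, B (nr (Z ξ c 1 x)) * rg A r₀ (r1 ξ r₀) ν t (Z ξ c 1 x)
          * Real.sin (dt κ (Z ξ c 1 x))) / vl *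
        ∫ x in Dom, Real.cos (ph k x - φ) * Real.cos (ph l x - ψ) := by
  set r := rg A r₀ (r1 ξ r₀) ν t with hr
  have hrc : Continuous r := rg_cont hA r₀ (r1 ξ r₀) ν t
  have hBc : Continuous (fun z : V => B (nr z)) :=
    hB.smooth.continuous.comp (nr_contDiff (n := 0)).continuous
  have hκc : Continuous (dt κ) := (dt_contDiff κ (n := 0)).continuous
  have gc1 : Continuous (fun z => B (nr z) * r z * Real.cos (dt κ z)) :=
    (hBc.mul hrc).mul (Real.continuous_cos.comp hκc)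
  have gc2 : Continuous (fun z => B (nr z) * r z * Real.sin (dt κ z)) :=
    (hBc.mul hrc).mul (Real.continuous_sin.comp hκc)
  have gv1 : ∀ z : V, 1 ≤ nr z → B (nr z) * r z * Real.cos (dt κ z) = 0 := by
    intro z hz; rw [hB.van _ (hδ.trans hz)]; ring
  have gv2 : ∀ z : V, 1 ≤ nr z → B (nr z) * r z * Real.sin (dt κ z) = 0 := by
    intro z hz; rw [hB.van _ (hδ.trans hz)]; ring
  set h1 : V → ℝ := fun x => B (nr (Z ξ c N x)) * r (Z ξ c N x) * Real.cos (dt κ (Z ξ c N x))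
    with hh1
  set h2 : V → ℝ := fun x => B (nr (Z ξ c N x)) * r (Z ξ c N x) * Real.sin (dt κ (Z ξ c N x))
    with hh2
  have p1 : Periodic3 h1 := gz_per (fun z => B (nr z) * r z * Real.cos (dt κ z)) N
  have p2 : Periodic3 h2 := gz_per (fun z => B (nr z) * r z * Real.sin (dt κ z)) N
  have c1 : Continuous h1 := gz_cont gc1 gv1 N
  have c2 : Continuous h2 := gz_cont gc2 gv2 N
  have f1 : ∀ (i : Fin 3) (x : V), h1 (x + Pi.single i (2 * Real.pi / N)) = h1 x := by
    intro i x; simp only [hh1]; rw [Z_fine ξ c hN i x]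
  have f2 : ∀ (i : Fin 3) (x : V), h2 (x + Pi.single i (2 * Real.pi / N)) = h2 x := by
    intro i x; simp only [hh2]; rw [Z_fine ξ c hN i x]
  have m1 : ∫ x in Dom, h1 x = 0 := by
    refine odd_mean hξ hc (g := fun z => B (nr z) * r z * Real.cos (dt κ z)) ?_ gv1 gc1 hN
    intro z
    have e2 : dt κ (-z) = -dt κ z := by unfold dt; simp only [Pi.neg_apply]; ring
    rw [nr_neg, hr, rg_neg, e2, Real.cos_neg]
    ring
  have m2 : ∫ x in Dom, h2 x = ∫ x in Dom, B (nr (Z ξ c 1 x)) * r (Z ξ c 1 x)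
      * Real.sin (dt κ (Z ξ c 1 x)) := gz_dilate gc2 gv2 hN
  have e : ∀ x, wV A B ξ k φ κ r₀ c N ν t x * Real.cos (ph l x - ψ)
      = h2 x * (Real.cos (ph k x - φ) * Real.cos (ph l x - ψ))
        - h1 x * (Real.cos (ph k x - (φ + Real.pi / 2)) * Real.cos (ph l x - ψ)) := by
    intro x
    have e1 : Real.cos (ph k x - (φ + Real.pi / 2)) = Real.sin (ph k x - φ) := by
      have : ph k x - (φ + Real.pi / 2) = (ph k x - φ) - Real.pi / 2 := by ring
      rw [this, Real.cos_sub_pi_div_two]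
    rw [e1]
    simp only [hh1, hh2]
    unfold wV Fv
    rw [Real.sin_sub (ph k x - φ), ← hr]
    ring
  have pp : ∀ φ', Periodic3 (fun x => Real.cos (ph k x - φ') * Real.cos (ph l x - ψ)) :=
    fun φ' => Periodic3.mul' (cosp_periodic k φ') (cosp_periodic l ψ)
  have cc : ∀ φ', Continuous (fun x : V => Real.cos (ph k x - φ') * Real.cos (ph l x - ψ)) :=
    fun φ' => (cosp_cont k φ').mul (cosp_cont l ψ)
  simp only [e]
  rw [integral_sub ((Periodic3.mul' p2 (pp φ)).integrableOn (c2.mul (cc φ)))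
    ((Periodic3.mul' p1 (pp _)).integrableOn (c1.mul (cc _))),
    fine_prod p2 c2 hN f2 hkl, fine_prod p1 c1 hN f1 hkl, m1, m2]
  ring

end

theorem exists_var {ξ k : Fin 3 → ℤ} (hξ : ξ ≠ 0) (hk0 : k ≠ 0) (hk : dt (rv k) (rv ξ) = 0)
    (φ : ℝ) {g : ℝ → ℝ} (hg : Continuous g) (hge : ∀ t, g (-t) = g t) {S : ℝ}
    (hS : 0 < S) (hgS : ∀ t, S ≤ |t| → g t = 0) {c : V} (hc : dt (rv ξ) c = 0) {δ : ℝ}
    (hδ0 : 0 < δ) (hδ : δ ≤ 1) {η : ℝ} (hη : 0 < η) :
    ∃ C : ℝ, 0 ≤ C ∧ ∃ N₀ : ℕ, ∀ N, N₀ ≤ N →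
      ∃ (F : ℝ → V → V) (P : V → ℝ), VAtom ξ k φ g c δ N C η F P := by
  have hq := q_pos hξ
  have hq1 := one_le_q hξ
  set s : ℝ := Real.sqrt (q ξ) with hs
  have hs1 : 1 ≤ s := by rw [hs, Real.one_le_sqrt]; exact hq1
  have hs0 : 0 < s := by linarith
  have hs2 : s ^ 2 = q ξ := Real.sq_sqrt hq.le
  have hvl := vl_pos
  have hkξ : dt (rv ξ) (rv k) = 0 := by rw [dt_comm]; exact hk
  obtain ⟨κ, hJκ, hκξ⟩ : ∃ κ, J ξ κ = -rv k ∧ dt (rv ξ) κ = 0 := by
    refine ⟨(q ξ)⁻¹ • J ξ (rv k), ?_, ?_⟩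
    · rw [map_smul, JJ ξ _ hkξ, smul_smul, mul_neg, inv_mul_cancel₀ hq.ne', neg_smul, one_smul]
    · rw [dt_smul_right, dt_rv_J, mul_zero]
  have hκ0 : κ ≠ 0 := by
    intro h
    rw [h, map_zero] at hJκ
    apply hk0
    have : rv k = 0 := by rw [← neg_eq_zero]; exact hJκ.symm
    ext i
    have h1 := congrFun this i
    simp only [rv, Pi.zero_apply] at h1
    exact_mod_cast h1
  have hnκ := nr_pos hκ0
  -- the radius
  set d : ℝ := min (δ / 2) (1 / q ξ) with hd
  have hd0 : 0 < d := lt_min (by positivity) (by positivity)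
  have hdδ : d ≤ δ / 2 := min_le_left _ _
  have hd1 : d ≤ 1 := by linarith
  have hdq : d * q ξ < 4 * Real.pi ^ 2 := by
    have h1 : d ≤ 1 / q ξ := min_le_right _ _
    rw [le_div_iff₀ hq] at h1
    have h2 := Real.pi_gt_three
    nlinarith
  obtain ⟨c₁, hc₁, hrad⟩ := radial_integral hξ hc hd0 hd1 hdq
  have hc' : 0 < nr κ / 2 * c₁ / vl := by positivity
  obtain ⟨ν, κ₀, B, hν, hκ₀, hBrp, hBκ, hBg⟩ := spectral_radial hg hge hS hgS hd0 hc'
    (η := η / 2) (by positivity)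
  set A : ℝ → ℝ := fun R => Ac δ R * R with hA
  have hArp : RP δ A := rp_mul (Ac_rp hδ0) contDiff_id
  have hAd : ∀ R, R ≤ d → A R = R := by
    intro R hR
    simp only [hA]
    rw [Ac_one hδ0 (hR.trans hdδ), one_mul]
  set r₁ : V := r1 ξ κ with hr₁
  -- the limit
  have hlim : ∀ t, ∫ x in Dom, B (nr (Z ξ c 1 x)) * rg A κ r₁ ν t (Z ξ c 1 x)
      * dt κ (Z ξ c 1 x) = nr κ / 2 * c₁ * ∫ R in (0 : ℝ)..d, B R * Real.cos (ν * R * t) * R := by
    intro t
    have hAs : ContDiff ℝ ∞ (fun R => ν * A R * t) :=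
      (contDiff_const.mul hArp.smooth).mul contDiff_const
    have hH1 : RP d (fun R => B R * Real.cos (ν * A R * t)) :=
      rp_mul hBrp (Real.contDiff_cos.comp hAs)
    have hH2 : RP d (fun R => B R * Real.sin (ν * A R * t)) :=
      rp_mul hBrp (Real.contDiff_sin.comp hAs)
    obtain ⟨q1, -⟩ := radial_quad hξ hc hd1 hdq hH1 hκξ
    obtain ⟨-, q2⟩ := radial_quad hξ hc hd1 hdq hH2 hκξ
    have e : ∀ x, B (nr (Z ξ c 1 x)) * rg A κ r₁ ν t (Z ξ c 1 x) * dt κ (Z ξ c 1 x)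
        = B (nr (Z ξ c 1 x)) * Real.cos (ν * A (nr (Z ξ c 1 x)) * t) * dt κ (Z ξ c 1 x) ^ 2
          + s⁻¹ * (B (nr (Z ξ c 1 x)) * Real.sin (ν * A (nr (Z ξ c 1 x)) * t)
            * (dt κ (Z ξ c 1 x) * dt (J ξ κ) (Z ξ c 1 x))) := by
      intro x
      unfold rg
      rw [hr₁, r1, ← hs, dt_smul_left]
      ring
    simp only [e]
    have hcz : ∀ (f : ℝ → ℝ) (G : V → ℝ), RP d f → Continuous G →
        IntegrableOn (fun x => f (nr (Z ξ c 1 x)) * G (Z ξ c 1 x)) Dom := by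
      intro f G hf hG
      exact gz_int (g := fun z => f (nr z) * G z)
        ((hf.smooth.continuous.comp (nr_contDiff (n := 0)).continuous).mul hG)
        (fun z hz => by rw [hf.van _ (hd1.trans hz), zero_mul]) 1
    have i1 := hcz _ (fun z => dt κ z ^ 2) hH1 ((dt_contDiff κ (n := 0)).continuous.pow 2)
    have i2 := hcz _ (fun z => dt κ z * dt (J ξ κ) z) hH2
      ((dt_contDiff κ (n := 0)).continuous.mul (dt_contDiff (J ξ κ) (n := 0)).continuous)
    rw [integral_add i1 (i2.const_mul _), integral_const_mul, q1, q2, mul_zero, add_zero]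
    have h3 : RP d (fun R => B R * Real.cos (ν * A R * t) * R) := rp_mul hH1 contDiff_id
    have h4 := hrad _ h3 κ₀ hκ₀ (fun R hR => by rw [hBκ R hR]; ring)
    rw [h4]
    have h5 : ∫ R in (0 : ℝ)..d, B R * Real.cos (ν * A R * t) * R
        = ∫ R in (0 : ℝ)..d, B R * Real.cos (ν * R * t) * R := by
      refine intervalIntegral.integral_congr fun R hR => ?_
      rw [uIcc_of_le hd0.le] at hR
      rw [hAd R hR.2]
    rw [h5]
    ring
  -- bounds
  obtain ⟨Bm, hBm⟩ : ∃ Bm, ∀ R, 0 ≤ R → |B R| ≤ Bm := by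
    obtain ⟨C, hC⟩ := isCompact_Icc.exists_bound_of_continuousOn (s := Icc (0 : ℝ) d)
      hBrp.smooth.continuous.continuousOn
    refine ⟨max C 0, fun R hR => ?_⟩
    rcases le_total R d with h | h
    · have := hC R ⟨hR, h⟩
      rw [Real.norm_eq_abs] at this
      exact this.trans (le_max_left _ _)
    · rw [hBrp.van R h, abs_zero]
      exact le_max_right _ _
  have hBm0 : 0 ≤ Bm := (abs_nonneg _).trans (hBm 0 le_rfl)
  set K₁ : ℝ := |κ 0| + |κ 1| + |κ 2| with hK₁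
  set R₁ : ℝ := |r₁ 0| + |r₁ 1| + |r₁ 2| with hR₁
  have hK₁0 : 0 ≤ K₁ := by positivity
  have hR₁0 : 0 ≤ R₁ := by positivity
  have hrgb : ∀ t z, nr z ≤ 1 → |rg A κ r₁ ν t z| ≤ K₁ + R₁ := by
    intro t z hz
    unfold rg
    refine (abs_add_le _ _).trans ?_
    rw [abs_mul, abs_mul]
    have h1 := abs_dt_le κ z hz
    have h2 := abs_dt_le r₁ z hz
    have h3 := Real.abs_cos_le_one (ν * A (nr z) * t)
    have h4 := Real.abs_sin_le_one (ν * A (nr z) * t)
    calc |Real.cos (ν * A (nr z) * t)| * |dt κ z| + |Real.sin (ν * A (nr z) * t)| * |dt r₁ z|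
        ≤ 1 * K₁ + 1 * R₁ := by gcongr
      _ = K₁ + R₁ := by ring
  set X : ℝ := |(ξ 0 : ℝ)| + |(ξ 1 : ℝ)| + |(ξ 2 : ℝ)| with hX
  have hX0 : 0 ≤ X := by positivity
  set Cw : ℝ := Bm * (K₁ + R₁) with hCw
  have hCw0 : 0 ≤ Cw := by positivity
  refine ⟨|ν| + Cw * X, by positivity, ⌈K₁⌉₊ + 1 + ⌈Cw * K₁ ^ 2 * (2 / η)⌉₊, fun N hN => ?_⟩
  have hN0 : 0 < N := by omega
  have hNr : (1 : ℝ) ≤ N := by exact_mod_cast hN0
  have hNr0 : (0 : ℝ) < N := by linarith
  have hKN : K₁ ≤ N := (Nat.le_ceil K₁).trans (by exact_mod_cast (by omega : ⌈K₁⌉₊ ≤ N))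
  have hηN : Cw * K₁ ^ 2 / N ≤ η / 2 := by
    have h1 : Cw * K₁ ^ 2 * (2 / η) ≤ N := (Nat.le_ceil _).trans
      (by exact_mod_cast (by omega : ⌈Cw * K₁ ^ 2 * (2 / η)⌉₊ ≤ N))
    rw [div_le_iff₀ hNr0]
    have h2 : Cw * K₁ ^ 2 = Cw * K₁ ^ 2 * (2 / η) * (η / 2) := by field_simp
    rw [h2]
    nlinarith
  set κ' : V := (N : ℝ)⁻¹ • κ with hκ'
  have hκ'J : (N : ℝ) • J ξ κ' = -rv k := by
    rw [hκ', map_smul, smul_smul, mul_inv_cancel₀ hNr0.ne', one_smul, hJκ]
  have hNB : RP d (fun R => B R * N) := rp_mul hBrp contDiff_const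
  have hax := wV_axial (A := A) (B := fun R => B R * N) (ν := ν) (r₀ := κ) (κ := κ') φ c hξ hN0 hk
    hκξ hκ'J (by linarith : d ≤ δ) hδ hArp hNB
  set w := wV A (fun R => B R * N) ξ k φ κ' κ c N ν with hw
  have hbw : ∀ t x', |w t x'| ≤ Cw * N := by
    intro t x'
    rw [hw]
    unfold wV Fv
    simp only
    set z := Z ξ c N x' with hz
    by_cases h : nr z ≤ 1
    · rw [abs_neg, abs_mul, abs_mul, abs_mul, abs_of_pos hNr0]
      have h1 : |B (nr z)| ≤ Bm := hBm _ (nr_nonneg _)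
      have h2 := Real.abs_sin_le_one (ph k x' - φ - dt κ' z)
      have h3 := hrgb t z h
      rw [← hr₁]
      calc |B (nr z)| * N * |rg A κ r₁ ν t z| * |Real.sin (ph k x' - φ - dt κ' z)|
          ≤ Bm * N * (K₁ + R₁) * 1 := by gcongr
        _ = Cw * N := by rw [hCw]; ring
    · push Not at h
      rw [hBrp.van _ (hd1.trans h.le)]
      simp only [zero_mul, neg_zero, abs_zero]
      positivity
  refine ⟨tubeU A (ν / (N * s)) ξ c N w, PS δ A (ν / (N * s)) ξ c N,
    tube_sol hArp hδ hax, ?_, ?_, ?_⟩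
  · intro t x' hx
    unfold tubeU
    rw [hax.supp t x' hx, Sw_eq, hArp.van _ hx]
    simp
  · intro t x' i
    unfold tubeU
    simp only [Pi.add_apply, Pi.smul_apply, smul_eq_mul]
    refine (abs_add_le _ _).trans ?_
    rw [abs_mul, abs_mul]
    have h1 : |ν / (N * s)| ≤ |ν| := by
      rw [abs_div]
      refine div_le_self (abs_nonneg ν) ?_
      rw [abs_of_pos (by positivity)]
      calc (1 : ℝ) = 1 * 1 := by ring
        _ ≤ N * s := by gcongr
    have h2 : |Sw A ξ c N x' i| ≤ 1 := by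
      rw [Sw_eq]
      simp only [Pi.smul_apply, smul_eq_mul]
      by_cases h : nr (Z ξ c N x') ≤ 1
      · rw [abs_mul]
        have h3 := Z_comp_le h i
        have h4 : |A (nr (Z ξ c N x'))| ≤ 1 := by
          simp only [hA]
          rw [abs_mul, abs_of_nonneg (nr_nonneg _)]
          have := Ac_abs δ (nr (Z ξ c N x'))
          have h0 := nr_nonneg (Z ξ c N x')
          calc |Ac δ (nr (Z ξ c N x'))| * nr (Z ξ c N x') ≤ 1 * 1 := by gcongr
            _ = 1 := by ring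
        calc |A (nr (Z ξ c N x'))| * |Z ξ c N x' i| ≤ 1 * 1 := by gcongr
          _ = 1 := by ring
      · push Not at h
        rw [hArp.van _ (hδ.trans h.le)]
        simp
    have h3 : |rv ξ i| ≤ X := by
      rw [hX]
      have h0 := abs_nonneg (ξ 0 : ℝ); have h1 := abs_nonneg (ξ 1 : ℝ)
      have h2 := abs_nonneg (ξ 2 : ℝ)
      fin_cases i
      · show |(ξ 0 : ℝ)| ≤ _; linarith
      · show |(ξ 1 : ℝ)| ≤ _; linarith
      · show |(ξ 2 : ℝ)| ≤ _; linarith
    calc |ν / (N * s)| * |Sw A ξ c N x' i| + |w t x'| * |rv ξ i|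
        ≤ |ν| * 1 + (Cw * N) * X := by
          have := hbw t x'
          gcongr
      _ ≤ |ν| * N + (Cw * N) * X := by gcongr
      _ = (|ν| + Cw * X) * N := by ring
  · set a : ℝ → ℝ := fun t => (∫ x in Dom, (B (nr (Z ξ c 1 x)) * N) * rg A κ r₁ ν t (Z ξ c 1 x)
      * Real.sin (dt κ' (Z ξ c 1 x))) / vl with ha
    refine ⟨a, ?_, ?_⟩
    · intro t
      have hl := hlim t
      have hBg' := hBg t
      set L : ℝ := ∫ x in Dom, B (nr (Z ξ c 1 x)) * rg A κ r₁ ν t (Z ξ c 1 x)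
        * dt κ (Z ξ c 1 x) with hL
      have hrc : Continuous (rg A κ r₁ ν t) := rg_cont hArp κ r₁ ν t
      have hBc : Continuous (fun z : V => B (nr z)) :=
        hBrp.smooth.continuous.comp (nr_contDiff (n := 0)).continuous
      have hκc : Continuous (dt κ) := (dt_contDiff κ (n := 0)).continuous
      have hκc' : Continuous (dt κ') := (dt_contDiff κ' (n := 0)).continuous
      have j1 : IntegrableOn (fun x => (B (nr (Z ξ c 1 x)) * N) * rg A κ r₁ ν t (Z ξ c 1 x)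
          * Real.sin (dt κ' (Z ξ c 1 x))) Dom :=
        gz_int (g := fun z => (B (nr z) * N) * rg A κ r₁ ν t z * Real.sin (dt κ' z))
          (((hBc.mul continuous_const).mul hrc).mul (Real.continuous_sin.comp hκc'))
          (fun z hz => by rw [hBrp.van _ (hd1.trans hz)]; ring) 1
      have j2 : IntegrableOn (fun x => B (nr (Z ξ c 1 x)) * rg A κ r₁ ν t (Z ξ c 1 x)
          * dt κ (Z ξ c 1 x)) Dom :=
        gz_int (g := fun z => B (nr z) * rg A κ r₁ ν t z * dt κ z)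
          ((hBc.mul hrc).mul hκc) (fun z hz => by rw [hBrp.van _ (hd1.trans hz)]; ring) 1
      have h1 : |(∫ x in Dom, (B (nr (Z ξ c 1 x)) * N) * rg A κ r₁ ν t (Z ξ c 1 x)
          * Real.sin (dt κ' (Z ξ c 1 x))) - L| ≤ (Cw * K₁ ^ 2 / N) * vl := by
        rw [hL, ← integral_sub j1 j2, ← int_const]
        have h2 : |∫ x in Dom, ((B (nr (Z ξ c 1 x)) * N) * rg A κ r₁ ν t (Z ξ c 1 x)
          * Real.sin (dt κ' (Z ξ c 1 x)) - B (nr (Z ξ c 1 x)) * rg A κ r₁ ν t (Z ξ c 1 x)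
          * dt κ (Z ξ c 1 x))| ≤ ∫ x in Dom, |(B (nr (Z ξ c 1 x)) * N)
          * rg A κ r₁ ν t (Z ξ c 1 x)
          * Real.sin (dt κ' (Z ξ c 1 x)) - B (nr (Z ξ c 1 x)) * rg A κ r₁ ν t (Z ξ c 1 x)
          * dt κ (Z ξ c 1 x)| := by
          have := norm_integral_le_integral_norm (μ := volume.restrict Dom)
            (fun x => (B (nr (Z ξ c 1 x)) * N) * rg A κ r₁ ν t (Z ξ c 1 x)
          * Real.sin (dt κ' (Z ξ c 1 x)) - B (nr (Z ξ c 1 x)) * rg A κ r₁ ν t (Z ξ c 1 x)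
          * dt κ (Z ξ c 1 x))
          simpa only [Real.norm_eq_abs] using this
        refine h2.trans ?_
        refine setIntegral_mono_on (j1.sub j2).abs (integrableOn_const dom_lt_top.ne) dom_meas
          fun x _ => ?_
        set z := Z ξ c 1 x with hz
        by_cases h : nr z ≤ 1
        · have e1 : (B (nr z) * N) * rg A κ r₁ ν t z * Real.sin (dt κ' z)
              - B (nr z) * rg A κ r₁ ν t z * dt κ z
              = (B (nr z) * rg A κ r₁ ν t z) * (N * Real.sin ((N : ℝ)⁻¹ * dt κ z) - dt κ z) := by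
            rw [hκ', dt_smul_left]; ring
          rw [e1, abs_mul, abs_mul]
          have h3 := abs_dt_le κ z h
          have h4 := sin_near hNr0 (h3.trans hKN)
          have h5 : dt κ z ^ 2 / N ≤ K₁ ^ 2 / N := by
            rw [← sq_abs]
            gcongr
          have h6 := hrgb t z h
          have h7 := hBm _ (nr_nonneg z)
          calc |B (nr z)| * |rg A κ r₁ ν t z| * |N * Real.sin ((N : ℝ)⁻¹ * dt κ z) - dt κ z|
              ≤ Bm * (K₁ + R₁) * (K₁ ^ 2 / N) := by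
                have := h4.trans h5
                gcongr
            _ = Cw * K₁ ^ 2 / N := by rw [hCw]; ring
        · push Not at h
          rw [hBrp.van _ (hd1.trans h.le)]
          simp only [zero_mul, sub_self, abs_zero]
          positivity
      have h8 : |a t - L / vl| ≤ η / 2 := by
        simp only [ha]
        rw [← sub_div, abs_div, abs_of_pos hvl, div_le_iff₀ hvl]
        refine h1.trans ?_
        gcongr
      have h9 : |g t - L / vl| ≤ η / 2 := by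
        rw [hl]
        have e2 : nr κ / 2 * c₁ * (∫ R in (0 : ℝ)..d, B R * Real.cos (ν * R * t) * R) / vl
            = nr κ / 2 * c₁ / vl * ∫ R in (0 : ℝ)..d, B R * Real.cos (ν * R * t) * R := by ring
        rw [e2]
        exact hBg'
      have e3 : a t - g t = (a t - L / vl) - (g t - L / vl) := by ring
      rw [e3]
      refine (abs_sub _ _).trans ?_
      linarith
    · intro t l hkl i ψ
      have hl : ∀ i, |l i| < N := fun i => by
        have := hkl i
        have := abs_nonneg (k i)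
        omega
      have e : ∀ x', tubeU A (ν / (N * s)) ξ c N w t x' i * Real.cos (ph l x' - ψ)
          = (ν / (N * s)) * (Sw A ξ c N x' i * Real.cos (ph l x' - ψ))
            + (ξ i : ℝ) * (w t x' * Real.cos (ph l x' - ψ)) := by
        intro x'
        unfold tubeU
        simp only [Pi.add_apply, Pi.smul_apply, smul_eq_mul]
        have : rv ξ i = (ξ i : ℝ) := rfl
        rw [this]
        ring
      simp only [e]
      rw [integral_add, integral_const_mul, integral_const_mul,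
        Sw_modes hξ hc hArp hδ hN0 hl, hw, wV_modes hξ hc hArp hNB hd1 hN0 φ κ' κ ν t hkl ψ]
      · simp only [ha]
        ring
      · refine Integrable.const_mul ?_ _
        refine (Periodic3.mul' (f := fun x' => Sw A ξ c N x' i)
          (comp_periodic (Sw_periodic ξ c N) i) (cosp_periodic l ψ)).integrableOn ?_
        exact ((continuous_apply i).comp (Sw_contDiff ξ c N hArp hδ).continuous).mul
          (cosp_cont l ψ)
      · refine Integrable.const_mul ?_ _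
        refine (Periodic3.mul' (hax.per t) (cosp_periodic l ψ)).integrableOn ?_
        exact (slice hax.smooth t).continuous.mul (cosp_cont l ψ)

end Pool.Agent.Zk27.UE
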