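import Pool.Agent.Zk27.UE.Axial

/-!
# An axial velocity which is transported by a swirl with variable angular velocity
-/

open MeasureTheory Set
open scoped ENNReal NNReal Topology Pointwise ContDiff

set_option autoImplicit false

namespace Pool.Agent.Zk27.UE

open Pool.Agent.H708R2.EulerSign Pool.Agent.H708R2.EulerModes
open Pool.Agent.R739.ET (RP prim prim_hasDerivAt)

/-- the rotated linear function -/
noncomputable def rg (A : ℝ → ℝ) (r₀ r₁ : V) (ν t : ℝ) (z : V) : ℝ :=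
  Real.cos (ν * A (nr z) * t) * dt r₀ z + Real.sin (ν * A (nr z) * t) * dt r₁ z

/-- the axial velocity as a function of time, point and wrapped coordinates -/
noncomputable def Fv (A B : ℝ → ℝ) (k : Fin 3 → ℤ) (φ : ℝ) (κ r₀ r₁ : V) (ν t : ℝ) (x z : V) : ℝ :=
  -(B (nr z) * rg A r₀ r₁ ν t z * Real.sin (ph k x - φ - dt κ z))

section

variable {δ δ' : ℝ} {A B : ℝ → ℝ} (k : Fin 3 → ℤ) (φ : ℝ) (κ r₀ r₁ : V) (ν : ℝ)

lemma Fv_van (hB : RP δ' B) (hδ : δ' ≤ 1) (t : ℝ) (x z : V) (hz : 1 ≤ nr z) :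
    Fv A B k φ κ r₀ r₁ ν t x z = 0 := by
  unfold Fv
  rw [hB.van _ (hδ.trans hz)]
  ring

lemma rg_smooth (hA : RP δ A) :
    ContDiff ℝ ∞ (fun q : ℝ × V => rg A r₀ r₁ ν q.1 q.2) := by
  have hth : ContDiff ℝ ∞ (fun q : ℝ × V => ν * A (nr q.2) * q.1) :=
    (contDiff_const.mul (hA.smooth.comp (nr_contDiff.comp contDiff_snd))).mul contDiff_fst
  unfold rg
  exact ((Real.contDiff_cos.comp hth).mul ((dt_contDiff r₀).comp contDiff_snd)).add
    ((Real.contDiff_sin.comp hth).mul ((dt_contDiff r₁).comp contDiff_snd))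

lemma Fv_smooth (hA : RP δ A) (hB : RP δ' B) :
    ContDiff ℝ ∞ (fun q : (ℝ × V) × V => Fv A B k φ κ r₀ r₁ ν q.1.1 q.1.2 q.2) := by
  have h1 : ContDiff ℝ ∞ (fun q : (ℝ × V) × V => B (nr q.2)) :=
    hB.smooth.comp (nr_contDiff.comp contDiff_snd)
  have hp : ContDiff ℝ ∞ (fun q : (ℝ × V) × V => ((q.1.1, q.2) : ℝ × V)) :=
    contDiff_fst.fst.prodMk contDiff_snd
  have h2 : ContDiff ℝ ∞ (fun q : (ℝ × V) × V => rg A r₀ r₁ ν q.1.1 q.2) :=
    ContDiff.comp (g := fun q : ℝ × V => rg A r₀ r₁ ν q.1 q.2)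
      (f := fun q : (ℝ × V) × V => ((q.1.1, q.2) : ℝ × V)) (rg_smooth r₀ r₁ ν hA) hp
  have h3 : ContDiff ℝ ∞ (fun q : (ℝ × V) × V => Real.sin (ph k q.1.2 - φ - dt κ q.2)) :=
    Real.contDiff_sin.comp ((((ph_contDiff k).comp (contDiff_snd.comp contDiff_fst)).sub
      contDiff_const).sub ((dt_contDiff κ).comp contDiff_snd))
  exact ((h1.mul h2).mul h3).neg

/-- the derivative, up to multiples of `dt z` -/
lemma rg_hasFDerivAt (hA : RP δ A) (t : ℝ) (z : V) : ∃ m : ℝ, HasFDerivAt (rg A r₀ r₁ ν t)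
    (Real.cos (ν * A (nr z) * t) • dtL r₀ + Real.sin (ν * A (nr z) * t) • dtL r₁ + m • dtL z)
    z := by
  have hth : HasFDerivAt (fun y => ν * A (nr y) * t)
      ((t * (ν * (deriv A (nr z) * 2))) • dtL z) z := by
    have h1 : HasFDerivAt (fun y => A (nr y)) ((deriv A (nr z)) • ((2 : ℝ) • dtL z)) z :=
      (hA.hasDerivAt _).comp_hasFDerivAt z (nr_hasFDerivAt z)
    refine ((h1.const_mul ν).mul_const t).congr_fderiv ?_
    rw [smul_smul, smul_smul, smul_smul]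
    congr 1
    ring
  have h2 := (hth.cos.mul (dt_hasFDerivAt r₀ z)).add (hth.sin.mul (dt_hasFDerivAt r₁ z))
  refine ⟨dt r₀ z * (-Real.sin (ν * A (nr z) * t) * (t * (ν * (deriv A (nr z) * 2))))
    + dt r₁ z * (Real.cos (ν * A (nr z) * t) * (t * (ν * (deriv A (nr z) * 2)))), ?_⟩
  refine h2.congr_fderiv ?_
  ext y
  simp only [add_apply, smul_apply, smul_eq_mul]
  ring

lemma Fv_hasFDerivAt (hA : RP δ A) (hB : RP δ' B) (t : ℝ) (x z : V) : ∃ m : ℝ,
    HasFDerivAt (fun q : V × V => Fv A B k φ κ r₀ r₁ ν t q.1 q.2)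
      (-((B (nr z) * rg A r₀ r₁ ν t z) • (Real.cos (ph k x - φ - dt κ z) •
          ((dtL (rv k)).comp (ContinuousLinearMap.fst ℝ V V)
            - (dtL κ).comp (ContinuousLinearMap.snd ℝ V V)))
        + Real.sin (ph k x - φ - dt κ z) • (B (nr z) •
            (Real.cos (ν * A (nr z) * t) • dtL r₀ + Real.sin (ν * A (nr z) * t) • dtL r₁).comp
              (ContinuousLinearMap.snd ℝ V V)
          + m • (dtL z).comp (ContinuousLinearMap.snd ℝ V V)))) (x, z) := by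
  obtain ⟨m, hm⟩ := rg_hasFDerivAt r₀ r₁ ν hA t z
  have h1 : HasFDerivAt (fun q : V × V => B (nr q.2))
      (((deriv B (nr z)) • ((2 : ℝ) • dtL z)).comp (ContinuousLinearMap.snd ℝ V V)) (x, z) := by
    have h : HasFDerivAt (fun y => B (nr y)) ((deriv B (nr z)) • ((2 : ℝ) • dtL z))
        ((fun q : V × V => q.2) (x, z)) := (hB.hasDerivAt _).comp_hasFDerivAt z (nr_hasFDerivAt z)
    exact h.comp (x, z) hasFDerivAt_snd
  have h2 : HasFDerivAt (fun q : V × V => rg A r₀ r₁ ν t q.2)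
      ((Real.cos (ν * A (nr z) * t) • dtL r₀ + Real.sin (ν * A (nr z) * t) • dtL r₁
        + m • dtL z).comp (ContinuousLinearMap.snd ℝ V V)) (x, z) := by
    have h : HasFDerivAt (rg A r₀ r₁ ν t) (Real.cos (ν * A (nr z) * t) • dtL r₀
      + Real.sin (ν * A (nr z) * t) • dtL r₁ + m • dtL z) ((fun q : V × V => q.2) (x, z)) := hm
    exact h.comp (x, z) hasFDerivAt_snd
  have h3 : HasFDerivAt (fun q : V × V => ph k q.1 - φ - dt κ q.2)
      ((dtL (rv k)).comp (ContinuousLinearMap.fst ℝ V V)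
            - (dtL κ).comp (ContinuousLinearMap.snd ℝ V V)) (x, z) := by
    have ha : HasFDerivAt (ph k) (dtL (rv k)) ((fun q : V × V => q.1) (x, z)) := by
      have e : ph k = dt (rv k) := by ext y; exact ph_eq_dt k y
      rw [e]
      exact dt_hasFDerivAt (rv k) x
    have hb : HasFDerivAt (dt κ) (dtL κ) ((fun q : V × V => q.2) (x, z)) := dt_hasFDerivAt κ z
    exact ((ha.comp (x, z) hasFDerivAt_fst).sub_const φ).sub (hb.comp (x, z) hasFDerivAt_snd)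
  have h4 := h3.sin
  have h5 := ((h1.mul h2).mul h4).neg
  refine ⟨B (nr z) * m + rg A r₀ r₁ ν t z * (deriv B (nr z) * 2), ?_⟩
  refine h5.congr_fderiv ?_
  ext y <;>
  · simp only [neg_apply, add_apply, smul_apply, smul_eq_mul, ContinuousLinearMap.comp_apply,
      sub_apply, ContinuousLinearMap.inl_apply, ContinuousLinearMap.inr_apply, Pi.mul_apply,
      ContinuousLinearMap.coe_fst', ContinuousLinearMap.coe_snd', map_zero]
    ring

end

section

variable {δ δ' : ℝ} {A B : ℝ → ℝ} (ξ k : Fin 3 → ℤ) (φ : ℝ) (κ r₀ : V) (c : V) (N : ℕ) (ν : ℝ)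

/-- the axial velocity with variable rotation -/
noncomputable def wV (A B : ℝ → ℝ) (ξ k : Fin 3 → ℤ) (φ : ℝ) (κ r₀ c : V) (N : ℕ) (ν t : ℝ)
    (x : V) : ℝ := Fv A B k φ κ r₀ (r1 ξ r₀) ν t x (Z ξ c N x)

variable {ξ k κ r₀ N ν}

lemma J_r1 {ξ : Fin 3 → ℤ} (hξ : ξ ≠ 0) {r₀ : V} (hr : dt (rv ξ) r₀ = 0) :
    J ξ r₀ = Real.sqrt (q ξ) • r1 ξ r₀ ∧ J ξ (r1 ξ r₀) = -(Real.sqrt (q ξ)) • r₀ := by
  have hq := q_pos hξ
  have hs : 0 < Real.sqrt (q ξ) := Real.sqrt_pos.2 hq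
  have hss : Real.sqrt (q ξ) * Real.sqrt (q ξ) = q ξ := Real.mul_self_sqrt hq.le
  constructor
  · unfold r1
    rw [smul_smul, mul_inv_cancel₀ hs.ne', one_smul]
  · unfold r1
    rw [map_smul, JJ ξ r₀ hr, smul_smul]
    congr 1
    field_simp
    linarith

/-- the axial velocity is transported by the swirl -/
theorem wV_axial (hξ : ξ ≠ 0) (hN : 0 < N) (hk : dt (rv k) (rv ξ) = 0) (hr : dt (rv ξ) r₀ = 0)
    (hκ : (N : ℝ) • J ξ κ = -rv k) (hδ' : δ' ≤ δ) (hδ : δ ≤ 1) (hA : RP δ A) (hB : RP δ' B) :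
    Axial δ A (ν / (N * Real.sqrt (q ξ))) ξ c N (wV A B ξ k φ κ r₀ c N ν) := by
  have hδ'1 : δ' ≤ 1 := hδ'.trans hδ
  have hq := q_pos hξ
  have hs : 0 < Real.sqrt (q ξ) := Real.sqrt_pos.2 hq
  have hNr : (0 : ℝ) < N := by exact_mod_cast hN
  obtain ⟨hJ0, hJ1⟩ := J_r1 hξ hr
  have hder : ∀ t x, ∃ m : ℝ, ∀ e, fderiv ℝ (wV A B ξ k φ κ r₀ c N ν t) x e
      = -((B (nr (Z ξ c N x)) * rg A r₀ (r1 ξ r₀) ν t (Z ξ c N x)) *
          (Real.cos (ph k x - φ - dt κ (Z ξ c N x)) * (dt (rv k) e - dt κ ((N : ℝ) • J ξ e)))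
        + Real.sin (ph k x - φ - dt κ (Z ξ c N x)) * (B (nr (Z ξ c N x)) *
            (Real.cos (ν * A (nr (Z ξ c N x)) * t) * dt r₀ ((N : ℝ) • J ξ e)
              + Real.sin (ν * A (nr (Z ξ c N x)) * t) * dt (r1 ξ r₀) ((N : ℝ) • J ξ e))
          + m * dt (Z ξ c N x) ((N : ℝ) • J ξ e))) := by
    intro t x
    obtain ⟨m, hm⟩ := Fv_hasFDerivAt k φ κ r₀ (r1 ξ r₀) ν hA hB t x (Z ξ c N x)
    refine ⟨m, fun e => ?_⟩
    have h := glue_hasFDerivAt ξ c N (fun x z => Fv A B k φ κ r₀ (r1 ξ r₀) ν t x z)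
      (fun x z hz => Fv_van k φ κ r₀ (r1 ξ r₀) ν hB hδ'1 t x z hz) hm
    have h2 : fderiv ℝ (wV A B ξ k φ κ r₀ c N ν t) x = _ := h.fderiv
    rw [h2]
    simp only [ContinuousLinearMap.comp_apply, neg_apply, add_apply, sub_apply,
      smul_apply, dtL_apply, smul_eq_mul, ContinuousLinearMap.prod_apply,
      ContinuousLinearMap.coe_fst', ContinuousLinearMap.coe_snd', ContinuousLinearMap.id_apply]
  refine ⟨?_, ?_, ?_, ?_, ?_⟩
  · have h1 := gluej ξ c N (E₁ := ℝ × V) (fun p z => Fv A B k φ κ r₀ (r1 ξ r₀) ν p.1 p.2 z)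
      (fun p z hz => Fv_van k φ κ r₀ (r1 ξ r₀) ν hB hδ'1 _ _ z hz)
      (Fv_smooth k φ κ r₀ (r1 ξ r₀) ν hA hB)
    have h2 : ContDiff ℝ ∞ (fun z : ℝ × V => ((z, z.2) : (ℝ × V) × V)) :=
      contDiff_id.prodMk contDiff_snd
    have h3 := ContDiff.comp
      (g := fun q : (ℝ × V) × V => Fv A B k φ κ r₀ (r1 ξ r₀) ν q.1.1 q.1.2 (Z ξ c N q.2)) h1 h2
    simp only [Function.comp_def] at h3
    unfold wV
    exact h3
  · intro t i x
    unfold wV Fv
    rw [Z_periodic ξ c N i x]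
    have e : ph k (x + Pi.single i (2 * Real.pi)) - φ - dt κ (Z ξ c N x)
        = (ph k x - φ - dt κ (Z ξ c N x)) + (k i : ℝ) * (2 * Real.pi) := by
      rw [ph_add, ph_single]; ring
    rw [e, Real.sin_add_int_mul_two_pi]
  · intro t x
    obtain ⟨m, hm⟩ := hder t x
    rw [hm, J_rv, hk]
    simp [dt]
  · intro t x hx
    unfold wV Fv
    rw [hB.van _ (hδ'.trans hx)]
    ring
  · intro t x
    have h1 : deriv (fun s => wV A B ξ k φ κ r₀ c N ν s x) t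
        = -(B (nr (Z ξ c N x)) * (ν * A (nr (Z ξ c N x)) *
            (Real.cos (ν * A (nr (Z ξ c N x)) * t) * dt (r1 ξ r₀) (Z ξ c N x)
            - Real.sin (ν * A (nr (Z ξ c N x)) * t) * dt r₀ (Z ξ c N x)))
          * Real.sin (ph k x - φ - dt κ (Z ξ c N x))) := by
      have h0 : HasDerivAt (fun s : ℝ => ν * A (nr (Z ξ c N x)) * s)
          (ν * A (nr (Z ξ c N x))) t := by
        simpa using (hasDerivAt_id t).const_mul (ν * A (nr (Z ξ c N x)))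
      have h := ((((h0.cos.mul_const (dt r₀ (Z ξ c N x))).add
        (h0.sin.mul_const (dt (r1 ξ r₀) (Z ξ c N x)))).const_mul
        (B (nr (Z ξ c N x)))).mul_const (Real.sin (ph k x - φ - dt κ (Z ξ c N x)))).neg
      have h2 : HasDerivAt (fun s => wV A B ξ k φ κ r₀ c N ν s x) _ t := h
      rw [h2.deriv]
      ring
    obtain ⟨m, hm⟩ := hder t x
    rw [h1, hm]
    have e1 : dt κ ((N : ℝ) • J ξ (Z ξ c N x)) = dt (rv k) (Z ξ c N x) := by
      rw [dt_smul_right, dt_J, ← neg_mul_eq_mul_neg, ← dt_smul_left, hκ]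
      simp [dt]
      ring
    have e2 : dt (Z ξ c N x) ((N : ℝ) • J ξ (Z ξ c N x)) = 0 := by
      rw [dt_smul_right, dt_J_self, mul_zero]
    have e3 : dt r₀ ((N : ℝ) • J ξ (Z ξ c N x))
        = -(N * Real.sqrt (q ξ) * dt (r1 ξ r₀) (Z ξ c N x)) := by
      rw [dt_smul_right, dt_J, hJ0, dt_smul_left]
      ring
    have e4 : dt (r1 ξ r₀) ((N : ℝ) • J ξ (Z ξ c N x))
        = N * Real.sqrt (q ξ) * dt r₀ (Z ξ c N x) := by
      rw [dt_smul_right, dt_J, hJ1, dt_smul_left]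
      ring
    rw [e1, e2, e3, e4]
    field_simp
    ring

end

end Pool.Agent.Zk27.UE
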