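import Pool.Agent.Zk27.UE.VAxial
import Pool.Agent.Zk27.UE.Atom

/-!
# Integrals of radial functions over the torus
-/

open MeasureTheory Set
open scoped ENNReal NNReal Topology Pointwise ContDiff

set_option autoImplicit false

namespace Pool.Agent.Zk27.UE

open Pool.Agent.H708R2.EulerSign Pool.Agent.H708R2.EulerModes
open Pool.Agent.R739.ET (RP prim prim_hasDerivAt wr wr_exists)

variable {ξ : Fin 3 → ℤ} {c : V}

/-- near the lines the wrapped coordinates are orthogonal to the direction -/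
lemma Z_perp (hc : dt (rv ξ) c = 0) {d : ℝ} (hdq : d * q ξ < 4 * Real.pi ^ 2) (x : V)
    (hx : nr (Z ξ c 1 x) < d) : dt (rv ξ) (Z ξ c 1 x) = 0 := by
  choose z hz using fun i => wr_exists (J ξ x i - c i)
  have e : ∀ i, Z ξ c 1 x i = J ξ x i - c i - z i * (2 * Real.pi) := by
    intro i
    rw [Z1]
    show wr (J ξ x i - c i) = _
    linarith [hz i]
  have e2 : dt (rv ξ) (Z ξ c 1 x)
      = -((ξ 0 * z 0 + ξ 1 * z 1 + ξ 2 * z 2 : ℤ) : ℝ) * (2 * Real.pi) := by
    have h1 := dt_rv_J ξ x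
    unfold dt at h1 hc ⊢
    rw [e 0, e 1, e 2]
    rw [rv_0, rv_1, rv_2] at *
    push_cast
    linear_combination h1 - hc
  set m : ℤ := ξ 0 * z 0 + ξ 1 * z 1 + ξ 2 * z 2 with hm
  have cs : dt (rv ξ) (Z ξ c 1 x) ^ 2 ≤ q ξ * nr (Z ξ c 1 x) := by
    unfold dt nr q
    rw [rv_0, rv_1, rv_2]
    set a := (ξ 0 : ℝ); set b := (ξ 1 : ℝ); set g := (ξ 2 : ℝ)
    set X := Z ξ c 1 x 0; set Y := Z ξ c 1 x 1; set W := Z ξ c 1 x 2
    nlinarith [sq_nonneg (a * Y - b * X), sq_nonneg (a * W - g * X), sq_nonneg (b * W - g * Y)]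
  have hq0 : 0 ≤ q ξ := by unfold q; positivity
  have h3 : q ξ * nr (Z ξ c 1 x) ≤ d * q ξ := by nlinarith
  have h4 : (m : ℝ) ^ 2 * (4 * Real.pi ^ 2) < 4 * Real.pi ^ 2 := by
    have : (m : ℝ) ^ 2 * (4 * Real.pi ^ 2) = dt (rv ξ) (Z ξ c 1 x) ^ 2 := by rw [e2]; ring
    rw [this]
    linarith
  have h5 : (m : ℝ) ^ 2 < 1 := by
    have hpi : 0 < 4 * Real.pi ^ 2 := by positivity
    by_contra hcon
    push Not at hcon
    nlinarith
  have h6 : m = 0 := by
    have h7 : m ^ 2 < 1 := by exact_mod_cast h5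
    by_contra hne
    have : 1 ≤ m ^ 2 := by
      have := Int.one_le_abs hne
      nlinarith [sq_abs m, abs_nonneg m]
    omega
  rw [e2, h6]
  simp

lemma J_trace2 (ξ : Fin 3 → ℤ) : ∑ i, J ξ (J ξ (Pi.single i 1)) i = -(2 * q ξ) := by
  rw [Fin.sum_univ_three]
  simp only [J_0, J_1, J_2]
  unfold q
  simp
  ring

lemma J_trace (ξ : Fin 3 → ℤ) : ∑ i, J ξ (Pi.single i 1) i = 0 := by
  rw [Fin.sum_univ_three]
  simp only [J_0, J_1, J_2]
  simp

lemma sum_single (y w : V) : ∑ i, dt y (Pi.single i 1) * w i = dt y w := by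
  rw [Fin.sum_univ_three]
  unfold dt
  simp

/-- the divergence theorem for radial fields -/
lemma radial_zero (hξ : ξ ≠ 0) (hc : dt (rv ξ) c = 0) {d : ℝ} (hd : d ≤ 1)
    (hdq : d * q ξ < 4 * Real.pi ^ 2) {H : ℝ → ℝ} (hH : RP d H) :
    ∫ x in Dom, (H (nr (Z ξ c 1 x)) + nr (Z ξ c 1 x) * deriv H (nr (Z ξ c 1 x))) = 0 := by
  set G : V → V := fun z => H (nr z) • J ξ z with hG
  have hGv : ∀ z, 1 ≤ nr z → G z = 0 := by
    intro z hz
    simp only [hG]
    rw [hH.van _ (hd.trans hz), zero_smul]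
  have hGs : ContDiff ℝ ∞ G := (hH.smooth.comp nr_contDiff).smul (J ξ).contDiff
  have hGd : ∀ z, HasFDerivAt G (H (nr z) • J ξ
      + ((deriv H (nr z)) • ((2 : ℝ) • dtL z)).smulRight (J ξ z)) z := by
    intro z
    have h1 : HasFDerivAt (fun y => H (nr y)) ((deriv H (nr z)) • ((2 : ℝ) • dtL z)) z :=
      (hH.hasDerivAt _).comp_hasFDerivAt z (nr_hasFDerivAt z)
    exact h1.smul (J ξ).hasFDerivAt
  have hY : ContDiff ℝ ∞ (fun x => G (Z ξ c 1 x)) := glue_contDiff' ξ c 1 G hGv hGs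
  have hYp : Periodic3 (fun x => G (Z ξ c 1 x)) := by
    intro i x; simp only; rw [Z_periodic ξ c 1 i x]
  have hdiv : ∀ x, divergence (fun x => G (Z ξ c 1 x)) x
      = -(2 * q ξ) * (H (nr (Z ξ c 1 x)) + nr (Z ξ c 1 x) * deriv H (nr (Z ξ c 1 x))) := by
    intro x
    have h := (glue_hasFDerivAt' ξ c 1 G hGv (hGd (Z ξ c 1 x))).fderiv
    rw [divergence_eq_sum, h]
    simp only [ContinuousLinearMap.comp_apply, add_apply, smul_apply,
      ContinuousLinearMap.smulRight_apply, dtL_apply, Nat.cast_one, one_smul, smul_eq_mul,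
      Pi.add_apply, Pi.smul_apply, Finset.sum_add_distrib, ← Finset.mul_sum, J_trace2]
    have h2 : ∑ i, deriv H (nr (Z ξ c 1 x)) * (2 * dt (Z ξ c 1 x) (J ξ (Pi.single i 1)))
        * J ξ (Z ξ c 1 x) i = -(2 * deriv H (nr (Z ξ c 1 x)) * nr (J ξ (Z ξ c 1 x))) := by
      have h3 : ∀ i : Fin 3, deriv H (nr (Z ξ c 1 x)) * (2 * dt (Z ξ c 1 x)
          (J ξ (Pi.single i 1))) * J ξ (Z ξ c 1 x) i = -(2 * deriv H (nr (Z ξ c 1 x))) *
          (dt (J ξ (Z ξ c 1 x)) (Pi.single i 1) * J ξ (Z ξ c 1 x) i) := by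
        intro i
        rw [dt_J]; ring
      simp only [h3]
      rw [← Finset.mul_sum, sum_single, ← nr_eq]
      ring
    rw [h2]
    by_cases hx : nr (Z ξ c 1 x) < d
    · have h4 := Z_perp hc hdq x hx
      have h5 : nr (J ξ (Z ξ c 1 x)) = q ξ * nr (Z ξ c 1 x) := by
        rw [nr_eq, dt_J, JJ ξ _ h4, dt_smul_left, ← nr_eq]
        ring
      rw [h5]; ring
    · push Not at hx
      rw [hH.deriv.van _ hx, hH.van _ hx]
      ring
  have h0 := integral_divergence_eq_zero (hY.of_le (by exact_mod_cast le_top)) hYp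
  simp only [hdiv] at h0
  rw [integral_const_mul] at h0
  have hq := (q_pos hξ).ne'
  rcases mul_eq_zero.1 h0 with h1 | h1
  · exfalso
    have : 2 * q ξ = 0 := by linarith
    apply hq; linarith
  · exact h1

/-- radial functions with mean zero -/
lemma radial_mean_zero (hξ : ξ ≠ 0) (hc : dt (rv ξ) c = 0) {d : ℝ} (hd : d ≤ 1)
    (hdq : d * q ξ < 4 * Real.pi ^ 2) {h : ℝ → ℝ} (hh : RP d h) {κ : ℝ} (hκ : 0 < κ)
    (hκh : ∀ R, R ≤ κ → h R = 0) (hi : ∫ R in (0 : ℝ)..d, h R = 0) :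
    ∫ x in Dom, h (nr (Z ξ c 1 x)) = 0 := by
  have hcont := hh.smooth.continuous
  have hP0 : ∀ R, R ≤ κ → prim d h R = 0 := by
    intro R hR
    unfold Pool.Agent.R739.ET.prim
    have h1 : ∫ s in (0 : ℝ)..R, h s = 0 := by
      rw [intervalIntegral.integral_zero_ae]
      refine Filter.Eventually.of_forall fun s hs => hκh s ?_
      rcases le_total 0 R with h0 | h0
      · rw [uIoc_of_le h0] at hs; exact hs.2.trans hR
      · rw [uIoc_of_ge h0] at hs; exact hs.2.trans hκ.le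
    have h2 := intervalIntegral.integral_add_adjacent_intervals
      (hcont.intervalIntegrable (μ := volume) d 0) (hcont.intervalIntegrable 0 R)
    rw [← h2, h1, intervalIntegral.integral_symm, hi]
    simp
  set H : ℝ → ℝ := fun R => prim d h R * R⁻¹ with hH
  have hHz : ∀ R, R < κ → H =ᶠ[𝓝 R] fun _ => 0 := by
    intro R hR
    filter_upwards [gt_mem_nhds hR] with s hs
    simp only [hH]
    rw [hP0 s hs.le, zero_mul]
  have hHrp : RP d H := by
    refine ⟨?_, fun R hR => ?_⟩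
    · rw [contDiff_iff_contDiffAt]
      intro R
      rcases lt_or_ge R κ with hR | hR
      · exact contDiffAt_const.congr_of_eventuallyEq (hHz R hR)
      · exact (hh.prim.smooth.contDiffAt).mul (contDiffAt_id.inv (hκ.trans_le hR).ne')
    · simp only [hH]
      rw [hh.prim.van _ hR, zero_mul]
  have hder : ∀ R, 0 ≤ R → H R + R * deriv H R = h R := by
    intro R _
    rcases lt_or_ge R κ with hR | hR
    · have h1 := hHz R hR
      rw [h1.deriv_eq, h1.self_of_nhds, hκh R hR.le]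
      simp
    · have hR0 : R ≠ 0 := (hκ.trans_le hR).ne'
      have h1 : HasDerivAt H (h R * R⁻¹ + prim d h R * (-(R ^ 2)⁻¹)) R :=
        (prim_hasDerivAt hh R).mul (hasDerivAt_inv hR0)
      rw [h1.deriv]
      simp only [hH]
      field_simp
      ring
  have h1 := radial_zero hξ hc hd hdq hHrp
  rw [← h1]
  refine integral_congr_ae (Filter.Eventually.of_forall fun x => ?_)
  exact (hder _ (nr_nonneg _)).symm

lemma exists_perp (hξ : ξ ≠ 0) : ∃ κ : V, κ ≠ 0 ∧ dt (rv ξ) κ = 0 := by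
  by_contra hcon
  push Not at hcon
  have h0 : ∀ i : Fin 3, J ξ (Pi.single i 1) = 0 := by
    intro i
    by_contra hne
    exact hcon _ hne (dt_rv_J ξ _)
  have h1 := J_trace2 ξ
  simp only [h0, map_zero, Pi.zero_apply, Finset.sum_const_zero] at h1
  have := q_pos hξ
  linarith

lemma nr_pos {κ : V} (hκ : κ ≠ 0) : 0 < nr κ := by
  rcases (nr_nonneg κ).lt_or_eq with h | h
  · exact h
  · exfalso
    apply hκ
    unfold nr at h
    have h0 := sq_nonneg (κ 0); have h1 := sq_nonneg (κ 1); have h2 := sq_nonneg (κ 2)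
    ext i
    fin_cases i
    · show κ 0 = 0
      have : κ 0 ^ 2 = 0 := by linarith
      exact pow_eq_zero_iff (two_ne_zero) |>.1 this
    · show κ 1 = 0
      have : κ 1 ^ 2 = 0 := by linarith
      exact pow_eq_zero_iff (two_ne_zero) |>.1 this
    · show κ 2 = 0
      have : κ 2 ^ 2 = 0 := by linarith
      exact pow_eq_zero_iff (two_ne_zero) |>.1 this

lemma perp_scale {κ : V} (hκ : κ ≠ 0) (hκξ : dt (rv ξ) κ = 0) {a : ℝ} (ha : 0 < a) :
    ∃ y : V, dt (rv ξ) y = 0 ∧ nr y = a := by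
  have hn := nr_pos hκ
  refine ⟨Real.sqrt (a / nr κ) • κ, by rw [dt_smul_right, hκξ, mul_zero], ?_⟩
  have h1 : Real.sqrt (a / nr κ) ^ 2 = a / nr κ := Real.sq_sqrt (by positivity)
  have h2 : nr (Real.sqrt (a / nr κ) • κ) = Real.sqrt (a / nr κ) ^ 2 * nr κ := by
    unfold nr; simp only [Pi.smul_apply, smul_eq_mul]; ring
  rw [h2, h1]
  field_simp

/-- the integral of a radial function -/
theorem radial_integral (hξ : ξ ≠ 0) (hc : dt (rv ξ) c = 0) {d : ℝ} (hd0 : 0 < d) (hd : d ≤ 1)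
    (hdq : d * q ξ < 4 * Real.pi ^ 2) : ∃ c₁ : ℝ, 0 < c₁ ∧ ∀ h : ℝ → ℝ, RP d h →
      ∀ κ : ℝ, 0 < κ → (∀ R, R ≤ κ → h R = 0) →
      ∫ x in Dom, h (nr (Z ξ c 1 x)) = c₁ * ∫ R in (0 : ℝ)..d, h R := by
  -- the reference function
  set h₀ : ℝ → ℝ := fun R => expNegInvGlue (R - d / 4) * Pool.Agent.R739.ET.pA d R with hh₀
  have h₀rp : RP d h₀ := (Pool.Agent.R739.ET.pA_rp d).mul
    (expNegInvGlue.contDiff.comp (contDiff_id.sub contDiff_const))
  have h₀0 : ∀ R, R ≤ d / 4 → h₀ R = 0 := by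
    intro R hR
    simp only [hh₀]
    rw [expNegInvGlue.zero_of_nonpos (by linarith), zero_mul]
  have h₀nn : ∀ R, 0 ≤ h₀ R := fun R => mul_nonneg (expNegInvGlue.nonneg _) (pA_nonneg _ _)
  have h₀pos : ∀ R, d / 4 < R → R < d → 0 < h₀ R := fun R h1 h2 =>
    mul_pos (expNegInvGlue.pos_of_pos (by linarith)) (Pool.Agent.R739.ET.pA_pos h2)
  have hI : 0 < ∫ R in (0 : ℝ)..d, h₀ R :=
    intervalIntegral.integral_pos hd0 h₀rp.smooth.continuous.continuousOn
      (fun R _ => h₀nn R) ⟨d / 2, ⟨by linarith, by linarith⟩, h₀pos _ (by linarith) (by linarith)⟩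
  have hJ : 0 < ∫ x in Dom, h₀ (nr (Z ξ c 1 x)) := by
    obtain ⟨κ, hκ0, hκξ⟩ := exists_perp hξ
    obtain ⟨y, hy1, hy2⟩ := perp_scale hκ0 hκξ (show 0 < d / 2 by linarith)
    obtain ⟨x, hx⟩ := Z_surj (ξ := ξ) (c := c) hξ hc hy1 (by rw [hy2]; linarith)
    refine Pool.Agent.R739.ET.pos_of_ne (gz_per (fun z => h₀ (nr z)) 1)
      (gz_cont (g := fun z => h₀ (nr z)) (h₀rp.smooth.continuous.comp
        (nr_contDiff (n := 0)).continuous) (fun z hz => h₀rp.van _ (hd.trans hz)) 1)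
      (fun x => h₀nn _) (x := x) ?_
    simp only [hx, hy2]
    exact (h₀pos _ (by linarith) (by linarith)).ne'
  refine ⟨(∫ x in Dom, h₀ (nr (Z ξ c 1 x))) / ∫ R in (0 : ℝ)..d, h₀ R, div_pos hJ hI, ?_⟩
  intro h hh κ hκ hκh
  set a : ℝ := (∫ R in (0 : ℝ)..d, h R) / ∫ R in (0 : ℝ)..d, h₀ R with ha
  have h1rp : RP d (fun R => h R + (-a) * h₀ R) := hh.add (h₀rp.mul contDiff_const)
  have key := radial_mean_zero hξ hc hd hdq h1rp (κ := min κ (d / 4))
    (lt_min hκ (by linarith)) (fun R hR => by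
      rw [hκh R (hR.trans (min_le_left _ _)), h₀0 R (hR.trans (min_le_right _ _))]; simp) (by
      have i1 : IntervalIntegrable h volume 0 d := hh.smooth.continuous.intervalIntegrable _ _
      have i2 : IntervalIntegrable (fun R => -a * h₀ R) volume 0 d :=
        (continuous_const.mul h₀rp.smooth.continuous).intervalIntegrable _ _
      rw [intervalIntegral.integral_add i1 i2, intervalIntegral.integral_const_mul, ha]
      field_simp
      ring)
  have gc : ∀ g : ℝ → ℝ, RP d g → IntegrableOn (fun x => g (nr (Z ξ c 1 x))) Dom := by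
    intro g hg
    exact gz_int (g := fun z => g (nr z)) (hg.smooth.continuous.comp
      (nr_contDiff (n := 0)).continuous) (fun z hz => hg.van _ (hd.trans hz)) 1
  rw [integral_add (gc h hh) ((gc h₀ h₀rp).const_mul _), integral_const_mul] at key
  have : ∫ x in Dom, h (nr (Z ξ c 1 x)) = a * ∫ x in Dom, h₀ (nr (Z ξ c 1 x)) := by linarith
  rw [this, ha]
  ring

/-- quadratic moments of radial functions -/
theorem radial_quad (hξ : ξ ≠ 0) (hc : dt (rv ξ) c = 0) {d : ℝ} (hd : d ≤ 1)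
    (hdq : d * q ξ < 4 * Real.pi ^ 2) {H : ℝ → ℝ} (hH : RP d H) {κ : V}
    (hκ : dt (rv ξ) κ = 0) :
    (∫ x in Dom, H (nr (Z ξ c 1 x)) * dt κ (Z ξ c 1 x) ^ 2
      = nr κ / 2 * ∫ x in Dom, H (nr (Z ξ c 1 x)) * nr (Z ξ c 1 x)) ∧
    ∫ x in Dom, H (nr (Z ξ c 1 x)) * (dt κ (Z ξ c 1 x) * dt (J ξ κ) (Z ξ c 1 x)) = 0 := by
  have hq := q_pos hξ
  -- the swirl preserves the integrals
  have key : ∀ (f : V → ℝ) (f' : V → V →L[ℝ] ℝ), ContDiff ℝ ∞ f → (∀ z, HasFDerivAt f (f' z) z) →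
      ∫ x in Dom, H (nr (Z ξ c 1 x)) * f' (Z ξ c 1 x) (J ξ (Z ξ c 1 x)) = 0 := by
    intro f f' hf hf'
    set G : V → V := fun z => (H (nr z) * f z) • z with hG
    have hGv : ∀ z, 1 ≤ nr z → G z = 0 := by
      intro z hz
      simp only [hG]
      rw [hH.van _ (hd.trans hz), zero_mul, zero_smul]
    have hGs : ContDiff ℝ ∞ G := ((hH.smooth.comp nr_contDiff).mul hf).smul contDiff_id
    have hGd : ∀ z, HasFDerivAt G ((H (nr z) * f z) • ContinuousLinearMap.id ℝ V
        + (H (nr z) • f' z + f z • ((deriv H (nr z)) • ((2 : ℝ) • dtL z))).smulRight z) z := by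
      intro z
      have h1 : HasFDerivAt (fun y => H (nr y)) ((deriv H (nr z)) • ((2 : ℝ) • dtL z)) z :=
        (hH.hasDerivAt _).comp_hasFDerivAt z (nr_hasFDerivAt z)
      exact (h1.mul (hf' z)).smul (hasFDerivAt_id z)
    have hY : ContDiff ℝ ∞ (fun x => G (Z ξ c 1 x)) := glue_contDiff' ξ c 1 G hGv hGs
    have hYp : Periodic3 (fun x => G (Z ξ c 1 x)) := by
      intro i x; simp only; rw [Z_periodic ξ c 1 i x]
    have hdiv : ∀ x, divergence (fun x => G (Z ξ c 1 x)) x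
        = H (nr (Z ξ c 1 x)) * f' (Z ξ c 1 x) (J ξ (Z ξ c 1 x)) := by
      intro x
      have h := (glue_hasFDerivAt' ξ c 1 G hGv (hGd (Z ξ c 1 x))).fderiv
      rw [divergence_eq_sum, h]
      set z := Z ξ c 1 x with hz
      simp only [ContinuousLinearMap.comp_apply, add_apply, smul_apply,
        ContinuousLinearMap.smulRight_apply, dtL_apply, Nat.cast_one, one_smul, smul_eq_mul,
        Pi.add_apply, Pi.smul_apply, Finset.sum_add_distrib, ← Finset.mul_sum,
        ContinuousLinearMap.id_apply, J_trace]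
      have h3 : ∀ L : V →L[ℝ] ℝ, ∑ i : Fin 3, L (J ξ (Pi.single i 1)) * z i = L (J ξ z) := by
        intro L
        have h4 : J ξ z = ∑ i : Fin 3, z i • J ξ (Pi.single i 1) := by
          nth_rewrite 1 [vec_eq_sum z]
          rw [map_sum]
          refine Finset.sum_congr rfl fun i _ => ?_
          rw [map_smul]
        rw [h4, map_sum]
        refine Finset.sum_congr rfl fun i _ => ?_
        rw [map_smul, smul_eq_mul]; ring
      have h5 : ∀ i : Fin 3, (H (nr z) * f' z (J ξ (Pi.single i 1))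
          + f z * (deriv H (nr z) * (2 * dt z (J ξ (Pi.single i 1))))) * z i
          = H (nr z) * (f' z (J ξ (Pi.single i 1)) * z i)
            + f z * (deriv H (nr z) * 2) * (dtL z (J ξ (Pi.single i 1)) * z i) := by
        intro i; rw [dtL_apply]; ring
      simp only [h5]
      rw [Finset.sum_add_distrib, ← Finset.mul_sum, ← Finset.mul_sum, h3, h3 (dtL z), dtL_apply,
        dt_J_self]
      ring
    have h0 := integral_divergence_eq_zero (hY.of_le (by exact_mod_cast le_top)) hYp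
    simp only [hdiv] at h0
    exact h0
  have hJ : ∀ z, dt κ (J ξ z) = -dt (J ξ κ) z := fun z => dt_J ξ κ z
  have hJJ : ∀ z, dt (J ξ κ) (J ξ z) = q ξ * dt κ z := by
    intro z
    rw [dt_J, JJ ξ κ hκ, dt_smul_left]; ring
  constructor
  · have h1 := key (fun z => dt κ z * dt (J ξ κ) z)
      (fun z => dt κ z • dtL (J ξ κ) + dt (J ξ κ) z • dtL κ)
      ((dt_contDiff κ).mul (dt_contDiff _))
      (fun z => (dt_hasFDerivAt κ z).mul (dt_hasFDerivAt _ z))
    simp only [add_apply, smul_apply, dtL_apply, smul_eq_mul, hJ, hJJ] at h1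
    have gram : ∀ x, H (nr (Z ξ c 1 x)) * (dt κ (Z ξ c 1 x) * (q ξ * dt κ (Z ξ c 1 x))
        + dt (J ξ κ) (Z ξ c 1 x) * -dt (J ξ κ) (Z ξ c 1 x))
        = (2 * q ξ) * (H (nr (Z ξ c 1 x)) * dt κ (Z ξ c 1 x) ^ 2)
          - (q ξ * nr κ) * (H (nr (Z ξ c 1 x)) * nr (Z ξ c 1 x)) := by
      intro x
      by_cases hx : nr (Z ξ c 1 x) < d
      · have h4 := Z_perp hc hdq x hx
        have h5 : dt (J ξ κ) (Z ξ c 1 x) ^ 2
            = q ξ * (nr κ * nr (Z ξ c 1 x) - dt κ (Z ξ c 1 x) ^ 2) := by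
          have h6 : ∀ z : V, dt (J ξ κ) z ^ 2 = q ξ * (nr κ * nr z - dt κ z ^ 2)
              + 2 * dt (rv ξ) κ * dt κ z * dt (rv ξ) z - nr κ * dt (rv ξ) z ^ 2
              - nr z * dt (rv ξ) κ ^ 2 := by
            intro z
            unfold dt nr q
            rw [J_0, J_1, J_2, rv_0, rv_1, rv_2]
            ring
          rw [h6, hκ, h4]
          ring
        linear_combination (-H (nr (Z ξ c 1 x))) * h5
      · push Not at hx
        rw [hH.van _ hx]; ring
    simp only [gram] at h1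
    have g1c : Continuous (fun z : V => H (nr z) * dt κ z ^ 2) :=
      (hH.smooth.continuous.comp (nr_contDiff (n := 0)).continuous).mul
        ((dt_contDiff κ (n := 0)).continuous.pow 2)
    have g2c : Continuous (fun z : V => H (nr z) * nr z) :=
      (hH.smooth.continuous.comp (nr_contDiff (n := 0)).continuous).mul
        (nr_contDiff (n := 0)).continuous
    have i1 : IntegrableOn (fun x => H (nr (Z ξ c 1 x)) * dt κ (Z ξ c 1 x) ^ 2) Dom :=
      gz_int g1c (fun z hz => by rw [hH.van _ (hd.trans hz), zero_mul]) 1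
    have i2 : IntegrableOn (fun x => H (nr (Z ξ c 1 x)) * nr (Z ξ c 1 x)) Dom :=
      gz_int g2c (fun z hz => by rw [hH.van _ (hd.trans hz), zero_mul]) 1
    rw [integral_sub (i1.const_mul _) (i2.const_mul _), integral_const_mul,
      integral_const_mul] at h1
    have h7 : (2 * q ξ) * ((∫ x in Dom, H (nr (Z ξ c 1 x)) * dt κ (Z ξ c 1 x) ^ 2)
      - nr κ / 2 * ∫ x in Dom, H (nr (Z ξ c 1 x)) * nr (Z ξ c 1 x)) = 0 := by
      linear_combination h1
    rcases mul_eq_zero.1 h7 with h8 | h8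
    · exfalso; linarith
    · linarith
  · have h1 := key (fun z => dt κ z * dt κ z)
      (fun z => dt κ z • dtL κ + dt κ z • dtL κ)
      ((dt_contDiff κ).mul (dt_contDiff _))
      (fun z => (dt_hasFDerivAt κ z).mul (dt_hasFDerivAt _ z))
    simp only [add_apply, smul_apply, dtL_apply, smul_eq_mul, hJ] at h1
    have e : ∀ x, H (nr (Z ξ c 1 x)) * (dt κ (Z ξ c 1 x) * -dt (J ξ κ) (Z ξ c 1 x)
        + dt κ (Z ξ c 1 x) * -dt (J ξ κ) (Z ξ c 1 x))
        = (-2) * (H (nr (Z ξ c 1 x)) * (dt κ (Z ξ c 1 x) * dt (J ξ κ) (Z ξ c 1 x))) := by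
      intro x; ring
    simp only [e] at h1
    rw [integral_const_mul] at h1
    linarith

end Pool.Agent.Zk27.UE
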