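import Pool.Agent.R739.ET.Wr
import Pool.Agent.R739.ET.Resc

/-!
# Wrapped coordinates around the closed lines of `𝕋³` with an integer direction
-/

open MeasureTheory Set
open scoped ENNReal NNReal Topology Pointwise ContDiff

set_option autoImplicit false

namespace Pool.Agent.Zk27.UE

open Pool.Agent.H708R2.EulerSign Pool.Agent.H708R2.EulerModes
open Pool.Agent.R739.ET (wr wr_near wr_mem wr_exists wr_eq wr_add)

/-- the scalar product -/
def dt (x y : V) : ℝ := x 0 * y 0 + x 1 * y 1 + x 2 * y 2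

/-- the square of the Euclidean norm -/
def nr (x : V) : ℝ := x 0 ^ 2 + x 1 ^ 2 + x 2 ^ 2

lemma nr_nonneg (x : V) : 0 ≤ nr x := by unfold nr; positivity

lemma nr_eq (x : V) : nr x = dt x x := by unfold nr dt; ring

lemma nr_contDiff {n : WithTop ℕ∞} : ContDiff ℝ n nr := by
  unfold nr
  exact (((contDiff_apply ℝ ℝ (0 : Fin 3)).pow 2).add ((contDiff_apply ℝ ℝ (1 : Fin 3)).pow 2)).add
    ((contDiff_apply ℝ ℝ (2 : Fin 3)).pow 2)

/-- the vector product with the integer vector `ξ`, as a linear map -/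
noncomputable def JL (ξ : Fin 3 → ℤ) : V →ₗ[ℝ] V where
  toFun y := ![(ξ 1 : ℝ) * y 2 - ξ 2 * y 1, (ξ 2 : ℝ) * y 0 - ξ 0 * y 2,
    (ξ 0 : ℝ) * y 1 - ξ 1 * y 0]
  map_add' x y := by
    ext i; fin_cases i <;> simp <;> ring
  map_smul' a x := by
    ext i; fin_cases i <;> simp <;> ring

/-- the vector product with the integer vector `ξ` -/
noncomputable def J (ξ : Fin 3 → ℤ) : V →L[ℝ] V := LinearMap.toContinuousLinearMap (JL ξ)

variable (ξ : Fin 3 → ℤ)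

lemma J_apply (y : V) : J ξ y = ![(ξ 1 : ℝ) * y 2 - ξ 2 * y 1, (ξ 2 : ℝ) * y 0 - ξ 0 * y 2,
    (ξ 0 : ℝ) * y 1 - ξ 1 * y 0] := rfl

lemma J_0 (y : V) : J ξ y 0 = (ξ 1 : ℝ) * y 2 - ξ 2 * y 1 := rfl
lemma J_1 (y : V) : J ξ y 1 = (ξ 2 : ℝ) * y 0 - ξ 0 * y 2 := rfl
lemma J_2 (y : V) : J ξ y 2 = (ξ 0 : ℝ) * y 1 - ξ 1 * y 0 := rfl

/-- `|ξ|²` -/
noncomputable def q (ξ : Fin 3 → ℤ) : ℝ := (ξ 0 : ℝ) ^ 2 + (ξ 1 : ℝ) ^ 2 + (ξ 2 : ℝ) ^ 2

lemma q_pos {ξ : Fin 3 → ℤ} (h : ξ ≠ 0) : 0 < q ξ := by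
  unfold q
  obtain ⟨i, hi⟩ : ∃ i, ξ i ≠ 0 := by
    by_contra hcon
    push Not at hcon
    exact h (funext hcon)
  have hi' : (0 : ℝ) < (ξ i : ℝ) ^ 2 := by
    have : (ξ i : ℝ) ≠ 0 := by exact_mod_cast hi
    positivity
  fin_cases i
  · have h1 := sq_nonneg (ξ 1 : ℝ); have h2 := sq_nonneg (ξ 2 : ℝ)
    simp at hi'; nlinarith
  · have h1 := sq_nonneg (ξ 0 : ℝ); have h2 := sq_nonneg (ξ 2 : ℝ)
    simp at hi'; nlinarith
  · have h1 := sq_nonneg (ξ 0 : ℝ); have h2 := sq_nonneg (ξ 1 : ℝ)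
    simp at hi'; nlinarith

lemma rv_0 : rv ξ 0 = (ξ 0 : ℝ) := rfl
lemma rv_1 : rv ξ 1 = (ξ 1 : ℝ) := rfl
lemma rv_2 : rv ξ 2 = (ξ 2 : ℝ) := rfl

lemma J_rv : J ξ (rv ξ) = 0 := by
  ext i
  fin_cases i
  · show J ξ (rv ξ) 0 = 0
    rw [J_0, rv_1, rv_2]; ring
  · show J ξ (rv ξ) 1 = 0
    rw [J_1, rv_0, rv_2]; ring
  · show J ξ (rv ξ) 2 = 0
    rw [J_2, rv_0, rv_1]; ring

lemma dt_J_self (z : V) : dt z (J ξ z) = 0 := by
  unfold dt; rw [J_0, J_1, J_2]; ring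

lemma dt_J (x y : V) : dt x (J ξ y) = - dt (J ξ x) y := by
  unfold dt; rw [J_0, J_1, J_2, J_0, J_1, J_2]; ring

lemma JJ (y : V) (h : dt (rv ξ) y = 0) : J ξ (J ξ y) = (-(q ξ)) • y := by
  unfold dt at h
  rw [rv_0, rv_1, rv_2] at h
  ext i
  fin_cases i
  · show J ξ (J ξ y) 0 = -(q ξ) * y 0
    rw [J_0, J_1, J_2]; unfold q; linear_combination (ξ 0 : ℝ) * h
  · show J ξ (J ξ y) 1 = -(q ξ) * y 1
    rw [J_1, J_0, J_2]; unfold q; linear_combination (ξ 1 : ℝ) * h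
  · show J ξ (J ξ y) 2 = -(q ξ) * y 2
    rw [J_2, J_0, J_1]; unfold q; linear_combination (ξ 2 : ℝ) * h

lemma dt_rv_J (y : V) : dt (rv ξ) (J ξ y) = 0 := by
  unfold dt; rw [J_0, J_1, J_2, rv_0, rv_1, rv_2]; ring

lemma ph_eq_dt (k : Fin 3 → ℤ) (x : V) : ph k x = dt (rv k) x := by
  unfold ph dt
  rw [Fin.sum_univ_three, rv_0, rv_1, rv_2]

lemma dt_add_left (x y z : V) : dt (x + y) z = dt x z + dt y z := by
  unfold dt; simp only [Pi.add_apply]; ring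

lemma dt_add_right (x y z : V) : dt x (y + z) = dt x y + dt x z := by
  unfold dt; simp only [Pi.add_apply]; ring

lemma dt_smul_left (a : ℝ) (x y : V) : dt (a • x) y = a * dt x y := by
  unfold dt; simp only [Pi.smul_apply, smul_eq_mul]; ring

lemma dt_smul_right (a : ℝ) (x y : V) : dt x (a • y) = a * dt x y := by
  unfold dt; simp only [Pi.smul_apply, smul_eq_mul]; ring

lemma dt_comm (x y : V) : dt x y = dt y x := by unfold dt; ring

lemma dt_contDiff (r : V) {n : WithTop ℕ∞} : ContDiff ℝ n (dt r) := by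
  unfold dt
  exact ((contDiff_const.mul (contDiff_apply ℝ ℝ (0 : Fin 3))).add
    (contDiff_const.mul (contDiff_apply ℝ ℝ (1 : Fin 3)))).add
    (contDiff_const.mul (contDiff_apply ℝ ℝ (2 : Fin 3)))

lemma abs_dt_le (r z : V) (hz : nr z ≤ 1) : |dt r z| ≤ |r 0| + |r 1| + |r 2| := by
  have h : ∀ i : Fin 3, |z i| ≤ 1 := by
    intro i
    rw [abs_le]
    have h0 := sq_nonneg (z 0); have h1 := sq_nonneg (z 1); have h2 := sq_nonneg (z 2)
    unfold nr at hz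
    fin_cases i
    · simp only [Fin.zero_eta]; constructor <;> nlinarith
    · simp only [Fin.mk_one]; constructor <;> nlinarith
    · simp only [Fin.reduceFinMk]; constructor <;> nlinarith
  unfold dt
  refine (abs_add_le _ _).trans ?_
  have h3 := abs_add_le (r 0 * z 0) (r 1 * z 1)
  have e : ∀ i : Fin 3, |r i * z i| ≤ |r i| := by
    intro i
    rw [abs_mul]
    exact mul_le_of_le_one_right (abs_nonneg _) (h i)
  linarith [e 0, e 1, e 2]

/-- the wrapped difference -/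
noncomputable def W (c s : V) : V := fun i => wr (s i - c i)

lemma one_le_nr {y : V} {i : Fin 3} (h : 1 ≤ |y i|) : 1 ≤ nr y := by
  have h1 : 1 ≤ y i ^ 2 := by rw [← sq_abs]; nlinarith
  have h0 := sq_nonneg (y 0); have h2 := sq_nonneg (y 1); have h3 := sq_nonneg (y 2)
  unfold nr
  fin_cases i
  · simp only [Fin.zero_eta] at h1; nlinarith
  · simp only [Fin.mk_one] at h1; nlinarith
  · simp only [Fin.reduceFinMk] at h1; nlinarith

lemma W_near (c s₀ s : V) (h : ∀ i, |s i - s₀ i| < 1) :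
    W c s = s + (W c s₀ - s₀) ∨ (1 ≤ nr (W c s) ∧ 1 ≤ nr (s + (W c s₀ - s₀))) := by
  have key : ∀ i, wr (s i - c i) = (s + (W c s₀ - s₀)) i ∨
      (1 ≤ |wr (s i - c i)| ∧ 1 ≤ |(s + (W c s₀ - s₀)) i|) := by
    intro i
    have e : s i - c i - (s₀ i - c i) = s i - s₀ i := by ring
    have h1 := wr_near (s₀ i - c i) (s i - c i) (by rw [e]; exact h i)
    have e2 : s i - c i + (wr (s₀ i - c i) - (s₀ i - c i)) = (s + (W c s₀ - s₀)) i := by
      simp only [Pi.add_apply, Pi.sub_apply, W]; ring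
    rw [e2] at h1
    exact h1
  by_cases hall : ∀ i, wr (s i - c i) = (s + (W c s₀ - s₀)) i
  · left
    ext i
    exact hall i
  · right
    push Not at hall
    obtain ⟨i, hi⟩ := hall
    obtain ⟨h1, h2⟩ := (key i).resolve_left hi
    exact ⟨one_le_nr (i := i) h1, one_le_nr (i := i) h2⟩

/-- the wrapped coordinates of the array of lines with the direction `ξ` -/
noncomputable def Z (ξ : Fin 3 → ℤ) (c : V) (N : ℕ) (x : V) : V := W c (J ξ ((N : ℝ) • x))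

/-- the translation which gives the wrapped coordinates near `x₀` -/
noncomputable def tz (ξ : Fin 3 → ℤ) (c : V) (N : ℕ) (x₀ : V) : V :=
  Z ξ c N x₀ - (N : ℝ) • J ξ x₀

lemma Z_near (c : V) (N : ℕ) (x₀ : V) : ∀ᶠ x in 𝓝 x₀,
    Z ξ c N x = (N : ℝ) • J ξ x + tz ξ c N x₀ ∨
      (1 ≤ nr (Z ξ c N x) ∧ 1 ≤ nr ((N : ℝ) • J ξ x + tz ξ c N x₀)) := by
  have hc : Continuous fun x : V => J ξ ((N : ℝ) • x) :=
    (J ξ).continuous.comp (continuous_const_smul _)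
  have h1 : ∀ᶠ x in 𝓝 x₀, J ξ ((N : ℝ) • x) ∈ Metric.ball (J ξ ((N : ℝ) • x₀)) 1 :=
    hc.continuousAt.eventually (Metric.ball_mem_nhds _ one_pos)
  filter_upwards [h1] with x hx
  have h2 : ∀ i, |J ξ ((N : ℝ) • x) i - J ξ ((N : ℝ) • x₀) i| < 1 := by
    intro i
    rw [Metric.mem_ball, dist_eq_norm] at hx
    have := norm_le_pi_norm (J ξ ((N : ℝ) • x) - J ξ ((N : ℝ) • x₀)) i
    simp only [Pi.sub_apply, Real.norm_eq_abs] at this
    exact this.trans_lt hx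
  have h3 := W_near c _ _ h2
  have e : J ξ ((N : ℝ) • x) + (W c (J ξ ((N : ℝ) • x₀)) - J ξ ((N : ℝ) • x₀))
      = (N : ℝ) • J ξ x + tz ξ c N x₀ := by
    unfold tz Z
    rw [map_smul, map_smul]
  rw [e] at h3
  exact h3

/-- a function of the point and the wrapped coordinates which vanishes away from the lines is
locally a function of the point and of affine coordinates -/
lemma glue {E : Type*} [Zero E] (c : V) (N : ℕ) (x₀ : V) (F : V → V → E)
    (hF : ∀ x z, 1 ≤ nr z → F x z = 0) :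
    (fun x => F x (Z ξ c N x)) =ᶠ[𝓝 x₀] fun x => F x ((N : ℝ) • J ξ x + tz ξ c N x₀) := by
  filter_upwards [Z_near ξ c N x₀] with x hx
  rcases hx with hx | ⟨h1, h2⟩
  · rw [hx]
  · rw [hF _ _ h1, hF _ _ h2]

lemma Z_self (c : V) (N : ℕ) (x₀ : V) : (N : ℝ) • J ξ x₀ + tz ξ c N x₀ = Z ξ c N x₀ := by
  unfold tz; abel

lemma glue_contDiff {E : Type*} [NormedAddCommGroup E] [NormedSpace ℝ E] (c : V) (N : ℕ)
    (F : V → V → E) (hF : ∀ x z, 1 ≤ nr z → F x z = 0) {n : WithTop ℕ∞}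
    (hs : ContDiff ℝ n (fun p : V × V => F p.1 p.2)) :
    ContDiff ℝ n (fun x => F x (Z ξ c N x)) := by
  rw [contDiff_iff_contDiffAt]
  intro x₀
  refine ContDiffAt.congr_of_eventuallyEq ?_ (glue ξ c N x₀ F hF)
  have h1 : ContDiff ℝ n (fun x : V => (x, (N : ℝ) • J ξ x + tz ξ c N x₀)) :=
    contDiff_id.prodMk (((J ξ).contDiff.const_smul _).add contDiff_const)
  exact (hs.comp h1).contDiffAt

/-- the wrap of a translate by a lattice vector -/
lemma wr_add_int (s : ℝ) (z : ℤ) : wr (s + z * (2 * Real.pi)) = wr s := by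
  obtain ⟨y, hy⟩ := wr_exists s
  refine wr_eq (wr_mem s) ⟨y + z, ?_⟩
  push_cast
  linarith

lemma W_add_int (c s : V) (g : Fin 3 → ℤ) : W c (s + (2 * Real.pi) • rv g) = W c s := by
  ext i
  unfold W
  have : (s + (2 * Real.pi) • rv g) i - c i = s i - c i + (g i : ℝ) * (2 * Real.pi) := by
    simp only [Pi.add_apply, Pi.smul_apply, smul_eq_mul, rv]; ring
  rw [this, wr_add_int]

lemma J_int (g : Fin 3 → ℤ) : ∃ h : Fin 3 → ℤ, J ξ (rv g) = rv h := by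
  refine ⟨![ξ 1 * g 2 - ξ 2 * g 1, ξ 2 * g 0 - ξ 0 * g 2, ξ 0 * g 1 - ξ 1 * g 0], ?_⟩
  ext i
  fin_cases i
  · show J ξ (rv g) 0 = _
    rw [J_0]; simp [rv]
  · show J ξ (rv g) 1 = _
    rw [J_1]; simp [rv]
  · show J ξ (rv g) 2 = _
    rw [J_2]; simp [rv]

lemma single_eq_rv (i : Fin 3) (s : ℝ) : (Pi.single i s : V) = s • rv (Pi.single i 1) := by
  ext j
  by_cases h : j = i
  · subst h; simp [rv]
  · simp [rv, Pi.single_apply, h]

lemma Z_periodic (c : V) (N : ℕ) : Periodic3 (Z ξ c N) := by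
  intro i x
  unfold Z
  obtain ⟨h, hh⟩ := J_int ξ ((N : ℤ) • Pi.single i 1)
  have e : J ξ ((N : ℝ) • (x + Pi.single i (2 * Real.pi)))
      = J ξ ((N : ℝ) • x) + (2 * Real.pi) • rv h := by
    rw [smul_add, map_add, ← hh, ← map_smul]
    congr 2
    rw [single_eq_rv, smul_smul, mul_comm, ← smul_smul]
    congr 1
    ext j
    simp [rv]
  rw [e, W_add_int]

lemma Z_fine (c : V) {N : ℕ} (hN : 0 < N) (i : Fin 3) (x : V) :
    Z ξ c N (x + Pi.single i (2 * Real.pi / N)) = Z ξ c N x := by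
  unfold Z
  have hNr : (N : ℝ) ≠ 0 := by positivity
  obtain ⟨h, hh⟩ := J_int ξ (Pi.single i 1)
  have e : J ξ ((N : ℝ) • (x + Pi.single i (2 * Real.pi / N)))
      = J ξ ((N : ℝ) • x) + (2 * Real.pi) • rv h := by
    rw [smul_add, map_add, ← hh, ← map_smul]
    congr 2
    rw [single_eq_rv, smul_smul, mul_div_cancel₀ _ hNr]
  rw [e, W_add_int]

lemma Z_inv (c : V) (N : ℕ) (x : V) (s : ℝ) : Z ξ c N (x + s • rv ξ) = Z ξ c N x := by
  have h : J ξ ((N : ℝ) • (x + s • rv ξ)) = J ξ ((N : ℝ) • x) := by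
    simp only [map_smul, map_add, J_rv, smul_zero, add_zero]
  unfold Z
  rw [h]

lemma Z_one (c : V) (N : ℕ) (x : V) : Z ξ c N x = Z ξ c 1 ((N : ℝ) • x) := by
  unfold Z; simp

end Pool.Agent.Zk27.UE
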